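import Pool.Agent.H641.Walk

/-!
# Absorption

`R` is a closed set of conditions of size at most `#W`, projected to a closed set `E`. The
conditions `(e, r, c)` with `e ≤ π r` and `c` a node of the tree of all sequences in `W` of
length less than `K` are shown to be equivalent, over `E`, to the product of `E` and this tree.
-/

set_option linter.unusedSectionVars false

namespace Pool.Agent.H641

open Cardinal Set

universe u v

/-- no common extension -/
def Inc {P : Type u} [Preorder P] (a b : P) : Prop := ∀ x, x ≤ a → x ≤ b → False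

theorem exists_antichain {P : Type u} [Preorder P] (r : P) (D : Set P)
    (hD : ∀ x ≤ r, ∃ y ≤ x, y ∈ D) :
    ∃ M ⊆ D, (∀ m ∈ M, ∀ m' ∈ M, m ≠ m' → Inc m m') ∧ ∀ x ≤ r, ∃ m ∈ M, ∃ y, y ≤ x ∧ y ≤ m := by
  obtain ⟨M, hM⟩ := zorn_subset
    {M : Set P | M ⊆ D ∧ ∀ m ∈ M, ∀ m' ∈ M, m ≠ m' → Inc m m'} (by
      intro c hc hch
      refine ⟨⋃₀ c, ⟨?_, ?_⟩, fun s hs => subset_sUnion_of_mem hs⟩
      · exact sUnion_subset fun s hs => (hc hs).1
      · rintro m ⟨s, hs, hm⟩ m' ⟨s', hs', hm'⟩ hne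
        rcases hch.total hs hs' with h | h
        · exact (hc hs').2 m (h hm) m' hm' hne
        · exact (hc hs).2 m hm m' (h hm') hne)
  refine ⟨M, hM.prop.1, hM.prop.2, ?_⟩
  intro x hx
  by_contra hc
  push Not at hc
  obtain ⟨y, hy, hyD⟩ := hD x hx
  have hinc : ∀ m ∈ M, Inc y m := fun m hm z hz hz' => hc m hm z (hz.trans hy) hz'
  have h1 : insert y M ∈ {M : Set P | M ⊆ D ∧ ∀ m ∈ M, ∀ m' ∈ M, m ≠ m' → Inc m m'} := by
    refine ⟨insert_subset hyD hM.prop.1, ?_⟩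
    rintro m (rfl | hm) m' (rfl | hm') hne
    · exact absurd rfl hne
    · exact hinc m' hm'
    · exact fun z hz hz' => hinc m hm z hz' hz
    · exact hM.prop.2 m hm m' hm' hne
  have h2 : y ∈ M := hM.le_of_ge h1 (subset_insert y M) (mem_insert y M)
  exact hinc y h2 y le_rfl le_rfl

/-- The data for the absorption theorem. -/
structure Abs (K W E R : Type u) [LinearOrder K] [Kap K] [Preorder E] [PartialOrder R] where
  π : R → E
  ε : W ≃ R × (W ⊕ W)
  ω : W ≃ W ⊕ W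
  En : K → E → R → Prop
  r0 : R
  cloE : Clo K E
  cloR : GClo K R
  π_mono : ∀ r r', r' ≤ r → π r' ≤ π r
  π_lift : ∀ r e, e ≤ π r → ∃ r' ≤ r, π r' ≤ e
  π_cont : ∀ C : Set R, Sm K C → IsChain (· ≤ ·) C → C.Nonempty → ∀ l, IsGLB C l →
    ∀ e, (∀ c ∈ C, e ≤ π c) → e ≤ π l
  En_mono : ∀ c e e' d, e' ≤ e → En c e d → En c e' d
  En_func : ∀ c e d d', En c e d → En c e d' → d = d'
  En_total : ∀ c e, ∃ e' ≤ e, ∃ d, En c e' d
  En_cof : ∀ c e d, ∃ c', c ≤ c' ∧ ∃ e' ≤ e, En c' e' d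

namespace Abs

variable {K W E R : Type u} [LinearOrder K] [Kap K] [Preorder E] [PartialOrder R]
  (A : Abs K W E R)

theorem exists_M (r d : R) : ∃ M : Set R, (∀ m ∈ M, m ≤ r ∧ (m ≤ d ∨ Inc m d)) ∧
    (∀ m ∈ M, ∀ m' ∈ M, m ≠ m' → Inc m m') ∧ ∀ x ≤ r, ∃ m ∈ M, ∃ y, y ≤ x ∧ y ≤ m := by
  obtain ⟨M, h1, h2, h3⟩ := exists_antichain r {m : R | m ≤ r ∧ (m ≤ d ∨ Inc m d)} (by
    intro x hx
    by_cases h : Inc x d
    · exact ⟨x, le_rfl, hx, Or.inr h⟩
    · unfold Inc at h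
      push Not at h
      obtain ⟨y, hy, hyd, _⟩ := h
      exact ⟨y, hy, hy.trans hx, Or.inl hyd⟩)
  exact ⟨M, fun m hm => h1 hm, h2, h3⟩

/-- a maximal antichain of elements below `r` which decide `d` -/
noncomputable def M (r d : R) : Set R := (exists_M r d).choose

theorem M_le {r d m : R} (h : m ∈ M r d) : m ≤ r := ((exists_M r d).choose_spec.1 m h).1

theorem M_dec {r d m : R} (h : m ∈ M r d) : m ≤ d ∨ Inc m d :=
  ((exists_M r d).choose_spec.1 m h).2

theorem M_inc {r d m m' : R} (h : m ∈ M r d) (h' : m' ∈ M r d) {x : R} (hx : x ≤ m)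
    (hx' : x ≤ m') : m = m' := by
  by_contra hne
  exact (exists_M r d).choose_spec.2.1 m h m' h' hne x hx hx'

theorem M_max {r d x : R} (h : x ≤ r) : ∃ m ∈ M r d, ∃ y, y ≤ x ∧ y ≤ m :=
  (exists_M r d).choose_spec.2.2 x h

/-- the three kinds of steps, for a fixed element `d` to be decided -/
inductive Kind (e : E) (d r : R) (w : W) : R → W → Prop
  | work (j : W) (hM : (A.ε w).1 ∈ M r d) (he : e ≤ A.π (A.ε w).1) (hj : (A.ε w).2 = Sum.inl j) :
      Kind e d r w (A.ε w).1 (A.ω.symm (Sum.inl j))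
  | rest (j : W) (hM : (A.ε w).1 ∈ M r d) (he : e ≤ A.π (A.ε w).1) (hj : (A.ε w).2 = Sum.inr j) :
      Kind e d r w r (A.ω.symm (Sum.inr (A.ε.symm ((A.ε w).1, A.ω j))))
  | idle (h : (A.ε w).1 ∈ M r d → Inc e (A.π (A.ε w).1)) :
      Kind e d r w r (A.ω.symm (Sum.inr w))

/-- at level `c`, the label `w` leads from `r` to `r'` and produces the symbol `v` -/
def Stp (e : E) (c : K) (r : R) (w : W) (r' : R) (v : W) : Prop :=
  ∃ d, A.En c e d ∧ A.Kind e d r w r' v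

variable {A}

theorem Kind.mono {e e' : E} {d r : R} {w : W} {r' : R} {v : W} (h : A.Kind e d r w r' v)
    (he : e' ≤ e) : A.Kind e' d r w r' v := by
  cases h with
  | work j hM h hj => exact Kind.work j hM (he.trans h) hj
  | rest j hM h hj => exact Kind.rest j hM (he.trans h) hj
  | idle h => exact Kind.idle fun hM x hx hx' => h hM x (hx.trans he) hx'

theorem Stp.mono {e e' : E} {c : K} {r : R} {w : W} {r' : R} {v : W}
    (h : A.Stp e c r w r' v) (he : e' ≤ e) : A.Stp e' c r w r' v := by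
  obtain ⟨d, h1, h2⟩ := h
  exact ⟨d, A.En_mono c e e' d he h1, h2.mono he⟩

theorem Stp.le {e : E} {c : K} {r : R} {w : W} {r' : R} {v : W}
    (h : A.Stp e c r w r' v) : r' ≤ r := by
  obtain ⟨d, _, h2⟩ := h
  cases h2 with
  | work j hM h hj => exact M_le hM
  | rest j hM h hj => exact le_rfl
  | idle h => exact le_rfl

theorem Stp.le_pi {e : E} {c : K} {r : R} {w : W} {r' : R} {v : W}
    (h : A.Stp e c r w r' v) (he : e ≤ A.π r) : e ≤ A.π r' := by
  obtain ⟨d, _, h2⟩ := h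
  cases h2 with
  | work j hM h hj => exact h
  | rest j hM h hj => exact he
  | idle h => exact he

theorem Stp.det {e : E} {c : K} {r : R} {w : W} {r1 r2 : R} {v1 v2 : W}
    (h1 : A.Stp e c r w r1 v1) (h2 : A.Stp e c r w r2 v2) : r1 = r2 ∧ v1 = v2 := by
  obtain ⟨d, h3, h4⟩ := h1
  obtain ⟨d', h5, h6⟩ := h2
  obtain rfl := A.En_func c e d d' h3 h5
  cases h4 with
  | work j hM h hj =>
    cases h6 with
    | work j' hM' h' hj' =>
      rw [hj] at hj'
      exact ⟨rfl, by rw [Sum.inl.inj hj']⟩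
    | rest j' hM' h' hj' =>
      rw [hj] at hj'
      cases hj'
    | idle h' => exact absurd (h' hM e le_rfl h) id
  | rest j hM h hj =>
    cases h6 with
    | work j' hM' h' hj' =>
      rw [hj] at hj'
      cases hj'
    | rest j' hM' h' hj' =>
      rw [hj] at hj'
      exact ⟨rfl, by rw [Sum.inr.inj hj']⟩
    | idle h' => exact absurd (h' hM e le_rfl h) id
  | idle h =>
    cases h6 with
    | work j' hM' h' hj' => exact absurd (h hM' e le_rfl h') id
    | rest j' hM' h' hj' => exact absurd (h hM' e le_rfl h') id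
    | idle h' => exact ⟨rfl, rfl⟩

theorem Stp.inj {e : E} {c : K} {r : R} {w1 w2 : W} {r1 r2 : R} {v : W}
    (h1 : A.Stp e c r w1 r1 v) (h2 : A.Stp e c r w2 r2 v) {x : R} (hx1 : x ≤ r1)
    (hx2 : x ≤ r2) : w1 = w2 := by
  obtain ⟨d, h3, h4⟩ := h1
  obtain ⟨d', h5, h6⟩ := h2
  obtain rfl := A.En_func c e d d' h3 h5
  apply A.ε.injective
  generalize hv1 : v = v1 at h4
  generalize hv2 : v = v2 at h6
  cases h4 with
  | work j hM h hj =>
    cases h6 with
    | work j' hM' h' hj' =>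
      have h7 := A.ω.symm.injective (hv1.symm.trans hv2)
      apply Prod.ext
      · exact M_inc hM hM' hx1 hx2
      · rw [hj, hj', h7]
    | rest j' hM' h' hj' =>
      have h7 := A.ω.symm.injective (hv1.symm.trans hv2)
      cases h7
    | idle h' =>
      have h7 := A.ω.symm.injective (hv1.symm.trans hv2)
      cases h7
  | rest j hM h hj =>
    cases h6 with
    | work j' hM' h' hj' =>
      have h7 := A.ω.symm.injective (hv1.symm.trans hv2)
      cases h7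
    | rest j' hM' h' hj' =>
      have h7 := A.ω.symm.injective (hv1.symm.trans hv2)
      have h8 := A.ε.symm.injective (Sum.inr.inj h7)
      obtain ⟨h9, h10⟩ := Prod.mk.inj h8
      refine Prod.ext h9 ?_
      rw [hj, hj', A.ω.injective h10]
    | idle h' =>
      have h7 := Sum.inr.inj (A.ω.symm.injective (hv1.symm.trans hv2))
      have h8 : A.ε w2 = ((A.ε w1).1, A.ω j) := by rw [← h7, Equiv.apply_symm_apply]
      rw [h8] at h'
      exact absurd (h' hM e le_rfl h) id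
  | idle h =>
    cases h6 with
    | work j' hM' h' hj' =>
      have h7 := A.ω.symm.injective (hv1.symm.trans hv2)
      cases h7
    | rest j' hM' h' hj' =>
      have h7 := Sum.inr.inj (A.ω.symm.injective (hv1.symm.trans hv2))
      have h8 : A.ε w1 = ((A.ε w2).1, A.ω j') := by rw [h7, Equiv.apply_symm_apply]
      rw [h8] at h
      exact absurd (h hM' e le_rfl h') id
    | idle h' =>
      have h7 := Sum.inr.inj (A.ω.symm.injective (hv1.symm.trans hv2))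
      rw [h7]

variable (A)

theorem exists_stp (e : E) (c : K) (r : R) (w : W) :
    ∃ e' ≤ e, ∃ r' v, A.Stp e' c r w r' v := by
  obtain ⟨e1, he1, d, hd⟩ := A.En_total c e
  by_cases h : (A.ε w).1 ∈ M r d ∧ ∃ e2, e2 ≤ e1 ∧ e2 ≤ A.π (A.ε w).1
  · obtain ⟨hM, e2, he2, h2⟩ := h
    refine ⟨e2, he2.trans he1, ?_⟩
    cases hj : (A.ε w).2 with
    | inl j => exact ⟨_, _, d, A.En_mono _ _ _ _ he2 hd, Kind.work j hM h2 hj⟩
    | inr j => exact ⟨_, _, d, A.En_mono _ _ _ _ he2 hd, Kind.rest j hM h2 hj⟩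
  · refine ⟨e1, he1, _, _, d, hd, Kind.idle ?_⟩
    intro hM x hx hx'
    exact h ⟨hM, x, hx, hx'⟩

/-- a step producing a given symbol -/
theorem exists_stp_symbol (t r : R) (ht : t ≤ r) (c : K) (v : W) :
    ∃ t' ≤ t, ∃ w r', A.Stp (A.π t') c r w r' v ∧ t' ≤ r' ∧
      ∀ d j, A.En c (A.π t) d → v = A.ω.symm (Sum.inl j) → t ≤ d → r' ≤ d := by
  obtain ⟨e1, he1, d, hd⟩ := A.En_total c (A.π t)
  obtain ⟨t1, ht1, h1⟩ := A.π_lift t e1 he1
  have hd1 : A.En c (A.π t1) d := A.En_mono _ _ _ _ h1 hd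
  cases hv : A.ω v with
  | inl j =>
    have hv' : v = A.ω.symm (Sum.inl j) := by rw [← hv, Equiv.symm_apply_apply]
    obtain ⟨m, hm, t2, ht2, h2⟩ := M_max (d := d) (ht1.trans ht)
    have h3 : A.ε (A.ε.symm (m, Sum.inl j)) = (m, Sum.inl j) := Equiv.apply_symm_apply _ _
    refine ⟨t2, ht2.trans ht1, A.ε.symm (m, Sum.inl j), m, ⟨d, A.En_mono _ _ _ _
      (A.π_mono _ _ ht2) hd1, ?_⟩, h2, ?_⟩
    · have h4 := Kind.work (A := A) (e := A.π t2) (d := d) (r := r)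
        (w := A.ε.symm (m, Sum.inl j)) j (by rw [h3]; exact hm)
        (by rw [h3]; exact A.π_mono _ _ h2) (by rw [h3])
      rw [h3] at h4
      rw [hv']
      exact h4
    · intro d' j' hd' _ htd
      have h5 : d = d' := A.En_func c (A.π t1) d d' hd1 (A.En_mono _ _ _ _ (h1.trans he1) hd')
      subst h5
      rcases M_dec hm with h6 | h6
      · exact h6
      · exact absurd (h6 t2 h2 ((ht2.trans ht1).trans htd)) id
  | inr w' =>
    have hv' : v = A.ω.symm (Sum.inr w') := by rw [← hv, Equiv.symm_apply_apply]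
    have hno : ∀ d' j', A.En c (A.π t) d' → v = A.ω.symm (Sum.inl j') → t ≤ d' → r ≤ d' := by
      intro d' j' _ h6 _
      rw [hv'] at h6
      have h7 := A.ω.symm.injective h6
      cases h7
    by_cases h : (A.ε w').1 ∈ M r d ∧ ∃ e2, e2 ≤ A.π t1 ∧ e2 ≤ A.π (A.ε w').1
    · obtain ⟨hM, e2, he2, h2⟩ := h
      obtain ⟨t2, ht2, h3⟩ := A.π_lift t1 e2 he2
      have h4 : A.ε (A.ε.symm ((A.ε w').1, Sum.inr (A.ω.symm (A.ε w').2))) =
        ((A.ε w').1, Sum.inr (A.ω.symm (A.ε w').2)) := Equiv.apply_symm_apply _ _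
      refine ⟨t2, ht2.trans ht1, A.ε.symm ((A.ε w').1, Sum.inr (A.ω.symm (A.ε w').2)), r,
        ⟨d, A.En_mono _ _ _ _ (A.π_mono _ _ ht2) hd1, ?_⟩, (ht2.trans ht1).trans ht, hno⟩
      have h5 := Kind.rest (A := A) (e := A.π t2) (d := d) (r := r)
        (w := A.ε.symm ((A.ε w').1, Sum.inr (A.ω.symm (A.ε w').2))) (A.ω.symm (A.ε w').2)
        (by rw [h4]; exact hM) (by rw [h4]; exact h3.trans h2) (by rw [h4])
      rw [h4] at h5
      rw [hv']
      simpa using h5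
    · refine ⟨t1, ht1, w', r, ⟨d, hd1, ?_⟩, ht1.trans ht, hno⟩
      rw [hv']
      apply Kind.idle
      intro hM x hx hx'
      exact h ⟨hM, x, hx, hx'⟩

/-- The elements of the common dense refinement: a condition `e` which decides the branch `s`,
with its value `(r, c)`. The sequences `m` and `n` are the values before and after each step. -/
structure GG where
  e : E
  s : Nd K W
  r : R
  c : Nd K W
  n : K → R
  m : K → R
  lenc : c.len = s.len
  step : ∀ b w, s.f b = some w → IsGLB (insert A.r0 (n '' Iio b)) (m b) ∧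
    ∃ v, c.f b = some v ∧ A.Stp e b (m b) w (n b) v
  glb : IsGLB (insert A.r0 (n '' Iio s.len)) r
  le0 : e ≤ A.π A.r0

instance : Preorder A.GG where
  le x y := x.e ≤ y.e ∧ x.s ≤ y.s
  le_refl := fun x => ⟨le_rfl, le_rfl⟩
  le_trans := fun _ _ _ h h' => ⟨h.1.trans h'.1, h.2.trans h'.2⟩

variable {A}

theorem GG.n_le_m (x : A.GG) {b : K} (h : b < x.s.len) : x.n b ≤ x.m b := by
  obtain ⟨w, hw⟩ := x.s.exists_val h
  obtain ⟨_, v, _, h2⟩ := x.step b w hw
  exact h2.le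

theorem GG.m_le_n (x : A.GG) {b b' : K} (h : b < x.s.len) (h' : b' < b) : x.m b ≤ x.n b' := by
  obtain ⟨w, hw⟩ := x.s.exists_val h
  exact (x.step b w hw).1.1 (mem_insert_of_mem _ ⟨b', h', rfl⟩)

theorem GG.r_le_n (x : A.GG) {b : K} (h : b < x.s.len) : x.r ≤ x.n b :=
  x.glb.1 (mem_insert_of_mem _ ⟨b, h, rfl⟩)

theorem GG.r_le_r0 (x : A.GG) : x.r ≤ A.r0 := x.glb.1 (mem_insert _ _)

theorem GG.n_le_r0 (x : A.GG) {b : K} (h : b < x.s.len) : x.n b ≤ A.r0 := by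
  obtain ⟨w, hw⟩ := x.s.exists_val h
  exact (x.n_le_m h).trans ((x.step b w hw).1.1 (mem_insert _ _))

theorem GG.chain (x : A.GG) {b : K} (h : b ≤ x.s.len) :
    IsChain (· ≤ ·) (insert A.r0 (x.n '' Iio b)) := by
  apply chain_insert
  · rintro _ ⟨a, ha, rfl⟩ _ ⟨a', ha', rfl⟩ hne
    rcases lt_trichotomy a a' with h1 | h1 | h1
    · exact Or.inr ((x.n_le_m (ha'.trans_le h)).trans (x.m_le_n (ha'.trans_le h) h1))
    · exact absurd (by rw [h1]) hne
    · exact Or.inl ((x.n_le_m (ha.trans_le h)).trans (x.m_le_n (ha.trans_le h) h1))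
  · rintro _ ⟨a, ha, rfl⟩
    exact x.n_le_r0 (ha.trans_le h)

theorem GG.e_le_pi_n (x : A.GG) (b : K) (h : b < x.s.len) : x.e ≤ A.π (x.n b) := by
  induction b using WellFoundedLT.induction with
  | ind b ih =>
    obtain ⟨w, hw⟩ := x.s.exists_val h
    obtain ⟨h1, v, _, h2⟩ := x.step b w hw
    apply h2.le_pi
    apply A.π_cont _ (((sm_Iio b).image x.n).insert A.r0) (x.chain h.le) ⟨_, mem_insert _ _⟩ _ h1
    rintro _ (rfl | ⟨a, ha, rfl⟩)
    · exact x.le0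
    · exact ih a ha (ha.trans h)

theorem GG.e_le_pi (x : A.GG) : x.e ≤ A.π x.r := by
  apply A.π_cont _ (((sm_Iio x.s.len).image x.n).insert A.r0) (x.chain le_rfl)
    ⟨_, mem_insert _ _⟩ _ x.glb
  rintro _ (rfl | ⟨a, ha, rfl⟩)
  · exact x.le0
  · exact x.e_le_pi_n a ha

theorem image_congr_Iio {R : Type u} {n n' : K → R} {b : K} (h : ∀ a < b, n a = n' a) :
    n '' Iio b = n' '' Iio b := by
  apply image_congr
  intro a ha
  exact h a ha

theorem GG.agree (x y : A.GG) (e : E) (hx : e ≤ x.e) (hy : e ≤ y.e) (b : K)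
    (hbx : b < x.s.len) (hby : b < y.s.len) (h : ∀ a ≤ b, x.s.f a = y.s.f a) :
    x.m b = y.m b ∧ x.n b = y.n b ∧ x.c.f b = y.c.f b := by
  induction b using WellFoundedLT.induction with
  | ind b ih =>
    have ih' : ∀ a < b, x.n a = y.n a := fun a ha =>
      (ih a ha (ha.trans hbx) (ha.trans hby) fun a' ha' => h a' (ha'.trans ha.le)).2.1
    obtain ⟨w, hw⟩ := x.s.exists_val hbx
    have hw' : y.s.f b = some w := by rw [← h b le_rfl, hw]
    obtain ⟨h1, v, hv, h2⟩ := x.step b w hw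
    obtain ⟨h3, v', hv', h4⟩ := y.step b w hw'
    have hm : x.m b = y.m b := by
      rw [image_congr_Iio ih'] at h1
      exact h1.unique h3
    rw [hm] at h2
    obtain ⟨h5, h6⟩ := (h2.mono hx).det (h4.mono hy)
    exact ⟨hm, h5, by rw [hv, hv', h6]⟩

/-- incompatible branches have incompatible values -/
theorem GG.agree' (x y : A.GG) (e : E) (hx : e ≤ x.e) (hy : e ≤ y.e) (t : R) (htx : t ≤ x.r)
    (hty : t ≤ y.r) (c : Nd K W) (hcx : c ≤ x.c) (hcy : c ≤ y.c) (b : K)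
    (hbx : b < x.s.len) (hby : b < y.s.len) : x.s.f b = y.s.f b := by
  induction b using WellFoundedLT.induction with
  | ind b ih =>
    have ih' : ∀ a < b, x.s.f a = y.s.f a := fun a ha => ih a ha (ha.trans hbx) (ha.trans hby)
    have hn : ∀ a < b, x.n a = y.n a := fun a ha =>
      (x.agree y e hx hy a (ha.trans hbx) (ha.trans hby) fun a' ha' => ih' a' (ha'.trans_lt ha)).2.1
    obtain ⟨w, hw⟩ := x.s.exists_val hbx
    obtain ⟨w', hw'⟩ := y.s.exists_val hby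
    obtain ⟨h1, v, hv, h2⟩ := x.step b w hw
    obtain ⟨h3, v', hv', h4⟩ := y.step b w' hw'
    have hm : x.m b = y.m b := by
      rw [image_congr_Iio hn] at h1
      exact h1.unique h3
    rw [hm] at h2
    have hvv : v = v' := by
      have h5 := hcx _ _ hv
      rw [hcy _ _ hv'] at h5
      exact (Option.some.inj h5).symm
    subst hvv
    have h6 := (h2.mono hx).inj (h4.mono hy) (htx.trans (x.r_le_n hbx)) (hty.trans (y.r_le_n hby))
    rw [hw, hw', h6]

theorem GG.mono {x y : A.GG} (h : x ≤ y) : x.r ≤ y.r ∧ x.c ≤ y.c := by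
  have hl : y.s.len ≤ x.s.len := Nd.len_le h.2
  have hs := (Nd.le_iff.1 h.2).2
  have hag : ∀ b < y.s.len, x.m b = y.m b ∧ x.n b = y.n b ∧ x.c.f b = y.c.f b := fun b hb =>
    x.agree y x.e le_rfl h.1 b (hb.trans_le hl) hb fun a ha => hs a (ha.trans_lt hb)
  constructor
  · apply y.glb.2
    rintro _ (rfl | ⟨b, hb, rfl⟩)
    · exact x.r_le_r0
    · rw [← (hag b hb).2.1]
      exact x.r_le_n (lt_of_lt_of_le hb hl)
  · rw [Nd.le_iff, x.lenc, y.lenc]
    exact ⟨hl, fun b hb => (hag b hb).2.2⟩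

/-- strengthening the first component -/
def GG.setE (x : A.GG) (e : E) (h : e ≤ x.e) : A.GG where
  e := e
  s := x.s
  r := x.r
  c := x.c
  n := x.n
  m := x.m
  lenc := x.lenc
  step := fun b w hw => by
    obtain ⟨h1, v, hv, h2⟩ := x.step b w hw
    exact ⟨h1, v, hv, h2.mono h⟩
  glb := x.glb
  le0 := h.trans x.le0

theorem GG.setE_le (x : A.GG) (e : E) (h : e ≤ x.e) : x.setE e h ≤ x := ⟨h, le_rfl⟩

/-- one more step -/
theorem GG.exists_ext (x : A.GG) (e : E) (h : e ≤ x.e) (w : W) (r' : R) (v : W)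
    (hs : A.Stp e x.s.len x.r w r' v) :
    ∃ y : A.GG, y.e = e ∧ y.s = x.s.app w ∧ y.r = r' ∧ y.c = x.c.app v := by
  classical
  let n' : K → R := fun b => if b < x.s.len then x.n b else r'
  let m' : K → R := fun b => if b < x.s.len then x.m b else x.r
  have hn' : ∀ b < x.s.len, n' b = x.n b := fun b hb => if_pos hb
  have hm' : ∀ b < x.s.len, m' b = x.m b := fun b hb => if_pos hb
  have hn0 : n' x.s.len = r' := if_neg (lt_irrefl _)
  have hm0 : m' x.s.len = x.r := if_neg (lt_irrefl _)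
  refine ⟨⟨e, x.s.app w, r', x.c.app v, n', m', ?_, ?_, ?_, h.trans x.le0⟩, rfl, rfl, rfl, rfl⟩
  · rw [Nd.app_len, Nd.app_len, x.lenc]
  · intro b w' hb
    rcases Nd.app_some.1 hb with ⟨rfl, rfl⟩ | hb
    · rw [hm0, hn0, image_congr_Iio hn']
      refine ⟨x.glb, v, ?_, hs⟩
      rw [← x.lenc]
      exact Nd.app_at _ _
    · have hlt := Nd.lt_len hb
      obtain ⟨h1, v', hv', h2⟩ := x.step b w' hb
      rw [hm' b hlt, hn' b hlt, image_congr_Iio fun a ha => hn' a (ha.trans hlt)]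
      exact ⟨h1, v', Nd.app_some.2 (Or.inr hv'), h2.mono h⟩
  · apply IsLeast.isGLB
    constructor
    · right
      exact ⟨x.s.len, lt_sc _, hn0⟩
    · rintro _ (rfl | ⟨b, hb, rfl⟩)
      · exact hs.le.trans x.r_le_r0
      · rcases (lt_sc_iff.1 hb).lt_or_eq with h2 | rfl
        · rw [hn' b h2]
          exact hs.le.trans (x.r_le_n h2)
        · rw [hn0]

/-- the limit of a small chain -/
theorem GG.exists_lim (C : Set A.GG) (hC : Sm K C) (hch : IsChain (· ≤ ·) C) (hne : C.Nonempty)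
    (e : E) (he : ∀ x ∈ C, e ≤ x.e) :
    ∃ y : A.GG, y.e = e ∧ IsGLB (GG.s '' C) y.s ∧ IsGLB (GG.r '' C) y.r ∧
      IsGLB (GG.c '' C) y.c := by
  classical
  have hsch : IsChain (· ≤ ·) (GG.s '' C) := by
    rintro _ ⟨x, hx, rfl⟩ _ ⟨y, hy, rfl⟩ _
    rcases hch.total hx hy with h | h
    · exact Or.inl h.2
    · exact Or.inr h.2
  have hrch : IsChain (· ≤ ·) (GG.r '' C) := by
    rintro _ ⟨x, hx, rfl⟩ _ ⟨y, hy, rfl⟩ _
    rcases hch.total hx hy with h | h
    · exact Or.inl (GG.mono h).1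
    · exact Or.inr (GG.mono h).1
  have hcch : IsChain (· ≤ ·) (GG.c '' C) := by
    rintro _ ⟨x, hx, rfl⟩ _ ⟨y, hy, rfl⟩ _
    rcases hch.total hx hy with h | h
    · exact Or.inl (GG.mono h).2
    · exact Or.inr (GG.mono h).2
  obtain ⟨x0, hx0⟩ := hne
  obtain ⟨r, hr⟩ := A.cloR (GG.r '' C) (hC.image _) hrch ⟨_, x0, hx0, rfl⟩
  have hag : ∀ x ∈ C, ∀ y ∈ C, ∀ b, b < x.s.len → b < y.s.len →
      x.m b = y.m b ∧ x.n b = y.n b ∧ x.c.f b = y.c.f b := by
    intro x hx y hy b hbx hby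
    rcases hch.total hx hy with h | h
    · exact x.agree y e (he x hx) (he y hy) b hbx hby fun a ha =>
        (Nd.le_iff.1 h.2).2 a (ha.trans_lt hby)
    · exact x.agree y e (he x hx) (he y hy) b hbx hby fun a ha =>
        ((Nd.le_iff.1 h.2).2 a (ha.trans_lt hbx)).symm
  let pk : K → A.GG := fun b => if h : ∃ x ∈ C, b < x.s.len then h.choose else x0
  have hpk : ∀ x ∈ C, ∀ b, b < x.s.len → pk b ∈ C ∧ b < (pk b).s.len := by
    intro x hx b hb
    have h : ∃ x ∈ C, b < x.s.len := ⟨x, hx, hb⟩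
    have h2 : pk b = h.choose := dif_pos h
    rw [h2]
    exact h.choose_spec
  let n' : K → R := fun b => (pk b).n b
  let m' : K → R := fun b => (pk b).m b
  have hn' : ∀ x ∈ C, ∀ b, b < x.s.len → n' b = x.n b := fun x hx b hb =>
    (hag _ (hpk x hx b hb).1 x hx b (hpk x hx b hb).2 hb).2.1
  have hm' : ∀ x ∈ C, ∀ b, b < x.s.len → m' b = x.m b := fun x hx b hb =>
    (hag _ (hpk x hx b hb).1 x hx b (hpk x hx b hb).2 hb).1
  have hsm : Sm K (GG.s '' C) := hC.image _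
  have hcm : Sm K (GG.c '' C) := hC.image _
  have hlen : ∀ b, b < (Nd.sup _ hsm).len ↔ ∃ x ∈ C, b < x.s.len := by
    intro b
    rw [Nd.lt_sup_len hsch]
    simp
  refine ⟨⟨e, Nd.sup _ hsm, r, Nd.sup _ hcm, n', m', ?_, ?_, ?_, (he x0 hx0).trans x0.le0⟩, rfl,
    Nd.isGLB_sup (h := hsm) hsch, hr, Nd.isGLB_sup (h := hcm) hcch⟩
  · apply le_antisymm
    · by_contra h
      rw [not_le, Nd.lt_sup_len hcch] at h
      obtain ⟨_, ⟨x, hx, rfl⟩, h2⟩ := h
      rw [x.lenc] at h2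
      exact absurd ((hlen _).2 ⟨x, hx, h2⟩) (lt_irrefl _)
    · by_contra h
      rw [not_le, hlen] at h
      obtain ⟨x, hx, h2⟩ := h
      rw [← x.lenc] at h2
      exact absurd ((Nd.lt_sup_len hcch (h := hcm)).2 ⟨_, ⟨x, hx, rfl⟩, h2⟩) (lt_irrefl _)
  · intro b w hb
    obtain ⟨_, ⟨x, hx, rfl⟩, h2⟩ := (Nd.sup_some hsch).1 hb
    have hlt := Nd.lt_len h2
    obtain ⟨h3, v, hv, h4⟩ := x.step b w h2
    rw [hm' x hx b hlt, hn' x hx b hlt, image_congr_Iio fun a ha => hn' x hx a (ha.trans hlt)]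
    exact ⟨h3, v, (Nd.sup_some hcch).2 ⟨_, ⟨x, hx, rfl⟩, hv⟩, h4.mono (he x hx)⟩
  · constructor
    · rintro _ (rfl | ⟨b, hb, rfl⟩)
      · exact (hr.1 ⟨x0, hx0, rfl⟩).trans x0.r_le_r0
      · obtain ⟨x, hx, h2⟩ := (hlen b).1 hb
        rw [hn' x hx b h2]
        exact (hr.1 ⟨x, hx, rfl⟩).trans (x.r_le_n h2)
    · intro y hy
      apply hr.2
      rintro _ ⟨x, hx, rfl⟩
      apply x.glb.2
      rintro _ (rfl | ⟨b, hb, rfl⟩)
      · exact hy (mem_insert _ _)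
      · have h2 : b < (Nd.sup _ hsm).len := (hlen b).2 ⟨x, hx, hb⟩
        have h3 := hy (mem_insert_of_mem _ ⟨b, h2, rfl⟩)
        rw [hn' x hx b hb] at h3
        exact h3

variable (A)

/-- the starting point -/
noncomputable def start (e : E) (h : e ≤ A.π A.r0) : A.GG where
  e := e
  s := Nd.root K W
  r := A.r0
  c := Nd.root K W
  n := fun _ => A.r0
  m := fun _ => A.r0
  lenc := rfl
  step := fun b w hb => by cases hb
  glb := by
    apply IsLeast.isGLB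
    constructor
    · exact mem_insert _ _
    · rintro _ (rfl | ⟨b, _, rfl⟩) <;> exact le_rfl
  le0 := h

theorem exists_total (x : A.GG) (e : E) (he : e ≤ x.e) (s : Nd K W) (hs : s ≤ x.s) :
    ∃ y ≤ x, y.e ≤ e ∧ y.s = s := by
  let X := {y : A.GG // s ≤ y.s}
  have hX : Clo K X := by
    intro x0 C hC hch hle
    let C' : Set A.GG := Subtype.val '' insert x0 C
    have hC' : Sm K C' := (hC.insert x0).image _
    have hch' : IsChain (· ≤ ·) C' := by
      rintro _ ⟨a, ha, rfl⟩ _ ⟨b, hb, rfl⟩ _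
      have h2 := chain_insert hch hle
      exact h2.total ha hb
    have hech : IsChain (· ≤ ·) (GG.e '' C') := by
      rintro _ ⟨a, ha, rfl⟩ _ ⟨b, hb, rfl⟩ _
      rcases hch'.total ha hb with h | h
      · exact Or.inl h.1
      · exact Or.inr h.1
    obtain ⟨e', he', h2⟩ := A.cloE x0.1.e (GG.e '' C') (hC'.image _) hech (by
      rintro _ ⟨_, ⟨b, (rfl | hb), rfl⟩, rfl⟩
      · exact le_rfl
      · exact (hle b hb).1)
    obtain ⟨y, hye, hys, _, _⟩ := GG.exists_lim C' hC' hch' ⟨_, x0, mem_insert _ _, rfl⟩ e'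
      (fun z hz => h2 _ ⟨z, hz, rfl⟩)
    have hys' : s ≤ y.s := by
      apply hys.2
      rintro _ ⟨_, ⟨b, _, rfl⟩, rfl⟩
      exact b.2
    refine ⟨⟨y, hys'⟩, ?_, ?_⟩
    · refine ⟨?_, hys.1 ⟨_, ⟨x0, mem_insert _ _, rfl⟩, rfl⟩⟩
      show y.e ≤ _
      rw [hye]
      exact he'
    · intro c hc
      refine ⟨?_, hys.1 ⟨_, ⟨c, mem_insert_of_mem _ hc, rfl⟩, rfl⟩⟩
      show y.e ≤ _
      rw [hye]
      exact h2 _ ⟨_, ⟨c, mem_insert_of_mem _ hc, rfl⟩, rfl⟩
  obtain ⟨y, hy, h2⟩ := hX.reach_to (fun y => y.1.s.len) (fun y z h => Nd.len_le h.2) s.len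
    (by
      intro y hy
      obtain ⟨w, hw⟩ := s.exists_val hy
      obtain ⟨e', he', r', v, h3⟩ := A.exists_stp y.1.e y.1.s.len y.1.r w
      obtain ⟨z, hz1, hz2, _, _⟩ := y.1.exists_ext e' he' w r' v h3
      have h4 : s ≤ z.s := by
        rw [hz2]
        exact Nd.le_app y.2 hw
      refine ⟨⟨z, h4⟩, ⟨?_, ?_⟩, ?_⟩
      · show z.e ≤ _
        rw [hz1]
        exact he'
      · show z.s ≤ _
        rw [hz2]
        exact Nd.app_le _ _
      · show _ < z.s.len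
        rw [hz2]
        exact lt_sc _) s.len le_rfl
    (⟨x.setE e he, hs⟩ : X)
  refine ⟨y.1, (show y.1 ≤ x from le_trans hy (x.setE_le e he)), hy.1, ?_⟩
  exact (Nd.eq_of_len y.2 h2).symm

theorem dm_right : DM (fun x : A.GG => (x.e, x.s)) where
  mono := fun _ _ h => h
  lift := fun x p h => by
    obtain ⟨y, hy, h1, h2⟩ := A.exists_total x p.1 h.1 p.2 h.2
    exact ⟨y, hy, h1, h2.le⟩
  refl := fun x y p h h' => by
    obtain ⟨z, hz, h1, h2⟩ := A.exists_total x p.1 h.1 p.2 h.2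
    exact ⟨z, hz, h1.trans h'.1, h2.le.trans h'.2⟩

/-- the conditions `(e, r, c)` with `e ≤ π r` -/
def P1 : Type u := {p : E × R × Nd K W // p.1 ≤ A.π p.2.1}

instance : Preorder A.P1 := inferInstanceAs (Preorder {p : E × R × Nd K W // p.1 ≤ A.π p.2.1})

/-- the value of an element of the refinement -/
def left (x : A.GG) : A.P1 := ⟨(x.e, x.r, x.c), x.e_le_pi⟩

theorem exists_below [Nonempty W] (x : A.GG) (e1 : E) (r1 : R) (c1 : Nd K W)
    (he : e1 ≤ x.e) (hr : r1 ≤ x.r) (hc : c1 ≤ x.c) (h1 : e1 ≤ A.π r1) :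
    ∃ y ≤ x, y.e ≤ e1 ∧ y.r ≤ r1 ∧ y.c ≤ c1 := by
  obtain ⟨t0, ht0, hπ0⟩ := A.π_lift r1 e1 h1
  obtain ⟨b, hb, e2, he2, hEn⟩ := A.En_cof c1.len (A.π t0) r1
  obtain ⟨t1, ht1, hπ1⟩ := A.π_lift t0 e2 he2
  have hEn1 : A.En b (A.π t1) r1 := A.En_mono _ _ _ _ hπ1 hEn
  obtain ⟨c2, hc2, hc2l⟩ := c1.exists_long b
  let j0 : W := Classical.arbitrary W
  let v0 : W := A.ω.symm (Sum.inl j0)
  let c3 : Nd K W := (c2.cut b).app v0
  have hcut : (c2.cut b).len = b := Nd.cut_len hc2l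
  have hc3l : c3.len = sc b := by
    show sc (c2.cut b).len = sc b
    rw [hcut]
  have hc3b : c3.f b = some v0 := by
    have := Nd.app_at (c2.cut b) v0
    rwa [hcut] at this
  have hc31 : c3 ≤ c1 := by
    intro i w hi
    exact Nd.app_le _ _ _ _ (Nd.cut_some.2 ⟨(Nd.lt_len hi).trans_le hb, hc2 i w hi⟩)
  let X := {y : R × A.GG // y.1 ≤ t1 ∧ y.1 ≤ y.2.r ∧ A.π y.1 ≤ y.2.e ∧ y.2 ≤ x ∧ c3 ≤ y.2.c ∧
    (b < y.2.s.len → y.2.r ≤ r1)}
  have hX : Clo K X := by
    intro x0 C hC hch hle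
    let C1 : Set R := (fun y : X => y.1.1) '' insert x0 C
    let C' : Set A.GG := (fun y : X => y.1.2) '' insert x0 C
    have hC' : Sm K C' := (hC.insert x0).image _
    have hC1 : Sm K C1 := (hC.insert x0).image _
    have h2 := chain_insert hch hle
    have hch' : IsChain (· ≤ ·) C' := by
      rintro _ ⟨a, ha, rfl⟩ _ ⟨b, hb, rfl⟩ _
      rcases h2.total ha hb with h | h
      · exact Or.inl h.2
      · exact Or.inr h.2
    have hch1 : IsChain (· ≤ ·) C1 := by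
      rintro _ ⟨a, ha, rfl⟩ _ ⟨b, hb, rfl⟩ _
      rcases h2.total ha hb with h | h
      · exact Or.inl h.1
      · exact Or.inr h.1
    obtain ⟨t, ht⟩ := A.cloR C1 hC1 hch1 ⟨_, x0, mem_insert _ _, rfl⟩
    obtain ⟨y, hye, hys, hyr, hyc⟩ := GG.exists_lim C' hC' hch' ⟨_, x0, mem_insert _ _, rfl⟩
      (A.π t) (by
        rintro _ ⟨z, hz, rfl⟩
        exact (A.π_mono _ _ (ht.1 ⟨z, hz, rfl⟩)).trans z.2.2.2.1)
    have hyle : ∀ z ∈ insert x0 C, y ≤ z.1.2 := by
      intro z hz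
      refine ⟨?_, hys.1 ⟨_, ⟨z, hz, rfl⟩, rfl⟩⟩
      show y.e ≤ _
      rw [hye]
      exact (A.π_mono _ _ (ht.1 ⟨z, hz, rfl⟩)).trans z.2.2.2.1
    have hmem : t ≤ t1 ∧ t ≤ y.r ∧ A.π t ≤ y.e ∧ y ≤ x ∧ c3 ≤ y.c ∧
        (b < y.s.len → y.r ≤ r1) := by
      refine ⟨?_, ?_, hye.symm ▸ le_rfl, ?_, ?_, ?_⟩
      · exact (ht.1 ⟨x0, mem_insert _ _, rfl⟩).trans x0.2.1
      · apply hyr.2
        rintro _ ⟨_, ⟨z, hz, rfl⟩, rfl⟩
        exact (ht.1 ⟨z, hz, rfl⟩).trans z.2.2.1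
      · exact le_trans (hyle x0 (mem_insert _ _)) x0.2.2.2.2.1
      · apply hyc.2
        rintro _ ⟨_, ⟨z, hz, rfl⟩, rfl⟩
        exact z.2.2.2.2.2.1
      · intro hlt
        have hsch : IsChain (· ≤ ·) (GG.s '' C') := by
          rintro _ ⟨x, hx, rfl⟩ _ ⟨y, hy, rfl⟩ _
          rcases hch'.total hx hy with h | h
          · exact Or.inl h.2
          · exact Or.inr h.2
        have h5 : y.s = Nd.sup (GG.s '' C') (hC'.image _) := hys.unique (Nd.isGLB_sup hsch)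
        rw [h5, Nd.lt_sup_len hsch] at hlt
        obtain ⟨_, ⟨_, ⟨z, hz, rfl⟩, rfl⟩, h6⟩ := hlt
        exact (hyr.1 ⟨_, ⟨z, hz, rfl⟩, rfl⟩).trans (z.2.2.2.2.2.2 h6)
    refine ⟨⟨(t, y), hmem⟩, ⟨ht.1 ⟨x0, mem_insert _ _, rfl⟩, hyle x0 (mem_insert _ _)⟩, ?_⟩
    intro c hc
    exact ⟨ht.1 ⟨c, mem_insert_of_mem _ hc, rfl⟩, hyle c (mem_insert_of_mem _ hc)⟩
  have hstart : t1 ≤ t1 ∧ t1 ≤ x.r ∧ A.π t1 ≤ (x.setE (A.π t1)
      ((hπ1.trans he2).trans (hπ0.trans he))).e ∧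
      x.setE (A.π t1) ((hπ1.trans he2).trans (hπ0.trans he)) ≤ x ∧ c3 ≤ x.c ∧
      (b < x.s.len → x.r ≤ r1) := by
    refine ⟨le_rfl, (ht1.trans ht0).trans hr, le_rfl, GG.setE_le _ _ _, hc31.trans hc, ?_⟩
    intro hlt
    have h3 : x.s.len ≤ b := by
      rw [← x.lenc]
      exact (Nd.len_le hc).trans hb
    exact absurd (hlt.trans_le h3) (lt_irrefl _)
  obtain ⟨y, hy, h2⟩ := hX.reach_to (fun y => y.1.2.s.len) (fun y z h => Nd.len_le h.2.2) (sc b)
    (by
      rintro ⟨⟨t, y⟩, h3, h4, h5, h6, h7, h8⟩ hlt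
      have hlt' : y.s.len < sc b := hlt
      have hylc : y.c.len = y.s.len := y.lenc
      obtain ⟨v, hv⟩ := c3.exists_val (i := y.s.len) (by rwa [hc3l])
      obtain ⟨t', ht', w, r', h9, h10, h11⟩ := A.exists_stp_symbol t y.r h4 y.s.len v
      obtain ⟨z, hz1, hz2, hz3, hz4⟩ := y.exists_ext (A.π t') ((A.π_mono _ _ ht').trans h5)
        w r' v h9
      have hzy : z ≤ y := by
        refine ⟨?_, ?_⟩
        · show z.e ≤ y.e
          rw [hz1]
          exact (A.π_mono _ _ ht').trans h5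
        · show z.s ≤ y.s
          rw [hz2]
          exact Nd.app_le _ _
      refine ⟨⟨(t', z), ht'.trans h3, ?_, ?_, hzy.trans h6, ?_, ?_⟩, ⟨ht', hzy⟩, ?_⟩
      · show t' ≤ z.r
        rw [hz3]
        exact h10
      · show A.π t' ≤ z.e
        rw [hz1]
      · show c3 ≤ z.c
        rw [hz4]
        apply Nd.le_app h7
        rw [hylc]
        exact hv
      · show b < z.s.len → z.r ≤ r1
        rw [hz2, hz3, Nd.app_len]
        intro hb2
        have hb3 : y.s.len = b := le_antisymm (lt_sc_iff.1 hlt') (lt_sc_iff.1 hb2)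
        rw [hb3] at h11 hv
        rw [hc3b] at hv
        apply h11 r1 j0 (A.En_mono _ _ _ _ (A.π_mono _ _ h3) hEn1) (Option.some.inj hv).symm
        exact (h3.trans ht1).trans ht0
      · show y.s.len < z.s.len
        rw [hz2]
        exact lt_sc _) (sc b) le_rfl
    (⟨(t1, x.setE (A.π t1) ((hπ1.trans he2).trans (hπ0.trans he))), hstart⟩ : X)
  obtain ⟨⟨t, y⟩, h3, h4, h5, h6, h7, h8⟩ := y
  have h9 : sc b ≤ y.s.len := h2
  refine ⟨y.setE (A.π t) h5, le_trans (y.setE_le _ _) h6, ?_, ?_, ?_⟩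
  · show A.π t ≤ e1
    exact (A.π_mono _ _ (h3.trans ht1)).trans hπ0
  · exact h8 ((lt_sc b).trans_le h9)
  · show y.c ≤ c1
    have h10 : c3 = y.c := Nd.eq_of_len h7 (by rw [hc3l, y.lenc]; exact h9)
    rw [← h10]
    exact hc31

theorem dm_left [Nonempty W] : DM A.left where
  mono := fun x y h => ⟨h.1, (GG.mono h).1, (GG.mono h).2⟩
  lift := fun x p h => by
    obtain ⟨y, hy, h1, h2, h3⟩ := A.exists_below x p.1.1 p.1.2.1 p.1.2.2 h.1 h.2.1 h.2.2 p.2
    exact ⟨y, hy, h1, h2, h3⟩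
  refl := fun x y p h h' => by
    have hag : ∀ b, b < x.s.len → b < y.s.len → x.s.f b = y.s.f b := fun b hb hb' =>
      GG.agree' x y p.1.1 h.1 h'.1 p.1.2.1 h.2.1 h'.2.1 p.1.2.2 h.2.2 h'.2.2 b hb hb'
    rcases le_total x.s.len y.s.len with hl | hl
    · refine ⟨y.setE p.1.1 h'.1, ⟨h.1, ?_⟩, y.setE_le _ _⟩
      exact Nd.le_iff.2 ⟨hl, fun b hb => (hag b hb (hb.trans_le hl)).symm⟩
    · refine ⟨x.setE p.1.1 h.1, x.setE_le _ _, ⟨h'.1, ?_⟩⟩
      exact Nd.le_iff.2 ⟨hl, fun b hb => hag b (hb.trans_le hl) hb⟩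

theorem dm_diag : DM (fun q : R × Nd K W => (⟨(A.π q.1, q.1, q.2), le_rfl⟩ : A.P1)) where
  mono := fun _ _ h => ⟨A.π_mono _ _ h.1, h.1, h.2⟩
  lift := fun q p h => by
    obtain ⟨r', h1, h2⟩ := A.π_lift p.1.2.1 p.1.1 p.2
    exact ⟨(r', p.1.2.2), ⟨h1.trans h.2.1, h.2.2⟩, ⟨h2, h1, le_rfl⟩⟩
  refl := fun q q' p h h' => ⟨(p.1.2.1, p.1.2.2), ⟨h.2.1, h.2.2⟩, ⟨h'.2.1, h'.2.2⟩⟩

end Abs

end Pool.Agent.H641
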