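import Mathlib

/-!
# Small sets relative to an uncountable regular cardinal

`K` is a well-order whose order type is an uncountable regular cardinal: every proper initial
segment is smaller than `K`, and `#K` is regular and uncountable. A set is small when it has
fewer than `#K` elements.
-/

set_option linter.unusedSectionVars false

namespace Pool.Agent.H641

open Cardinal Set

universe u

/-- The linear order `K` is a well-order whose order type is an uncountable regular cardinal. -/
class Kap (K : Type u) [LinearOrder K] : Prop where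
  wf : WellFoundedLT K
  reg : (#K).IsRegular
  small : ∀ a : K, #(Iio a) < #K
  unc : ℵ₀ < #K

/-- A set with fewer than `#K` elements. -/
def Sm (K : Type u) {α : Type u} (s : Set α) : Prop := #s < #K

section

variable {K : Type u} [LinearOrder K] [Kap K]

instance (priority := 50) : WellFoundedLT K := Kap.wf

theorem Sm.mono {α : Type u} {s t : Set α} (h : Sm K t) (hs : s ⊆ t) : Sm K s :=
  (mk_le_mk_of_subset hs).trans_lt h

theorem Sm.image {α β : Type u} {s : Set α} (h : Sm K s) (f : α → β) : Sm K (f '' s) :=
  mk_image_le.trans_lt h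

theorem sm_Iio (a : K) : Sm K (Iio a) := Kap.small a

theorem sm_countable {α : Type u} {s : Set α} (h : s.Countable) : Sm K s :=
  (mk_le_aleph0_iff.2 h.to_subtype).trans_lt Kap.unc

theorem sm_range_nat {α : Type u} (f : ℕ → α) : Sm K (range f) :=
  sm_countable (countable_range f)

theorem sm_singleton {α : Type u} (a : α) : Sm K {a} := sm_countable (countable_singleton a)

theorem sm_empty {α : Type u} : Sm K (∅ : Set α) := sm_countable countable_empty

theorem Sm.biUnion {ι α : Type u} {s : Set ι} {t : ι → Set α} (h : Sm K s)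
    (h' : ∀ i ∈ s, Sm K (t i)) : Sm K (⋃ i ∈ s, t i) := by
  have := (card_biUnion_lt_iff_forall_of_isRegular (t := fun i _ => t i) (Kap.reg (K := K)) h).2
    (fun i hi => h' i hi)
  exact this

theorem Sm.union {α : Type u} {s t : Set α} (h : Sm K s) (h' : Sm K t) : Sm K (s ∪ t) := by
  have h2 : ℵ₀ ≤ #K := Kap.unc.le
  exact (mk_union_le s t).trans_lt (add_lt_of_lt h2 h h')

theorem Sm.insert {α : Type u} {s : Set α} (h : Sm K s) (a : α) : Sm K (insert a s) := by
  rw [Set.insert_eq]
  exact (sm_singleton a).union h

theorem sm_Iic (a : K) : Sm K (Iic a) := by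
  have : Iic a = Iio a ∪ {a} := by
    ext x
    simp [le_iff_lt_or_eq]
  rw [this]
  exact (sm_Iio a).union (sm_singleton a)

theorem not_sm_univ : ¬ Sm K (univ : Set K) := by
  intro h
  unfold Sm at h
  rw [mk_univ] at h
  exact lt_irrefl _ h

/-- A small subset of `K` is bounded. -/
theorem Sm.bdd {s : Set K} (h : Sm K s) : ∃ a, ∀ x ∈ s, x < a := by
  by_contra hc
  push Not at hc
  apply not_sm_univ (K := K)
  refine (h.biUnion (t := fun x => Iic x) fun i _ => sm_Iic i).mono ?_
  intro a _
  obtain ⟨x, hx, hax⟩ := hc a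
  simp only [mem_iUnion, mem_Iic, exists_prop]
  exact ⟨x, hx, hax⟩

theorem exists_gt' (a : K) : ∃ b, a < b := by
  obtain ⟨b, hb⟩ := (sm_singleton (K := K) a).bdd
  exact ⟨b, hb a rfl⟩

instance (priority := 50) : NoMaxOrder K := ⟨exists_gt'⟩

instance (priority := 50) : Nonempty K := by
  by_contra h
  rw [not_nonempty_iff] at h
  have : #K = 0 := mk_eq_zero K
  have h2 : ℵ₀ < #K := Kap.unc
  rw [this] at h2
  exact not_lt_bot h2

theorem mk_K_pos : ℵ₀ ≤ #K := Kap.unc.le

/-- the least element of `K` -/
noncomputable def bot (K : Type u) [LinearOrder K] [Kap K] : K :=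
  WellFounded.min (wellFounded_lt (α := K)) univ univ_nonempty

theorem bot_le' (a : K) : bot K ≤ a := by
  unfold bot
  exact not_lt.1 (WellFounded.not_lt_min _ _ (mem_univ a))

/-- the successor in `K` -/
noncomputable def sc (a : K) : K :=
  WellFounded.min (wellFounded_lt (α := K)) (Ioi a) (exists_gt' a)

theorem lt_sc (a : K) : a < sc a := by
  unfold sc
  exact WellFounded.min_mem (wellFounded_lt (α := K)) (Ioi a) (exists_gt' a)

theorem sc_le {a b : K} (h : a < b) : sc a ≤ b := by
  unfold sc
  exact not_lt.1 (WellFounded.not_lt_min _ _ h)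

theorem lt_sc_iff {a b : K} : b < sc a ↔ b ≤ a := by
  constructor
  · intro h
    by_contra hc
    exact absurd (sc_le (not_le.1 hc)) (not_le.2 h)
  · intro h
    exact h.trans_lt (lt_sc a)

/-- the least upper bound of a small set -/
theorem Sm.exists_lub {s : Set K} (h : Sm K s) : ∃ a, IsLUB s a := by
  obtain ⟨b, hb⟩ := h.bdd
  have hne : (upperBounds s).Nonempty := ⟨b, fun x hx => (hb x hx).le⟩
  refine ⟨WellFounded.min (wellFounded_lt (α := K)) _ hne,
    WellFounded.min_mem (wellFounded_lt (α := K)) _ hne, ?_⟩
  intro c hc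
  exact not_lt.1 (WellFounded.not_lt_min _ _ hc)

end

end Pool.Agent.H641
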