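import Pool.Agent.H641.Gen

/-!
# A branch of the generic subtree is generic over the model containing the tree
-/

set_option linter.unusedSectionVars false

namespace Pool.Agent.H641

open Cardinal Set

universe u v

section

variable {K J W : Type u} [LinearOrder K] [Kap K]

/-- pairs of a condition `a` with domain in `A` and a node `t` which `a` forces into `T` -/
def EE (A : Set J) (T : Nd K K → Set (Cond K J W)) (p0 : Cond K J W) :
    Set (Cond K J W × Nd K K) := {x | x.1.In A ∧ x.1 ≤ p0 ∧ x.1 ∈ meets (T x.2)}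

theorem clX_EE {A : Set J} {T : Nd K K → Set (Cond K J W)} {p0 : Cond K J W} (hT : IsFM T p0) :
    ClX (EE A T p0) := by
  intro C hC hch hne hCX
  obtain ⟨x0, hx0⟩ := hne
  have hle := (sup2_isGLB (h := hC) hch).1
  have h1 : (sup2 C hC).1 ≤ p0 := (hle hx0).1.trans (hCX hx0).2.1
  refine ⟨?_, h1, ?_⟩
  · intro i hi
    obtain ⟨x, hx, h2⟩ := sup2_fst_ne_none.1 hi
    exact (hCX hx).1 i h2
  · apply hT.chain _ h1 _ (hC.image _) (chain_snd hch)
    rintro _ ⟨x, hx, rfl⟩
    exact down_meets _ _ (hCX hx).2.2 _ (hle hx).1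

/-- The data: a full Miller tree named by `T` below `p0` with support `A`, and a name `z` for a
branch of the generic subtree, below `r1`, with support `A'`. -/
structure BD (K J W : Type u) [LinearOrder K] [Kap K] where
  A : Set J
  A' : Set J
  hAA : A ⊆ A'
  β : Nd K K → J
  hβ : Function.Injective β
  hβA : ∀ v, β v ∉ A
  hβA' : ∀ v, β v ∈ A'
  dec : W → Option K
  enc : Option K → W
  hde : ∀ x, dec (enc x) = x
  T : Nd K K → Set (Cond K J W)
  t0 : Nd K K
  p0 : Cond K J W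
  hT : IsFM T p0
  hp0 : p0.In A
  hsupp : ∀ q ≤ p0, ∀ u, q ∈ meets (T u) → q.res A ∈ meets (T u)
  z : K → K → Set (Cond K J W)
  r1 : Cond K J W
  hr1 : r1 ≤ p0
  hr1A : r1.In A'
  hfun : r1 ∈ IsFun z
  hbr : r1 ∈ InBr z (GS β dec T t0)
  hdecz : ∀ d ≤ r1, d.In A' → ∀ i, ∃ d' ≤ d, d'.In A' ∧ ∃ j, d' ∈ meets (z i j)

namespace BD

variable (B : BD K J W)

theorem init_unique {q : Cond K J W} (hq : q ≤ B.r1) {u v : Nd K K} (hu : q ∈ Init u B.z)
    (hv : q ∈ Init v B.z) (h : u.len ≤ v.len) : v ≤ u := by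
  intro i w hw
  obtain ⟨w', hw'⟩ := v.exists_val ((Nd.lt_len hw).trans_le h)
  have h1 := IsFun.unique ((sent_IsFun _).down _ B.hfun _ hq) (hu i w hw) (hv i w' hw')
  rw [hw', h1]

/-- the conditions with support `A'` with a decided initial segment of `z` -/
def X0 : Set (Cond K J W × Nd K K) := {x | x.1.In B.A' ∧ x.1 ≤ B.r1 ∧ x.1 ∈ Init x.2 B.z}

/-- the conditions with support `A'` which have made no decision about the generic subtree
beyond the decided initial segment of `z` -/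
def D : Set (Cond K J W × Nd K K) := {x | x.1.In B.A' ∧ x.1 ≤ B.r1 ∧ x.1 ∈ Init x.2 B.z ∧
  B.t0.len ≤ x.2.len ∧ ∀ v ≤ x.2, x.1.f (B.β v) = none}

theorem clX_X0 : ClX B.X0 := by
  intro C hC hch hne hCX
  obtain ⟨x0, hx0⟩ := hne
  have hle := (sup2_isGLB (h := hC) hch).1
  refine ⟨?_, (hle hx0).1.trans (hCX hx0).2.1, ?_⟩
  · intro i hi
    obtain ⟨x, hx, h2⟩ := sup2_fst_ne_none.1 hi
    exact (hCX hx).1 i h2
  · intro i j hij
    obtain ⟨x, hx, h2⟩ := (sup2_snd_some hch).1 hij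
    exact down_meets _ _ ((hCX hx).2.2 i j h2) _ (hle hx).1

theorem clX_D : ClX B.D := by
  intro C hC hch hne hCX
  obtain ⟨h1, h2, h3⟩ := B.clX_X0 C hC hch hne fun x hx =>
    ⟨(hCX hx).1, (hCX hx).2.1, (hCX hx).2.2.1⟩
  obtain ⟨x0, hx0⟩ := hne
  have hle := (sup2_isGLB (h := hC) hch).1
  refine ⟨h1, h2, h3, (hCX hx0).2.2.2.1.trans (Nd.len_le (hle hx0).2), ?_⟩
  intro v hv
  by_contra hc
  obtain ⟨x, hx, h4⟩ := sup2_fst_ne_none.1 hc
  exact h4 ((hCX hx).2.2.2.2 v (hv.trans (hle hx).2))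

theorem step_X0 (x : Cond K J W × Nd K K) (hx : x ∈ B.X0) :
    ∃ y ∈ B.X0, y ≤ x ∧ x.2.len < y.2.len := by
  obtain ⟨d', hd', h1, j, hj⟩ := B.hdecz x.1 hx.2.1 hx.1 x.2.len
  refine ⟨(d', x.2.app j), ⟨h1, hd'.trans hx.2.1, ?_⟩, ⟨hd', Nd.app_le _ _⟩, lt_sc _⟩
  intro i w hw
  rcases Nd.app_some.1 hw with ⟨rfl, rfl⟩ | hw
  · exact hj
  · exact down_meets _ _ (hx.2.2 i w hw) _ hd'

theorem dens (x : Cond K J W × Nd K K) (hx : x ∈ B.X0) (b : K) :
    ∃ y ∈ B.D, y ≤ x ∧ b ≤ y.2.len := by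
  obtain ⟨y, hy, h1, h2, h3⟩ := exists_free B.hβ B.clX_X0 B.step_X0 x hx (max b B.t0.len)
  exact ⟨y, ⟨hy.1, hy.2.1, hy.2.2, (le_max_right _ _).trans h2, h3⟩, h1,
    (le_max_left _ _).trans h2⟩

theorem D_sub {x : Cond K J W × Nd K K} (hx : x ∈ B.D) : x ∈ B.X0 := ⟨hx.1, hx.2.1, hx.2.2.1⟩

theorem mem_GS_of {x : Cond K J W × Nd K K} (hx : x ∈ B.X0) :
    x.1 ∈ GS B.β B.dec B.T B.t0 x.2 := by
  have := mem_InBr.1 B.hbr x.1 hx.2.1 x.2 hx.2.2
  rwa [meets_GS] at this

theorem le_t0 {x : Cond K J W × Nd K K} (hx : x ∈ B.D) : x.2 ≤ B.t0 := by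
  intro b w hb
  obtain ⟨w', hw'⟩ := x.2.exists_val ((Nd.lt_len hb).trans_le hx.2.2.2.1)
  have h1 := ((mem_GS.1 (B.mem_GS_of (B.D_sub hx))).2 b w' hw').1 (Nd.lt_len hb)
  rw [hw', ← h1, hb]

/-- the projection -/
noncomputable def pr (x : B.D) : EE B.A B.T B.p0 :=
  ⟨(x.1.1.res B.A, x.1.2), x.1.1.res_in B.A, B.hp0.le_res (x.2.2.1.trans B.hr1),
    B.hsupp _ (x.2.2.1.trans B.hr1) _ (B.mem_GS_of (B.D_sub x.2)).1⟩

theorem pr_mono (x y : B.D) (h : y ≤ x) : B.pr y ≤ B.pr x :=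
  ⟨Cond.res_mono _ h.1, h.2⟩

theorem pr_lift (x : B.D) (e : EE B.A B.T B.p0) (h : e ≤ B.pr x) : ∃ y ≤ x, B.pr y ≤ e := by
  obtain ⟨⟨d, u⟩, hd1, hd2, hd3, hd4, hd5⟩ := x
  obtain ⟨⟨a, t⟩, ha1, ha2, ha3⟩ := e
  have had : a ≤ d.res B.A := h.1
  have htu : t ≤ u := h.2
  simp only at hd1 hd2 hd3 hd4 hd5 ha1 ha2 ha3
  have hul : u.len ≤ t.len := Nd.len_le htu
  let q1 := d.ov a
  have hq1a : q1 ≤ a := by
    apply Cond.ov_le_right
    intro x w w' hw hw'
    have h1 := had x w (Cond.res_some.2 ⟨ha1 x (by simp [hw']), hw⟩)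
    rw [hw'] at h1
    exact (Option.some.inj h1).symm
  have hq1n : ∀ v ≤ u, q1.f (B.β v) = none := by
    intro v hv
    by_contra hc
    rcases Cond.ov_ne_none.1 hc with h7 | h7
    · exact h7 (hd5 v hv)
    · exact B.hβA _ (ha1 _ h7)
  let q2 := q1.ov (path B.β B.enc u.len t)
  have hq2p : q2 ≤ path B.β B.enc u.len t := by
    apply Cond.ov_le_right
    intro x w w' hw hw'
    obtain ⟨b, h7, h8, rfl⟩ := path_ne_none (by rw [hw']; simp)
    have h9 : t.cut b ≤ u := by
      rw [Nd.eq_cut_of_le htu]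
      exact Nd.cut_le_cut _ h7
    rw [hq1n _ h9] at hw
    cases hw
  have hq21 : q2 ≤ q1 := Cond.ov_le _ _
  have hq2d : q2 ≤ d := hq21.trans (Cond.ov_le _ _)
  have hq2a : q2 ≤ a := hq21.trans hq1a
  have hq2r : q2 ≤ B.r1 := hq2d.trans hd2
  have hq2n : ∀ v ≤ t, q2.f (B.β v) = none := by
    intro v hv
    by_contra hc
    rcases Cond.ov_ne_none.1 hc with h7 | h7
    · exact h7 (hq1n v (hv.trans htu))
    · obtain ⟨b, _, h8, h9⟩ := path_ne_none h7
      have h10 := congrArg Nd.len (B.hβ h9)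
      rw [Nd.cut_len h8.le] at h10
      have h11 := Nd.len_le hv
      rw [h10] at h11
      exact absurd (h8.trans_le h11) (lt_irrefl _)
  have hq2in : q2.In B.A' := by
    intro i hi
    rcases Cond.ov_ne_none.1 hi with h7 | h7
    · rcases Cond.ov_ne_none.1 h7 with h8 | h8
      · exact hd1 i h8
      · exact B.hAA (ha1 i h8)
    · obtain ⟨b, _, _, rfl⟩ := path_ne_none h7
      exact B.hβA' _
  have hinit : ∀ b w, t.f b = some w → q2 ∈ meets (B.z b w) := by
    intro b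
    induction b using WellFoundedLT.induction with
    | ind b ih =>
      intro w hb
      rcases lt_or_ge b u.len with h | h
      · have h1 : u.f b = some w := by
          obtain ⟨w', hw'⟩ := u.exists_val h
          have := htu b w' hw'
          rw [hb] at this
          rw [hw', this]
        exact down_meets _ _ (hd3 b w h1) _ hq2d
      · have hb' : q2 ∈ Init (t.cut b) B.z := by
          intro i j hij
          obtain ⟨h1, h2⟩ := Nd.cut_some.1 hij
          exact ih i h1 j h2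
        apply (sent_meets _).rg
        intro q hq
        obtain ⟨r, hr, w', hw'⟩ := IsFun.total
          ((sent_IsFun _).down _ B.hfun _ (hq.trans hq2r)) b
        by_cases hww : w' = w
        · subst hww
          exact ⟨r, hr, hw'⟩
        · exfalso
          have hr2 : r ≤ q2 := hr.trans hq
          have h1 : r ∈ Init ((t.cut b).app w') B.z := by
            intro i j hij
            rcases Nd.app_some.1 hij with ⟨h2, rfl⟩ | h2
            · rw [Nd.cut_len (Nd.lt_len hb).le] at h2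
              subst h2
              exact hw'
            · exact down_meets _ _ (hb' i j h2) _ hr2
          have h2 := mem_InBr.1 B.hbr r (hr2.trans hq2r) _ h1
          rw [meets_GS, mem_GS] at h2
          have h3 : r ∈ meets (B.T ((t.cut b).app w)) := by
            apply B.hT.init r ((hr2.trans hq2r).trans B.hr1) t _ _ (down_meets _ _ ha3 _
              (hr2.trans hq2a))
            rw [← Nd.cut_sc hb]
            exact Nd.le_cut _ _
          have h4 : r ∈ Full B.T (t.cut b) := fun k =>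
            B.hT.full r ((hr2.trans hq2r).trans B.hr1) _ w' w hww h2.1 h3 k
          have h5 : (Nd.app (t.cut b) w').f b = some w' := by
            have := Nd.app_at (t.cut b) w'
            rwa [Nd.cut_len (Nd.lt_len hb).le] at this
          have h6 := (h2.2 b w' h5).2 (hd4.trans h) r le_rfl
          have h7 : (Nd.app (t.cut b) w').cut b = t.cut b := by
            have := Nd.cut_app (t.cut b) w'
            rwa [Nd.cut_len (Nd.lt_len hb).le] at this
          rw [h7] at h6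
          have h8 := Gd_val (h6 h4) ((hr2.trans hq2p) _ _ (path_val B.hβ h hb))
          rw [B.hde] at h8
          rcases h8 with h8 | h8
          · cases h8
          · exact hww (Option.some.inj h8).symm
  refine ⟨⟨(q2, t), hq2in, hq2r, hinit, hd4.trans hul, hq2n⟩, ⟨hq2d, htu⟩, ?_⟩
  exact ⟨ha1.le_res hq2a, le_rfl⟩

theorem isGLB_D {C : Set B.D} (hC : Sm K C) (hch : IsChain (· ≤ ·) C) (hne : C.Nonempty) :
    ∃ l : B.D, IsGLB C l ∧ l.1 = sup2 (Subtype.val '' C) (hC.image _) := by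
  have hch' : IsChain (· ≤ ·) (Subtype.val '' C) := by
    rintro _ ⟨a, ha, rfl⟩ _ ⟨b, hb, rfl⟩ _
    exact hch.total ha hb
  obtain ⟨x0, hx0⟩ := hne
  have h1 := B.clX_D (Subtype.val '' C) (hC.image _) hch' ⟨_, x0, hx0, rfl⟩ (by
    rintro _ ⟨a, _, rfl⟩
    exact a.2)
  have h2 := sup2_isGLB (h := hC.image Subtype.val) hch'
  refine ⟨⟨_, h1⟩, ⟨fun c hc => h2.1 ⟨c, hc, rfl⟩, fun c hc => h2.2 ?_⟩, rfl⟩
  rintro _ ⟨a, ha, rfl⟩
  exact hc ha

theorem gclo_D : GClo K B.D := fun _ hC hch hne =>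
  (B.isGLB_D hC hch hne).imp fun _ h => h.1

theorem pr_cont (C : Set B.D) (hC : Sm K C) (hch : IsChain (· ≤ ·) C) (hne : C.Nonempty)
    (l : B.D) (hl : IsGLB C l) (e : EE B.A B.T B.p0) (he : ∀ c ∈ C, e ≤ B.pr c) :
    e ≤ B.pr l := by
  obtain ⟨l', hl', h1⟩ := B.isGLB_D hC hch hne
  obtain rfl := hl.unique hl'
  have hch' : IsChain (· ≤ ·) (Subtype.val '' C) := by
    rintro _ ⟨a, ha, rfl⟩ _ ⟨b, hb, rfl⟩ _
    exact hch.total ha hb
  refine ⟨?_, ?_⟩
  · show e.1.1 ≤ l.1.1.res B.A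
    intro i w hw
    rw [Cond.res_some, h1, sup2_fst_some hch'] at hw
    obtain ⟨hi, _, ⟨c, hc, rfl⟩, h2⟩ := hw
    exact (he c hc).1 i w (Cond.res_some.2 ⟨hi, h2⟩)
  · show e.1.2 ≤ l.1.2
    intro i w hw
    rw [h1, sup2_snd_some hch'] at hw
    obtain ⟨_, ⟨c, hc, rfl⟩, h2⟩ := hw
    exact (he c hc).2 i w h2

/-! ### The absorption data -/

/-- The enumeration of `D` read off the generic function at the places `a c`. -/
def En (a : K → J) (en : W → B.D) (c : K) (e : EE B.A B.T B.p0) (d : B.D) : Prop :=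
  ∃ w, e.1.1.f (a c) = some w ∧ en w = d

theorem single_ok {e : EE B.A B.T B.p0} {x : J} (hx : x ∈ B.A) (h : e.1.1.f x = none) (w : W) :
    ∃ e' ≤ e, e'.1.1.f x = some w := by
  obtain ⟨⟨a, t⟩, h1, h2, h3⟩ := e
  have h4 : a.ov (Cond.single x w) ≤ a := Cond.ov_le _ _
  refine ⟨⟨(a.ov (Cond.single x w), t), ?_, h4.trans h2, down_meets _ _ h3 _ h4⟩,
    ⟨h4, le_rfl⟩, ?_⟩
  · intro i hi
    rcases Cond.ov_ne_none.1 hi with h5 | h5
    · exact h1 i h5
    · rw [Cond.single_ne_none] at h5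
      rw [h5]
      exact hx
  · exact Cond.ov_some.2 (Or.inr ⟨h, Cond.single_some.2 ⟨rfl, rfl⟩⟩)

/-- the data for the absorption theorem -/
noncomputable def abs [Nonempty W] (a : K → J) (ha : Function.Injective a) (haA : ∀ c, a c ∈ B.A)
    (en : W → B.D) (hen : Function.Surjective en) (ε : W ≃ B.D × (W ⊕ W)) (ω : W ≃ W ⊕ W)
    (r0 : B.D) : Abs K W (EE B.A B.T B.p0) B.D where
  π := B.pr
  ε := ε
  ω := ω
  En := B.En a en
  r0 := r0
  cloE := (clX_EE B.hT).clo
  cloR := B.gclo_D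
  π_mono := fun x y h => B.pr_mono x y h
  π_lift := fun x e h => B.pr_lift x e h
  π_cont := fun C h1 h2 h3 l hl e he => B.pr_cont C h1 h2 h3 l hl e he
  En_mono := fun c e e' d h ⟨w, h1, h2⟩ => ⟨w, h.1 _ _ h1, h2⟩
  En_func := fun c e d d' ⟨w, h1, h2⟩ ⟨w', h1', h2'⟩ => by
    rw [h1] at h1'
    rw [← h2, ← h2', Option.some.inj h1']
  En_total := fun c e => by
    cases h : e.1.1.f (a c) with
    | none =>
      obtain ⟨e', he', h1⟩ := B.single_ok (haA c) h (Classical.arbitrary W)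
      exact ⟨e', he', _, _, h1, rfl⟩
    | some w => exact ⟨e, le_rfl, _, w, h, rfl⟩
  En_cof := fun c e d => by
    have h1 : Sm K (a ⁻¹' {i | e.1.1.f i ≠ none}) := e.1.1.sm.preimage ha
    obtain ⟨c', hc'⟩ := h1.bdd
    obtain ⟨w, hw⟩ := hen d
    have h2 : e.1.1.f (a (max c c')) = none := by
      by_contra hc
      exact absurd ((hc' (max c c') hc).trans_le (le_max_right c c')) (lt_irrefl _)
    obtain ⟨e', he', h3⟩ := B.single_ok (haA _) h2 w
    exact ⟨max c c', le_max_left _ _, e', he', w, h3, hw⟩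

end BD

/-! ### Putting a condition together -/

variable {A' : Set J} (θ : {x : J // x ∉ A'} ≃ K ⊕ J)

open Classical in
/-- a condition made of three parts -/
noncomputable def join (d : Cond K J W) (c : Cond K K W) (p : Cond K J W) : Cond K J W where
  f := fun x => if h : x ∈ A' then d.f x else Sum.elim c.f p.f (θ ⟨x, h⟩)
  sm := by
    refine (d.sm.union ((c.sm.image fun i => (θ.symm (Sum.inl i)).1).union
      (p.sm.image fun i => (θ.symm (Sum.inr i)).1))).mono ?_
    intro x hx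
    simp only [mem_ofPred_eq] at hx
    split_ifs at hx with h
    · exact Or.inl hx
    · right
      rcases h2 : θ ⟨x, h⟩ with i | i
      · rw [h2] at hx
        refine Or.inl ⟨i, hx, ?_⟩
        show (θ.symm (Sum.inl i)).1 = x
        rw [← h2]
        simp
      · rw [h2] at hx
        refine Or.inr ⟨i, hx, ?_⟩
        show (θ.symm (Sum.inr i)).1 = x
        rw [← h2]
        simp

theorem join_in {d : Cond K J W} {c : Cond K K W} {p : Cond K J W} {x : J} (h : x ∈ A') :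
    (join θ d c p).f x = d.f x := by
  simp [join, h]

theorem join_inl {d : Cond K J W} {c : Cond K K W} {p : Cond K J W} (i : K) :
    (join θ d c p).f (θ.symm (Sum.inl i)).1 = c.f i := by
  have h := (θ.symm (Sum.inl i)).2
  simp [join, h]

theorem join_inr {d : Cond K J W} {c : Cond K K W} {p : Cond K J W} (i : J) :
    (join θ d c p).f (θ.symm (Sum.inr i)).1 = p.f i := by
  have h := (θ.symm (Sum.inr i)).2
  simp [join, h]

theorem le_join {d : Cond K J W} {c : Cond K K W} {p q : Cond K J W}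
    (h1 : ∀ x ∈ A', ∀ w, d.f x = some w → q.f x = some w)
    (h2 : ∀ i w, c.f i = some w → q.f (θ.symm (Sum.inl i)).1 = some w)
    (h3 : ∀ i w, p.f i = some w → q.f (θ.symm (Sum.inr i)).1 = some w) :
    q ≤ join θ d c p := by
  intro x w hw
  by_cases h : x ∈ A'
  · rw [join_in θ h] at hw
    exact h1 x h w hw
  · rcases h4 : θ ⟨x, h⟩ with i | i
    · have h5 : x = (θ.symm (Sum.inl i)).1 := by rw [← h4]; simp
      rw [h5, join_inl] at hw
      rw [h5]
      exact h2 i w hw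
    · have h5 : x = (θ.symm (Sum.inr i)).1 := by rw [← h4]; simp
      rw [h5, join_inr] at hw
      rw [h5]
      exact h3 i w hw

/-- the values of a condition at given places -/
def Cond.at {I I' : Type u} (q : Cond K I W) (g : I' → I) (hg : Function.Injective g) :
    Cond K I' W where
  f := fun i => q.f (g i)
  sm := q.sm.preimage hg

end

namespace BD

variable {K J W : Type u} [LinearOrder K] [Kap K] (B : BD K J W)
  (θ : {x : J // x ∉ B.A'} ≃ K ⊕ J)

/-- the condition given by an element of `D`, a node and a condition -/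
noncomputable def jn (x : (B.D × Nd K W) × Cond K J W) : Cond K J W :=
  join θ x.1.1.1.1 x.1.2.toCond x.2

theorem jn_le (x : (B.D × Nd K W) × Cond K J W) : B.jn θ x ≤ x.1.1.1.1 := by
  intro i w hw
  unfold jn
  rw [join_in θ (x.1.1.2.1 i (by simp [hw])), hw]

theorem jn_res (x : (B.D × Nd K W) × Cond K J W) : (B.jn θ x).res B.A = x.1.1.1.1.res B.A := by
  apply Cond.ext
  funext i
  apply Option.ext
  intro w
  rw [Cond.res_some, Cond.res_some]
  constructor
  · rintro ⟨h1, h2⟩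
    refine ⟨h1, ?_⟩
    rwa [jn, join_in θ (B.hAA h1)] at h2
  · rintro ⟨h1, h2⟩
    refine ⟨h1, ?_⟩
    rwa [jn, join_in θ (B.hAA h1)]

theorem jn_lift [Nonempty W] (x : (B.D × Nd K W) × Cond K J W) (q : Cond K J W)
    (hq : q ≤ B.jn θ x) (b : K) : ∃ y ≤ x, B.jn θ y ≤ q ∧ b ≤ y.1.1.1.2.len := by
  obtain ⟨⟨⟨⟨d, u⟩, hd⟩, c⟩, p⟩ := x
  have hqd : q ≤ d := hq.trans (B.jn_le θ _)
  have h1 : (q.res B.A', u) ∈ B.X0 := by
    refine ⟨Cond.res_in _ _, B.hr1A.le_res (hqd.trans hd.2.1), ?_⟩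
    intro i j hij
    exact down_meets _ _ (hd.2.2.1 i j hij) _ (hd.1.le_res hqd)
  obtain ⟨y, hy, h2, h3⟩ := B.dens _ h1 b
  have hinjl : Function.Injective fun i => (θ.symm (Sum.inl i)).1 := fun i j hij =>
    Sum.inl.inj (θ.symm.injective (Subtype.ext hij))
  have hinjr : Function.Injective fun i => (θ.symm (Sum.inr i)).1 := fun i j hij =>
    Sum.inr.inj (θ.symm.injective (Subtype.ext hij))
  have h4 : q.at _ hinjl ≤ c.toCond := by
    intro i w hi
    show q.f _ = some w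
    apply hq
    rw [jn, join_inl]
    exact hi
  obtain ⟨c', hc', h5, _⟩ := c.exists_le _ h4 (bot K)
  refine ⟨((⟨y, hy⟩, c'), q.at _ hinjr), ⟨⟨⟨?_, h2.2⟩, hc'⟩, ?_⟩, ?_, h3⟩
  · exact h2.1.trans (hd.1.le_res hqd)
  · intro i w hi
    show q.f _ = some w
    apply hq
    rw [jn, join_inr]
    exact hi
  · intro i w hw
    show (join θ y.1 c'.toCond (q.at _ hinjr)).f i = some w
    by_cases h : i ∈ B.A'
    · rw [join_in θ h]
      exact h2.1 i w (Cond.res_some.2 ⟨h, hw⟩)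
    · rcases h6 : θ ⟨i, h⟩ with j | j
      · have h7 : i = (θ.symm (Sum.inl j)).1 := by rw [← h6]; simp
        rw [h7, join_inl]
        apply h5
        show q.f (θ.symm (Sum.inl j)).1 = some w
        rw [← h7, hw]
      · have h7 : i = (θ.symm (Sum.inr j)).1 := by rw [← h6]; simp
        rw [h7, join_inr]
        show q.f (θ.symm (Sum.inr j)).1 = some w
        rw [← h7, hw]

theorem jn_mono (x y : (B.D × Nd K W) × Cond K J W) (h : y ≤ x) : B.jn θ y ≤ B.jn θ x := by
  apply le_join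
  · intro i hi w hw
    rw [jn, join_in θ hi]
    exact h.1.1.1 i w hw
  · intro i w hw
    rw [jn, join_inl]
    exact h.1.2 i w hw
  · intro i w hw
    rw [jn, join_inr]
    exact h.2 i w hw

theorem dm_jn [Nonempty W] : DM (B.jn θ) where
  mono := B.jn_mono θ
  lift := fun x q h => by
    obtain ⟨y, hy, h1, _⟩ := B.jn_lift θ x q h (bot K)
    exact ⟨y, hy, h1⟩
  refl := fun x y q h h' => by
    obtain ⟨z, hz, h1, h2⟩ := B.jn_lift θ x q h y.1.1.1.2.len
    refine ⟨z, hz, ?_⟩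
    have h3 : B.jn θ z ≤ B.jn θ y := h1.trans h'
    have h4 : z.1.1.1.1 ≤ y.1.1.1.1 := by
      intro i w hw
      have h5 := h3 i w (B.jn_le θ y i w hw)
      rwa [jn, join_in θ (y.1.1.2.1 i (by simp [hw]))] at h5
    refine ⟨⟨⟨h4, ?_⟩, ?_⟩, ?_⟩
    · apply B.init_unique z.1.1.2.2.1 _ z.1.1.2.2.2.1 h2
      exact (sent_Init _ _).down _ y.1.1.2.2.2.1 _ h4
    · intro i w hw
      have h5 := h3 (θ.symm (Sum.inl i)).1 w (by rw [jn, join_inl]; exact hw)
      rwa [jn, join_inl] at h5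
    · intro i w hw
      have h5 := h3 (θ.symm (Sum.inr i)).1 w (by rw [jn, join_inr]; exact hw)
      rwa [jn, join_inr] at h5

/-- the name for the branch of the tree forcing -/
def x0 (A : Set J) (T : Nd K K → Set (Cond K J W)) (p0 : Cond K J W) (i j : K) :
    Set (EE A T p0) := {x | x.1.2.f i = some j}

/-- the name `z` becomes the name for the generic branch of the tree forcing -/
theorem meets_z [Nonempty W] (i j : K) : meets (pull (B.jn θ) (B.z i j)) =
    meets (pull (fun x : (B.D × Nd K W) × Cond K J W => B.pr x.1.1) (x0 B.A B.T B.p0 i j)) := by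
  ext x
  rw [← (B.dm_jn θ).toOpn.pre_meets]
  constructor
  · intro hx y hy
    obtain ⟨z, hz, _, h2⟩ := B.jn_lift θ y (B.jn θ y) le_rfl (sc i)
    refine ⟨z, hz, z, ⟨B.pr z.1.1, ?_, le_rfl⟩, le_rfl⟩
    obtain ⟨j', hj'⟩ := z.1.1.1.2.exists_val ((lt_sc i).trans_le h2)
    have h3 : B.jn θ z ∈ meets (B.z i j') :=
      down_meets _ _ (z.1.1.2.2.2.1 i j' hj') _ (B.jn_le θ z)
    have h4 : B.jn θ z ∈ meets (B.z i j) :=
      down_meets _ _ hx _ (B.jn_mono θ _ _ (hz.trans hy))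
    have h5 := IsFun.unique ((sent_IsFun _).down _ B.hfun _
      ((B.jn_le θ z).trans z.1.1.2.2.1)) h3 h4
    show z.1.1.1.2.f i = some j
    rw [hj', h5]
  · intro hx
    have h1 : x ∈ B.jn θ ⁻¹' meets (B.z i j) ↔ x ∈ meets (pull (B.jn θ) (B.z i j)) := by
      rw [(B.dm_jn θ).toOpn.pre_meets]
    rw [h1]
    apply (sent_meets _).rg
    intro y hy
    obtain ⟨r, hr, s, ⟨e, he, hse⟩, hrs⟩ := hx y hy
    refine ⟨r, hr, ?_⟩
    rw [← (B.dm_jn θ).toOpn.pre_meets]
    have h2 : s.1.1.1.2.f i = some j := hse.2 i j he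
    have h3 : r.1.1.1.2.f i = some j := hrs.1.1.2 i j h2
    exact down_meets _ _ (r.1.1.2.2.2.1 i j h3) _ (B.jn_le θ r)

end BD

end Pool.Agent.H641
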