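import Pool.Agent.H641.Hur

/-!
# Preservation: forcings with the `K`-chain condition, countably closed forcings, Cohen reals
-/

set_option linter.unusedSectionVars false

namespace Pool.Agent.H641

open Cardinal Set

universe u v w

section

/-- Every antichain has fewer than `#K` members. -/
def CC (K : Type u) (Q : Type u) [Preorder Q] : Prop :=
  ∀ A : Set Q, (∀ x ∈ A, ∀ y ∈ A, x ≠ y → ∀ r, r ≤ x → ¬ r ≤ y) → Sm K A

/-- Every decreasing sequence of length `ω` has a lower bound. -/
def SigmaClosed (Q : Type u) [Preorder Q] : Prop :=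
  ∀ f : ℕ → Q, (∀ n, f (n + 1) ≤ f n) → ∃ l, ∀ n, l ≤ f n

variable (K : Type u) [LinearOrder K] [Kap K] (P : Type u) [Preorder P]

/-- `K ^ (< K) = K` in the extension: there is a sequence `E` of length `K` such that every
function from `K` to `K` agrees below each `b` with some `E c`. -/
def FewSeq : Set P :=
  fex fun E : K → K → K → Set P => fall fun z : K → K → Set P => fimp (IsFun z)
    (fall fun b : K => fex fun c : K => fall fun i : K => fall fun _ : i < b => fall fun j : K =>
      fand (fimp (meets (z i j)) (meets (E c i j))) (fimp (meets (E c i j)) (meets (z i j))))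

variable {K}

/-- In the extension, every function from `K` to `K` is dominated everywhere by a branch of `T`;
moreover this branch can be found in the ground model. -/
def FDom (T : Set (Nd K K)) : Set P :=
  fall fun g : K → K → Set P => fimp (IsFun g) (fex fun x : K → K =>
    fand (fground (∀ b, seg x b ∈ T))
      (fall fun i => fall fun j => fimp (meets (g i j)) (fground (j ≤ x i))))

/-- In the extension, the branches of `T` are not bounded by one function; moreover the witnesses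
are branches in the ground model. -/
def FUnb (T : Set (Nd K K)) : Set P :=
  fall fun g : K → K → Set P => fimp (IsFun g) (fex fun x : K → K =>
    fand (fground (∀ b, seg x b ∈ T))
      (fall fun a => fex fun i => fand (fground (a ≤ i))
        (fall fun j => fimp (meets (g i j)) (fground (j < x i)))))

variable {P}

/-- `s` is a binary splitting scheme of nodes of `T`, in the extension. -/
def FSch (T : Set (Nd K K)) (s : List Bool → Nd K K → Set P) : Set P :=
  fand (IsFun s) (fand (fall fun σ => fall fun u => fimp (meets (s σ u)) (fground (u ∈ T)))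
    (fand (fall fun σ => fall fun b => fall fun u => fall fun v =>
        fimp (fand (meets (s σ u)) (meets (s (σ ++ [b]) v))) (fground (v ≤ u)))
      (fall fun σ => fall fun u => fall fun v =>
        fimp (fand (meets (s (σ ++ [false]) u)) (meets (s (σ ++ [true]) v))) (fground (Inc u v)))))

/-- The finite sequence `σ` is an initial segment of the sequence named by `r`. -/
def PreOf (σ : List Bool) (r : ℕ → Bool → Set P) : Set P :=
  fall fun i => fall fun b => fall fun _ : σ[i]? = some b => meets (r i b)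

variable (P)

/-- In the extension, along no binary splitting scheme of nodes of `T` indexed by the finite
sequences of bits are all limits, along infinite sequences of bits, covered by nodes of `T`. -/
def FNoScheme (T : Set (Nd K K)) : Set P :=
  fall fun s : List Bool → Nd K K → Set P => fimp (FSch T s)
    (fex fun r : ℕ → Bool → Set P => fand (IsFun r) (fall fun t => fall fun _ : t ∈ T =>
      fnot (fall fun σ => fimp (PreOf σ r)
        (fall fun u => fimp (meets (s σ u)) (fground (t ≤ u))))))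

end

section

variable {K : Type u} [LinearOrder K] [Kap K] {Q : Type u} [Preorder Q]

/-- a name for a function has few possible values at each place -/
theorem CC.values (hQ : CC K Q) {X Y : Type u} {z : X → Y → Set Q} {q : Q} (hz : q ∈ IsFun z)
    (i : X) : Sm K {j | ∃ r ≤ q, r ∈ meets (z i j)} := by
  classical
  have h1 : ∀ j : {j | ∃ r ≤ q, r ∈ meets (z i j)}, ∃ r ≤ q, r ∈ meets (z i j.1) := fun j => j.2
  choose g hg hg2 using h1
  have hinj : Function.Injective g := by
    intro j j' h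
    have h2 := hg2 j'
    rw [← h] at h2
    exact Subtype.ext (IsFun.unique ((sent_IsFun z).down _ hz _ (hg j)) (hg2 j) h2)
  have h3 : Sm K (range g) := by
    apply hQ
    rintro _ ⟨j, rfl⟩ _ ⟨j', rfl⟩ hne r hr hr'
    apply hne
    congr 1
    apply Subtype.ext
    exact IsFun.unique ((sent_IsFun z).down _ hz _ (hr.trans (hg j)))
      (down_meets _ _ (hg2 j) _ hr) (down_meets _ _ (hg2 j') _ hr')
  have h4 : #(range g) = #{j | ∃ r ≤ q, r ∈ meets (z i j)} := mk_range_eq g hinj
  unfold Sm at h3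
  rw [h4] at h3
  exact h3

theorem CC.staysRegular (hQ : CC K Q) (p : Q) : p ∈ StaysRegular K Q := by
  intro b h
  refine ((sent_fex).mem_fimp (sent_IsFun h).down).2 ?_
  intro q _ hf
  rw [mem_fex]
  intro q' hq'
  have hf' := (sent_IsFun h).down _ hf _ hq'
  have h1 : Sm K (⋃ i ∈ (univ : Set (Iio b)), {j | ∃ r ≤ q', r ∈ meets (h i j)}) := by
    apply Sm.biUnion
    · unfold Sm
      rw [mk_univ]
      exact sm_Iio b
    · intro i _
      exact hQ.values hf' i
  obtain ⟨a, ha⟩ := h1.bdd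
  refine ⟨q', le_rfl, a, fun i j => ?_⟩
  refine ((sent_fground _).mem_fimp (down_meets _)).2 fun r hr hr' => ?_
  exact ha j (mem_iUnion₂.2 ⟨i, mem_univ _, r, hr, hr'⟩)

theorem CC.fDom (hQ : CC K Q) {T : Set (Nd K K)} (hT : Dominating T) (p : Q) :
    p ∈ FDom Q T := by
  intro g
  refine ((sent_fex).mem_fimp (sent_IsFun g).down).2 ?_
  intro q _ hf
  rw [mem_fex]
  intro q' hq'
  have hf' := (sent_IsFun g).down _ hf _ hq'
  have h1 : ∀ i, ∃ a, ∀ j, (∃ r ≤ q', r ∈ meets (g i j)) → j < a := fun i =>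
    (hQ.values hf' i).bdd
  choose G hG using h1
  obtain ⟨x, hx, hGx⟩ := hT G
  refine ⟨q', le_rfl, x, hx, fun i j => ?_⟩
  refine ((sent_fground _).mem_fimp (down_meets _)).2 fun r hr hr' => ?_
  exact (hG i j ⟨r, hr, hr'⟩).le.trans (hGx i)

/-- maximal antichains -/
theorem exists_max_antichain (X : Set Q) : ∃ A ⊆ X,
    (∀ x ∈ A, ∀ y ∈ A, x ≠ y → ∀ r, r ≤ x → ¬ r ≤ y) ∧ ∀ x ∈ X, ∃ y ∈ A, ∃ r, r ≤ x ∧ r ≤ y := by
  obtain ⟨A, hA⟩ := zorn_subset {A : Set Q | A ⊆ X ∧
    ∀ x ∈ A, ∀ y ∈ A, x ≠ y → ∀ r, r ≤ x → ¬ r ≤ y} (by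
    intro c hc hch
    refine ⟨⋃₀ c, ⟨?_, ?_⟩, fun s hs => subset_sUnion_of_mem hs⟩
    · intro x hx
      obtain ⟨s, hs, h⟩ := hx
      exact (hc hs).1 h
    · rintro x ⟨s, hs, hx⟩ y ⟨t, ht, hy⟩ hne r hr hr'
      rcases hch.total hs ht with h | h
      · exact (hc ht).2 x (h hx) y hy hne r hr hr'
      · exact (hc hs).2 x hx y (h hy) hne r hr hr')
  refine ⟨A, hA.prop.1, hA.prop.2, ?_⟩
  intro x hx
  by_contra hcon
  push Not at hcon
  have h1 : insert x A ∈ {A : Set Q | A ⊆ X ∧
      ∀ x ∈ A, ∀ y ∈ A, x ≠ y → ∀ r, r ≤ x → ¬ r ≤ y} := by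
    refine ⟨insert_subset hx hA.prop.1, ?_⟩
    rintro y (rfl | hy) z (rfl | hz) hne r hr hr'
    · exact hne rfl
    · exact hcon z hz r hr hr'
    · exact hcon y hy r hr' hr
    · exact hA.prop.2 y hy z hz hne r hr hr'
  have h2 : x ∈ A := hA.2 h1 (subset_insert x A) (mem_insert x A)
  exact hcon x h2 x le_rfl le_rfl

theorem CC.fewSeq (hQ : CC K Q) (hK : Big K K) (hQK : #Q ≤ #K) (p : Q) :
    p ∈ FewSeq K Q := by
  classical
  have h3 : #(Q × K × K) ≤ #K := hK.prod hQK (hK.prod le_rfl le_rfl)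
  obtain ⟨e⟩ := (Cardinal.le_def _ _).1 (hK.small_sets h3)
  let E : K → K → K → Set Q := fun c i j =>
    {r | ∃ G : {G : Set (Q × K × K) // Sm K G}, e G = c ∧ (r, i, j) ∈ G.1}
  apply mem_fex_of_mem E
  · exact down_fall fun z => down_fimp _ _
  intro z
  refine ((sent_fall fun b => sent_fex).mem_fimp (sent_IsFun z).down).2 ?_
  intro q _ hz b
  rw [mem_fex]
  intro q' hq'
  have hz' := (sent_IsFun z).down _ hz _ hq'
  choose A hAX hA hmax using fun i : K => exists_max_antichain {r : Q | r ≤ q' ∧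
    ∃ j, r ∈ meets (z i j)}
  let G : Set (Q × K × K) := ⋃ i ∈ Iio b, ⋃ r ∈ A i,
    {x | x.1 = r ∧ x.2.1 = i ∧ r ∈ meets (z i x.2.2)}
  have hG : Sm K G := by
    apply (sm_Iio b).biUnion
    intro i _
    apply (hQ (A i) (hA i)).biUnion
    intro r hr
    have h4 : ({x : Q × K × K | x.1 = r ∧ x.2.1 = i ∧ r ∈ meets (z i x.2.2)}).Subsingleton := by
      rintro ⟨r1, i1, j1⟩ ⟨h5, h6, h7⟩ ⟨r2, i2, j2⟩ ⟨h8, h9, h10⟩
      simp only at h5 h6 h7 h8 h9 h10
      subst h5 h6
      rw [h8, h9, IsFun.unique ((sent_IsFun z).down _ hz' _ (hAX _ hr).1) h7 h10]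
    exact sm_countable h4.countable
  have hmem : ∀ r i j, (r, i, j) ∈ G ↔ i < b ∧ r ∈ A i ∧ r ∈ meets (z i j) := by
    intro r i j
    constructor
    · intro h
      obtain ⟨i', hi', h⟩ := mem_iUnion₂.1 h
      obtain ⟨r', hr', h⟩ := mem_iUnion₂.1 h
      obtain ⟨h5, h6, h7⟩ := h
      simp only at h5 h6 h7
      subst h5 h6
      exact ⟨hi', hr', h7⟩
    · rintro ⟨h4, h5, h6⟩
      exact mem_iUnion₂.2 ⟨i, h4, mem_iUnion₂.2 ⟨r, h5, rfl, rfl, h6⟩⟩
  have hE : ∀ r i j, r ∈ E (e ⟨G, hG⟩) i j ↔ i < b ∧ r ∈ A i ∧ r ∈ meets (z i j) := by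
    intro r i j
    rw [← hmem]
    constructor
    · rintro ⟨G', hG', h⟩
      rw [e.injective hG'] at h
      exact h
    · intro h
      exact ⟨_, rfl, h⟩
  refine ⟨q', le_rfl, e ⟨G, hG⟩, fun i hi j => ⟨?_, ?_⟩⟩
  · refine ((sent_meets _).mem_fimp (down_meets _)).2 fun r hr hr' => ?_
    intro t ht
    obtain ⟨y, hy, s, hst, hsy⟩ := hmax i t ⟨ht.trans hr, j, down_meets _ _ hr' _ ht⟩
    refine ⟨s, hst, y, (hE y i j).2 ⟨hi, hy, ?_⟩, hsy⟩
    obtain ⟨_, j', hj'⟩ := hAX i hy
    have h5 := IsFun.unique ((sent_IsFun z).down _ hz' _ ((hst.trans ht).trans hr))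
      (down_meets _ _ hj' _ hsy) (down_meets _ _ hr' _ (hst.trans ht))
    rwa [← h5]
  · refine ((sent_meets _).mem_fimp (down_meets _)).2 fun r hr hr' => ?_
    apply (sent_meets _).rg
    intro t ht
    obtain ⟨s, hs, y, hy, hsy⟩ := hr' t ht
    exact ⟨s, hs, down_meets _ _ ((hE y i j).1 hy).2.2 _ hsy⟩

/-! ### Binary schemes -/

/-- the statements of `FSch` at a condition -/
structure IsSch (T : Set (Nd K K)) (s : List Bool → Nd K K → Set Q) (q : Q) : Prop where
  isFun : q ∈ IsFun s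
  mem : ∀ r ≤ q, ∀ σ u, r ∈ meets (s σ u) → u ∈ T
  mono : ∀ r ≤ q, ∀ σ b u v, r ∈ meets (s σ u) → r ∈ meets (s (σ ++ [b]) v) → v ≤ u
  inc : ∀ r ≤ q, ∀ σ u v, r ∈ meets (s (σ ++ [false]) u) → r ∈ meets (s (σ ++ [true]) v) →
    Inc u v

theorem sent_FSch (T : Set (Nd K K)) (s : List Bool → Nd K K → Set Q) : Sent (FSch T s) :=
  sent_fand (sent_IsFun s) (sent_fand
    (sent_fall fun _ => sent_fall fun _ => sent_fimp (down_meets _))
    (sent_fand (sent_fall fun _ => sent_fall fun _ => sent_fall fun _ => sent_fall fun _ =>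
        sent_fimp (down_fand (down_meets _) (down_meets _)))
      (sent_fall fun _ => sent_fall fun _ => sent_fall fun _ =>
        sent_fimp (down_fand (down_meets _) (down_meets _)))))

theorem mem_FSch {T : Set (Nd K K)} {s : List Bool → Nd K K → Set Q} {q : Q} (h : q ∈ FSch T s) :
    IsSch T s q where
  isFun := h.1
  mem := fun r hr σ u hu =>
    ((sent_fground _).mem_fimp (down_meets _)).1 (h.2.1 σ u) r hr hu
  mono := fun r hr σ b u v hu hv =>
    ((sent_fground _).mem_fimp (down_fand (down_meets _) (down_meets _))).1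
      (h.2.2.1 σ b u v) r hr ⟨hu, hv⟩
  inc := fun r hr σ u v hu hv =>
    ((sent_fground _).mem_fimp (down_fand (down_meets _) (down_meets _))).1
      (h.2.2.2 σ u v) r hr ⟨hu, hv⟩

/-- the name of a ground model sequence -/
def gname (ρ : ℕ → Bool) : ℕ → Bool → Set Q := fun i b => {_q | ρ i = b}

theorem meets_gname {ρ : ℕ → Bool} {i : ℕ} {b : Bool} {q : Q} :
    q ∈ meets (gname ρ i b) ↔ ρ i = b := by
  constructor
  · intro h
    obtain ⟨_, _, _, h2, _⟩ := h q le_rfl
    exact h2
  · intro h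
    exact meets_of_mem h

theorem isFun_gname (ρ : ℕ → Bool) (q : Q) : q ∈ IsFun (gname (Q := Q) ρ) := by
  refine ⟨fun i => ?_, fun i b b' => ?_⟩
  · rw [mem_fex]
    intro r _
    exact ⟨r, le_rfl, ρ i, meets_gname.2 rfl⟩
  · refine ((sent_fground _).mem_fimp (down_fand (down_meets _) (down_meets _))).2 ?_
    intro r _ h
    show b = b'
    rw [← meets_gname.1 h.1, ← meets_gname.1 h.2]

theorem pre_get {r : ℕ → Bool} {n i : ℕ} (h : i < n) : (pre r n)[i]? = some (r i) := by
  simp [pre, h]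

theorem pre_len (r : ℕ → Bool) (n : ℕ) : (pre r n).length = n := by simp [pre]

theorem preOf_gname (ρ : ℕ → Bool) (n : ℕ) (q : Q) :
    q ∈ PreOf (pre ρ n) (gname (Q := Q) ρ) := by
  intro i b h
  apply meets_gname.2
  have hi : i < n := by
    by_contra hc
    rw [List.getElem?_eq_none (by rw [pre_len]; exact not_lt.1 hc)] at h
    cases h
  rw [pre_get hi] at h
  exact Option.some.inj h

/-- Countably closed forcings preserve `NoScheme`. -/
theorem SigmaClosed.fNoScheme (hQ : SigmaClosed Q) {T : Set (Nd K K)} (hT : NoScheme T) (p : Q) :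
    p ∈ FNoScheme Q T := by
  classical
  intro s
  refine ((sent_fex).mem_fimp (sent_FSch T s).down).2 ?_
  intro q _ hs
  rw [mem_fex]
  intro q0 hq0
  have hs0 : IsSch T s q0 := mem_FSch ((sent_FSch T s).down _ hs _ hq0)
  obtain ⟨en, hen⟩ := exists_surjective_nat (List Bool)
  have h1 : ∀ (n : ℕ) (r : {r : Q // r ≤ q0}), ∃ r' : {r : Q // r ≤ q0}, r'.1 ≤ r.1 ∧
      ∃ u, r'.1 ∈ meets (s (en n) u) := by
    intro n r
    obtain ⟨r', hr', u, hu⟩ := IsFun.total ((sent_IsFun s).down _ hs0.isFun _ r.2) (en n)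
    exact ⟨⟨r', hr'.trans r.2⟩, hr', u, hu⟩
  choose g hg hg2 using h1
  let f : ℕ → {r : Q // r ≤ q0} := fun n => Nat.rec ⟨q0, le_rfl⟩ (fun n r => g n r) n
  have hf : ∀ n, f (n + 1) = g n (f n) := fun n => rfl
  obtain ⟨l, hl⟩ := hQ (fun n => (f n).1) (fun n => by
    show (f (n + 1)).1 ≤ _
    rw [hf]
    exact hg _ _)
  have hl0 : l ≤ q0 := (hl 0).trans (f 0).2
  have h2 : ∀ σ, ∃ u, l ∈ meets (s σ u) := by
    intro σ
    obtain ⟨n, rfl⟩ := hen σ
    obtain ⟨u, hu⟩ := hg2 n (f n)
    refine ⟨u, down_meets _ _ hu _ ?_⟩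
    rw [← hf]
    exact hl (n + 1)
  choose u hu using h2
  obtain ⟨ρ, hρ⟩ := hT u (fun σ => hs0.mem l hl0 σ _ (hu σ))
    (fun σ b => hs0.mono l hl0 σ b _ _ (hu σ) (hu _))
    (fun σ => hs0.inc l hl0 σ _ _ (hu _) (hu _))
  refine ⟨l, hl0, gname ρ, isFun_gname ρ l, ?_⟩
  intro t ht r hr hrt
  apply hρ t ht
  intro n
  have h3 := H641.mem_fimp.1 (hrt (pre ρ n)) r le_rfl (preOf_gname ρ n r)
  obtain ⟨r', hr', h3⟩ := h3
  obtain ⟨r'', _, h4⟩ := H641.mem_fimp.1 (h3 (u (pre ρ n))) r' le_rfl
    (down_meets _ _ (hu _) _ (hr'.trans hr))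
  exact h4

end

/-! ### Adding one Cohen real -/

/-- The forcing which adds a Cohen real: finite sequences of bits. -/
@[ext]
structure Coh : Type u where
  l : List Bool

instance : Preorder Coh.{u} where
  le p q := q.l <+: p.l
  le_refl := fun p => List.prefix_refl p.l
  le_trans := fun _ _ _ h h' => List.IsPrefix.trans h' h

theorem Coh.le_def {p q : Coh.{u}} : p ≤ q ↔ q.l <+: p.l := Iff.rfl

instance : Countable Coh.{u} :=
  Function.Injective.countable (f := Coh.l) fun _ _ h => Coh.ext h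

theorem Coh.cc {K : Type u} [LinearOrder K] [Kap K] : CC K Coh.{u} :=
  fun A _ => sm_countable A.to_countable

theorem Coh.card {K : Type u} [LinearOrder K] [Kap K] : #Coh.{u} ≤ #K :=
  (mk_le_aleph0_iff.2 inferInstance).trans mk_K_pos

theorem prefix_get {τ L : List Bool} (h : τ <+: L) {i : ℕ} (hi : i < τ.length) :
    L[i]? = τ[i]? := by
  obtain ⟨t, rfl⟩ := h
  exact List.getElem?_append_left hi

/-- Baire category: if the infinite sequences of bits are divided into countably many parts, one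
of the parts is dense somewhere. -/
theorem baire {C : Type u} [Countable C] (F : (ℕ → Bool) → C) :
    ∃ (c : C) (σ0 : List Bool), ∀ σ, ∃ (ρ : ℕ → Bool) (n : ℕ), F ρ = c ∧ pre ρ n = σ0 ++ σ := by
  classical
  by_contra hcon
  push Not at hcon
  have hne : Nonempty C := ⟨F fun _ => false⟩
  obtain ⟨en, hen⟩ := exists_surjective_nat C
  choose g hg using fun (n : ℕ) (σ0 : List Bool) => hcon (en n) σ0
  let f : ℕ → List Bool := fun n => Nat.rec [] (fun n σ => σ ++ g n σ ++ [false]) n
  have hf : ∀ n, f (n + 1) = f n ++ g n (f n) ++ [false] := fun n => rfl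
  have hpre : ∀ n, f n <+: f (n + 1) := fun n => by
    rw [hf, List.append_assoc]
    exact List.prefix_append _ _
  have hpre' : ∀ n m, n ≤ m → f n <+: f m := by
    intro n m h
    induction h with
    | refl => exact List.prefix_refl _
    | step _ ih => exact ih.trans (hpre _)
  have hlen : ∀ n, n ≤ (f n).length := by
    intro n
    induction n with
    | zero => exact Nat.zero_le _
    | succ n ih =>
      rw [hf, List.length_append, List.length_append, List.length_singleton]
      omega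
  let ρ : ℕ → Bool := fun i => ((f (i + 1))[i]?).getD false
  have hρ : ∀ n, ∀ τ, τ <+: f n → pre ρ τ.length = τ := by
    intro n τ hτ
    apply List.ext_getElem?
    intro i
    by_cases hi : i < τ.length
    · rw [pre_get hi]
      have h1 : i < (f (i + 1)).length := hlen (i + 1)
      have h2 : (f (i + 1))[i]? = τ[i]? := by
        rcases le_total n (i + 1) with h | h
        · exact prefix_get (hτ.trans (hpre' _ _ h)) hi
        · rw [← prefix_get (hpre' _ _ h) h1, prefix_get hτ hi]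
      show some (((f (i + 1))[i]?).getD false) = _
      rw [h2]
      simp [hi]
    · rw [List.getElem?_eq_none (by rw [pre_len]; exact not_lt.1 hi),
        List.getElem?_eq_none (not_lt.1 hi)]
  obtain ⟨n, hn⟩ := hen (F ρ)
  refine hg n (f n) ρ _ hn.symm (hρ (n + 1) _ ?_)
  rw [hf]
  exact List.prefix_append _ _

section

variable {K : Type u} [LinearOrder K] [Kap K]

/-- the name of the sequence which is `σ0` followed by the Cohen real -/
def rname (σ0 : List Bool) : ℕ → Bool → Set Coh.{u} := fun i b => {q | (σ0 ++ q.l)[i]? = some b}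

theorem down_rname (σ0 : List Bool) (i : ℕ) (b : Bool) : Down (rname.{u} σ0 i b) := by
  intro q hq q' hq'
  obtain ⟨t, ht⟩ := Coh.le_def.1 hq'
  have hq1 : (σ0 ++ q.l)[i]? = some b := hq
  have hi : i < (σ0 ++ q.l).length := by
    by_contra hc
    rw [List.getElem?_eq_none (not_lt.1 hc)] at hq1
    cases hq1
  show (σ0 ++ q'.l)[i]? = some b
  rw [← ht, ← List.append_assoc, List.getElem?_append_left hi]
  exact hq1

theorem meets_rname {σ0 : List Bool} {i : ℕ} {b : Bool} {q : Coh.{u}}
    (h : q ∈ meets (rname σ0 i b)) : ∃ r ≤ q, (σ0 ++ r.l)[i]? = some b := by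
  obtain ⟨r, hr, s, hs, hrs⟩ := h q le_rfl
  exact ⟨r, hr, down_rname σ0 i b s hs r hrs⟩

theorem isFun_rname (σ0 : List Bool) (q : Coh.{u}) : q ∈ IsFun (rname σ0) := by
  refine ⟨fun i => ?_, fun i b b' => ?_⟩
  · rw [mem_fex]
    intro r _
    refine ⟨⟨r.l ++ List.replicate (i + 1) false⟩, List.prefix_append _ _, ?_⟩
    have hi : i < (σ0 ++ (r.l ++ List.replicate (i + 1) false)).length := by
      simp only [List.length_append, List.length_replicate]
      omega
    refine ⟨(σ0 ++ (r.l ++ List.replicate (i + 1) false))[i], meets_of_mem ?_⟩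
    show (σ0 ++ (r.l ++ List.replicate (i + 1) false))[i]? = _
    rw [List.getElem?_eq_getElem hi]
  · refine ((sent_fground _).mem_fimp (down_fand (down_meets _) (down_meets _))).2 ?_
    intro r _ h
    show b = b'
    obtain ⟨s, hs, h1⟩ := meets_rname h.1
    obtain ⟨t, ht, h2⟩ := meets_rname (down_meets _ _ h.2 _ hs)
    have h3 : (σ0 ++ t.l)[i]? = some b := down_rname σ0 i b s h1 t ht
    rw [h2] at h3
    exact (Option.some.inj h3).symm

theorem preOf_rname (σ0 : List Bool) (q : Coh.{u}) (σ : List Bool) (h : σ <+: σ0 ++ q.l) :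
    q ∈ PreOf σ (rname σ0) := by
  intro i b hib
  apply meets_of_mem
  have hi : i < σ.length := by
    by_contra hc
    rw [List.getElem?_eq_none (not_lt.1 hc)] at hib
    cases hib
  show (σ0 ++ q.l)[i]? = some b
  rw [prefix_get h hi, hib]

theorem Inc.false_of {u v t : Nd K K} (h : Inc u v) (hu : t ≤ u) (hv : t ≤ v) : False :=
  h t hu hv

/-- One Cohen real forces `NoScheme` for the set of all ground model nodes. -/
theorem Coh.fNoScheme (T : Set (Nd K K)) (p : Coh.{u}) : p ∈ FNoScheme Coh.{u} T := by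
  classical
  intro s
  refine ((sent_fex).mem_fimp (sent_FSch T s).down).2 ?_
  intro q _ hs
  rw [mem_fex]
  intro q0 hq0
  have hs0 : IsSch T s q0 := mem_FSch ((sent_FSch T s).down _ hs _ hq0)
  by_cases hcase : ∃ (ρ : ℕ → Bool) (q' : Coh.{u}), q' ≤ q0 ∧ ∀ t ∈ T, ∀ r ≤ q',
      ¬ ∀ n, r ∈ fall fun u => fimp (meets (s (pre ρ n) u)) (fground (t ≤ u))
  · obtain ⟨ρ, q', hq', h⟩ := hcase
    refine ⟨q', hq', gname ρ, isFun_gname ρ q', ?_⟩
    intro t ht r hr hrt
    apply h t ht r hr
    intro n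
    have hsent : Sent (fall fun u => fimp (meets (s (pre ρ n) u)) (fground (t ≤ u))) :=
      sent_fall fun u => sent_fimp (down_meets _)
    exact (hsent.mem_fimp (down_fall fun _ => down_fall fun _ => down_fall fun _ =>
      down_meets _)).1 (hrt (pre ρ n)) r le_rfl (preOf_gname ρ n r)
  · push Not at hcase
    have h1 : ∀ ρ : ℕ → Bool, ∃ (q' : Coh.{u}) (t : Nd K K), q' ≤ q0 ∧ t ∈ T ∧
        ∀ n, q' ∈ fall fun u => fimp (meets (s (pre ρ n) u)) (fground (t ≤ u)) := by
      intro ρ
      obtain ⟨t, ht, r, hr, h⟩ := hcase ρ q0 le_rfl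
      exact ⟨r, t, hr, ht, h⟩
    choose F τ hF hτ hFτ using h1
    obtain ⟨q1, σ0, hq1⟩ := baire F
    choose ρ n hρ hn using hq1
    have hq10 : q1 ≤ q0 := by
      rw [← hρ []]
      exact hF _
    have hτs : ∀ σ, ∀ r ≤ q1, ∀ u, r ∈ meets (s (σ0 ++ σ) u) → τ (ρ σ) ≤ u := by
      intro σ r hr u hu
      have h2 := hFτ (ρ σ) (n σ) u
      rw [hρ σ, hn σ] at h2
      exact ((sent_fground _).mem_fimp (down_meets _)).1 h2 r hr hu
    refine ⟨q1, hq10, rname σ0, isFun_rname σ0 q1, ?_⟩
    intro t ht q' hq' hbad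
    -- the condition `q'` forces that `t` covers the limit
    have hbad' : ∀ σ r, r ≤ q' → σ <+: σ0 ++ r.l → ∀ u, r ∈ meets (s σ u) → t ≤ u := by
      intro σ r hr hσ u hu
      obtain ⟨r', hr', h3⟩ := H641.mem_fimp.1 (hbad σ) r hr (preOf_rname σ0 r σ hσ)
      obtain ⟨_, _, h4⟩ := H641.mem_fimp.1 (h3 u) r' le_rfl (down_meets _ _ hu _ hr')
      exact h4
    -- decide both nodes after adding the bit `b`
    have hdec : ∀ b : Bool, ∃ u v : Nd K K, t ≤ cond b v u ∧ τ (ρ (q'.l ++ [false])) ≤ u ∧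
        τ (ρ (q'.l ++ [true])) ≤ v ∧ Inc u v := by
      intro b
      let qb : Coh.{u} := ⟨q'.l ++ [b]⟩
      have hqb : qb ≤ q' := List.prefix_append _ _
      have hfun : ∀ r ≤ q', r ∈ IsFun s := fun r hr =>
        (sent_IsFun s).down _ hs0.isFun _ ((hr.trans hq').trans hq10)
      obtain ⟨r1, hr1, u, hu⟩ := IsFun.total (hfun _ hqb) (σ0 ++ q'.l ++ [false])
      obtain ⟨r2, hr2, v, hv⟩ := IsFun.total (hfun _ (hr1.trans hqb)) (σ0 ++ q'.l ++ [true])
      have hu2 := down_meets _ _ hu _ hr2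
      have hr2q : r2 ≤ q' := (hr2.trans hr1).trans hqb
      refine ⟨u, v, ?_, ?_, ?_, ?_⟩
      · apply hbad' (σ0 ++ q'.l ++ [b]) r2 hr2q
        · rw [List.append_assoc]
          obtain ⟨w, hw⟩ := Coh.le_def.1 (hr2.trans hr1)
          rw [← hw, List.prefix_append_right_inj]
          exact List.prefix_append _ _
        · cases b
          · exact hu2
          · exact hv
      · apply hτs (q'.l ++ [false]) r2 (hr2q.trans hq')
        rw [← List.append_assoc]
        exact hu2
      · apply hτs (q'.l ++ [true]) r2 (hr2q.trans hq')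
        rw [← List.append_assoc]
        exact hv
      · exact hs0.inc r2 ((hr2q.trans hq').trans hq10) _ _ _ hu2 hv
    obtain ⟨u0, v0, ht0, h00, h01, hinc0⟩ := hdec false
    obtain ⟨u1, v1, ht1, h10, h11, hinc1⟩ := hdec true
    have ht0' : t ≤ u0 := ht0
    have ht1' : t ≤ v1 := ht1
    rcases le_total u0.len v1.len with hl | hl
    · have h5 : v1 ≤ u0 := Nd.le_of_comp ht0' ht1' hl
      exact hinc0 _ (h11.trans h5) h01
    · have h5 : u0 ≤ v1 := Nd.le_of_comp ht1' ht0' hl
      exact hinc1 _ h10 (h00.trans h5)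

end

end Pool.Agent.H641
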