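import Pool.Agent.H641.Force

/-!
# Conditions and nodes

`Cond K I W` is the set of the partial functions from `I` to `W` with fewer than `#K` elements,
ordered by reverse inclusion. `Nd K W` is the set of the functions from a proper initial segment
of `K` to `W` (the nodes of the tree of all sequences in `W` of length less than `K`), ordered by
end extension, the longer nodes being the smaller ones.
-/

set_option linter.unusedSectionVars false

namespace Pool.Agent.H641

open Cardinal Set

universe u

/-! ### Unions of partial functions -/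

section

variable {I W : Type u}

/-- members of the family agree where both are defined -/
def Cons (C : Set (I → Option W)) : Prop :=
  ∀ x ∈ C, ∀ y ∈ C, ∀ i w w', x i = some w → y i = some w' → w = w'

open Classical in
/-- the union of a family of partial functions -/
noncomputable def glue (C : Set (I → Option W)) : I → Option W :=
  fun i => if h : ∃ w, ∃ x ∈ C, x i = some w then some h.choose else none

theorem glue_eq_some {C : Set (I → Option W)} (hC : Cons C) {i : I} {w : W} :
    glue C i = some w ↔ ∃ x ∈ C, x i = some w := by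
  unfold glue
  by_cases h : ∃ w, ∃ x ∈ C, x i = some w
  · simp only [h, dif_pos, Option.some.injEq]
    obtain ⟨x, hx, h2⟩ := h.choose_spec
    constructor
    · intro h3
      rw [h3] at h2
      exact ⟨x, hx, h2⟩
    · rintro ⟨y, hy, h3⟩
      exact hC x hx y hy i _ _ h2 h3
  · simp only [h, dif_neg, not_false_eq_true]
    constructor
    · intro h3
      cases h3
    · rintro ⟨x, hx, h2⟩
      exact absurd ⟨w, x, hx, h2⟩ h

theorem glue_ne_none {C : Set (I → Option W)} {i : I} :
    glue C i ≠ none ↔ ∃ x ∈ C, x i ≠ none := by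
  unfold glue
  by_cases h : ∃ w, ∃ x ∈ C, x i = some w
  · simp only [h, dif_pos, ne_eq, reduceCtorEq, not_false_eq_true, true_iff]
    obtain ⟨w, x, hx, h2⟩ := h
    exact ⟨x, hx, by simp [h2]⟩
  · simp only [h, dif_neg, not_false_eq_true, ne_eq, not_true_eq_false, false_iff]
    rintro ⟨x, hx, h2⟩
    obtain ⟨w, hw⟩ := Option.ne_none_iff_exists'.1 h2
    exact h ⟨w, x, hx, hw⟩

end

/-! ### Conditions -/

/-- A partial function from `I` to `W` with fewer than `#K` elements. -/
@[ext]
structure Cond (K I W : Type u) where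
  f : I → Option W
  sm : Sm K {i | f i ≠ none}

section

variable {K I W : Type u}

instance : PartialOrder (Cond K I W) where
  le p q := ∀ i w, q.f i = some w → p.f i = some w
  le_refl := fun _ _ _ h => h
  le_trans := fun _ _ _ h h' i w h'' => h i w (h' i w h'')
  le_antisymm := fun p q h h' => by
    apply Cond.ext
    funext i
    apply Option.ext
    intro w
    exact ⟨h' i w, h i w⟩

theorem Cond.le_def {p q : Cond K I W} : p ≤ q ↔ ∀ i w, q.f i = some w → p.f i = some w := Iff.rfl

theorem Cond.ne_none_of_le {p q : Cond K I W} (h : p ≤ q) {i : I} (hi : q.f i ≠ none) :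
    p.f i ≠ none := by
  obtain ⟨w, hw⟩ := Option.ne_none_iff_exists'.1 hi
  rw [h i w hw]
  simp

end

section

variable {K I W : Type u} [LinearOrder K] [Kap K]

theorem cons_of_chain {C : Set (Cond K I W)} (hC : IsChain (· ≤ ·) C) :
    Cons (Cond.f '' C) := by
  rintro _ ⟨x, hx, rfl⟩ _ ⟨y, hy, rfl⟩ i w w' h h'
  rcases hC.total hx hy with h2 | h2
  · have := h2 i w' h'
    rw [h] at this
    exact Option.some.inj this
  · have := h2 i w h
    rw [h'] at this
    exact (Option.some.inj this).symm

/-- the union of a small set of conditions -/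
noncomputable def Cond.sup (C : Set (Cond K I W)) (h : Sm K C) : Cond K I W where
  f := glue (Cond.f '' C)
  sm := by
    refine (h.biUnion (t := fun p => {i | p.f i ≠ none}) fun p _ => p.sm).mono ?_
    intro i hi
    obtain ⟨_, ⟨x, hx, rfl⟩, h2⟩ := glue_ne_none.1 hi
    simp only [mem_iUnion]
    exact ⟨x, hx, h2⟩

theorem Cond.sup_some {C : Set (Cond K I W)} {h : Sm K C} (hC : IsChain (· ≤ ·) C) {i : I}
    {w : W} : (Cond.sup C h).f i = some w ↔ ∃ x ∈ C, x.f i = some w := by
  unfold Cond.sup
  rw [glue_eq_some (cons_of_chain hC)]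
  simp

theorem Cond.sup_ne_none {C : Set (Cond K I W)} {h : Sm K C} {i : I} :
    (Cond.sup C h).f i ≠ none ↔ ∃ x ∈ C, x.f i ≠ none := by
  unfold Cond.sup
  rw [glue_ne_none]
  simp

theorem Cond.isGLB_sup {C : Set (Cond K I W)} {h : Sm K C} (hC : IsChain (· ≤ ·) C) :
    IsGLB C (Cond.sup C h) := by
  constructor
  · intro x hx i w h2
    exact (Cond.sup_some hC).2 ⟨x, hx, h2⟩
  · intro y hy i w h2
    obtain ⟨x, hx, h3⟩ := (Cond.sup_some hC).1 h2
    exact hy hx i w h3

/-- the empty condition -/
def Cond.one (K I W : Type u) [LinearOrder K] [Kap K] : Cond K I W where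
  f := fun _ => none
  sm := by simpa using sm_empty

theorem Cond.le_one (p : Cond K I W) : p ≤ Cond.one K I W := by
  intro i w h
  cases h

/-- `p`, together with the part of `q` outside the domain of `p` -/
def Cond.ov (p q : Cond K I W) : Cond K I W where
  f := fun i => (p.f i).orElse fun _ => q.f i
  sm := by
    refine (p.sm.union q.sm).mono ?_
    intro i hi
    by_contra h
    simp only [mem_union, mem_ofPred_eq, not_or, not_not] at h
    simp [h.1, h.2] at hi

theorem Cond.ov_le (p q : Cond K I W) : p.ov q ≤ p := by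
  intro i w h
  simp [Cond.ov, h]

theorem Cond.ov_some {p q : Cond K I W} {i : I} {w : W} :
    (p.ov q).f i = some w ↔ p.f i = some w ∨ (p.f i = none ∧ q.f i = some w) := by
  simp only [Cond.ov]
  cases h : p.f i <;> simp

theorem Cond.ov_le_right {p q : Cond K I W}
    (h : ∀ i w w', p.f i = some w → q.f i = some w' → w = w') : p.ov q ≤ q := by
  intro i w h2
  rw [Cond.ov_some]
  cases h3 : p.f i with
  | none => exact Or.inr ⟨rfl, h2⟩
  | some w' => exact Or.inl (by rw [h i w' w h3 h2])

theorem Cond.ov_ne_none {p q : Cond K I W} {i : I} :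
    (p.ov q).f i ≠ none ↔ p.f i ≠ none ∨ q.f i ≠ none := by
  simp only [Cond.ov]
  cases h : p.f i <;> simp

theorem Cond.le_ov {p q r : Cond K I W} (h : r ≤ p) (h' : r ≤ q) : r ≤ p.ov q := by
  intro i w h2
  rcases Cond.ov_some.1 h2 with h3 | h3
  · exact h i w h3
  · exact h' i w h3.2

/-- the domain of the condition is included in `A` -/
def Cond.In (A : Set I) (p : Cond K I W) : Prop := ∀ i, p.f i ≠ none → i ∈ A

open Classical in
/-- the restriction of a condition -/
noncomputable def Cond.res (A : Set I) (p : Cond K I W) : Cond K I W where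
  f := fun i => if i ∈ A then p.f i else none
  sm := by
    refine p.sm.mono ?_
    intro i hi
    simp only [mem_ofPred_eq, ne_eq, ite_eq_right_iff, not_forall] at hi
    exact hi.2

theorem Cond.res_some {A : Set I} {p : Cond K I W} {i : I} {w : W} :
    (p.res A).f i = some w ↔ i ∈ A ∧ p.f i = some w := by
  simp only [Cond.res]
  split_ifs with h <;> simp [h]

theorem Cond.res_ne_none {A : Set I} {p : Cond K I W} {i : I} :
    (p.res A).f i ≠ none ↔ i ∈ A ∧ p.f i ≠ none := by
  simp only [Cond.res]
  split_ifs with h <;> simp [h]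

theorem Cond.le_res (A : Set I) (p : Cond K I W) : p ≤ p.res A :=
  fun _ _ h => (Cond.res_some.1 h).2

theorem Cond.res_in (A : Set I) (p : Cond K I W) : (p.res A).In A :=
  fun _ h => (Cond.res_ne_none.1 h).1

theorem Cond.In.mono {A B : Set I} {p : Cond K I W} (h : p.In A) (hAB : A ⊆ B) : p.In B :=
  fun i hi => hAB (h i hi)

theorem Cond.res_mono (A : Set I) {p q : Cond K I W} (h : p ≤ q) : p.res A ≤ q.res A := by
  intro i w h2
  rw [Cond.res_some] at h2 ⊢
  exact ⟨h2.1, h i w h2.2⟩

theorem Cond.In.le_res {A : Set I} {p q : Cond K I W} (h : q.In A) (hpq : p ≤ q) :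
    p.res A ≤ q := by
  intro i w h2
  rw [Cond.res_some]
  exact ⟨h i (by simp [h2]), hpq i w h2⟩

theorem Cond.In.res_eq {A : Set I} {p : Cond K I W} (h : p.In A) : p.res A = p :=
  le_antisymm (h.le_res le_rfl) (p.le_res A)

theorem Cond.In.of_le {A : Set I} {p q : Cond K I W} (h : p.In A) (hpq : p ≤ q) : q.In A :=
  fun i hi => h i (Cond.ne_none_of_le hpq hi)

theorem Cond.In.ov {A : Set I} {p q : Cond K I W} (h : p.In A) (h' : q.In A) : (p.ov q).In A := by
  intro i hi
  rcases Cond.ov_ne_none.1 hi with h2 | h2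
  · exact h i h2
  · exact h' i h2

theorem Cond.res_res (A B : Set I) (p : Cond K I W) (h : A ⊆ B) : (p.res B).res A = p.res A := by
  apply le_antisymm
  · intro i w h2
    rw [Cond.res_some] at h2
    rw [Cond.res_some, Cond.res_some]
    exact ⟨h2.1, h h2.1, h2.2⟩
  · exact Cond.res_mono A (p.le_res B)

open Classical in
/-- a single value -/
noncomputable def Cond.single (i : I) (w : W) : Cond K I W where
  f := fun j => if j = i then some w else none
  sm := by
    refine (sm_singleton i).mono ?_
    intro j hj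
    simp only [mem_ofPred_eq, ne_eq, ite_eq_right_iff, not_forall] at hj
    exact hj.1

theorem Cond.single_some {i j : I} {w w' : W} :
    (Cond.single (K := K) i w).f j = some w' ↔ j = i ∧ w = w' := by
  simp only [Cond.single]
  split_ifs with h <;> simp [h]

theorem Cond.single_ne_none {i j : I} {w : W} :
    (Cond.single (K := K) i w).f j ≠ none ↔ j = i := by
  simp only [Cond.single]
  split_ifs with h <;> simp [h]

end

/-! ### Nodes -/

/-- A function from a proper initial segment of `K` to `W`. -/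
structure Nd (K W : Type u) [LinearOrder K] where
  f : K → Option W
  len : K
  dom : ∀ i, f i ≠ none ↔ i < len

section

variable {K W : Type u} [LinearOrder K]

theorem Nd.ext' {s t : Nd K W} (h : ∀ i, s.f i = t.f i) : s = t := by
  have hf : s.f = t.f := funext h
  have hl : s.len = t.len := by
    rcases lt_trichotomy s.len t.len with h1 | h1 | h1
    · have h2 := (t.dom s.len).2 h1
      rw [← h] at h2
      exact absurd ((s.dom _).1 h2) (lt_irrefl _)
    · exact h1
    · have h2 := (s.dom t.len).2 h1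
      rw [h] at h2
      exact absurd ((t.dom _).1 h2) (lt_irrefl _)
  cases s
  cases t
  simp only at hf hl
  subst hf
  subst hl
  rfl

instance : PartialOrder (Nd K W) where
  le p q := ∀ i w, q.f i = some w → p.f i = some w
  le_refl := fun _ _ _ h => h
  le_trans := fun _ _ _ h h' i w h'' => h i w (h' i w h'')
  le_antisymm := fun p q h h' => by
    apply Nd.ext'
    intro i
    apply Option.ext
    intro w
    exact ⟨h' i w, h i w⟩

theorem Nd.le_def {p q : Nd K W} : p ≤ q ↔ ∀ i w, q.f i = some w → p.f i = some w := Iff.rfl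

theorem Nd.exists_val (s : Nd K W) {i : K} (h : i < s.len) : ∃ w, s.f i = some w :=
  Option.ne_none_iff_exists'.1 ((s.dom i).2 h)

theorem Nd.lt_len {s : Nd K W} {i : K} {w : W} (h : s.f i = some w) : i < s.len :=
  (s.dom i).1 (by simp [h])

theorem Nd.len_le {s t : Nd K W} (h : s ≤ t) : t.len ≤ s.len := by
  by_contra hc
  rw [not_le] at hc
  obtain ⟨w, hw⟩ := t.exists_val hc
  exact absurd (Nd.lt_len (h _ _ hw)) (lt_irrefl _)

theorem Nd.eq_of_len {s t : Nd K W} (h : s ≤ t) (h' : s.len ≤ t.len) : s = t := by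
  apply le_antisymm h
  intro i w hw
  obtain ⟨w', hw'⟩ := t.exists_val ((Nd.lt_len hw).trans_le h')
  have := h i w' hw'
  rw [hw] at this
  rw [hw', this]

theorem Nd.le_of_comp {r s t : Nd K W} (hs : r ≤ s) (ht : r ≤ t) (h : s.len ≤ t.len) : t ≤ s := by
  intro i w hw
  obtain ⟨w', hw'⟩ := t.exists_val ((Nd.lt_len hw).trans_le h)
  have h1 := hs i w hw
  rw [ht i w' hw'] at h1
  rw [hw', h1]

theorem Nd.le_iff {s t : Nd K W} :
    s ≤ t ↔ t.len ≤ s.len ∧ ∀ i < t.len, s.f i = t.f i := by
  constructor
  · intro h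
    refine ⟨Nd.len_le h, fun i hi => ?_⟩
    obtain ⟨w, hw⟩ := t.exists_val hi
    rw [hw, h i w hw]
  · rintro ⟨_, h2⟩ i w hw
    rw [h2 i (Nd.lt_len hw), hw]

open Classical in
/-- the restriction of a node to the elements below `b` -/
noncomputable def Nd.cut (s : Nd K W) (b : K) : Nd K W where
  f := fun i => if i < b then s.f i else none
  len := min b s.len
  dom := by
    intro i
    split_ifs with h
    · rw [s.dom]
      simp [h]
    · simp only [ne_eq, not_true_eq_false, lt_inf_iff, false_iff, not_and]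
      exact fun h2 => absurd h2 h

theorem Nd.cut_some {s : Nd K W} {b i : K} {w : W} :
    (s.cut b).f i = some w ↔ i < b ∧ s.f i = some w := by
  simp only [Nd.cut]
  split_ifs with h <;> simp [h]

theorem Nd.cut_len {s : Nd K W} {b : K} (h : b ≤ s.len) : (s.cut b).len = b := min_eq_left h

theorem Nd.le_cut (s : Nd K W) (b : K) : s ≤ s.cut b := fun _ _ h => (Nd.cut_some.1 h).2

theorem Nd.cut_le_cut (s : Nd K W) {b c : K} (h : b ≤ c) : s.cut c ≤ s.cut b := by
  intro i w h2
  rw [Nd.cut_some] at h2 ⊢
  exact ⟨h2.1.trans_le h, h2.2⟩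

theorem Nd.cut_mono {s t : Nd K W} (h : s ≤ t) (b : K) : s.cut b ≤ t.cut b := by
  intro i w h2
  rw [Nd.cut_some] at h2 ⊢
  exact ⟨h2.1, h _ _ h2.2⟩

theorem Nd.cut_eq_of_le {s t : Nd K W} (h : s ≤ t) {b : K} (hb : b ≤ t.len) :
    s.cut b = t.cut b := by
  apply Nd.eq_of_len (Nd.cut_mono h b)
  rw [Nd.cut_len hb, Nd.cut_len (hb.trans (Nd.len_le h))]

theorem Nd.cut_self (s : Nd K W) {b : K} (h : s.len ≤ b) : s.cut b = s := by
  apply Nd.ext'
  intro i
  apply Option.ext
  intro w
  rw [Nd.cut_some]
  constructor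
  · exact fun h => h.2
  · exact fun h2 => ⟨(Nd.lt_len h2).trans_le h, h2⟩

theorem Nd.eq_cut_of_le {s t : Nd K W} (h : s ≤ t) : t = s.cut t.len := by
  rw [Nd.cut_eq_of_le h le_rfl, Nd.cut_self _ le_rfl]

theorem Nd.cut_cut (s : Nd K W) {b c : K} (h : b ≤ c) : (s.cut c).cut b = s.cut b := by
  apply Nd.ext'
  intro i
  apply Option.ext
  intro w
  rw [Nd.cut_some, Nd.cut_some, Nd.cut_some]
  constructor
  · exact fun h => ⟨h.1, h.2.2⟩
  · exact fun h2 => ⟨h2.1, h2.1.trans_le h, h2.2⟩

variable [Kap K]

open Classical in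
/-- a node with one more value -/
noncomputable def Nd.app (s : Nd K W) (w : W) : Nd K W where
  f := fun i => if i = s.len then some w else s.f i
  len := sc s.len
  dom := by
    intro i
    rw [lt_sc_iff, le_iff_lt_or_eq, ← s.dom]
    split_ifs with h
    · simp [h]
    · simp [h]

theorem Nd.app_some {s : Nd K W} {w w' : W} {i : K} :
    (s.app w).f i = some w' ↔ (i = s.len ∧ w = w') ∨ s.f i = some w' := by
  simp only [Nd.app]
  split_ifs with h
  · constructor
    · intro h2
      exact Or.inl ⟨h, Option.some.inj h2⟩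
    · rintro (h2 | h2)
      · rw [h2.2]
      · exact absurd (Nd.lt_len h2) (by rw [h]; exact lt_irrefl _)
  · simp [h]

theorem Nd.app_le (s : Nd K W) (w : W) : s.app w ≤ s := fun _ _ h => Nd.app_some.2 (Or.inr h)

theorem Nd.app_at (s : Nd K W) (w : W) : (s.app w).f s.len = some w :=
  Nd.app_some.2 (Or.inl ⟨rfl, rfl⟩)

theorem Nd.app_len (s : Nd K W) (w : W) : (s.app w).len = sc s.len := rfl

theorem Nd.app_inj {r s : Nd K W} {w w' : W} (h : r ≤ s.app w) (h' : r ≤ s.app w') :
    w = w' := by
  have h1 := h _ _ (Nd.app_at s w)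
  rw [h' _ _ (Nd.app_at s w')] at h1
  exact (Option.some.inj h1).symm

theorem Nd.le_app {r s : Nd K W} {w : W} (h : r ≤ s) (h' : r.f s.len = some w) :
    r ≤ s.app w := by
  intro i w' h2
  rcases Nd.app_some.1 h2 with ⟨rfl, rfl⟩ | h3
  · exact h'
  · exact h _ _ h3

theorem Nd.cut_app (s : Nd K W) (w : W) : (s.app w).cut s.len = s := by
  rw [Nd.cut_eq_of_le (Nd.app_le s w) le_rfl, Nd.cut_self _ le_rfl]

/-- the restriction to the elements up to `b` -/
theorem Nd.cut_sc {s : Nd K W} {b : K} {w : W} (h : s.f b = some w) :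
    s.cut (sc b) = (s.cut b).app w := by
  have hb := Nd.lt_len h
  apply Nd.ext'
  intro i
  apply Option.ext
  intro w'
  rw [Nd.cut_some, Nd.app_some, Nd.cut_some, Nd.cut_len hb.le, lt_sc_iff, le_iff_lt_or_eq]
  constructor
  · rintro ⟨h1 | rfl, h2⟩
    · exact Or.inr ⟨h1, h2⟩
    · rw [h] at h2
      exact Or.inl ⟨rfl, Option.some.inj h2⟩
  · rintro (⟨rfl, rfl⟩ | ⟨h1, h2⟩)
    · exact ⟨Or.inr rfl, h⟩
    · exact ⟨Or.inl h1, h2⟩

/-- the empty node -/
noncomputable def Nd.root (K W : Type u) [LinearOrder K] [Kap K] : Nd K W where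
  f := fun _ => none
  len := bot K
  dom := fun i => by simpa using bot_le' i

theorem Nd.le_root (s : Nd K W) : s ≤ Nd.root K W := by
  intro i w h
  cases h

theorem Nd.cons_of_chain {C : Set (Nd K W)} (hC : IsChain (· ≤ ·) C) :
    Cons (Nd.f '' C) := by
  rintro _ ⟨x, hx, rfl⟩ _ ⟨y, hy, rfl⟩ i w w' h h'
  rcases hC.total hx hy with h2 | h2
  · have := h2 i w' h'
    rw [h] at this
    exact Option.some.inj this
  · have := h2 i w h
    rw [h'] at this
    exact (Option.some.inj this).symm

/-- the union of a small set of nodes -/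
noncomputable def Nd.sup (C : Set (Nd K W)) (h : Sm K C) : Nd K W where
  f := glue (Nd.f '' C)
  len := (h.image Nd.len).exists_lub.choose
  dom := by
    intro i
    rw [glue_ne_none]
    have hl := (h.image Nd.len).exists_lub.choose_spec
    constructor
    · rintro ⟨_, ⟨x, hx, rfl⟩, h2⟩
      exact ((x.dom i).1 h2).trans_le (hl.1 ⟨x, hx, rfl⟩)
    · intro h2
      by_contra hc
      push Not at hc
      apply absurd (hl.2 _) (not_le.2 h2)
      rintro _ ⟨x, hx, rfl⟩
      by_contra h3
      exact (x.dom i).2 (not_le.1 h3) (hc _ ⟨x, hx, rfl⟩)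

theorem Nd.sup_some {C : Set (Nd K W)} {h : Sm K C} (hC : IsChain (· ≤ ·) C) {i : K}
    {w : W} : (Nd.sup C h).f i = some w ↔ ∃ x ∈ C, x.f i = some w := by
  unfold Nd.sup
  rw [glue_eq_some (Nd.cons_of_chain hC)]
  simp

theorem Nd.lt_sup_len {C : Set (Nd K W)} {h : Sm K C} (hC : IsChain (· ≤ ·) C) {i : K} :
    i < (Nd.sup C h).len ↔ ∃ x ∈ C, i < x.len := by
  constructor
  · intro h2
    obtain ⟨w, hw⟩ := Nd.exists_val _ h2
    obtain ⟨x, hx, h3⟩ := (Nd.sup_some hC).1 hw
    exact ⟨x, hx, Nd.lt_len h3⟩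
  · rintro ⟨x, hx, h2⟩
    obtain ⟨w, hw⟩ := Nd.exists_val _ h2
    exact Nd.lt_len ((Nd.sup_some hC (h := h)).2 ⟨x, hx, hw⟩)

theorem Nd.isGLB_sup {C : Set (Nd K W)} {h : Sm K C} (hC : IsChain (· ≤ ·) C) :
    IsGLB C (Nd.sup C h) := by
  constructor
  · intro x hx i w h2
    exact (Nd.sup_some hC).2 ⟨x, hx, h2⟩
  · intro y hy i w h2
    obtain ⟨x, hx, h3⟩ := (Nd.sup_some hC).1 h2
    exact hy hx i w h3

/-- a node as a condition -/
def Nd.toCond (s : Nd K W) : Cond K K W where
  f := s.f
  sm := (sm_Iio s.len).mono fun i hi => (s.dom i).1 hi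

/-- Nodes of any length can be found below a given condition. -/
theorem Nd.exists_le [Nonempty W] (s : Nd K W) (p : Cond K K W) (h : p ≤ s.toCond) (b : K) :
    ∃ t ≤ s, t.toCond ≤ p ∧ b ≤ t.len := by
  classical
  obtain ⟨a, ha⟩ := p.sm.bdd
  let c := max (max a b) s.len
  have hc : ∀ i w, p.f i = some w → i < c := fun i w hi =>
    (ha i (by simp [hi])).trans_le ((le_max_left a b).trans (le_max_left _ _))
  let w0 : W := Classical.arbitrary W
  let t : Nd K W :=
    { f := fun i => if i < c then (p.f i).orElse fun _ => some w0 else none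
      len := c
      dom := by
        intro i
        split_ifs with h
        · simp only [h, iff_true]
          cases p.f i <;> simp
        · simp [h] }
  have h1 : t.toCond ≤ p := by
    intro i w hi
    show (if i < c then (p.f i).orElse fun _ => some w0 else none) = some w
    rw [if_pos (hc i w hi), hi]
    rfl
  refine ⟨t, ?_, h1, (le_max_right a b).trans (le_max_left _ _)⟩
  intro i w hi
  exact h1 i w (h i w hi)

theorem Nd.exists_long [Nonempty W] (s : Nd K W) (b : K) : ∃ t ≤ s, b ≤ t.len := by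
  obtain ⟨t, ht, _, h⟩ := s.exists_le s.toCond le_rfl b
  exact ⟨t, ht, h⟩

/-- The tree of nodes is densely embedded in the set of conditions. -/
theorem dm_toCond [Nonempty W] : DM (Nd.toCond (K := K) (W := W)) where
  mono := fun _ _ h => h
  lift := fun s p h => by
    obtain ⟨t, ht, h2, _⟩ := s.exists_le p h (bot K)
    exact ⟨t, ht, h2⟩
  refl := fun s t p h h' => by
    obtain ⟨r, hr, h2, _⟩ := s.exists_le p h (bot K)
    exact ⟨r, hr, fun i w hi => h2 i w (h' i w hi)⟩

end

/-! ### Changing the values -/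

section

variable {K I W : Type u} [LinearOrder K] [Kap K]

/-- changing the values of a condition by a permutation at each place -/
def Cond.map (τ : I → Equiv.Perm W) (p : Cond K I W) : Cond K I W where
  f := fun i => (p.f i).map (τ i)
  sm := p.sm.mono fun i hi => by
    simp only [mem_ofPred_eq, ne_eq, Option.map_eq_none_iff] at hi ⊢
    exact hi

/-- changing the values of a node by a permutation at each place -/
def Nd.map (τ : K → Equiv.Perm W) (p : Nd K W) : Nd K W where
  f := fun i => (p.f i).map (τ i)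
  len := p.len
  dom := fun i => by
    rw [← p.dom i]
    simp

theorem Cond.map_some {τ : I → Equiv.Perm W} {p : Cond K I W} {i : I} {w : W} :
    (p.map τ).f i = some w ↔ p.f i = some ((τ i).symm w) := by
  simp only [Cond.map, Option.map_eq_some_iff]
  constructor
  · rintro ⟨a, h, rfl⟩
    simpa using h
  · intro h
    exact ⟨_, h, by simp⟩

theorem Nd.map_some {τ : K → Equiv.Perm W} {p : Nd K W} {i : K} {w : W} :
    (p.map τ).f i = some w ↔ p.f i = some ((τ i).symm w) := by
  simp only [Nd.map, Option.map_eq_some_iff]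
  constructor
  · rintro ⟨a, h, rfl⟩
    simpa using h
  · intro h
    exact ⟨_, h, by simp⟩

theorem Cond.map_le {τ : I → Equiv.Perm W} {p q : Cond K I W} (h : p ≤ q) :
    p.map τ ≤ q.map τ := fun i w h2 => by
  rw [Cond.map_some] at h2 ⊢
  exact h i _ h2

theorem Nd.map_le {τ : K → Equiv.Perm W} {p q : Nd K W} (h : p ≤ q) :
    p.map τ ≤ q.map τ := fun i w h2 => by
  rw [Nd.map_some] at h2 ⊢
  exact h i _ h2

theorem Cond.map_map (τ : I → Equiv.Perm W) (p : Cond K I W) :
    (p.map τ).map (fun i => (τ i).symm) = p := by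
  apply Cond.ext
  funext i
  simp [Cond.map]

theorem Nd.map_map (τ : K → Equiv.Perm W) (p : Nd K W) :
    (p.map τ).map (fun i => (τ i).symm) = p := by
  apply Nd.ext'
  intro i
  simp [Nd.map]

theorem Cond.map_map' (τ : I → Equiv.Perm W) (p : Cond K I W) :
    (p.map (fun i => (τ i).symm)).map τ = p := by
  apply Cond.ext
  funext i
  simp [Cond.map]

theorem Nd.map_map' (τ : K → Equiv.Perm W) (p : Nd K W) :
    (p.map (fun i => (τ i).symm)).map τ = p := by
  apply Nd.ext'
  intro i
  simp [Nd.map]

end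

end Pool.Agent.H641
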