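import Pool.Agent.H867.FT.Gen2

/-!
# XRG: the powers of the variables are regular sequences in the power series ring
-/

set_option autoImplicit false

namespace Pool.Agent.H641.FT867XRG

open MvPowerSeries Pool.Agent.H867.FT

variable {k : Type} [Field k] {d : ℕ}

/-- a member of the ideal of the `X_j ^ s`, `j < n`, has no monomial with all exponents below `s` -/
lemma coeff_zero {n s : ℕ} {g : MvPowerSeries (Fin d) k}
    (hg : g ∈ Ideal.span {y | ∃ j : Fin d, j.val < n ∧ y = (X j : MvPowerSeries (Fin d) k) ^ s})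
    (m : Fin d →₀ ℕ) (hm : ∀ j : Fin d, j.val < n → m j < s) : coeff m g = 0 := by
  induction hg using Submodule.span_induction generalizing m with
  | mem y hy =>
    obtain ⟨j, hj, rfl⟩ := hy
    exact X_pow_dvd_iff.1 dvd_rfl m (hm j hj)
  | zero => exact map_zero _
  | add a b _ _ ha hb => rw [map_add, ha m hm, hb m hm, add_zero]
  | smul r a _ ha =>
    classical
    rw [smul_eq_mul, coeff_mul]
    refine Finset.sum_eq_zero fun p hp => ?_
    rw [ha p.2 fun j hj => ?_, mul_zero]
    have h1 : p.1 + p.2 = m := Finset.HasAntidiagonal.mem_antidiagonal.1 hp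
    have h2 : p.2 j ≤ m j := by
      rw [← h1, Finsupp.add_apply]
      exact Nat.le_add_left _ _
    exact h2.trans_lt (hm j hj)

open Classical in
/-- a power series without a monomial with all exponents below `s` is in the ideal -/
lemma mem_span (n : ℕ) {s : ℕ} : ∀ g : MvPowerSeries (Fin d) k,
    (∀ m : Fin d →₀ ℕ, (∀ j : Fin d, j.val < n → m j < s) → coeff m g = 0) →
    g ∈ Ideal.span {y | ∃ j : Fin d, j.val < n ∧ y = (X j : MvPowerSeries (Fin d) k) ^ s} := by
  induction n with
  | zero =>
    intro g hg
    have : g = 0 := by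
      ext m
      rw [hg m fun j hj => absurd hj (Nat.not_lt_zero _), map_zero]
    rw [this]
    exact Ideal.zero_mem _
  | succ n ih =>
    intro g hg
    have hmono : Ideal.span {y | ∃ j : Fin d, j.val < n ∧ y = (X j : MvPowerSeries (Fin d) k) ^ s} ≤
        Ideal.span {y | ∃ j : Fin d, j.val < n + 1 ∧ y = (X j : MvPowerSeries (Fin d) k) ^ s} :=
      Ideal.span_mono fun y ⟨j, hj, hy⟩ => ⟨j, by omega, hy⟩
    by_cases hn : n < d
    · let g1 : MvPowerSeries (Fin d) k := fun m => if m ⟨n, hn⟩ < s then 0 else coeff m g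
      let g2 : MvPowerSeries (Fin d) k := fun m => if m ⟨n, hn⟩ < s then coeff m g else 0
      have h1 : ∀ m, coeff m g1 = if m ⟨n, hn⟩ < s then 0 else coeff m g := fun m => rfl
      have h2 : ∀ m, coeff m g2 = if m ⟨n, hn⟩ < s then coeff m g else 0 := fun m => rfl
      have h3 : g = g1 + g2 := by
        ext m
        rw [map_add, h1, h2]
        split
        · rw [zero_add]
        · rw [add_zero]
      rw [h3]
      refine Ideal.add_mem _ ?_ (hmono (ih g2 fun m hm => ?_))
      · have h4 : (X ⟨n, hn⟩ : MvPowerSeries (Fin d) k) ^ s ∣ g1 :=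
          X_pow_dvd_iff.2 fun m hm => by rw [h1, if_pos hm]
        exact Ideal.mem_of_dvd _ h4 (Ideal.subset_span ⟨⟨n, hn⟩, Nat.lt_succ_self n, rfl⟩)
      · rw [h2]
        split
        · rename_i h5
          refine hg m fun j hj => ?_
          rcases Nat.lt_succ_iff_lt_or_eq.1 hj with h6 | h6
          · exact hm j h6
          · have : j = ⟨n, hn⟩ := Fin.ext h6
            rw [this]
            exact h5
        · rfl
    · refine hmono (ih g fun m hm => hg m fun j hj => hm j ?_)
      have := j.2
      omega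

lemma set_eq (s : ℕ) (i : Fin d) :
    {y | ∃ j, j < i ∧ y = (X j : MvPowerSeries (Fin d) k) ^ s} =
    {y | ∃ j : Fin d, j.val < i.val ∧ y = (X j : MvPowerSeries (Fin d) k) ^ s} := rfl

theorem xrg : S_XRG := by
  intro k _ d
  rw [Ideal.eq_top_iff_one]
  intro s i a hs ha
  rw [one_mul]
  rw [set_eq] at ha ⊢
  refine mem_span i.val a fun m hm => ?_
  classical
  have h1 := coeff_zero ha (m + Finsupp.single i s) fun j hj => by
    rw [Finsupp.add_apply, Finsupp.single_eq_of_ne (by
      intro e
      rw [e] at hj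
      exact lt_irrefl _ hj), add_zero]
    exact hm j hj
  rw [X_pow_eq, add_comm m, coeff_add_monomial_mul, one_mul] at h1
  exact h1

end Pool.Agent.H641.FT867XRG
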