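import Pool.Agent.H641.Names

/-!
# Full-Miller measurability of the sets definable from ordinals in a Cohen extension
-/

set_option linter.unusedSectionVars false

namespace Pool.Agent.H641

open Cardinal Set

universe u v w

section

variable (K : Type u) [LinearOrder K] [Kap K] (P : Type u) [Preorder P]

/-- No new sequences of length less than `K`: every function from `K` to `X` in the extension
agrees below each `b` with a function of the ground model. -/
def NoNew (X : Type v) : Set P :=
  fall fun z : K → X → Set P => fimp (IsFun z)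
    (fall fun b : K => fex fun g : K → X => fall fun i : K => fall fun _ : i < b =>
      meets (z i (g i)))

/-- `K` is regular in the extension: every function from a proper initial segment of `K` to `K`
is bounded. -/
def StaysRegular : Set P :=
  fall fun b : K => fall fun h : Iio b → K → Set P => fimp (IsFun h)
    (fex fun a : K => fall fun i => fall fun j => fimp (meets (h i j)) (fground (j < a)))

/-- In the extension there is a map from `K` onto the set of the nodes. -/
def FewNodes : Set P :=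
  fex fun R : K → Nd K K → Set P => fand (IsFun R) (fall fun u => fex fun c => meets (R c u))

variable {K P}

/-- In the extension, the set of the functions `z` from `K` to `K` which satisfy `φ` with the
parameter `y` is full-Miller measurable: every full Miller tree `T` includes a full Miller tree `S`
such that all branches of `S` are in the set or all branches of `S` are outside of it. -/
noncomputable def Meas {Y : Type u} [LinearOrder Y] [WellFoundedLT Y] (φ : Fml)
    (y : K → Y → Set P) : Set P :=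
  fall fun T : Nd K K → Set P => fimp (FM T) (fex fun S : Nd K K → Set P =>
    fand (FM S) (fand (Sub S T) (foor
      (fall fun z : K → K → Set P => fimp (fand (IsFun z) (InBr z S)) (holds φ z y))
      (fall fun z : K → K → Set P => fimp (fand (IsFun z) (InBr z S)) (fnot (holds φ z y))))))

variable (K P)

/-- In the extension, every set of functions from `K` to `K` which is definable by a first-order
formula with a parameter from `K` to the ordinals is full-Miller measurable. -/
noncomputable def AllMeas : Set P :=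
  fall fun φ : Fml => fall fun θ : Ordinal.{u} => fall fun y : K → θ.ToType → Set P =>
    fimp (IsFun y) (Meas φ y)

end

section

variable {K J W : Type u} [LinearOrder K] [Kap K]

theorem noNew (X : Type v) (p : Cond K J W) : p ∈ NoNew K (Cond K J W) X := by
  intro z
  refine (((sent_fall fun b => sent_fex).mem_fimp (sent_IsFun z).down).2 ?_)
  intro q _ hf b
  rw [mem_fex]
  intro q' hq'
  have hcl : Clo K (Cond K J W) := gclo_cond.clo
  obtain ⟨f, hfs⟩ := hcl.seq q' (fun c _ y => ∃ x, y ∈ meets (z c x)) (by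
    intro c l hl
    exact IsFun.total ((sent_IsFun z).down _ hf _ (hl.trans hq')) c)
  obtain ⟨l, hl, h1, _, _⟩ := hfs b
  have h2 : ∀ c, ∃ x, f c ∈ meets (z c x) := fun c => by
    obtain ⟨_, _, _, _, h⟩ := hfs c
    exact h
  choose g hg using h2
  exact ⟨l, hl, g, fun i hi => down_meets _ _ (hg i) _ (h1 i hi)⟩

theorem staysRegular (p : Cond K J W) : p ∈ StaysRegular K (Cond K J W) := by
  intro b h
  refine ((sent_fex).mem_fimp (sent_IsFun h).down).2 ?_
  intro q _ hf
  rw [mem_fex]
  intro q' hq'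
  have hcl : Clo K (Cond K J W) := gclo_cond.clo
  obtain ⟨f, hfs⟩ := hcl.seq q' (fun c _ y => ∀ hc : c < b, ∃ x, y ∈ meets (h ⟨c, hc⟩ x)) (by
    intro c l hl
    by_cases hc : c < b
    · obtain ⟨y, hy, x, hx⟩ := IsFun.total ((sent_IsFun h).down _ hf _ (hl.trans hq')) ⟨c, hc⟩
      exact ⟨y, hy, fun _ => ⟨x, hx⟩⟩
    · exact ⟨l, le_rfl, fun h' => absurd h' hc⟩)
  obtain ⟨l, hl, h1, _, _⟩ := hfs b
  have h2 : ∀ c : Iio b, ∃ x, f c.1 ∈ meets (h c x) := fun c => by
    obtain ⟨_, _, _, _, h⟩ := hfs c.1
    exact h c.2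
  choose g hg using h2
  have h3 : Sm K (range g) := by
    have : #(range g) ≤ #(Iio b) := mk_range_le
    exact this.trans_lt (sm_Iio b)
  obtain ⟨a, ha⟩ := h3.bdd
  refine ⟨l, hl, a, fun i j => ?_⟩
  refine ((sent_fground _).mem_fimp (down_meets _)).2 fun r hr hr' => ?_
  have h4 : r ∈ meets (h i (g i)) := down_meets _ _ (hg i) _ (hr.trans (h1 i.1 i.2))
  have h5 := IsFun.unique ((sent_IsFun h).down _ hf _ ((hr.trans hl).trans hq')) h4 hr'
  show j < a
  rw [← h5]
  exact ha _ ⟨i, rfl⟩

theorem fewNodes (hW : Big K W) (hJ : #W < #J) (p : Cond K J W) :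
    p ∈ FewNodes K (Cond K J W) := by
  obtain ⟨a⟩ := (Cardinal.le_def _ _).1 (hW.le.trans hJ.le)
  obtain ⟨g⟩ := (Cardinal.le_def _ _).1 hW.nd
  have hne : Nonempty (Nd K K) := ⟨Nd.root K K⟩
  let dec : W → Nd K K := Function.invFun g
  have hdec : ∀ u, dec (g u) = u := Function.leftInverse_invFun g.injective
  let R : K → Nd K K → Set (Cond K J W) := fun c u => {q | ∃ w, q.f (a c) = some w ∧ dec w = u}
  have hR : ∀ (q : Cond K J W) c w, q.f (a c) = some w → ∀ u, q ∈ meets (R c u) → u = dec w := by
    intro q c w hw u hu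
    obtain ⟨r, hr, s, ⟨w', hw', h1⟩, hs⟩ := hu q le_rfl
    have h2 := hs _ _ hw'
    rw [hr _ _ hw] at h2
    rw [← h1, Option.some.inj h2]
  apply mem_fex_of_mem R
  · exact down_fand (sent_IsFun R).down (down_fall fun _ => (sent_fex).down)
  · refine ⟨⟨fun c => ?_, fun c u u' => ?_⟩, fun u => ?_⟩
    · rw [mem_fex]
      intro q _
      cases h : q.f (a c) with
      | none =>
        refine ⟨q.ov (Cond.single (a c) (g (Nd.root K K))), Cond.ov_le _ _, Nd.root K K, ?_⟩
        apply meets_of_mem
        exact ⟨_, Cond.ov_some.2 (Or.inr ⟨h, Cond.single_some.2 ⟨rfl, rfl⟩⟩), hdec _⟩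
      | some w => exact ⟨q, le_rfl, dec w, meets_of_mem ⟨w, h, rfl⟩⟩
    · refine ((sent_fground _).mem_fimp (down_fand (down_meets _) (down_meets _))).2 ?_
      intro q _ h
      show u = u'
      obtain ⟨r, hr, s, ⟨w, hw, _⟩, hs⟩ := h.1 q le_rfl
      have h2 := hs _ _ hw
      rw [hR r c w h2 u (down_meets _ _ h.1 _ hr), hR r c w h2 u' (down_meets _ _ h.2 _ hr)]
    · rw [mem_fex]
      intro q _
      have h1 : Sm K (a ⁻¹' {i | q.f i ≠ none}) := q.sm.preimage a.injective
      obtain ⟨c, hc⟩ := h1.bdd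
      have h2 : q.f (a c) = none := by
        by_contra h
        exact absurd (hc c h) (lt_irrefl _)
      refine ⟨q.ov (Cond.single (a c) (g u)), Cond.ov_le _ _, c, ?_⟩
      apply meets_of_mem
      exact ⟨_, Cond.ov_some.2 (Or.inr ⟨h2, Cond.single_some.2 ⟨rfl, rfl⟩⟩), hdec _⟩

/-- below a condition, a statement only depends on the names below this condition -/
theorem holds_local {Y : Type u} [LinearOrder Y] [WellFoundedLT Y] {P : Type u} [Preorder P]
    (φ : Fml) (z : K → K → Set P) (y y' : K → Y → Set P) (p0 : P)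
    (h : ∀ q ≤ p0, ∀ a b, q ∈ meets (y a b) ↔ q ∈ meets (y' a b)) (q : P) (hq : q ≤ p0) :
    q ∈ holds φ z y ↔ q ∈ holds φ z y' := by
  have hdm := dm_below p0
  have h1 : ∀ a b, meets (pull (fun q : {q : P // q ≤ p0} => q.1) (y a b)) =
      meets (pull (fun q : {q : P // q ≤ p0} => q.1) (y' a b)) := by
    intro a b
    rw [← hdm.toOpn.pre_meets, ← hdm.toOpn.pre_meets]
    ext x
    exact h x.1 x.2 a b
  have h2 : (fun q : {q : P // q ≤ p0} => q.1) ⁻¹' holds φ z y =
      (fun q : {q : P // q ≤ p0} => q.1) ⁻¹' holds φ z y' := by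
    rw [holds_nat hdm, holds_nat hdm]
    exact holds_congr φ (fun _ _ => rfl) h1
  exact Set.ext_iff.1 h2 ⟨q, hq⟩

theorem meas (hW : Big K W) (hJ : #W < #J) {Y : Type u} [LinearOrder Y] [WellFoundedLT Y]
    (φ : Fml) (y : K → Y → Set (Cond K J W)) (p : Cond K J W) (hp : p ∈ IsFun y) :
    p ∈ Meas φ y := by
  classical
  intro T
  refine ((sent_fex).mem_fimp (sent_FM T).down).2 ?_
  intro q hq hT
  rw [mem_fex]
  intro p0 hp0
  have hT0 : IsFM T p0 := down_IsFM (mem_FM.1 hT) hp0
  have hf0 : p0 ∈ IsFun y := (sent_IsFun y).down _ hp _ (hp0.trans hq)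
  obtain ⟨a⟩ := (Cardinal.le_def _ _).1 (hW.le.trans hJ.le)
  let A0 : Set J := range a ∪ {i | p0.f i ≠ none}
  have hA0 : #A0 ≤ #W := hW.union (mk_range_le.trans hW.le) (p0.sm.le.trans hW.le)
  have hι : #(K ⊕ Nd K K) ≤ #W := by
    rw [mk_sum, lift_id, lift_id]
    exact (add_le_add hW.le hW.nd).trans (add_eq_self hW.inf).le
  obtain ⟨A, hAA, hA, hcl⟩ := exists_closed hW A0 hA0 hι
    (fun (i : K ⊕ Nd K K) (d : Cond K J W) => Sum.elim
      (fun i => if h : ∃ d' ≤ d, ∃ j, d' ∈ meets (y i j) then h.choose else d)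
      (fun u => if h : ∃ d' ≤ d, d' ∈ meets (T u) then h.choose else d) i)
  have hp0A : p0.In A := fun i hi => hAA (Or.inr hi)
  have hsT : ∀ q ≤ p0, ∀ u, q ∈ meets (T u) → q.res A ∈ meets (T u) := by
    intro q hq u
    refine supp_of_dec (sent_meets (T u)) p0 hp0A ?_ q hq
    intro r _ hrA
    by_cases h : ∃ d' ≤ r, d' ∈ meets (T u)
    · have h2 := hcl (Sum.inr u) r hrA
      simp only [Sum.elim_inr] at h2
      rw [dif_pos h] at h2
      exact ⟨h.choose, h.choose_spec.1, h2, Or.inl h.choose_spec.2⟩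
    · exact ⟨r, le_rfl, hrA, Or.inr fun s hs hs' => h ⟨s, hs, hs'⟩⟩
  have hsy : ∀ q ≤ p0, ∀ i j, q ∈ meets (y i j) → q.res A ∈ meets (y i j) := by
    refine supp_of_fun p0 hp0A hf0 ?_
    intro r hr hrA i
    obtain ⟨d', hd', j, hj⟩ := IsFun.total ((sent_IsFun y).down _ hf0 _ hr) i
    have h1 : ∃ d' ≤ r, ∃ j, d' ∈ meets (y i j) := ⟨d', hd', j, hj⟩
    have h2 := hcl (Sum.inl i) r hrA
    simp only [Sum.elim_inl] at h2
    rw [dif_pos h1] at h2
    exact ⟨h1.choose, h1.choose_spec.1, h2, h1.choose_spec.2⟩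
  obtain ⟨r, hr, S, hS, hST, hor⟩ := main_tree hW hJ A hA a a.injective
    (fun c => hAA (Or.inl ⟨c, rfl⟩)) T p0 hT0 hp0A hsT (pdF φ fun i j => meets (y i j))
  have hloc : ∀ z : K → K → Set (Cond K J W), ∀ q ≤ p0,
      (q ∈ holds φ z y ↔ q ∈ (pdF φ fun i j => meets (y i j)).val _ (Cond.res A) z) := by
    intro z q hq
    refine holds_local φ z _ _ p0 ?_ q hq
    intro s hs a b
    constructor
    · intro h1
      exact meets_of_mem ⟨_, hsy s hs a b h1, le_rfl⟩
    · intro h1
      apply (sent_meets _).rg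
      intro s' hs'
      obtain ⟨t, ht, t', ⟨m, hm, hmle⟩, hle⟩ := h1 s' hs'
      refine ⟨t, ht, ?_⟩
      exact down_meets _ _ hm _ ((hle.trans (Cond.le_res A t')).trans hmle)
  refine ⟨r, hr, S, mem_FM.2 hS, ?_, ?_⟩
  · intro u
    exact ((sent_meets _).mem_fimp (down_meets _)).2 fun q hq hu => hST q hq u hu
  · apply mem_foor.2
    intro q hq
    refine ⟨q, le_rfl, ?_⟩
    rcases hor with h | h
    · left
      intro z
      refine ((sent_holds φ z y).mem_fimp
        (down_fand (sent_IsFun z).down (sent_fall fun u => sent_fimp (sent_Init u z).down).down)).2 ?_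
      intro s hs h2
      exact (hloc z s ((hs.trans hq).trans hr)).2 (h z s (hs.trans hq) h2.1 h2.2)
    · right
      intro z
      refine ((sent_fnot (sent_holds φ z y).down).mem_fimp
        (down_fand (sent_IsFun z).down (sent_fall fun u => sent_fimp (sent_Init u z).down).down)).2 ?_
      intro s hs h2 t ht ht'
      exact h z s (hs.trans hq) h2.1 h2.2 t ht
        ((hloc z t (((ht.trans hs).trans hq).trans hr)).1 ht')

theorem allMeas (hW : Big K W) (hJ : #W < #J) (p : Cond K J W) :
    p ∈ AllMeas K (Cond K J W) := by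
  intro φ θ y
  have hs : Sent (Meas φ y) := sent_fall fun T => sent_fimp (sent_FM T).down
  exact (hs.mem_fimp (sent_IsFun y).down).2 fun q _ hf => meas hW hJ φ y q hf

end

end Pool.Agent.H641
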