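import Pool.Agent.H641.Basic

/-!
# The forcing relation

A sentence of the forcing language of a preordered set `P` of conditions is represented by the
set of the conditions which force it. Negation, conjunction and universal quantification are the
primitive connectives, with their usual forcing clauses; the other connectives are defined from
them classically. A name for a subset of a ground model set `X` is a map sending `x : X` to the
set of the conditions attached to `x`.
-/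

set_option linter.unusedSectionVars false

namespace Pool.Agent.H641

universe u v w x

section

variable {P : Type u} [Preorder P]

/-- `p` forces `not φ` iff no `q ≤ p` forces `φ`. -/
def fnot (φ : Set P) : Set P := {p | ∀ q ≤ p, q ∉ φ}

/-- `p` forces `φ and ψ` iff it forces both. -/
def fand (φ ψ : Set P) : Set P := {p | p ∈ φ ∧ p ∈ ψ}

/-- `p` forces `for all i, φ i` iff it forces every `φ i`. -/
def fall {ι : Sort v} (φ : ι → Set P) : Set P := {p | ∀ i, p ∈ φ i}

/-- `φ implies ψ` is `not (φ and not ψ)`. -/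
def fimp (φ ψ : Set P) : Set P := fnot (fand φ (fnot ψ))

/-- `φ or ψ` is `not (not φ and not ψ)`. -/
def foor (φ ψ : Set P) : Set P := fnot (fand (fnot φ) (fnot ψ))

/-- `there is i with φ i` is `not for all i, not φ i`. -/
def fex {ι : Sort v} (φ : ι → Set P) : Set P := fnot (fall fun i => fnot (φ i))

/-- An absolute statement about ground model objects. -/
def fground (h : Prop) : Set P := {_p | h}

/-- `p` forces that the generic filter meets the set `N` of conditions:
the set of `r` lying below some member of `N` is dense below `p`. -/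
def meets (N : Set P) : Set P := {p | ∀ q ≤ p, ∃ r ≤ q, ∃ s ∈ N, r ≤ s}

/-- The relation named by `R` is a function from `X` to `Y`. -/
def IsFun {X : Type v} {Y : Type w} (R : X → Y → Set P) : Set P :=
  fand (fall fun x => fex fun y => meets (R x y))
    (fall fun x => fall fun y => fall fun y' =>
      fimp (fand (meets (R x y)) (meets (R x y'))) (fground (y = y')))

theorem mem_fnot {φ : Set P} {p : P} : p ∈ fnot φ ↔ ∀ q ≤ p, q ∉ φ := Iff.rfl

theorem mem_fex {ι : Sort v} {φ : ι → Set P} {p : P} :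
    p ∈ fex φ ↔ ∀ q ≤ p, ∃ r ≤ q, ∃ i, r ∈ φ i := by
  simp only [fex, fnot, fall, Set.mem_ofPred_eq, not_forall, not_not]
  constructor
  · intro h q hq
    obtain ⟨i, r, hr, h'⟩ := h q hq
    exact ⟨r, hr, i, h'⟩
  · intro h q hq
    obtain ⟨r, hr, i, h'⟩ := h q hq
    exact ⟨i, r, hr, h'⟩

theorem mem_fimp {φ ψ : Set P} {p : P} :
    p ∈ fimp φ ψ ↔ ∀ q ≤ p, q ∈ φ → ∃ r ≤ q, r ∈ ψ := by
  simp only [fimp, fnot, fand, Set.mem_ofPred_eq, not_and, not_forall, not_not]
  constructor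
  · intro h q hq h'
    obtain ⟨r, hr, h''⟩ := h q hq h'
    exact ⟨r, hr, h''⟩
  · intro h q hq h'
    obtain ⟨r, hr, h''⟩ := h q hq h'
    exact ⟨r, hr, h''⟩

theorem mem_foor {φ ψ : Set P} {p : P} :
    p ∈ foor φ ψ ↔ ∀ q ≤ p, ∃ r ≤ q, r ∈ φ ∨ r ∈ ψ := by
  simp only [foor, fnot, fand, Set.mem_ofPred_eq, not_and, not_forall, not_not]
  constructor
  · intro h q hq
    by_cases h1 : ∀ r ≤ q, r ∉ φ
    · obtain ⟨r, hr, h''⟩ := h q hq h1
      exact ⟨r, hr, Or.inr h''⟩
    · push Not at h1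
      obtain ⟨r, hr, h''⟩ := h1
      exact ⟨r, hr, Or.inl h''⟩
  · intro h q hq h'
    obtain ⟨r, hr, h''⟩ := h q hq
    rcases h'' with h'' | h''
    · exact absurd h'' (h' r hr)
    · exact ⟨r, hr, h''⟩

theorem mem_fand {φ ψ : Set P} {p : P} : p ∈ fand φ ψ ↔ p ∈ φ ∧ p ∈ ψ := Iff.rfl

theorem mem_fall {ι : Sort v} {φ : ι → Set P} {p : P} : p ∈ fall φ ↔ ∀ i, p ∈ φ i := Iff.rfl

theorem mem_fground {h : Prop} {p : P} : p ∈ fground (P := P) h ↔ h := Iff.rfl

theorem mem_meets {N : Set P} {p : P} : p ∈ meets N ↔ ∀ q ≤ p, ∃ r ≤ q, ∃ s ∈ N, r ≤ s := Iff.rfl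

/-- The statement `φ` is preserved by passing to stronger conditions. -/
def Down (φ : Set P) : Prop := ∀ p ∈ φ, ∀ q ≤ p, q ∈ φ

/-- A statement which holds densely below `p` holds at `p`. -/
def Rg (φ : Set P) : Prop := ∀ p, (∀ q ≤ p, ∃ r ≤ q, r ∈ φ) → p ∈ φ

/-- A sentence of the forcing language. -/
structure Sent (φ : Set P) : Prop where
  down : Down φ
  rg : Rg φ

theorem down_fnot (φ : Set P) : Down (fnot φ) :=
  fun _ hp _ hq r hr => hp r (hr.trans hq)

theorem down_fand {φ ψ : Set P} (h : Down φ) (h' : Down ψ) : Down (fand φ ψ) :=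
  fun _ hp _ hq => ⟨h _ hp.1 _ hq, h' _ hp.2 _ hq⟩

theorem down_fall {ι : Sort v} {φ : ι → Set P} (h : ∀ i, Down (φ i)) : Down (fall φ) :=
  fun _ hp _ hq i => h i _ (hp i) _ hq

theorem down_fex {ι : Sort v} (φ : ι → Set P) : Down (fex φ) := down_fnot _

theorem down_fimp (φ ψ : Set P) : Down (fimp φ ψ) := down_fnot _

theorem down_fground (h : Prop) : Down (fground (P := P) h) := fun _ hp _ _ => hp

theorem down_meets (N : Set P) : Down (meets N) :=
  fun _ hp _ hq r hr => hp r (hr.trans hq)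

theorem sent_fnot {φ : Set P} (h : Down φ) : Sent (fnot φ) :=
  ⟨down_fnot _, fun p hp q hq hq' => by
    obtain ⟨r, hr, h'⟩ := hp q hq
    exact h' r le_rfl (h _ hq' _ hr)⟩

theorem sent_fand {φ ψ : Set P} (h : Sent φ) (h' : Sent ψ) : Sent (fand φ ψ) :=
  ⟨down_fand h.down h'.down, fun p hp =>
    ⟨h.rg p fun q hq => by
      obtain ⟨r, hr, h2⟩ := hp q hq
      exact ⟨r, hr, h2.1⟩,
    h'.rg p fun q hq => by
      obtain ⟨r, hr, h2⟩ := hp q hq
      exact ⟨r, hr, h2.2⟩⟩⟩

theorem sent_fall {ι : Sort v} {φ : ι → Set P} (h : ∀ i, Sent (φ i)) : Sent (fall φ) :=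
  ⟨down_fall fun i => (h i).down, fun p hp i => (h i).rg p fun q hq => by
    obtain ⟨r, hr, h2⟩ := hp q hq
    exact ⟨r, hr, h2 i⟩⟩

theorem sent_fimp {φ ψ : Set P} (h : Down φ) : Sent (fimp φ ψ) :=
  sent_fnot (down_fand h (down_fnot _))

theorem sent_foor {φ ψ : Set P} : Sent (foor φ ψ) :=
  sent_fnot (down_fand (down_fnot _) (down_fnot _))

theorem sent_fex {ι : Sort v} {φ : ι → Set P} : Sent (fex φ) :=
  sent_fnot (down_fall fun _ => down_fnot _)

theorem sent_fground (h : Prop) : Sent (fground (P := P) h) :=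
  ⟨down_fground h, fun p hp => (hp p le_rfl).choose_spec.2⟩

theorem sent_meets (N : Set P) : Sent (meets N) :=
  ⟨down_meets N, fun p hp q hq => by
    obtain ⟨r, hr, h⟩ := hp q hq
    obtain ⟨s, hs, h2⟩ := h r le_rfl
    exact ⟨s, hs.trans hr, h2⟩⟩

theorem sent_IsFun {X : Type v} {Y : Type w} (R : X → Y → Set P) : Sent (IsFun R) :=
  sent_fand (sent_fall fun _ => sent_fex)
    (sent_fall fun _ => sent_fall fun _ => sent_fall fun _ =>
      sent_fimp (down_fand (down_meets _) (down_meets _)))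

theorem Sent.mem_fimp {φ ψ : Set P} (h' : Sent ψ) (h : Down φ) {p : P} :
    p ∈ fimp φ ψ ↔ ∀ q ≤ p, q ∈ φ → q ∈ ψ := by
  rw [H641.mem_fimp]
  constructor
  · intro h1 q hq h2
    exact h'.rg q fun r hr => h1 r (hr.trans hq) (h _ h2 _ hr)
  · intro h1 q hq h2
    exact ⟨q, le_rfl, h1 q hq h2⟩

theorem fnot_fnot {φ : Set P} (h : Sent φ) : fnot (fnot φ) = φ := by
  ext p
  constructor
  · intro hp
    apply h.rg p
    intro q hq
    have := hp q hq
    simp only [fnot, Set.mem_ofPred_eq, not_forall, not_not] at this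
    obtain ⟨r, hr, h2⟩ := this
    exact ⟨r, hr, h2⟩
  · intro hp q hq h2
    exact h2 q le_rfl (h.down _ hp _ hq)

theorem meets_of_mem {N : Set P} {p : P} (h : p ∈ N) : p ∈ meets N :=
  fun q hq => ⟨q, le_rfl, p, h, hq⟩

theorem meets_of_le {N : Set P} {p s : P} (hs : s ∈ N) (h : p ≤ s) : p ∈ meets N :=
  fun q hq => ⟨q, le_rfl, s, hs, hq.trans h⟩

theorem meets_eq {N : Set P} (h : Sent N) : meets N = N := by
  ext p
  constructor
  · intro hp
    apply h.rg p
    intro q hq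
    obtain ⟨r, hr, s, hs, h2⟩ := hp q hq
    exact ⟨r, hr, h.down _ hs _ h2⟩
  · exact meets_of_mem

theorem meets_meets (N : Set P) : meets (meets N) = meets N := meets_eq (sent_meets N)

theorem mem_fex_of_mem {ι : Sort v} {φ : ι → Set P} {p : P} (i : ι) (hd : Down (φ i))
    (h : p ∈ φ i) : p ∈ fex φ :=
  mem_fex.2 fun q hq => ⟨q, le_rfl, i, hd _ h _ hq⟩

theorem IsFun.total {X : Type v} {Y : Type w} {R : X → Y → Set P} {p : P} (h : p ∈ IsFun R)
    (x : X) : ∃ q ≤ p, ∃ y, q ∈ meets (R x y) := mem_fex.1 (h.1 x) p le_rfl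

theorem IsFun.unique {X : Type v} {Y : Type w} {R : X → Y → Set P} {p : P} (h : p ∈ IsFun R)
    {x : X} {y y' : Y} (h1 : p ∈ meets (R x y)) (h2 : p ∈ meets (R x y')) : y = y' := by
  obtain ⟨r, _, hr⟩ := H641.mem_fimp.1 (h.2 x y y') p le_rfl ⟨h1, h2⟩
  exact hr

end

/-! ### Maps between sets of conditions -/

section

variable {Q : Type u} {P : Type v} [Preorder Q] [Preorder P]

/-- The name for a subset of the ground model obtained by composing with `f`. -/
def pull (f : Q → P) (N : Set P) : Set Q := {q | ∃ p ∈ N, f q ≤ p}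

/-- Monotone, and every condition below an image can be reached. -/
structure Opn (f : Q → P) : Prop where
  mono : ∀ q q', q' ≤ q → f q' ≤ f q
  lift : ∀ q p, p ≤ f q → ∃ q' ≤ q, f q' ≤ p

/-- A map which identifies the forcing `Q` with a dense part of an open part of `P`. -/
structure DM (f : Q → P) : Prop extends Opn f where
  refl : ∀ q q' p, p ≤ f q → p ≤ f q' → ∃ r, r ≤ q ∧ r ≤ q'

theorem Opn.pre_fnot {f : Q → P} (hf : Opn f) {φ : Set P} (h : Down φ) :
    f ⁻¹' fnot φ = fnot (f ⁻¹' φ) := by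
  ext q
  constructor
  · intro hq q' hq' h'
    exact hq _ (hf.mono _ _ hq') h'
  · intro hq p hp h'
    obtain ⟨q', hq', h2⟩ := hf.lift q p hp
    exact hq q' hq' (h _ h' _ h2)

theorem pre_fand {f : Q → P} {φ ψ : Set P} : f ⁻¹' fand φ ψ = fand (f ⁻¹' φ) (f ⁻¹' ψ) := rfl

theorem pre_fall {f : Q → P} {ι : Sort w} {φ : ι → Set P} :
    f ⁻¹' fall φ = fall fun i => f ⁻¹' φ i := rfl

theorem pre_fground {f : Q → P} {h : Prop} : f ⁻¹' fground h = fground h := rfl

theorem Opn.pre_fimp {f : Q → P} (hf : Opn f) {φ ψ : Set P} (h : Down φ) (h' : Down ψ) :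
    f ⁻¹' fimp φ ψ = fimp (f ⁻¹' φ) (f ⁻¹' ψ) := by
  unfold fimp
  rw [hf.pre_fnot (down_fand h (down_fnot _)), pre_fand, hf.pre_fnot h']

theorem Opn.pre_foor {f : Q → P} (hf : Opn f) {φ ψ : Set P} (h : Down φ) (h' : Down ψ) :
    f ⁻¹' foor φ ψ = foor (f ⁻¹' φ) (f ⁻¹' ψ) := by
  unfold foor
  rw [hf.pre_fnot (down_fand (down_fnot _) (down_fnot _)), pre_fand, hf.pre_fnot h',
    hf.pre_fnot h]

theorem Opn.pre_fex {f : Q → P} (hf : Opn f) {ι : Sort w} {φ : ι → Set P}
    (h : ∀ i, Down (φ i)) : f ⁻¹' fex φ = fex fun i => f ⁻¹' φ i := by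
  unfold fex
  rw [hf.pre_fnot (down_fall fun _ => down_fnot _), pre_fall]
  congr 2
  ext i : 1
  rw [hf.pre_fnot (h i)]

theorem Opn.pre_meets {f : Q → P} (hf : Opn f) (N : Set P) :
    f ⁻¹' meets N = meets (pull f N) := by
  ext q
  constructor
  · intro h q' hq'
    obtain ⟨r, hr, s, hs, h2⟩ := h _ (hf.mono _ _ hq')
    obtain ⟨q'', hq'', h3⟩ := hf.lift q' r hr
    exact ⟨q'', hq'', q'', ⟨s, hs, h3.trans h2⟩, le_rfl⟩
  · intro h p hp
    obtain ⟨q', hq', h2⟩ := hf.lift q p hp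
    obtain ⟨r, hr, s, ⟨t, ht, h3⟩, h4⟩ := h q' hq'
    exact ⟨f r, (hf.mono _ _ hr).trans h2, t, ht, (hf.mono _ _ h4).trans h3⟩

theorem Opn.pre_IsFun {f : Q → P} (hf : Opn f) {X : Type w} {Y : Type x} (R : X → Y → Set P) :
    f ⁻¹' IsFun R = IsFun fun a b => pull f (R a b) := by
  unfold IsFun
  rw [pre_fand]
  congr 1
  · rw [pre_fall]
    congr 1
    ext a : 1
    rw [hf.pre_fex (fun _ => down_meets _)]
    simp only [hf.pre_meets]
  · simp only [pre_fall]
    congr 1; ext a : 1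
    congr 1; ext b : 1
    congr 1; ext c : 1
    rw [hf.pre_fimp (down_fand (down_meets _) (down_meets _)) (down_fground _), pre_fand,
      hf.pre_meets, hf.pre_meets, pre_fground]

theorem Down.pre {f : Q → P} (hf : Opn f) {φ : Set P} (h : Down φ) : Down (f ⁻¹' φ) :=
  fun _ hp _ hq => h _ hp _ (hf.mono _ _ hq)

theorem meets_pull_congr {f : Q → P} (hf : Opn f) {N N' : Set P} (h : meets N = meets N') :
    meets (pull f N) = meets (pull f N') := by
  rw [← hf.pre_meets, ← hf.pre_meets, h]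

theorem DM.meets_pull_image {f : Q → P} (hf : DM f) (N : Set Q) :
    meets (pull f (f '' N)) = meets N := by
  ext q
  constructor
  · intro h q' hq'
    obtain ⟨r, hr, s, ⟨t, ⟨n, hn, rfl⟩, h3⟩, h4⟩ := h q' hq'
    obtain ⟨r', h5, h6⟩ := hf.refl r n (f r) le_rfl ((hf.mono _ _ h4).trans h3)
    exact ⟨r', h5.trans hr, n, hn, h6⟩
  · intro h q' hq'
    obtain ⟨r, hr, s, hs, h2⟩ := h q' hq'
    exact ⟨r, hr, s, ⟨f s, ⟨s, hs, rfl⟩, le_rfl⟩, h2⟩

/-- Quantification over the names for subsets of a ground model set does not depend on the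
presentation of the forcing. -/
theorem DM.pre_fall_names {X : Type w} {f : Q → P} (hf : DM f) {φ : (X → Set P) → Set P}
    {ψ : (X → Set Q) → Set Q} (nat : ∀ z, f ⁻¹' φ z = ψ fun a => pull f (z a))
    (ext : ∀ z z', (∀ a, meets (z a) = meets (z' a)) → ψ z = ψ z') :
    f ⁻¹' fall φ = fall ψ := by
  ext q
  constructor
  · intro h z
    have h1 : q ∈ f ⁻¹' φ (fun a => f '' z a) := h _
    rw [nat] at h1
    rw [ext z _ fun a => (hf.meets_pull_image (z a)).symm]
    exact h1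
  · intro h z
    have h1 := h fun a => pull f (z a)
    rw [← nat] at h1
    exact h1

theorem DM.pre_fex_names {X : Type w} {f : Q → P} (hf : DM f) {φ : (X → Set P) → Set P}
    {ψ : (X → Set Q) → Set Q} (nat : ∀ z, f ⁻¹' φ z = ψ fun a => pull f (z a))
    (ext : ∀ z z', (∀ a, meets (z a) = meets (z' a)) → ψ z = ψ z')
    (hd : ∀ z, Down (φ z)) :
    f ⁻¹' fex φ = fex ψ := by
  unfold fex
  rw [hf.pre_fnot (down_fall fun _ => down_fnot _)]
  congr 1
  apply hf.pre_fall_names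
  · intro z
    rw [hf.pre_fnot (hd z), nat]
  · intro z z' h
    rw [ext z z' h]

end

/-! ### Examples of such maps -/

section

variable {Q : Type u} {P : Type v} {R : Type w} [Preorder Q] [Preorder P] [Preorder R]

theorem pull_pull {g : R → Q} {f : Q → P} (hf : ∀ q q', q' ≤ q → f q' ≤ f q)
    (N : Set P) : pull g (pull f N) = pull (f ∘ g) N := by
  ext r
  constructor
  · rintro ⟨q, ⟨p, hp, h⟩, h2⟩
    exact ⟨p, hp, (hf _ _ h2).trans h⟩
  · rintro ⟨p, hp, h⟩
    exact ⟨g r, ⟨p, hp, h⟩, le_rfl⟩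

theorem DM.comp {f : Q → P} {g : R → Q} (hf : DM f) (hg : DM g) : DM (f ∘ g) where
  mono := fun q q' h => hf.mono _ _ (hg.mono _ _ h)
  lift := fun q p h => by
    obtain ⟨q', h1, h2⟩ := hf.lift (g q) p h
    obtain ⟨r', h3, h4⟩ := hg.lift q q' h1
    exact ⟨r', h3, (hf.mono _ _ h4).trans h2⟩
  refl := fun q q' p h h' => by
    obtain ⟨r, h1, h2⟩ := hf.refl (g q) (g q') p h h'
    exact hg.refl q q' r h1 h2

/-- the part of `P` below a condition -/
theorem dm_below (p : P) : DM (fun q : {q : P // q ≤ p} => q.1) where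
  mono := fun _ _ h => h
  lift := fun q r h => ⟨⟨r, h.trans q.2⟩, h, le_rfl⟩
  refl := fun q q' r h h' => ⟨⟨r, h.trans q.2⟩, h, h'⟩

theorem dm_iso (e : Q ≃o P) : DM (fun q => e q) where
  mono := fun _ _ h => e.monotone h
  lift := fun q p h => ⟨e.symm p, by rwa [e.symm_apply_le], by simp⟩
  refl := fun q q' p h h' => ⟨e.symm p, by rwa [e.symm_apply_le], by rwa [e.symm_apply_le]⟩

theorem dm_prod {f : Q → P} (hf : DM f) (R : Type w) [Preorder R] :
    DM (fun x : Q × R => (f x.1, x.2)) where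
  mono := fun _ _ h => ⟨hf.mono _ _ h.1, h.2⟩
  lift := fun q p h => by
    obtain ⟨q', h1, h2⟩ := hf.lift _ _ h.1
    exact ⟨(q', p.2), ⟨h1, h.2⟩, ⟨h2, le_rfl⟩⟩
  refl := fun q q' p h h' => by
    obtain ⟨r, h1, h2⟩ := hf.refl _ _ _ h.1 h'.1
    exact ⟨(r, p.2), ⟨h1, h.2⟩, ⟨h2, h'.2⟩⟩

end

end Pool.Agent.H641
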