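import Pool.Agent.H641.Tree

/-!
# A generic subtree of a full Miller tree
-/

set_option linter.unusedSectionVars false

namespace Pool.Agent.H641

open Cardinal Set

universe u v

theorem Sm.preimage {K : Type u} {α β : Type u} {s : Set β} (h : Sm K s) {f : α → β}
    (hf : Function.Injective f) : Sm K (f ⁻¹' s) :=
  (mk_preimage_of_injective f s hf).trans_lt h

section

variable {K J W : Type u} [LinearOrder K] [Kap K] (β : Nd K K → J) (dec : W → Option K)
  (T : Nd K K → Set (Cond K J W)) (t0 : Nd K K)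

/-- the generic function allows the value `w` after the node `v` -/
def Gd (v : Nd K K) (w : K) : Set (Cond K J W) :=
  fex fun x : W => {q | q.f (β v) = some x ∧ (dec x = none ∨ dec x = some w)}

/-- The generic subtree of `T` with root `t0`: at a splitting node `v` of `T` at or above `t0` the
generic function gives at the place `β v` either no restriction or the only allowed value. -/
def GS (u : Nd K K) : Set (Cond K J W) :=
  fand (meets (T u)) (fall fun b : K => fall fun w : K => fall fun _ : u.f b = some w =>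
    fand (fground (b < t0.len → t0.f b = some w))
      (fimp (fand (fground (t0.len ≤ b)) (Full T (u.cut b))) (Gd β dec (u.cut b) w)))

variable {β dec T t0}

theorem mem_Gd {v : Nd K K} {w : K} {p : Cond K J W} : p ∈ Gd β dec v w ↔
    ∀ q ≤ p, ∃ r ≤ q, ∃ x, r.f (β v) = some x ∧ (dec x = none ∨ dec x = some w) := by
  unfold Gd
  rw [mem_fex]
  rfl

theorem mem_Gd_of {v : Nd K K} {w : K} {p : Cond K J W} {x : W} (h : p.f (β v) = some x)
    (h' : dec x = none ∨ dec x = some w) : p ∈ Gd β dec v w :=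
  mem_Gd.2 fun q hq => ⟨q, le_rfl, x, hq _ _ h, h'⟩

theorem Gd_val {v : Nd K K} {w : K} {p : Cond K J W} {x : W} (h : p ∈ Gd β dec v w)
    (h' : p.f (β v) = some x) : dec x = none ∨ dec x = some w := by
  obtain ⟨r, hr, y, hy, h2⟩ := mem_Gd.1 h p le_rfl
  have h3 := hr _ _ h'
  rw [hy] at h3
  rw [← Option.some.inj h3]
  exact h2

theorem sent_Gd {v : Nd K K} {w : K} : Sent (Gd β dec v w) := sent_fex

theorem mem_GS {u : Nd K K} {p : Cond K J W} : p ∈ GS β dec T t0 u ↔ p ∈ meets (T u) ∧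
    ∀ b w, u.f b = some w → (b < t0.len → t0.f b = some w) ∧
      (t0.len ≤ b → ∀ r ≤ p, r ∈ Full T (u.cut b) → r ∈ Gd β dec (u.cut b) w) := by
  constructor
  · rintro ⟨h1, h2⟩
    refine ⟨h1, fun b w hb => ⟨(h2 b w hb).1, fun hl r hr hF => ?_⟩⟩
    exact (sent_Gd.mem_fimp (down_fand (down_fground _) (sent_Full _ _).down)).1 (h2 b w hb).2
      r hr ⟨hl, hF⟩
  · rintro ⟨h1, h2⟩
    refine ⟨h1, fun b w hb => ⟨(h2 b w hb).1, ?_⟩⟩
    exact (sent_Gd.mem_fimp (down_fand (down_fground _) (sent_Full _ _).down)).2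
      fun r hr hF => (h2 b w hb).2 hF.1 r hr hF.2

theorem sent_GS (u : Nd K K) : Sent (GS β dec T t0 u) :=
  sent_fand (sent_meets _) (sent_fall fun _ => sent_fall fun _ => sent_fall fun _ =>
    sent_fand (sent_fground _) (sent_fimp (down_fand (down_fground _) (sent_Full _ _).down)))

theorem meets_GS (u : Nd K K) : meets (GS β dec T t0 u) = GS β dec T t0 u := meets_eq (sent_GS u)

theorem GS_init {p q : Cond K J W} (hT : IsFM T p) (hq : q ≤ p) {u v : Nd K K} (h : u ≤ v)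
    (hu : q ∈ GS β dec T t0 u) : q ∈ GS β dec T t0 v := by
  rw [mem_GS] at hu ⊢
  refine ⟨hT.init q hq u v h hu.1, fun b w hb => ?_⟩
  have h2 := hu.2 b w (h b w hb)
  rwa [Nd.cut_eq_of_le h (Nd.lt_len hb).le] at h2

theorem GS_app {q : Cond K J W} {u : Nd K K} {w : K} (hu : q ∈ GS β dec T t0 u)
    (h1 : q ∈ meets (T (u.app w))) (h2 : u.len < t0.len → t0.f u.len = some w)
    (h3 : t0.len ≤ u.len → ∀ r ≤ q, r ∈ Full T u → r ∈ Gd β dec u w) :
    q ∈ GS β dec T t0 (u.app w) := by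
  rw [mem_GS] at hu ⊢
  refine ⟨h1, fun b w' hb => ?_⟩
  rcases Nd.app_some.1 hb with ⟨rfl, rfl⟩ | hb'
  · rw [Nd.cut_app]
    exact ⟨h2, h3⟩
  · rw [Nd.cut_eq_of_le (Nd.app_le u w) (Nd.lt_len hb').le]
    exact hu.2 b w' hb'

theorem GS_chain {p q : Cond K J W} (hT : IsFM T p) (hq : q ≤ p) {C : Set (Nd K K)}
    (hC : Sm K C) (hch : IsChain (· ≤ ·) C) (h : ∀ v ∈ C, q ∈ GS β dec T t0 v) :
    q ∈ GS β dec T t0 (Nd.sup C hC) := by
  rw [mem_GS]
  refine ⟨hT.chain q hq C hC hch fun v hv => (h v hv).1, fun b w hb => ?_⟩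
  obtain ⟨v, hv, hb'⟩ := (Nd.sup_some hch).1 hb
  have h2 := (mem_GS.1 (h v hv)).2 b w hb'
  rwa [← Nd.cut_eq_of_le ((Nd.isGLB_sup (h := hC) hch).1 hv) (Nd.lt_len hb').le] at h2

variable (β) in
open Classical in
/-- the condition which codes the node `t` from the length `a` on -/
noncomputable def path (enc : Option K → W) (a : K) (t : Nd K K) : Cond K J W where
  f := fun x => if h : ∃ w b, a ≤ b ∧ t.f b = some w ∧ x = β (t.cut b) then
    some (enc (some h.choose)) else none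
  sm := by
    refine ((sm_Iio t.len).image fun b => β (t.cut b)).mono ?_
    intro x hx
    simp only [mem_ofPred_eq, ne_eq, dite_eq_right_iff, reduceCtorEq, imp_false, not_not] at hx
    obtain ⟨w, b, _, h2, rfl⟩ := hx
    exact ⟨b, Nd.lt_len h2, rfl⟩

theorem path_val (hβ : Function.Injective β) {enc : Option K → W} {a : K} {t : Nd K K} {b w : K}
    (h : a ≤ b) (h' : t.f b = some w) : (path β enc a t).f (β (t.cut b)) = some (enc (some w)) := by
  have h1 : ∃ w' b', a ≤ b' ∧ t.f b' = some w' ∧ β (t.cut b) = β (t.cut b') := ⟨w, b, h, h', rfl⟩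
  have h2 : (path β enc a t).f (β (t.cut b)) = some (enc (some h1.choose)) := dif_pos h1
  obtain ⟨b', _, h4, h5⟩ := h1.choose_spec
  have h6 := congrArg Nd.len (hβ h5)
  rw [Nd.cut_len (Nd.lt_len h').le, Nd.cut_len (Nd.lt_len h4).le] at h6
  subst h6
  rw [h'] at h4
  rw [h2, ← Option.some.inj h4]

theorem path_ne_none {enc : Option K → W} {a : K} {t : Nd K K} {x : J}
    (h : (path β enc a t).f x ≠ none) : ∃ b, a ≤ b ∧ b < t.len ∧ x = β (t.cut b) := by
  unfold path at h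
  simp only [ne_eq, dite_eq_right_iff, reduceCtorEq, imp_false, not_not] at h
  obtain ⟨w, b, h1, h2, h3⟩ := h
  exact ⟨b, h1, Nd.lt_len h2, h3⟩

theorem GS_ext {q : Cond K J W} {u t : Nd K K} {enc : Option K → W} (hde : ∀ x, dec (enc x) = x)
    (hβ : Function.Injective β)
    (hu : q ∈ GS β dec T t0 u) (htu : t ≤ u) (hl : t0.len ≤ u.len) (ht : q ∈ meets (T t))
    (hp : q ≤ path β enc u.len t) : q ∈ GS β dec T t0 t := by
  rw [mem_GS] at hu ⊢
  refine ⟨ht, fun b w hb => ?_⟩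
  rcases lt_or_ge b u.len with h | h
  · have h1 : u.f b = some w := by
      obtain ⟨w', hw'⟩ := u.exists_val h
      rw [htu b w' hw'] at hb
      rw [hw', hb]
    have h2 := hu.2 b w h1
    rwa [← Nd.cut_eq_of_le htu h.le] at h2
  · refine ⟨fun h2 => absurd (h2.trans_le (hl.trans h)) (lt_irrefl _), fun _ r hr _ => ?_⟩
    exact mem_Gd_of ((hr.trans hp) _ _ (path_val hβ h hb)) (Or.inr (hde _))

/-! ### Pairs of a condition and a node -/

theorem chain_fst {X Y : Type u} [Preorder X] [Preorder Y] {C : Set (X × Y)}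
    (h : IsChain (· ≤ ·) C) : IsChain (· ≤ ·) (Prod.fst '' C) := by
  rintro _ ⟨a, ha, rfl⟩ _ ⟨b, hb, rfl⟩ _
  rcases h.total ha hb with h | h
  · exact Or.inl h.1
  · exact Or.inr h.1

theorem chain_snd {X Y : Type u} [Preorder X] [Preorder Y] {C : Set (X × Y)}
    (h : IsChain (· ≤ ·) C) : IsChain (· ≤ ·) (Prod.snd '' C) := by
  rintro _ ⟨a, ha, rfl⟩ _ ⟨b, hb, rfl⟩ _
  rcases h.total ha hb with h | h
  · exact Or.inl h.2
  · exact Or.inr h.2

/-- the union of a small chain of pairs -/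
noncomputable def sup2 (C : Set (Cond K J W × Nd K K)) (h : Sm K C) : Cond K J W × Nd K K :=
  (Cond.sup (Prod.fst '' C) (h.image _), Nd.sup (Prod.snd '' C) (h.image _))

theorem sup2_fst_some {C : Set (Cond K J W × Nd K K)} {h : Sm K C} (hC : IsChain (· ≤ ·) C)
    {i : J} {w : W} : (sup2 C h).1.f i = some w ↔ ∃ x ∈ C, x.1.f i = some w := by
  unfold sup2
  rw [Cond.sup_some (chain_fst hC)]
  simp

theorem sup2_fst_ne_none {C : Set (Cond K J W × Nd K K)} {h : Sm K C}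
    {i : J} : (sup2 C h).1.f i ≠ none ↔ ∃ x ∈ C, x.1.f i ≠ none := by
  unfold sup2
  rw [Cond.sup_ne_none]
  simp

theorem sup2_snd_some {C : Set (Cond K J W × Nd K K)} {h : Sm K C} (hC : IsChain (· ≤ ·) C)
    {i : K} {w : K} : (sup2 C h).2.f i = some w ↔ ∃ x ∈ C, x.2.f i = some w := by
  unfold sup2
  rw [Nd.sup_some (chain_snd hC)]
  constructor
  · rintro ⟨_, ⟨x, hx, rfl⟩, h2⟩
    exact ⟨x, hx, h2⟩
  · rintro ⟨x, hx, h2⟩
    exact ⟨_, ⟨x, hx, rfl⟩, h2⟩

theorem lt_sup2_len {C : Set (Cond K J W × Nd K K)} {h : Sm K C} (hC : IsChain (· ≤ ·) C)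
    {i : K} : i < (sup2 C h).2.len ↔ ∃ x ∈ C, i < x.2.len := by
  unfold sup2
  rw [Nd.lt_sup_len (chain_snd hC)]
  constructor
  · rintro ⟨_, ⟨x, hx, rfl⟩, h2⟩
    exact ⟨x, hx, h2⟩
  · rintro ⟨x, hx, h2⟩
    exact ⟨_, ⟨x, hx, rfl⟩, h2⟩

theorem sup2_isGLB {C : Set (Cond K J W × Nd K K)} {h : Sm K C} (hC : IsChain (· ≤ ·) C) :
    IsGLB C (sup2 C h) := by
  constructor
  · intro x hx
    exact ⟨fun i w hw => (sup2_fst_some hC).2 ⟨x, hx, hw⟩,
      fun i w hw => (sup2_snd_some hC).2 ⟨x, hx, hw⟩⟩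
  · intro y hy
    refine ⟨fun i w hw => ?_, fun i w hw => ?_⟩
    · obtain ⟨x, hx, h2⟩ := (sup2_fst_some hC).1 hw
      exact (hy hx).1 i w h2
    · obtain ⟨x, hx, h2⟩ := (sup2_snd_some hC).1 hw
      exact (hy hx).2 i w h2

/-- a set of pairs which is closed under unions of small chains -/
def ClX (X : Set (Cond K J W × Nd K K)) : Prop :=
  ∀ (C : Set (Cond K J W × Nd K K)) (h : Sm K C), IsChain (· ≤ ·) C → C.Nonempty → C ⊆ X →
    sup2 C h ∈ X

theorem ClX.clo {X : Set (Cond K J W × Nd K K)} (hX : ClX X) : Clo K X := by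
  intro x C hC hch hle
  let C' : Set (Cond K J W × Nd K K) := Subtype.val '' (insert x C)
  have hC' : Sm K C' := (hC.insert x).image _
  have hch' : IsChain (· ≤ ·) C' := by
    rintro _ ⟨a, ha, rfl⟩ _ ⟨b, hb, rfl⟩ _
    exact (chain_insert hch hle).total ha hb
  have h1 := hX C' hC' hch' ⟨_, x, mem_insert _ _, rfl⟩ (by
    rintro _ ⟨a, _, rfl⟩
    exact a.2)
  refine ⟨⟨_, h1⟩, (sup2_isGLB (h := hC') hch').1 ⟨x, mem_insert _ _, rfl⟩, fun c hc => ?_⟩
  exact (sup2_isGLB (h := hC') hch').1 ⟨c, mem_insert_of_mem _ hc, rfl⟩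

theorem exists_free (hβ : Function.Injective β) {X : Set (Cond K J W × Nd K K)} (hX : ClX X)
    (hs : ∀ x ∈ X, ∃ y ∈ X, y ≤ x ∧ x.2.len < y.2.len) (x : Cond K J W × Nd K K) (hx : x ∈ X)
    (b : K) : ∃ y ∈ X, y ≤ x ∧ b ≤ y.2.len ∧ ∀ v ≤ y.2, y.1.f (β v) = none := by
  have hreach : ∀ (x : X) (b : K), ∃ y ≤ x, b ≤ y.1.2.len := fun x b =>
    hX.clo.reach (fun y => y.1.2.len) (fun y z h => Nd.len_le h.2) (fun y => by
      obtain ⟨z, hz, h1, h2⟩ := hs y.1 y.2
      exact ⟨⟨z, hz⟩, h1, h2⟩) b x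
  obtain ⟨x1, hx1, hb⟩ := hreach ⟨x, hx⟩ b
  obtain ⟨f, hf0, hf1, hf2, hf3⟩ := omega_seq x1
    (fun x y : X => ∀ v, x.1.1.f (β v) ≠ none → v.len < y.1.2.len) (by
      intro l
      have h1 : Sm K (Nd.len '' {v | l.1.1.f (β v) ≠ none}) := by
        apply Sm.image
        exact (l.1.1.sm.preimage hβ)
      obtain ⟨a, ha⟩ := h1.bdd
      obtain ⟨y, hy, h2⟩ := hreach l a
      exact ⟨y, hy, fun v hv => (ha _ ⟨v, hv, rfl⟩).trans_le h2⟩)
  let C : Set (Cond K J W × Nd K K) := Subtype.val '' (range f)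
  have hC : Sm K C := (sm_range_nat f).image _
  have hch : IsChain (· ≤ ·) C := by
    rintro _ ⟨a, ha, rfl⟩ _ ⟨b, hb, rfl⟩ _
    exact hf3.total ha hb
  have hmem : ∀ n, (f n).1 ∈ C := fun n => ⟨f n, ⟨n, rfl⟩, rfl⟩
  refine ⟨sup2 C hC, hX C hC hch ⟨_, hmem 0⟩ ?_, ?_, ?_, ?_⟩
  · rintro _ ⟨a, _, rfl⟩
    exact a.2
  · refine le_trans ((sup2_isGLB (h := hC) hch).1 (hmem 0)) ?_
    rw [hf0]
    exact hx1
  · have h1 := Nd.len_le ((sup2_isGLB (h := hC) hch).1 (hmem 0)).2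
    rw [hf0] at h1
    exact hb.trans h1
  · intro v hv
    by_contra hc
    obtain ⟨_, ⟨_, ⟨n, rfl⟩, rfl⟩, h2⟩ := sup2_fst_ne_none.1 hc
    have h3 := hf2 n v h2
    have h4 := Nd.len_le ((sup2_isGLB (h := hC) hch).1 (hmem (n + 1))).2
    have h5 := Nd.len_le hv
    exact absurd ((h3.trans_le h4).trans_le h5) (lt_irrefl _)

/-! ### The generic subtree is a full Miller tree -/

theorem GS_step {p q : Cond K J W} (hT : IsFM T p) (hq : q ≤ p) {enc : Option K → W}
    (hde : ∀ x, dec (enc x) = x) {v : Nd K K} (hl : t0.len ≤ v.len)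
    (hv : q ∈ GS β dec T t0 v) : ∃ r ≤ q, ∃ w, r ∈ GS β dec T t0 (v.app w) := by
  have hvac : ∀ w, v.len < t0.len → t0.f v.len = some w := fun w h =>
    absurd (h.trans_le hl) (lt_irrefl _)
  by_cases h : ∃ r ≤ q, r ∈ Full T v
  · obtain ⟨r, hr, hF⟩ := h
    obtain ⟨r', hr', x, hx⟩ : ∃ r' ≤ r, ∃ x, r'.f (β v) = some x := by
      cases h1 : r.f (β v) with
      | none =>
        refine ⟨r.ov (Cond.single (β v) (enc none)), Cond.ov_le _ _, enc none, ?_⟩
        rw [Cond.ov_some]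
        exact Or.inr ⟨h1, Cond.single_some.2 ⟨rfl, rfl⟩⟩
      | some x => exact ⟨r, le_rfl, x, h1⟩
    obtain ⟨w, hw⟩ : ∃ w, dec x = none ∨ dec x = some w := by
      cases h1 : dec x with
      | none => exact ⟨bot K, Or.inl rfl⟩
      | some w => exact ⟨w, Or.inr rfl⟩
    refine ⟨r', hr'.trans hr, w, ?_⟩
    apply GS_app ((sent_GS v).down _ hv _ (hr'.trans hr))
      ((sent_Full T v).down _ hF _ hr' w) (hvac w)
    intro _ r'' hr'' _
    exact mem_Gd_of (hr'' _ _ hx) hw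
  · push Not at h
    obtain ⟨r, hr, v', hv', i, j, hij, hi, hj⟩ := hT.split q hq v (mem_GS.1 hv).1
    have hF : r ∈ Full T v' := fun k => hT.full r (hr.trans hq) v' i j hij hi hj k
    have hlt : v.len < v'.len := by
      by_contra hc
      have h2 := Nd.eq_of_len hv' (not_lt.1 hc)
      rw [h2] at hF
      exact h r hr hF
    obtain ⟨w, hw⟩ := v'.exists_val hlt
    refine ⟨r, hr, w, ?_⟩
    apply GS_app ((sent_GS v).down _ hv _ hr) _ (hvac w)
    · intro _ r'' hr'' h3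
      exact absurd h3 (h r'' (hr''.trans hr))
    · apply hT.init r (hr.trans hq) (v'.app i) _ _ hi
      exact (Nd.app_le _ _).trans (Nd.le_app hv' hw)

theorem isFM_GS {A : Set J} {p : Cond K J W} (hT : IsFM T p) (hβ : Function.Injective β)
    (hβA : ∀ v, β v ∉ A) {enc : Option K → W} (hde : ∀ x, dec (enc x) = x)
    (hsupp : ∀ q ≤ p, ∀ u, q ∈ meets (T u) → q.res A ∈ meets (T u))
    (hpt : p ∈ meets (T t0)) : IsFM (GS β dec T t0) p where
  init := fun q hq u v huv hu => by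
    rw [meets_GS] at hu ⊢
    exact GS_init hT hq huv hu
  chain := fun q hq C hC hch h => by
    rw [meets_GS]
    exact GS_chain hT hq hC hch fun v hv => by
      have := h v hv
      rwa [meets_GS] at this
  split := fun q hq u hu => by
    simp only [meets_GS] at hu ⊢
    obtain ⟨v0, hv0, hl0, hq0⟩ : ∃ v0 ≤ u, t0.len ≤ v0.len ∧ q ∈ GS β dec T t0 v0 := by
      rcases lt_or_ge u.len t0.len with h | h
      · refine ⟨t0, ?_, le_rfl, ?_⟩
        · intro b w hb
          exact ((mem_GS.1 hu).2 b w hb).1 ((Nd.lt_len hb).trans h)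
        · rw [mem_GS]
          refine ⟨down_meets _ _ hpt _ hq, fun b w hb => ⟨fun _ => hb, fun h2 => ?_⟩⟩
          exact absurd ((Nd.lt_len hb).trans_le h2) (lt_irrefl _)
      · exact ⟨u, le_rfl, h, hu⟩
    let X : Set (Cond K J W × Nd K K) := {x | x.1 ≤ q ∧ x.1 ∈ GS β dec T t0 x.2 ∧ x.2 ≤ v0}
    have hX : ClX X := by
      intro C hC hch hne hCX
      obtain ⟨x0, hx0⟩ := hne
      have hle := (sup2_isGLB (h := hC) hch).1
      refine ⟨(hle hx0).1.trans (hCX hx0).1, ?_, (hle hx0).2.trans (hCX hx0).2.2⟩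
      apply GS_chain hT (((hle hx0).1.trans (hCX hx0).1).trans hq) (hC.image _) (chain_snd hch)
      rintro _ ⟨x, hx, rfl⟩
      exact (sent_GS _).down _ (hCX hx).2.1 _ (hle hx).1
    have hs : ∀ x ∈ X, ∃ y ∈ X, y ≤ x ∧ x.2.len < y.2.len := by
      rintro ⟨q', v⟩ ⟨h1, h2, h3⟩
      obtain ⟨r, hr, w, h4⟩ := GS_step hT (h1.trans hq) hde (hl0.trans (Nd.len_le h3)) h2
      exact ⟨(r, v.app w), ⟨hr.trans h1, h4, (Nd.app_le _ _).trans h3⟩, ⟨hr, Nd.app_le _ _⟩,
        lt_sc _⟩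
    obtain ⟨⟨q1, v1⟩, ⟨h1, h2, h3⟩, h4, h5, h6⟩ := exists_free hβ hX hs (q, v0)
      ⟨le_rfl, hq0, le_rfl⟩ (bot K)
    simp only at h1 h2 h3 h6
    obtain ⟨r, hr, v', hv', i, j, hij, hi, hj⟩ :=
      hT.split q1 (h1.trans hq) v1 (mem_GS.1 h2).1
    have hrp : r ≤ p := (hr.trans h1).trans hq
    have hF : ∀ k, r ∈ meets (T (v'.app k)) := fun k => hT.full r hrp v' i j hij hi hj k
    let q2 := q1.ov (r.res A)
    have hq2r : q2 ≤ r.res A := by
      apply Cond.ov_le_right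
      intro x w w' hw hw'
      have h7 := hr x w hw
      rw [(Cond.res_some.1 hw').2] at h7
      exact (Option.some.inj h7).symm
    have hq2n : ∀ v'' ≤ v1, q2.f (β v'') = none := by
      intro v'' hv''
      by_contra hc
      rcases Cond.ov_ne_none.1 hc with h7 | h7
      · exact h7 (h6 v'' hv'')
      · exact hβA _ (Cond.res_ne_none.1 h7).1
    let q3 := q2.ov (path β enc v1.len v')
    have hq3p : q3 ≤ path β enc v1.len v' := by
      apply Cond.ov_le_right
      intro x w w' hw hw'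
      obtain ⟨b, h7, h8, rfl⟩ := path_ne_none (by rw [hw']; simp)
      have h9 : v'.cut b ≤ v1 := by
        rw [Nd.eq_cut_of_le hv']
        exact Nd.cut_le_cut _ h7
      rw [hq2n _ h9] at hw
      cases hw
    have hq3n : q3.f (β v') = none := by
      by_contra hc
      rcases Cond.ov_ne_none.1 hc with h7 | h7
      · exact h7 (hq2n v' hv')
      · obtain ⟨b, _, h8, h9⟩ := path_ne_none h7
        have h10 := congrArg Nd.len (hβ h9)
        rw [Nd.cut_len h8.le] at h10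
        rw [h10] at h8
        exact absurd h8 (lt_irrefl _)
    let q4 := q3.ov (Cond.single (β v') (enc none))
    have hq4s : q4.f (β v') = some (enc none) :=
      Cond.ov_some.2 (Or.inr ⟨hq3n, Cond.single_some.2 ⟨rfl, rfl⟩⟩)
    have hq43 : q4 ≤ q3 := Cond.ov_le _ _
    have hq42 : q4 ≤ q2 := hq43.trans (Cond.ov_le _ _)
    have hq41 : q4 ≤ q1 := hq42.trans (Cond.ov_le _ _)
    have hq4F : ∀ k, q4 ∈ meets (T (v'.app k)) := fun k =>
      down_meets _ _ (hsupp r hrp _ (hF k)) _ (hq42.trans hq2r)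
    have hq4p : q4 ≤ p := (hq41.trans h1).trans hq
    have h7 : q4 ∈ GS β dec T t0 v' := by
      apply GS_ext hde hβ ((sent_GS v1).down _ h2 _ hq41) hv' (hl0.trans (Nd.len_le h3)) _
        (hq43.trans hq3p)
      exact hT.init q4 hq4p _ _ (Nd.app_le v' (bot K)) (hq4F _)
    have h8 : ∀ k, q4 ∈ GS β dec T t0 (v'.app k) := by
      intro k
      apply GS_app h7 (hq4F k)
      · intro h9
        exact absurd (h9.trans_le ((hl0.trans (Nd.len_le h3)).trans (Nd.len_le hv')))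
          (lt_irrefl _)
      · intro _ r' hr' _
        exact mem_Gd_of (hr' _ _ hq4s) (Or.inl (hde _))
    obtain ⟨k, hk⟩ := exists_gt' (bot K)
    exact ⟨q4, hq41.trans h1, v', (hv'.trans h3).trans hv0, bot K, k, hk.ne, h8 _, h8 _⟩
  full := fun q hq v i j hij hi hj k => by
    rw [meets_GS] at hi hj ⊢
    have hv : q ∈ GS β dec T t0 v := GS_init hT hq (Nd.app_le v i) hi
    have hF := hT.full q hq v i j hij hi.1 hj.1
    have hi' := (mem_GS.1 hi).2 _ _ (Nd.app_at v i)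
    have hj' := (mem_GS.1 hj).2 _ _ (Nd.app_at v j)
    rw [Nd.cut_app] at hi' hj'
    apply GS_app hv (hF k)
    · intro h
      have h1 := hi'.1 h
      rw [hj'.1 h] at h1
      exact absurd (Option.some.inj h1).symm hij
    · intro hl r hr hFr
      rw [mem_Gd]
      intro q' hq'
      obtain ⟨r1, hr1, x, hx, h1⟩ := mem_Gd.1 (hi'.2 hl r hr hFr) q' hq'
      have h2 := Gd_val (sent_Gd.down _ (hj'.2 hl r hr hFr) _ (hr1.trans hq')) hx
      refine ⟨r1, hr1, x, hx, Or.inl ?_⟩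
      rcases h1 with h1 | h1
      · exact h1
      · rcases h2 with h2 | h2
        · exact h2
        · rw [h1] at h2
          exact absurd (Option.some.inj h2) hij

end

end Pool.Agent.H641
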