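import Pool.Agent.H641.Sig

/-!
# A criterion for the failure of the Hurewicz dichotomy
-/

set_option linter.unusedSectionVars false

namespace Pool.Agent.H641

open Cardinal Set

universe u v w

section

variable {K : Type u} [LinearOrder K] [Kap K]

open Classical in
/-- the initial segment of length `b` of a function -/
noncomputable def seg (x : K → K) (b : K) : Nd K K where
  f := fun i => if i < b then some (x i) else none
  len := b
  dom := fun i => by split_ifs with h <;> simp [h]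

theorem seg_some {x : K → K} {b i j : K} : (seg x b).f i = some j ↔ i < b ∧ x i = j := by
  simp only [seg]
  split_ifs with h <;> simp [h]

theorem seg_len (x : K → K) (b : K) : (seg x b).len = b := rfl

theorem seg_mono (x : K → K) {b c : K} (h : b ≤ c) : seg x c ≤ seg x b := by
  intro i j hij
  rw [seg_some] at hij ⊢
  exact ⟨hij.1.trans_le h, hij.2⟩

/-- the finite sequence of the first `n` values -/
def pre (r : ℕ → Bool) (n : ℕ) : List Bool := (List.range n).map r

theorem pre_succ (r : ℕ → Bool) (n : ℕ) : pre r (n + 1) = pre r n ++ [r n] := by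
  simp [pre, List.range_succ]

/-- a set of nodes closed under initial segments -/
def IsTree (T : Set (Nd K K)) : Prop := ∀ u ∈ T, ∀ v, u ≤ v → v ∈ T

/-- Along no binary splitting scheme of nodes of `T` indexed by the finite sequences of bits are all
limits, along infinite sequences of bits, covered by nodes of `T`. -/
def NoScheme (T : Set (Nd K K)) : Prop :=
  ∀ s : List Bool → Nd K K, (∀ σ, s σ ∈ T) → (∀ σ b, s (σ ++ [b]) ≤ s σ) →
    (∀ σ, Inc (s (σ ++ [false])) (s (σ ++ [true]))) →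
    ∃ r : ℕ → Bool, ∀ t ∈ T, ¬ ∀ n, t ≤ s (pre r n)

/-- Every function is dominated everywhere by a branch of `T`. -/
def Dominating (T : Set (Nd K K)) : Prop :=
  ∀ g : K → K, ∃ x : K → K, (∀ b, seg x b ∈ T) ∧ ∀ i, g i ≤ x i

/-- The branches of `T` are not bounded by one function. -/
def Unbdd (T : Set (Nd K K)) : Prop :=
  ∀ g : K → K, ∃ x : K → K, (∀ b, seg x b ∈ T) ∧ ∀ a, ∃ i, a ≤ i ∧ g i < x i

theorem Inc.exists_ne {u v : Nd K K} (h : Inc u v) :
    ∃ i a b, u.f i = some a ∧ v.f i = some b ∧ a ≠ b := by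
  by_contra hc
  push Not at hc
  rcases le_total u.len v.len with hl | hl
  · apply h v _ le_rfl
    intro i a hi
    obtain ⟨b, hb⟩ := v.exists_val ((Nd.lt_len hi).trans_le hl)
    rw [hb, hc i a b hi hb]
  · apply h u le_rfl
    intro i b hi
    obtain ⟨a, ha⟩ := u.exists_val ((Nd.lt_len hi).trans_le hl)
    rw [ha, hc i a b ha hi]

/-! ### The generalized Baire space -/

/-- the set of all functions from `K` to `K` -/
def Ba (K : Type u) : Type u := K → K

/-- the functions extending a node -/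
def cone (t : Nd K K) : Set (Ba K) := {x | ∀ i j, t.f i = some j → x i = j}

/-- the bounded topology, the basic open sets being the sets `cone t` -/
instance : TopologicalSpace (Ba K) := TopologicalSpace.generateFrom (range cone)

/-- the branches of a tree -/
def br (T : Set (Nd K K)) : Set (Ba K) := {x | ∀ b, seg x b ∈ T}

/-- every open cover has a subcover with fewer than `#K` members -/
def KCompact (A : Set (Ba K)) : Prop :=
  ∀ U : Set (Set (Ba K)), (∀ O ∈ U, IsOpen O) → A ⊆ ⋃₀ U → ∃ V ⊆ U, Sm K V ∧ A ⊆ ⋃₀ V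

/-- a union of at most `#K` many sets satisfying `KCompact` -/
def KK (A : Set (Ba K)) : Prop := ∃ F : K → Set (Ba K), (∀ i, KCompact (F i)) ∧ A = ⋃ i, F i

/-- The Hurewicz dichotomy for `A`. -/
def HD (A : Set (Ba K)) : Prop :=
  (∃ B, KK B ∧ A ⊆ B) ∨ ∃ C ⊆ A, IsClosed C ∧ Nonempty (C ≃ₜ Ba K)

theorem mem_cone_seg (x : Ba K) (b : K) : x ∈ cone (seg x b) := fun _ _ h => (seg_some.1 h).2

theorem cone_mono {s t : Nd K K} (h : s ≤ t) : cone s ⊆ cone t := fun _ hx i j hij =>
  hx i j (h i j hij)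

theorem seg_le_of_mem {x : Ba K} {t : Nd K K} (h : x ∈ cone t) : seg x t.len ≤ t := by
  intro i j hij
  exact seg_some.2 ⟨Nd.lt_len hij, h i j hij⟩

theorem seg_eq_of_mem {x : Ba K} {t : Nd K K} (h : x ∈ cone t) : seg x t.len = t :=
  Nd.eq_of_len (seg_le_of_mem h) le_rfl

theorem isOpen_cone (t : Nd K K) : IsOpen (cone t) :=
  TopologicalSpace.isOpen_generateFrom_of_mem ⟨t, rfl⟩

theorem exists_cone {U : Set (Ba K)} (hU : IsOpen U) : ∀ x ∈ U, ∃ b, cone (seg x b) ⊆ U := by
  induction hU with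
  | basic s hs =>
    obtain ⟨t, rfl⟩ := hs
    intro x hx
    exact ⟨t.len, by rw [seg_eq_of_mem hx]⟩
  | univ => exact fun x _ => ⟨bot K, fun _ _ => trivial⟩
  | inter s t _ _ ih1 ih2 =>
    rintro x ⟨h1, h2⟩
    obtain ⟨b, hb⟩ := ih1 x h1
    obtain ⟨c, hc⟩ := ih2 x h2
    refine ⟨max b c, fun y hy => ⟨hb ?_, hc ?_⟩⟩
    · exact cone_mono (seg_mono x (le_max_left b c)) hy
    · exact cone_mono (seg_mono x (le_max_right b c)) hy
  | sUnion S _ ih =>
    rintro x ⟨s, hs, hx⟩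
    obtain ⟨b, hb⟩ := ih s hs x hx
    exact ⟨b, fun y hy => ⟨s, hs, hb hy⟩⟩

theorem isClosed_br (T : Set (Nd K K)) : IsClosed (br T) := by
  rw [← isOpen_compl_iff]
  have h : (br T)ᶜ = ⋃ t ∈ {t : Nd K K | t ∉ T}, cone t := by
    ext x
    simp only [br, mem_compl_iff, mem_ofPred_eq, not_forall, mem_iUnion, exists_prop]
    constructor
    · rintro ⟨b, hb⟩
      exact ⟨seg x b, hb, mem_cone_seg x b⟩
    · rintro ⟨t, ht, hx⟩
      exact ⟨t.len, by rwa [seg_eq_of_mem hx]⟩
  rw [h]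
  exact isOpen_biUnion fun t _ => isOpen_cone t

theorem KCompact.bounded {A : Set (Ba K)} (hA : KCompact A) (a : K) : ∃ b, ∀ x ∈ A, x a < b := by
  obtain ⟨V, hV, hVs, hAV⟩ := hA {O | ∃ x : Ba K, O = cone (seg x (sc a))}
    (by rintro O ⟨x, rfl⟩; exact isOpen_cone _)
    (fun x _ => ⟨_, ⟨x, rfl⟩, mem_cone_seg x _⟩)
  have h1 : ∀ O : V, ∃ x : Ba K, O.1 = cone (seg x (sc a)) := fun O => hV O.2
  choose g hg using h1
  have h2 : Sm K (range fun O : V => g O a) := by
    have h3 : #(range fun O : V => g O a) ≤ #V := mk_range_le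
    exact h3.trans_lt hVs
  obtain ⟨b, hb⟩ := h2.bdd
  refine ⟨b, fun x hx => ?_⟩
  obtain ⟨O, hO, hxO⟩ := hAV hx
  have h3 := hg ⟨O, hO⟩
  simp only at h3
  rw [h3] at hxO
  have h4 : x a = g ⟨O, hO⟩ a := hxO a _ (seg_some.2 ⟨lt_sc a, rfl⟩)
  rw [h4]
  exact hb _ ⟨⟨O, hO⟩, rfl⟩

theorem not_subset_KK {T : Set (Nd K K)} (hT : Unbdd T) : ¬ ∃ B, KK B ∧ br T ⊆ B := by
  rintro ⟨_, ⟨F, hF, rfl⟩, hsub⟩
  choose g hg using fun i a => (hF i).bounded a
  have h1 : ∀ a, ∃ b, ∀ i ≤ a, g i a < b := by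
    intro a
    obtain ⟨b, hb⟩ := ((sm_Iic a).image fun i => g i a).bdd
    exact ⟨b, fun i hi => hb _ ⟨i, hi, rfl⟩⟩
  choose G hG using h1
  obtain ⟨x, hx, hun⟩ := hT G
  obtain ⟨i, hi⟩ := mem_iUnion.1 (hsub (show (x : Ba K) ∈ br T from hx))
  obtain ⟨a, ha, hlt⟩ := hun i
  exact absurd ((hg i a x hi).trans (hG a i ha)) (not_lt.2 hlt.le)

/-- a node together with a basic neighborhood mapped into its cone -/
structure Stp2 (k : Ba K → Ba K) : Type u where
  n : Nd K K
  s : Nd K K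
  h : ∀ x ∈ cone n, k x ∈ cone s

theorem exists_pt (n : Nd K K) : ∃ x : Ba K, x ∈ cone n := by
  classical
  refine ⟨fun i => (n.f i).getD (bot K), fun i j hij => ?_⟩
  simp [hij]

theorem exists_two (n : Nd K K) : ∃ x y : Ba K, x ∈ cone n ∧ y ∈ cone n ∧ x ≠ y := by
  obtain ⟨c, hc⟩ := exists_gt' (bot K)
  obtain ⟨x, hx⟩ := exists_pt (n.app (bot K))
  obtain ⟨y, hy⟩ := exists_pt (n.app c)
  refine ⟨x, y, cone_mono (Nd.app_le _ _) hx, cone_mono (Nd.app_le _ _) hy, ?_⟩
  rintro rfl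
  have h1 := hx _ _ (Nd.app_at n (bot K))
  have h2 := hy _ _ (Nd.app_at n c)
  rw [h1] at h2
  exact hc.ne h2

theorem exists_split {k : Ba K → Ba K} (hk : Continuous k) (hinj : Function.Injective k)
    (S : Stp2 k) : ∃ S' : Bool → Stp2 k, (∀ b, (S' b).n ≤ S.n ∧ (S' b).s ≤ S.s) ∧
      Inc (S' false).s (S' true).s := by
  obtain ⟨x, y, hx, hy, hxy⟩ := exists_two S.n
  have hne : k x ≠ k y := fun h => hxy (hinj h)
  obtain ⟨i, hi⟩ : ∃ i, k x i ≠ k y i := by
    by_contra hc
    push Not at hc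
    exact hne (funext hc)
  let b := max (sc i) S.s.len
  have hnb : ∀ z ∈ cone S.n, ∃ m ≤ S.n, ∀ w ∈ cone m, k w ∈ cone (seg (k z) b) := by
    intro z hz
    obtain ⟨c, hc⟩ := exists_cone ((isOpen_cone (seg (k z) b)).preimage hk) z (mem_cone_seg _ _)
    refine ⟨seg z (max c S.n.len), ?_, fun w hw => hc (cone_mono (seg_mono z (le_max_left _ _)) hw)⟩
    exact (seg_mono z (le_max_right _ _)).trans (seg_le_of_mem hz)
  obtain ⟨m1, h1, h2⟩ := hnb x hx
  obtain ⟨m2, h3, h4⟩ := hnb y hy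
  refine ⟨fun c => cond c ⟨m2, seg (k y) b, h4⟩ ⟨m1, seg (k x) b, h2⟩, ?_, ?_⟩
  · have hs : ∀ z ∈ cone S.n, seg (k z) b ≤ S.s := fun z hz =>
      (seg_mono _ (le_max_right _ _)).trans (seg_le_of_mem (S.h z hz))
    intro c
    cases c
    · exact ⟨h1, hs x hx⟩
    · exact ⟨h3, hs y hy⟩
  · intro t ht ht'
    have h5 := ht i _ (seg_some.2 ⟨(lt_sc i).trans_le (le_max_left _ _), rfl⟩)
    have h6 := ht' i _ (seg_some.2 ⟨(lt_sc i).trans_le (le_max_left _ _), rfl⟩)
    rw [h5] at h6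
    exact hi (Option.some.inj h6)

theorem no_copy {T : Set (Nd K K)} (hns : NoScheme T)
    {C : Set (Ba K)} (hC : C ⊆ br T) : ¬ Nonempty (C ≃ₜ Ba K) := by
  rintro ⟨h⟩
  let k : Ba K → Ba K := fun x => (h.symm x).1
  have hk : Continuous k := continuous_subtype_val.comp h.symm.continuous
  have hinj : Function.Injective k := fun x y hxy => h.symm.injective (Subtype.ext hxy)
  have hkT : ∀ x b, seg (k x) b ∈ T := fun x b => hC (h.symm x).2 b
  choose nx hnx hninc using fun S : Stp2 k => exists_split hk hinj S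
  let S0 : Stp2 k := ⟨Nd.root K K, Nd.root K K, fun x _ i j hij => by cases hij⟩
  let F : List Bool → Stp2 k := fun τ => List.rec S0 (fun b _ S => nx S b) τ
  let s : List Bool → Nd K K := fun σ => (F σ.reverse).s
  let n : List Bool → Nd K K := fun σ => (F σ.reverse).n
  have hF : ∀ σ b, F (σ ++ [b]).reverse = nx (F σ.reverse) b := by
    intro σ b
    rw [List.reverse_append]
    rfl
  have hs : ∀ σ b, s (σ ++ [b]) ≤ s σ := by
    intro σ b
    show (F (σ ++ [b]).reverse).s ≤ _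
    rw [hF]
    exact (hnx _ b).2
  have hn : ∀ σ b, n (σ ++ [b]) ≤ n σ := by
    intro σ b
    show (F (σ ++ [b]).reverse).n ≤ _
    rw [hF]
    exact (hnx _ b).1
  have hsT : ∀ σ, s σ ∈ T := by
    intro σ
    obtain ⟨x, hx⟩ := exists_pt (n σ)
    have h1 := (F σ.reverse).h x hx
    have h2 := hkT x (s σ).len
    rwa [seg_eq_of_mem h1] at h2
  obtain ⟨r, hr⟩ := hns s hsT hs (by
    intro σ
    show Inc (F (σ ++ [false]).reverse).s (F (σ ++ [true]).reverse).s
    rw [hF, hF]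
    exact hninc _)
  have hanti : Antitone fun m => n (pre r m) := antitone_nat_of_succ_le fun m => by
    rw [pre_succ]
    exact hn _ _
  have hch : IsChain (· ≤ ·) (range fun m => n (pre r m)) := by
    rintro _ ⟨a, rfl⟩ _ ⟨b, rfl⟩ _
    rcases le_total a b with h | h
    · exact Or.inr (hanti h)
    · exact Or.inl (hanti h)
  have hglb := Nd.isGLB_sup (h := sm_range_nat fun m => n (pre r m)) hch
  obtain ⟨x, hx⟩ := exists_pt (Nd.sup _ (sm_range_nat fun m => n (pre r m)))
  have h1 : ∀ m, k x ∈ cone (s (pre r m)) := fun m =>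
    (F (pre r m).reverse).h x (cone_mono (hglb.1 ⟨m, rfl⟩) hx)
  obtain ⟨b, hb⟩ := (sm_range_nat (K := K) fun m => (s (pre r m)).len).bdd
  apply hr (seg (k x) b) (hkT x b)
  intro m
  exact (seg_mono _ (hb _ ⟨m, rfl⟩).le).trans (seg_le_of_mem (h1 m))

/-- The branches of a tree with the two properties form a closed set which does not satisfy the
Hurewicz dichotomy. -/
theorem not_HD {T : Set (Nd K K)} (h1 : NoScheme T) (h2 : Unbdd T) : ¬ HD (br T) := by
  rintro (h | ⟨C, hC, _, h⟩)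
  · exact not_subset_KK h2 h
  · exact no_copy h1 hC h

end

end Pool.Agent.H641
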