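import Pool.Agent.H641.Main

/-!
# A generic subtree of a Miller tree
-/

set_option linter.unusedSectionVars false

namespace Pool.Agent.H641

open Cardinal Set

universe u v

section

variable {K : Type u} [LinearOrder K] [Kap K] {P : Type u} [Preorder P]

/-- `v` has `#K` many immediate successors in the tree named by `T`: they are unbounded in `K`
(`K` being a regular cardinal). -/
def BigSplit (T : Nd K K → Set P) (v : Nd K K) : Set P :=
  fall fun a : K => fex fun w : K => fand (fground (a < w)) (meets (T (v.app w)))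

/-- `T` names a Miller tree: it is closed under initial segments and under unions of small chains
of nodes (so it has the empty node), and every node has an extension in the tree with `#K` many
immediate successors in the tree. -/
def ML (T : Nd K K → Set P) : Set P :=
  fand (fall fun u => fall fun v => fall fun _ : u ≤ v => fimp (meets (T u)) (meets (T v)))
    (fand (fall fun C : Set (Nd K K) => fall fun h : Sm K C => fall fun _ : IsChain (· ≤ ·) C =>
        fimp (fall fun v => fall fun _ : v ∈ C => meets (T v)) (meets (T (Nd.sup C h))))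
      (fall fun u => fimp (meets (T u)) (fex fun v => fand (fground (v ≤ u)) (BigSplit T v))))

theorem sent_BigSplit (T : Nd K K → Set P) (v : Nd K K) : Sent (BigSplit T v) :=
  sent_fall fun _ => sent_fex

theorem mem_BigSplit {T : Nd K K → Set P} {v : Nd K K} {p : P} : p ∈ BigSplit T v ↔
    ∀ q ≤ p, ∀ a, ∃ r ≤ q, ∃ w, a < w ∧ r ∈ meets (T (v.app w)) := by
  unfold BigSplit
  rw [mem_fall]
  simp only [mem_fex]
  constructor
  · intro h q hq a
    obtain ⟨r, hr, w, h1, h2⟩ := h a q hq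
    exact ⟨r, hr, w, h1, h2⟩
  · intro h a q hq
    obtain ⟨r, hr, w, h1, h2⟩ := h q hq a
    exact ⟨r, hr, w, h1, h2⟩

/-- superclosed trees -/
structure IsSC (T : Nd K K → Set P) (p : P) : Prop where
  init : ∀ q ≤ p, ∀ u v, u ≤ v → q ∈ meets (T u) → q ∈ meets (T v)
  chain : ∀ q ≤ p, ∀ (C : Set (Nd K K)) (h : Sm K C), IsChain (· ≤ ·) C →
    (∀ v ∈ C, q ∈ meets (T v)) → q ∈ meets (T (Nd.sup C h))

/-- Miller trees -/
structure IsML (T : Nd K K → Set P) (p : P) : Prop extends IsSC T p where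
  split : ∀ q ≤ p, ∀ u, q ∈ meets (T u) → ∃ r ≤ q, ∃ v ≤ u, r ∈ BigSplit T v

theorem mem_ML {T : Nd K K → Set P} {p : P} : p ∈ ML T ↔ IsML T p := by
  constructor
  · rintro ⟨h1, h2, h3⟩
    refine ⟨⟨?_, ?_⟩, ?_⟩
    · intro q hq u v huv
      exact ((sent_meets _).mem_fimp (down_meets _)).1 (h1 u v huv) q hq
    · intro q hq C h hC h5
      exact ((sent_meets _).mem_fimp (down_fall fun _ => down_fall fun _ => down_meets _)).1
        (h2 C h hC) q hq fun v hv => h5 v hv
    · intro q hq u hu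
      obtain ⟨r, hr, h5⟩ := mem_fimp.1 (h3 u) q hq hu
      obtain ⟨r', hr', v, hv, h6⟩ := mem_fex.1 h5 r le_rfl
      exact ⟨r', hr'.trans hr, v, hv, h6⟩
  · intro h
    refine ⟨?_, ?_, ?_⟩
    · intro u v huv
      exact ((sent_meets _).mem_fimp (down_meets _)).2 fun q hq => h.init q hq u v huv
    · intro C hC hch
      exact ((sent_meets _).mem_fimp (down_fall fun _ => down_fall fun _ => down_meets _)).2
        fun q hq h2 => h.chain q hq C hC hch fun v hv => h2 v hv
    · intro u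
      refine mem_fimp.2 fun q hq hu => ⟨q, le_rfl, mem_fex.2 fun q' hq' => ?_⟩
      obtain ⟨r, hr, v, hv, h1⟩ := h.split q' (hq'.trans hq) u (down_meets _ _ hu _ hq')
      exact ⟨r, hr, v, hv, h1⟩

theorem down_IsSC {T : Nd K K → Set P} {p q : P} (h : IsSC T p) (hq : q ≤ p) : IsSC T q where
  init := fun r hr => h.init r (hr.trans hq)
  chain := fun r hr => h.chain r (hr.trans hq)

theorem down_IsML {T : Nd K K → Set P} {p q : P} (h : IsML T p) (hq : q ≤ p) : IsML T q where
  toIsSC := down_IsSC h.toIsSC hq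
  split := fun r hr => h.split r (hr.trans hq)

theorem sent_ML (T : Nd K K → Set P) : Sent (ML T) := by
  refine sent_fand ?_ (sent_fand ?_ ?_)
  · exact sent_fall fun _ => sent_fall fun _ => sent_fall fun _ => sent_fimp (down_meets _)
  · exact sent_fall fun _ => sent_fall fun _ => sent_fall fun _ =>
      sent_fimp (down_fall fun _ => down_fall fun _ => down_meets _)
  · exact sent_fall fun _ => sent_fimp (down_meets _)

end

section

variable {K J W : Type u} [LinearOrder K] [Kap K] (β : Nd K K → J) (dec : W → Option K)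
  (T : Nd K K → Set (Cond K J W)) (t0 : Nd K K)

/-- The generic function allows the value `w` after the node `v`: if it codes a value `w'` which
leads to a node of the tree, then `w' = w`. -/
def Gm (v : Nd K K) (w : K) : Set (Cond K J W) :=
  fall fun w' : K => fimp (fand (meets (T (v.app w'))) {q | ∃ x, q.f (β v) = some x ∧
    dec x = some w'}) (fground (w' = w))

/-- The generic subtree of `T` with root `t0`. -/
def GM (u : Nd K K) : Set (Cond K J W) :=
  fand (meets (T u)) (fall fun b : K => fall fun w : K => fall fun _ : u.f b = some w =>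
    fand (fground (b < t0.len → t0.f b = some w))
      (fimp (fground (t0.len ≤ b)) (Gm β dec T (u.cut b) w)))

variable {β dec T t0}

theorem down_cod (v : Nd K K) (w' : K) :
    Down {q : Cond K J W | ∃ x, q.f (β v) = some x ∧ dec x = some w'} :=
  fun _ ⟨x, h1, h2⟩ _ hq => ⟨x, hq _ _ h1, h2⟩

theorem mem_Gm {v : Nd K K} {w : K} {p : Cond K J W} : p ∈ Gm β dec T v w ↔
    ∀ r ≤ p, ∀ w' x, r ∈ meets (T (v.app w')) → r.f (β v) = some x → dec x = some w' →
      w' = w := by
  unfold Gm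
  rw [mem_fall]
  constructor
  · intro h r hr w' x h1 h2 h3
    exact ((sent_fground _).mem_fimp (down_fand (down_meets _) (down_cod v w'))).1 (h w') r hr
      ⟨h1, x, h2, h3⟩
  · intro h w'
    refine ((sent_fground _).mem_fimp (down_fand (down_meets _) (down_cod v w'))).2 ?_
    rintro r hr ⟨h1, x, h2, h3⟩
    exact h r hr w' x h1 h2 h3

theorem sent_Gm {v : Nd K K} {w : K} : Sent (Gm β dec T v w) :=
  sent_fall fun _ => sent_fimp (down_fand (down_meets _) (down_cod _ _))

theorem mem_GM {u : Nd K K} {p : Cond K J W} : p ∈ GM β dec T t0 u ↔ p ∈ meets (T u) ∧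
    ∀ b w, u.f b = some w → (b < t0.len → t0.f b = some w) ∧
      (t0.len ≤ b → p ∈ Gm β dec T (u.cut b) w) := by
  constructor
  · rintro ⟨h1, h2⟩
    refine ⟨h1, fun b w hb => ⟨(h2 b w hb).1, fun hl => ?_⟩⟩
    exact (sent_Gm.mem_fimp (down_fground _)).1 (h2 b w hb).2 p le_rfl hl
  · rintro ⟨h1, h2⟩
    refine ⟨h1, fun b w hb => ⟨(h2 b w hb).1, ?_⟩⟩
    exact (sent_Gm.mem_fimp (down_fground _)).2
      fun r hr hl => sent_Gm.down _ ((h2 b w hb).2 hl) _ hr

theorem sent_GM (u : Nd K K) : Sent (GM β dec T t0 u) :=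
  sent_fand (sent_meets _) (sent_fall fun _ => sent_fall fun _ => sent_fall fun _ =>
    sent_fand (sent_fground _) (sent_fimp (down_fground _)))

theorem meets_GM (u : Nd K K) : meets (GM β dec T t0 u) = GM β dec T t0 u := meets_eq (sent_GM u)

theorem GM_init {p q : Cond K J W} (hT : IsSC T p) (hq : q ≤ p) {u v : Nd K K} (h : u ≤ v)
    (hu : q ∈ GM β dec T t0 u) : q ∈ GM β dec T t0 v := by
  rw [mem_GM] at hu ⊢
  refine ⟨hT.init q hq u v h hu.1, fun b w hb => ?_⟩
  have h2 := hu.2 b w (h b w hb)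
  rwa [Nd.cut_eq_of_le h (Nd.lt_len hb).le] at h2

theorem GM_app {q : Cond K J W} {u : Nd K K} {w : K} (hu : q ∈ GM β dec T t0 u)
    (h1 : q ∈ meets (T (u.app w))) (h2 : u.len < t0.len → t0.f u.len = some w)
    (h3 : t0.len ≤ u.len → q ∈ Gm β dec T u w) :
    q ∈ GM β dec T t0 (u.app w) := by
  rw [mem_GM] at hu ⊢
  refine ⟨h1, fun b w' hb => ?_⟩
  rcases Nd.app_some.1 hb with ⟨rfl, rfl⟩ | hb'
  · rw [Nd.cut_app]
    exact ⟨h2, h3⟩
  · rw [Nd.cut_eq_of_le (Nd.app_le u w) (Nd.lt_len hb').le]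
    exact hu.2 b w' hb'

theorem GM_chain {p q : Cond K J W} (hT : IsSC T p) (hq : q ≤ p) {C : Set (Nd K K)}
    (hC : Sm K C) (hch : IsChain (· ≤ ·) C) (h : ∀ v ∈ C, q ∈ GM β dec T t0 v) :
    q ∈ GM β dec T t0 (Nd.sup C hC) := by
  rw [mem_GM]
  refine ⟨hT.chain q hq C hC hch fun v hv => (h v hv).1, fun b w hb => ?_⟩
  obtain ⟨v, hv, hb'⟩ := (Nd.sup_some hch).1 hb
  have h2 := (mem_GM.1 (h v hv)).2 b w hb'
  rwa [← Nd.cut_eq_of_le ((Nd.isGLB_sup (h := hC) hch).1 hv) (Nd.lt_len hb').le] at h2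

theorem GM_ext {q : Cond K J W} {u t : Nd K K} {enc : Option K → W} (hde : ∀ x, dec (enc x) = x)
    (hβ : Function.Injective β)
    (hu : q ∈ GM β dec T t0 u) (htu : t ≤ u) (hl : t0.len ≤ u.len) (ht : q ∈ meets (T t))
    (hp : q ≤ path β enc u.len t) : q ∈ GM β dec T t0 t := by
  rw [mem_GM] at hu ⊢
  refine ⟨ht, fun b w hb => ?_⟩
  rcases lt_or_ge b u.len with h | h
  · have h1 : u.f b = some w := by
      obtain ⟨w', hw'⟩ := u.exists_val h
      rw [htu b w' hw'] at hb
      rw [hw', hb]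
    have h2 := hu.2 b w h1
    rwa [← Nd.cut_eq_of_le htu h.le] at h2
  · refine ⟨fun h2 => absurd (h2.trans_le (hl.trans h)) (lt_irrefl _), fun _ => ?_⟩
    rw [mem_Gm]
    intro r hr w' x _ h2 h3
    have h4 := (hr.trans hp) _ _ (path_val hβ h hb)
    rw [h2] at h4
    rw [Option.some.inj h4, hde] at h3
    exact (Option.some.inj h3).symm

theorem GM_step {p q : Cond K J W} (hT : IsML T p) (hq : q ≤ p) {enc : Option K → W}
    {v : Nd K K} (hl : t0.len ≤ v.len) (hv : q ∈ GM β dec T t0 v) :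
    ∃ r ≤ q, ∃ w, r ∈ GM β dec T t0 (v.app w) := by
  have hvac : ∀ w, v.len < t0.len → t0.f v.len = some w := fun w h =>
    absurd (h.trans_le hl) (lt_irrefl _)
  -- some immediate successor is in `T`
  obtain ⟨r1, hr1, w1, hw1⟩ : ∃ r1 ≤ q, ∃ w1, r1 ∈ meets (T (v.app w1)) := by
    obtain ⟨r, hr, v', hv', hB⟩ := hT.split q hq v (mem_GM.1 hv).1
    obtain ⟨r', hr', w, _, hw⟩ := mem_BigSplit.1 hB r le_rfl (bot K)
    have hle : v'.app w ≤ v := (Nd.app_le _ _).trans hv'
    have hlt : v.len < (v'.app w).len := (Nd.len_le hv').trans_lt (lt_sc _)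
    obtain ⟨w1, hw1⟩ := (v'.app w).exists_val hlt
    exact ⟨r', hr'.trans hr, w1, hT.init r' ((hr'.trans hr).trans hq) _ _
      (Nd.le_app hle hw1) hw⟩
  obtain ⟨r2, hr2, x, hx⟩ : ∃ r2 ≤ r1, ∃ x, r2.f (β v) = some x := by
    cases h1 : r1.f (β v) with
    | none =>
      refine ⟨r1.ov (Cond.single (β v) (enc none)), Cond.ov_le _ _, enc none, ?_⟩
      rw [Cond.ov_some]
      exact Or.inr ⟨h1, Cond.single_some.2 ⟨rfl, rfl⟩⟩
    | some x => exact ⟨r1, le_rfl, x, h1⟩
  by_cases h : ∃ r3 ≤ r2, ∃ w', dec x = some w' ∧ r3 ∈ meets (T (v.app w'))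
  · obtain ⟨r3, hr3, w', h1, h2⟩ := h
    have h4 := (hr3.trans hr2).trans hr1
    refine ⟨r3, h4, w', GM_app ((sent_GM v).down _ hv _ h4) h2 (hvac w') fun _ => ?_⟩
    rw [mem_Gm]
    intro r hr w'' x' _ h6 h7
    have h8 := (hr.trans hr3) _ _ hx
    rw [h6] at h8
    rw [Option.some.inj h8, h1] at h7
    exact (Option.some.inj h7).symm
  · push Not at h
    have h4 := hr2.trans hr1
    refine ⟨r2, h4, w1, GM_app ((sent_GM v).down _ hv _ h4) (down_meets _ _ hw1 _ hr2)
      (hvac w1) fun _ => ?_⟩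
    rw [mem_Gm]
    intro r hr w'' x' h5 h6 h7
    have h8 := hr _ _ hx
    rw [h6] at h8
    rw [Option.some.inj h8] at h7
    exact absurd h5 (h r hr w'' h7)

/-- statements quantifying existentially over supported statements are supported -/
theorem supp_fex {A : Set J} {p0 : Cond K J W} (hp0 : p0.In A) {ι : Sort v}
    {X : ι → Set (Cond K J W)} (hd : ∀ i, Down (X i))
    (h : ∀ i, ∀ q ≤ p0, q ∈ X i → q.res A ∈ X i) (q : Cond K J W) (hq : q ≤ p0)
    (hqX : q ∈ fex X) : q.res A ∈ fex X := by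
  rw [mem_fex]
  intro r hr
  have h1 : q.ov (r.res A) ≤ r.res A := by
    apply Cond.ov_le_right
    intro i w w' hw hw'
    obtain ⟨hi, hw''⟩ := Cond.res_some.1 hw'
    have h2 := hr i w (Cond.res_some.2 ⟨hi, hw⟩)
    rw [hw''] at h2
    exact (Option.some.inj h2).symm
  obtain ⟨s, hs, i, hi⟩ := mem_fex.1 hqX (q.ov (r.res A)) (Cond.ov_le _ _)
  have hsp : s ≤ p0 := (hs.trans (Cond.ov_le _ _)).trans hq
  have h2 := h i s hsp hi
  have h3 : s.res A ≤ r.res A := (Cond.res_in A r).le_res (hs.trans h1)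
  refine ⟨r.ov (s.res A), Cond.ov_le _ _, i, hd i _ h2 _ (Cond.ov_le_right ?_)⟩
  intro j w w' hw hw'
  obtain ⟨hj, _⟩ := Cond.res_some.1 hw'
  have h4 := h3 j w (Cond.res_some.2 ⟨hj, hw⟩)
  rw [hw'] at h4
  exact (Option.some.inj h4).symm

theorem supp_BigSplit {A : Set J} {p0 : Cond K J W} (hp0 : p0.In A)
    (hsupp : ∀ q ≤ p0, ∀ u, q ∈ meets (T u) → q.res A ∈ meets (T u)) (v : Nd K K)
    (q : Cond K J W) (hq : q ≤ p0) (h : q ∈ BigSplit T v) : q.res A ∈ BigSplit T v := by
  intro a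
  exact supp_fex hp0 (fun w => down_fand (down_fground _) (down_meets _))
    (fun w r hr h => ⟨h.1, hsupp r hr _ h.2⟩) q hq (h a)

theorem isML_GM {A : Set J} {p : Cond K J W} (hT : IsML T p) (hβ : Function.Injective β)
    (hβA : ∀ v, β v ∉ A) {enc : Option K → W} (hde : ∀ x, dec (enc x) = x) (hpA : p.In A)
    (hsupp : ∀ q ≤ p, ∀ u, q ∈ meets (T u) → q.res A ∈ meets (T u))
    (hpt : p ∈ meets (T t0)) : IsML (GM β dec T t0) p where
  init := fun q hq u v huv hu => by
    rw [meets_GM] at hu ⊢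
    exact GM_init hT.toIsSC hq huv hu
  chain := fun q hq C hC hch h => by
    rw [meets_GM]
    exact GM_chain hT.toIsSC hq hC hch fun v hv => by
      have := h v hv
      rwa [meets_GM] at this
  split := fun q hq u hu => by
    rw [meets_GM] at hu
    obtain ⟨v0, hv0, hl0, hq0⟩ : ∃ v0 ≤ u, t0.len ≤ v0.len ∧ q ∈ GM β dec T t0 v0 := by
      rcases lt_or_ge u.len t0.len with h | h
      · refine ⟨t0, ?_, le_rfl, ?_⟩
        · intro b w hb
          exact ((mem_GM.1 hu).2 b w hb).1 ((Nd.lt_len hb).trans h)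
        · rw [mem_GM]
          refine ⟨down_meets _ _ hpt _ hq, fun b w hb => ⟨fun _ => hb, fun h2 => ?_⟩⟩
          exact absurd ((Nd.lt_len hb).trans_le h2) (lt_irrefl _)
      · exact ⟨u, le_rfl, h, hu⟩
    let X : Set (Cond K J W × Nd K K) := {x | x.1 ≤ q ∧ x.1 ∈ GM β dec T t0 x.2 ∧ x.2 ≤ v0}
    have hX : ClX X := by
      intro C hC hch hne hCX
      obtain ⟨x0, hx0⟩ := hne
      have hle := (sup2_isGLB (h := hC) hch).1
      refine ⟨(hle hx0).1.trans (hCX hx0).1, ?_, (hle hx0).2.trans (hCX hx0).2.2⟩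
      apply GM_chain hT.toIsSC (((hle hx0).1.trans (hCX hx0).1).trans hq) (hC.image _)
        (chain_snd hch)
      rintro _ ⟨x, hx, rfl⟩
      exact (sent_GM _).down _ (hCX hx).2.1 _ (hle hx).1
    have hs : ∀ x ∈ X, ∃ y ∈ X, y ≤ x ∧ x.2.len < y.2.len := by
      rintro ⟨q', v⟩ ⟨h1, h2, h3⟩
      obtain ⟨r, hr, w, h4⟩ := GM_step (enc := enc) hT (h1.trans hq) (hl0.trans (Nd.len_le h3)) h2
      exact ⟨(r, v.app w), ⟨hr.trans h1, h4, (Nd.app_le _ _).trans h3⟩, ⟨hr, Nd.app_le _ _⟩,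
        lt_sc _⟩
    obtain ⟨⟨q1, v1⟩, ⟨h1, h2, h3⟩, h4, h5, h6⟩ := exists_free hβ hX hs (q, v0)
      ⟨le_rfl, hq0, le_rfl⟩ (bot K)
    simp only at h1 h2 h3 h6
    obtain ⟨r, hr, v', hv', hB⟩ := hT.split q1 (h1.trans hq) v1 (mem_GM.1 h2).1
    have hrp : r ≤ p := (hr.trans h1).trans hq
    let q2 := q1.ov (r.res A)
    have hq2r : q2 ≤ r.res A := by
      apply Cond.ov_le_right
      intro x w w' hw hw'
      have h7 := hr x w hw
      rw [(Cond.res_some.1 hw').2] at h7
      exact (Option.some.inj h7).symm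
    have hq2n : ∀ v'' ≤ v1, q2.f (β v'') = none := by
      intro v'' hv''
      by_contra hc
      rcases Cond.ov_ne_none.1 hc with h7 | h7
      · exact h7 (h6 v'' hv'')
      · exact hβA _ (Cond.res_ne_none.1 h7).1
    let q3 := q2.ov (path β enc v1.len v')
    have hq3p : q3 ≤ path β enc v1.len v' := by
      apply Cond.ov_le_right
      intro x w w' hw hw'
      obtain ⟨b, h7, h8, rfl⟩ := path_ne_none (by rw [hw']; simp)
      have h9 : v'.cut b ≤ v1 := by
        rw [Nd.eq_cut_of_le hv']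
        exact Nd.cut_le_cut _ h7
      rw [hq2n _ h9] at hw
      cases hw
    have hq3n : q3.f (β v') = none := by
      by_contra hc
      rcases Cond.ov_ne_none.1 hc with h7 | h7
      · exact h7 (hq2n v' hv')
      · obtain ⟨b, _, h8, h9⟩ := path_ne_none h7
        have h10 := congrArg Nd.len (hβ h9)
        rw [Nd.cut_len h8.le] at h10
        rw [h10] at h8
        exact absurd h8 (lt_irrefl _)
    let q4 := q3.ov (Cond.single (β v') (enc none))
    have hq4s : q4.f (β v') = some (enc none) :=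
      Cond.ov_some.2 (Or.inr ⟨hq3n, Cond.single_some.2 ⟨rfl, rfl⟩⟩)
    have hq43 : q4 ≤ q3 := Cond.ov_le _ _
    have hq42 : q4 ≤ q2 := hq43.trans (Cond.ov_le _ _)
    have hq41 : q4 ≤ q1 := hq42.trans (Cond.ov_le _ _)
    have hq4p : q4 ≤ p := (hq41.trans h1).trans hq
    have hq4B : q4 ∈ BigSplit T v' :=
      (sent_BigSplit T v').down _ (supp_BigSplit hpA hsupp v' r hrp hB) _ (hq42.trans hq2r)
    have hq4T : q4 ∈ meets (T v') := by
      apply (sent_meets _).rg
      intro q' hq'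
      obtain ⟨s, hs, w, _, hw⟩ := mem_BigSplit.1 hq4B q' hq' (bot K)
      exact ⟨s, hs, hT.init s ((hs.trans hq').trans hq4p) _ _ (Nd.app_le v' w) hw⟩
    have hl' : t0.len ≤ v'.len := (hl0.trans (Nd.len_le h3)).trans (Nd.len_le hv')
    have h7 : q4 ∈ GM β dec T t0 v' :=
      GM_ext hde hβ ((sent_GM v1).down _ h2 _ hq41) hv' (hl0.trans (Nd.len_le h3)) hq4T
        (hq43.trans hq3p)
    refine ⟨q4, hq41.trans h1, v', (hv'.trans h3).trans hv0, ?_⟩
    rw [mem_BigSplit]
    intro q' hq' a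
    obtain ⟨s, hs, w, haw, hw⟩ := mem_BigSplit.1 hq4B q' hq' a
    refine ⟨s, hs, w, haw, ?_⟩
    rw [meets_GM]
    apply GM_app ((sent_GM v').down _ h7 _ (hs.trans hq')) hw
    · intro h9
      exact absurd (h9.trans_le hl') (lt_irrefl _)
    · intro _
      rw [mem_Gm]
      intro r' hr' w'' x _ h10 h11
      have h12 := (hr'.trans (hs.trans hq')) _ _ hq4s
      rw [h10] at h12
      rw [Option.some.inj h12, hde] at h11
      cases h11

end

end Pool.Agent.H641
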