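import Pool.Agent.H641.Support

/-!
# The main theorem on generic subtrees
-/

set_option linter.unusedSectionVars false

namespace Pool.Agent.H641

open Cardinal Set

universe u v

section

variable {K J W : Type u} [LinearOrder K] [Kap K]

instance {E R : Type u} [Preorder E] [PartialOrder R] (A : Abs K W E R) : Preorder A.GG :=
  inferInstance

theorem P1_fst_mono {E R : Type u} [Preorder E] [PartialOrder R] (A : Abs K W E R)
    (x y : A.P1) (h : x ≤ y) : x.1.1 ≤ y.1.1 := h.1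

/-- If `Φ` holds of the generic branch of the tree forcing below `e`, it holds of every branch of
the generic subtree. -/
theorem main_branch (hW : Big K W) (hJ : #W < #J) (A : Set J) (hA : #A ≤ #W) (a : K → J)
    (ha : Function.Injective a) (haA : ∀ c, a c ∈ A) (β : Nd K K → J)
    (hβ : Function.Injective β) (hβA : ∀ v, β v ∉ A) (dec : W → Option K) (enc : Option K → W)
    (hde : ∀ x, dec (enc x) = x) (T : Nd K K → Set (Cond K J W)) (p0 : Cond K J W)
    (hT : IsFM T p0) (hp0 : p0.In A)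
    (hsupp : ∀ q ≤ p0, ∀ u, q ∈ meets (T u) → q.res A ∈ meets (T u))
    (Φ : Pd K (Cond K J W)) (e : EE A T p0)
    (hΨ : ∀ y : (EE A T p0 × Nd K W) × Cond K J W, y.1.1 ≤ e →
      y ∈ Φ.val _ (fun y : (EE A T p0 × Nd K W) × Cond K J W => y.1.1.1.1)
        (fun i j => pull (fun y : (EE A T p0 × Nd K W) × Cond K J W => y.1.1)
          (BD.x0 A T p0 i j)))
    (z : K → K → Set (Cond K J W)) (q : Cond K J W) (hq : q ≤ e.1.1) (hf : q ∈ IsFun z)
    (hb : q ∈ InBr z (GS β dec T e.1.2)) :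
    q ∈ Φ.val (Cond K J W) (Cond.res A) z := by
  classical
  have hWn := hW.nonempty
  have hresm : ∀ q q' : Cond K J W, q' ≤ q → q'.res A ≤ q.res A := fun _ _ h =>
    Cond.res_mono A h
  apply (Φ.sent (Cond K J W) (Cond.res A) z hresm).rg
  intro q' hq'
  -- the support of the branch
  let A1 : Set J := A ∪ (range β ∪ {i | q'.f i ≠ none})
  have hA1 : #A1 ≤ #W := hW.union hA (hW.union (mk_range_le.trans hW.nd)
    (q'.sm.le.trans hW.le))
  obtain ⟨A', hAA1, hA'c, hcl⟩ := exists_closed hW A1 hA1 hW.le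
    (fun (i : K) (d : Cond K J W) =>
      if h : ∃ d' ≤ d, ∃ j, d' ∈ meets (z i j) then h.choose else d)
  have hf' : q' ∈ IsFun z := (sent_IsFun z).down _ hf _ hq'
  have hdecz : ∀ d ≤ q', d.In A' → ∀ i, ∃ d' ≤ d, d'.In A' ∧ ∃ j, d' ∈ meets (z i j) := by
    intro d hd hdA i
    obtain ⟨d', hd', j, hj⟩ := IsFun.total ((sent_IsFun z).down _ hf' _ hd) i
    have h1 : ∃ d' ≤ d, ∃ j, d' ∈ meets (z i j) := ⟨d', hd', j, hj⟩
    have h2 := hcl i d hdA
    rw [dif_pos h1] at h2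
    exact ⟨h1.choose, h1.choose_spec.1, h2, h1.choose_spec.2⟩
  let B : BD K J W :=
    { A := A, A' := A', hAA := fun i hi => hAA1 (Or.inl hi), β := β, hβ := hβ, hβA := hβA
      hβA' := fun v => hAA1 (Or.inr (Or.inl ⟨v, rfl⟩)), dec := dec, enc := enc, hde := hde
      T := T, t0 := e.1.2, p0 := p0, hT := hT, hp0 := hp0, hsupp := hsupp, z := z, r1 := q'
      hr1 := (hq'.trans hq).trans e.2.2.1
      hr1A := fun i hi => hAA1 (Or.inr (Or.inr hi))
      hfun := hf'
      hbr := (sent_fall fun u => sent_fimp (sent_Init u z).down).down _ hb _ hq'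
      hdecz := hdecz }
  -- the equivalence of the remaining coordinates
  have hJinf : ℵ₀ ≤ #J := hW.inf.trans hJ.le
  have hJi : Infinite J := infinite_iff.2 hJinf
  have hθ : #{x : J // x ∉ A'} = #(K ⊕ J) := by
    have h1 : #(A'ᶜ : Set J) = #J := mk_compl_of_infinite A' (hA'c.trans_lt hJ)
    have h2 : #(K ⊕ J) = #J := by
      rw [mk_sum, lift_id, lift_id]
      exact add_eq_right hJinf (hW.le.trans hJ.le)
    rw [h2, ← h1]
    rfl
  obtain ⟨θ⟩ := Cardinal.eq.1 hθ
  -- the size of the set of conditions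
  obtain ⟨y0, hy0, hy0le, _⟩ := B.dens (q', Nd.root K K) ⟨B.hr1A, le_rfl, fun i w h => by cases h⟩
    (bot K)
  have hDc : #B.D ≤ #W := by
    refine le_trans ?_ (hW.prod (hW.conds hA'c) hW.nd)
    refine mk_le_of_injective (f := fun x : B.D =>
      ((⟨x.1.1, x.2.1⟩, x.1.2) : {q : Cond K J W // q.In A'} × Nd K K)) ?_
    intro x y hxy
    apply Subtype.ext
    apply Prod.ext
    · exact congrArg (fun t => t.1.1) hxy
    · exact congrArg (fun t => t.2) hxy
  have hDn : Nonempty B.D := ⟨⟨y0, hy0⟩⟩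
  obtain ⟨g⟩ := (Cardinal.le_def _ _).1 hDc
  have hen : Function.Surjective (Function.invFun g) := Function.invFun_surjective g.injective
  have hWW : #(W ⊕ W) = #W := by
    rw [mk_sum, lift_id]
    exact add_eq_self hW.inf
  have hε : #W = #(B.D × (W ⊕ W)) := by
    rw [mk_prod, lift_id, lift_id, hWW]
    refine (mul_eq_right hW.inf hDc ?_).symm
    rw [ne_eq, mk_eq_zero_iff, not_isEmpty_iff]
    exact hDn
  obtain ⟨ε⟩ := Cardinal.eq.1 hε
  obtain ⟨ω⟩ := Cardinal.eq.1 hWW.symm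
  let r0 : B.D := ⟨y0, hy0⟩
  let Ab := B.abs a ha haA (Function.invFun g) hen ε ω r0
  -- the starting point
  have hr0e : B.pr r0 ≤ e := by
    refine ⟨?_, ?_⟩
    · show y0.1.res A ≤ e.1.1
      exact e.2.1.le_res ((hy0.2.1.trans hq').trans hq)
    · show y0.2 ≤ e.1.2
      exact B.le_t0 hy0
  let g0 : Ab.GG := Ab.start (B.pr r0) le_rfl
  -- the chain of equivalences
  let f2 : (EE A T p0 × Nd K W) × Cond K J W → Cond K J W := fun y => y.1.1.1.1
  let z2 : K → K → Set ((EE A T p0 × Nd K W) × Cond K J W) := fun i j =>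
    pull (fun y : (EE A T p0 × Nd K W) × Cond K J W => y.1.1) (BD.x0 A T p0 i j)
  have hf2 : ∀ q q', q' ≤ q → f2 q' ≤ f2 q := fun q q' h => h.1.1.1
  let f1 : Ab.P1 × Cond K J W → Cond K J W := fun y => y.1.1.1.1.1
  let z1 : K → K → Set (Ab.P1 × Cond K J W) := fun i j =>
    pull (fun y : Ab.P1 × Cond K J W => y.1.1.1) (BD.x0 A T p0 i j)
  have hf1 : ∀ q q', q' ≤ q → f1 q' ≤ f1 q := fun q q' h => h.1.1.1
  have hm1 : ∀ q q' : Ab.P1 × Cond K J W, q' ≤ q → q'.1.1.1 ≤ q.1.1.1 := fun q q' h => h.1.1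
  have hm2 : ∀ q q' : (EE A T p0 × Nd K W) × Cond K J W, q' ≤ q → q'.1.1 ≤ q.1.1 :=
    fun q q' h => h.1.1
  have s2 : ((g0, Cond.one K J W) : Ab.GG × Cond K J W) ∈
      (fun x : Ab.GG × Cond K J W => ((x.1.e, x.1.s), x.2)) ⁻¹' Φ.val _ f2 z2 :=
    hΨ _ hr0e
  rw [Φ.nat _ _ _ (dm_prod Ab.dm_right (Cond K J W)) f2 hf2 z2] at s2
  have s1 : ((g0, Cond.one K J W) : Ab.GG × Cond K J W) ∈
      (fun x : Ab.GG × Cond K J W => (Ab.left x.1, x.2)) ⁻¹' Φ.val _ f1 z1 := by
    rw [Φ.nat _ _ _ (dm_prod Ab.dm_left (Cond K J W)) f1 hf1 z1]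
    have h1 : (fun i j => pull (fun x : Ab.GG × Cond K J W => (Ab.left x.1, x.2)) (z1 i j)) =
        fun i j => pull (fun x : Ab.GG × Cond K J W => ((x.1.e, x.1.s), x.2)) (z2 i j) := by
      funext i j
      exact (pull_pull (g := fun x : Ab.GG × Cond K J W => (Ab.left x.1, x.2)) hm1
        (BD.x0 A T p0 i j)).trans
        (pull_pull (g := fun x : Ab.GG × Cond K J W => ((x.1.e, x.1.s), x.2)) hm2
        (BD.x0 A T p0 i j)).symm
    rw [h1]
    exact s2
  have s0 : ((((r0, Nd.root K W), Cond.one K J W)) : (B.D × Nd K W) × Cond K J W) ∈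
      (fun x : (B.D × Nd K W) × Cond K J W =>
        ((⟨(Ab.π x.1.1, x.1.1, x.1.2), le_rfl⟩ : Ab.P1), x.2)) ⁻¹' Φ.val _ f1 z1 := s1
  rw [Φ.nat _ _ _ (dm_prod Ab.dm_diag (Cond K J W)) f1 hf1 z1] at s0
  have s : ((((r0, Nd.root K W), Cond.one K J W)) : (B.D × Nd K W) × Cond K J W) ∈
      B.jn θ ⁻¹' Φ.val _ (Cond.res A) z := by
    rw [Φ.nat _ _ _ (B.dm_jn θ) (Cond.res A) hresm z]
    have h1 : Cond.res A ∘ B.jn θ = fun x => (B.pr x.1.1).1.1 := by
      funext x
      exact B.jn_res θ x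
    have h2 : ∀ i j, meets (pull (B.jn θ) (z i j)) =
        meets (pull (fun x : (B.D × Nd K W) × Cond K J W => B.pr x.1.1)
          (BD.x0 A T p0 i j)) := fun i j => B.meets_z θ i j
    rw [h1, Φ.ext _ _ _ _ h2]
    have h3 : (fun i j => pull (fun x : (B.D × Nd K W) × Cond K J W =>
          ((⟨(Ab.π x.1.1, x.1.1, x.1.2), le_rfl⟩ : Ab.P1), x.2)) (z1 i j)) =
        fun i j => pull (fun x : (B.D × Nd K W) × Cond K J W => B.pr x.1.1)
          (BD.x0 A T p0 i j) := by
      funext i j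
      exact pull_pull hm1 _
    rw [h3] at s0
    exact s0
  refine ⟨_, ?_, s⟩
  exact (B.jn_le θ _).trans (hy0le.1)

/-- Below every condition forcing that `T` is a full Miller tree, there are a condition and a name
for a full Miller subtree on which the truth value of `Φ` is constant. -/
theorem main_tree (hW : Big K W) (hJ : #W < #J) (A : Set J) (hA : #A ≤ #W) (a : K → J)
    (ha : Function.Injective a) (haA : ∀ c, a c ∈ A) (T : Nd K K → Set (Cond K J W))
    (p0 : Cond K J W) (hT : IsFM T p0) (hp0 : p0.In A)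
    (hsupp : ∀ q ≤ p0, ∀ u, q ∈ meets (T u) → q.res A ∈ meets (T u))
    (Φ : Pd K (Cond K J W)) :
    ∃ r ≤ p0, ∃ S : Nd K K → Set (Cond K J W), IsFM S r ∧
      (∀ q ≤ r, ∀ u, q ∈ meets (S u) → q ∈ meets (T u)) ∧
      ((∀ z : K → K → Set (Cond K J W), ∀ q ≤ r, q ∈ IsFun z → q ∈ InBr z S →
          q ∈ Φ.val (Cond K J W) (Cond.res A) z) ∨
        (∀ z : K → K → Set (Cond K J W), ∀ q ≤ r, q ∈ IsFun z → q ∈ InBr z S →
          q ∈ fnot (Φ.val (Cond K J W) (Cond.res A) z))) := by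
  classical
  have hWn := hW.nonempty
  have hJinf : ℵ₀ ≤ #J := hW.inf.trans hJ.le
  have hJi : Infinite J := infinite_iff.2 hJinf
  -- the places of the generic subtree
  obtain ⟨β, hβ, hβA⟩ : ∃ β : Nd K K → J, Function.Injective β ∧ ∀ v, β v ∉ A := by
    have h1 : #(Aᶜ : Set J) = #J := mk_compl_of_infinite A (hA.trans_lt hJ)
    have h2 : #(Nd K K) ≤ #(Aᶜ : Set J) := by
      rw [h1]
      exact hW.nd.trans hJ.le
    obtain ⟨g⟩ := (Cardinal.le_def _ _).1 h2
    exact ⟨fun v => (g v).1, fun v w h => g.injective (Subtype.ext h), fun v => (g v).2⟩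
  obtain ⟨enc, dec, hde⟩ : ∃ (enc : Option K → W) (dec : W → Option K), ∀ x, dec (enc x) = x := by
    have hO : #(Option K) ≤ #W := by
      rw [mk_option]
      exact (add_le_add hW.le (one_le_aleph0.trans hW.inf)).trans (add_eq_self hW.inf).le
    obtain ⟨g⟩ := (Cardinal.le_def _ _).1 hO
    exact ⟨g, Function.invFun g, Function.leftInverse_invFun g.injective⟩
  have hroot : p0 ∈ meets (T (Nd.root K K)) := by
    have h1 := hT.chain p0 le_rfl ∅ sm_empty (by simp [IsChain]) (by simp)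
    exact hT.init p0 le_rfl _ _ (Nd.le_root _) h1
  have hEm : ∀ q q' : EE A T p0, q' ≤ q → q'.1.1 ≤ q.1.1 := fun _ _ h => h.1
  obtain ⟨e, he, h1⟩ := hom (J := J) (W := W) Φ (fun x : EE A T p0 => x.1.1) hEm
    (BD.x0 A T p0) ⟨(p0, Nd.root K K), hp0, le_rfl, hroot⟩
  have hep : e.1.1 ≤ p0 := e.2.2.1
  refine ⟨e.1.1, hep, GS β dec T e.1.2, ?_, ?_, ?_⟩
  · exact isFM_GS (down_IsFM hT hep) hβ hβA hde (fun q hq => hsupp q (hq.trans hep)) e.2.2.2
  · intro q _ u hu
    rw [meets_GS] at hu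
    exact hu.1
  · rcases h1 with h1 | h1
    · left
      intro z q hq hf hb
      exact main_branch hW hJ A hA a ha haA β hβ hβA dec enc hde T p0 hT hp0 hsupp Φ e h1 z q hq
        hf hb
    · right
      intro z q hq hf hb
      exact main_branch hW hJ A hA a ha haA β hβ hβA dec enc hde T p0 hT hp0 hsupp Φ.neg e h1 z
        q hq hf hb

end

end Pool.Agent.H641
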