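import Pool.Agent.H641.Main

/-!
# Names and first-order formulas

A name for a set of the forcing extension is a family of names together with sets of conditions.
`feq` and `fmem` are the forcing relations for equality and membership, and `sat φ v` is the set of
the conditions which force the first-order formula `φ` of set theory about the names `v 0`, `v 1`,
and so on.
-/

set_option linter.unusedSectionVars false

namespace Pool.Agent.H641

open Cardinal Set

universe u v

/-- Names for the sets of the forcing extension. -/
inductive Name (P : Type u) : Type (u + 1)
  | mk (ι : Type u) (n : ι → Name P) (c : ι → Set P) : Name P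

/-- The formulas of the language of set theory, the variables being numbered. -/
inductive Fml : Type
  | mem (i j : ℕ) : Fml
  | eq (i j : ℕ) : Fml
  | neg (φ : Fml) : Fml
  | and (φ ψ : Fml) : Fml
  | all (i : ℕ) (φ : Fml) : Fml

section

variable {P : Type u} [Preorder P]

/-- The conditions which force two names to name the same set: every element named by the first
name is equal to one named by the second name, and conversely. -/
def feq : Name P → Name P → Set P
  | .mk _ n c, .mk _ n' c' =>
    fand (fall fun i => fimp (meets (c i)) (fex fun j => fand (meets (c' j)) (feq (n i) (n' j))))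
      (fall fun j => fimp (meets (c' j)) (fex fun i => fand (meets (c i)) (feq (n i) (n' j))))

/-- The conditions which force that the set named by `x` is an element of the one named by `y`. -/
def fmem (x : Name P) : Name P → Set P
  | .mk _ n' c' => fex fun j => fand (meets (c' j)) (feq x (n' j))

/-- The conditions which force the formula about the sets named by `v 0`, `v 1`, and so on. -/
def sat : Fml → (ℕ → Name P) → Set P
  | .mem i j, v => fmem (v i) (v j)
  | .eq i j, v => feq (v i) (v j)
  | .neg φ, v => fnot (sat φ v)
  | .and φ ψ, v => fand (sat φ v) (sat ψ v)
  | .all i φ, v => fall fun x : Name P => sat φ (Function.update v i x)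

theorem sent_feq (x y : Name P) : Sent (feq x y) := by
  cases x
  cases y
  exact sent_fand (sent_fall fun _ => sent_fimp (down_meets _))
    (sent_fall fun _ => sent_fimp (down_meets _))

theorem sent_fmem (x y : Name P) : Sent (fmem x y) := by
  cases y
  exact sent_fex

theorem sent_sat (φ : Fml) (v : ℕ → Name P) : Sent (sat φ v) := by
  induction φ generalizing v with
  | mem i j => exact sent_fmem _ _
  | eq i j => exact sent_feq _ _
  | neg φ ih => exact sent_fnot (ih v).down
  | and φ ψ ih ih' => exact sent_fand (ih v) (ih' v)
  | all i φ ih => exact sent_fall fun x => ih _

/-- the same name with regularized sets of conditions -/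
def norm : Name P → Name P
  | .mk ι n c => .mk ι (fun i => norm (n i)) fun i => meets (c i)

theorem norm_norm (x : Name P) : norm (norm x) = norm x := by
  induction x with
  | mk ι n c ih =>
    simp only [norm, meets_meets]
    congr 1
    funext i
    exact ih i

theorem feq_norm (x y : Name P) : feq (norm x) (norm y) = feq x y := by
  induction x generalizing y with
  | mk ι n c ih =>
    cases y with
    | mk ι' n' c' =>
      simp only [norm, feq, meets_meets, ih]

theorem fmem_norm (x y : Name P) : fmem (norm x) (norm y) = fmem x y := by
  cases y with
  | mk ι' n' c' =>
    simp only [norm, fmem, meets_meets, feq_norm]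

theorem sat_norm (φ : Fml) (v : ℕ → Name P) : sat φ (fun k => norm (v k)) = sat φ v := by
  induction φ generalizing v with
  | mem i j => exact fmem_norm _ _
  | eq i j => exact feq_norm _ _
  | neg φ ih => simp only [sat, ih]
  | and φ ψ ih ih' => simp only [sat, ih, ih']
  | all i φ ih =>
    simp only [sat]
    congr 1
    funext x
    rw [← ih (Function.update (fun k => norm (v k)) i x), ← ih (Function.update v i x)]
    congr 1
    funext k
    by_cases h : k = i
    · subst h
      simp
    · simp [Function.update_of_ne h, norm_norm]

theorem sat_congr (φ : Fml) {v v' : ℕ → Name P} (h : ∀ k, norm (v k) = norm (v' k)) :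
    sat φ v = sat φ v' := by
  rw [← sat_norm φ v, ← sat_norm φ v']
  congr 1
  funext k
  exact h k

end

section

variable {Q P : Type u} [Preorder Q] [Preorder P]

/-- the name for the same set with respect to another set of conditions -/
def pullN (f : Q → P) : Name P → Name Q
  | .mk ι n c => .mk ι (fun i => pullN f (n i)) fun i => pull f (c i)

/-- the image of a name -/
def pushN (f : Q → P) : Name Q → Name P
  | .mk ι n c => .mk ι (fun i => pushN f (n i)) fun i => f '' c i

theorem norm_pull_push {f : Q → P} (hf : DM f) (x : Name Q) :
    norm (pullN f (pushN f x)) = norm x := by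
  induction x with
  | mk ι n c ih =>
    simp only [pushN, pullN, norm, hf.meets_pull_image]
    congr 1
    funext i
    exact ih i

theorem feq_nat {f : Q → P} (hf : Opn f) (x y : Name P) :
    f ⁻¹' feq x y = feq (pullN f x) (pullN f y) := by
  induction x generalizing y with
  | mk ι n c ih =>
    cases y with
    | mk ι' n' c' =>
      simp only [feq, pullN, pre_fand, pre_fall]
      congr 1
      · congr 1
        funext i
        rw [hf.pre_fimp (down_meets _) (sent_fex).down, hf.pre_meets,
          hf.pre_fex fun j => down_fand (down_meets _) (sent_feq _ _).down]
        simp only [pre_fand, hf.pre_meets, ih]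
      · congr 1
        funext i
        rw [hf.pre_fimp (down_meets _) (sent_fex).down, hf.pre_meets,
          hf.pre_fex fun j => down_fand (down_meets _) (sent_feq _ _).down]
        simp only [pre_fand, hf.pre_meets, ih]

theorem fmem_nat {f : Q → P} (hf : Opn f) (x y : Name P) :
    f ⁻¹' fmem x y = fmem (pullN f x) (pullN f y) := by
  cases y with
  | mk ι' n' c' =>
    simp only [fmem, pullN]
    rw [hf.pre_fex fun j => down_fand (down_meets _) (sent_feq _ _).down]
    simp only [pre_fand, hf.pre_meets, feq_nat hf]

theorem sat_nat {f : Q → P} (hf : DM f) (φ : Fml) (v : ℕ → Name P) :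
    f ⁻¹' sat φ v = sat φ fun k => pullN f (v k) := by
  induction φ generalizing v with
  | mem i j => exact fmem_nat hf.toOpn _ _
  | eq i j => exact feq_nat hf.toOpn _ _
  | neg φ ih =>
    simp only [sat]
    rw [hf.toOpn.pre_fnot (sent_sat φ v).down, ih]
  | and φ ψ ih ih' => simp only [sat, pre_fand, ih, ih']
  | all i φ ih =>
    simp only [sat, pre_fall, ih]
    have hup : ∀ x : Name P, (fun k => pullN f (Function.update v i x k)) =
        Function.update (fun k => pullN f (v k)) i (pullN f x) := by
      intro x
      funext k
      by_cases h : k = i
      · subst h
        simp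
      · simp [Function.update_of_ne h]
    ext q
    rw [mem_fall, mem_fall]
    constructor
    · intro h x
      have h1 := h (pushN f x)
      rw [hup] at h1
      rwa [sat_congr φ (v' := Function.update (fun k => pullN f (v k)) i x)] at h1
      intro k
      by_cases h : k = i
      · subst h
        simp [norm_pull_push hf]
      · simp [Function.update_of_ne h]
    · intro h x
      rw [hup]
      exact h _

theorem pullN_pullN {R : Type u} [Preorder R] {g : R → Q} {f : Q → P}
    (hf : ∀ q q', q' ≤ q → f q' ≤ f q) (x : Name P) :
    pullN g (pullN f x) = pullN (f ∘ g) x := by
  induction x with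
  | mk ι n c ih =>
    simp only [pullN, pull_pull hf]
    congr 1
    funext i
    exact ih i

end

/-! ### Names for functions into the ordinals -/

section

variable {P : Type u}

/-- the canonical name for the ordinal represented by the element `i` of a well-order -/
noncomputable def ordName {X : Type u} [LinearOrder X] [WellFoundedLT X] : X → Name P :=
  WellFounded.fix (wellFounded_lt (α := X)) fun i n =>
    Name.mk (Iio i) (fun j => n j.1 j.2) fun _ => univ

theorem ordName_eq {X : Type u} [LinearOrder X] [WellFoundedLT X] (i : X) :
    (ordName i : Name P) = Name.mk (Iio i) (fun j => ordName j.1) fun _ => univ :=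
  WellFounded.fix_eq _ _ i

/-- the canonical name for the unordered pair of two named sets -/
def upair (x y : Name P) : Name P :=
  .mk (ULift Bool) (fun b => cond b.down x y) fun _ => univ

/-- the canonical name for the ordered pair of two named sets (Kuratowski pair) -/
def opair (x y : Name P) : Name P := upair (upair x x) (upair x y)

/-- The name for the set of the ordered pairs `(i, j)`, `i` and `j` being read as ordinals, for
which the generic filter meets `z i j`. When `z` names a function, this is a name for the function
as a set of the extension. -/
noncomputable def funName {X Y : Type u} [LinearOrder X] [WellFoundedLT X] [LinearOrder Y]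
    [WellFoundedLT Y] (z : X → Y → Set P) : Name P :=
  .mk (X × Y) (fun p => opair (ordName p.1) (ordName p.2)) fun p => z p.1 p.2

variable {Q : Type u} [Preorder Q] [Preorder P]

theorem pull_univ (f : Q → P) : pull f Set.univ = Set.univ := by
  apply Set.eq_univ_of_forall
  intro q
  exact ⟨f q, trivial, le_rfl⟩

theorem pullN_ordName {X : Type u} [LinearOrder X] [WellFoundedLT X] (f : Q → P) (i : X) :
    pullN f (ordName i) = ordName i := by
  induction i using WellFoundedLT.induction with
  | ind i ih =>
    rw [ordName_eq, ordName_eq]
    simp only [pullN, pull_univ]
    congr 1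
    funext j
    exact ih j.1 j.2

theorem pullN_upair (f : Q → P) (x y : Name P) :
    pullN f (upair x y) = upair (pullN f x) (pullN f y) := by
  simp only [upair, pullN, pull_univ]
  congr 1
  funext b
  cases b.down <;> rfl

theorem pullN_opair (f : Q → P) (x y : Name P) :
    pullN f (opair x y) = opair (pullN f x) (pullN f y) := by
  simp only [opair, pullN_upair]

theorem pullN_funName {X Y : Type u} [LinearOrder X] [WellFoundedLT X] [LinearOrder Y]
    [WellFoundedLT Y] (f : Q → P) (z : X → Y → Set P) :
    pullN f (funName z) = funName fun a b => pull f (z a b) := by
  simp only [funName, pullN, pullN_opair, pullN_ordName]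

theorem norm_funName {X Y : Type u} [LinearOrder X] [WellFoundedLT X] [LinearOrder Y]
    [WellFoundedLT Y] {z z' : X → Y → Set P} (h : ∀ a b, meets (z a b) = meets (z' a b)) :
    norm (funName z) = norm (funName z') := by
  simp only [funName, norm, h]

end

/-! ### The predicate given by a formula with a parameter -/

section

variable {K : Type u} [LinearOrder K] [WellFoundedLT K] {P : Type u} [Preorder P]

/-- The conditions which force the formula `φ` about the function from `K` to `K` named by `z`
and the function from `K` to the ordinals named by `y`. -/
noncomputable def holds {Y : Type u} [LinearOrder Y] [WellFoundedLT Y] (φ : Fml)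
    (z : K → K → Set P) (y : K → Y → Set P) : Set P :=
  sat φ fun k => if k = 0 then funName z else funName y

theorem sent_holds {Y : Type u} [LinearOrder Y] [WellFoundedLT Y] (φ : Fml)
    (z : K → K → Set P) (y : K → Y → Set P) : Sent (holds φ z y) := sent_sat _ _

theorem holds_congr {Y : Type u} [LinearOrder Y] [WellFoundedLT Y] (φ : Fml)
    {z z' : K → K → Set P} {y y' : K → Y → Set P} (h : ∀ a b, meets (z a b) = meets (z' a b))
    (h' : ∀ a b, meets (y a b) = meets (y' a b)) : holds φ z y = holds φ z' y' := by
  apply sat_congr
  intro k
  by_cases hk : k = 0
  · simp only [hk, if_true]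
    exact norm_funName h
  · simp only [hk, if_false]
    exact norm_funName h'

theorem holds_nat {Q : Type u} [Preorder Q] {f : Q → P} (hf : DM f) {Y : Type u} [LinearOrder Y]
    [WellFoundedLT Y] (φ : Fml) (z : K → K → Set P) (y : K → Y → Set P) :
    f ⁻¹' holds φ z y = holds φ (fun a b => pull f (z a b)) fun a b => pull f (y a b) := by
  unfold holds
  rw [sat_nat hf]
  congr 1
  funext k
  by_cases hk : k = 0
  · simp only [hk, if_true]
    exact pullN_funName _ _
  · simp only [hk, if_false]
    exact pullN_funName _ _

/-- the predicate given by a formula and a parameter named over the base -/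
noncomputable def pdF {Y : Type u} [LinearOrder Y] [WellFoundedLT Y] (φ : Fml)
    (y : K → Y → Set P) : Pd K P where
  val := fun _ _ f z => holds φ z fun a b => pull f (y a b)
  sent := fun _ _ _ _ _ => sent_holds _ _ _
  nat := fun Q Q' _ _ i hi f hf z => by
    rw [holds_nat hi]
    congr 1
    funext a b
    exact pull_pull hf _
  ext := fun _ _ _ _ _ h => holds_congr φ h fun _ _ => rfl

end

end Pool.Agent.H641
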