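import Pool.Agent.H641.Branch

/-!
# Predicates of the forcing language with a base, and homogeneity
-/

set_option linter.unusedSectionVars false

namespace Pool.Agent.H641

open Cardinal Set

universe u v

/-- A statement about a function from `K` to `K` of a forcing extension and about a generic object
for the set `B` of conditions. For each set of conditions `Q` mapped to `B`, and each name `z` of
such a function, `val Q f z` is the set of the conditions which force it. It does not depend on
the presentation of the forcing and only depends on the function named by `z`. -/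
structure Pd (K : Type u) (B : Type u) [Preorder B] where
  val : (Q : Type u) → [Preorder Q] → (Q → B) → (K → K → Set Q) → Set Q
  sent : ∀ (Q : Type u) [Preorder Q] (f : Q → B) (z : K → K → Set Q),
    (∀ q q', q' ≤ q → f q' ≤ f q) → Sent (val Q f z)
  nat : ∀ (Q Q' : Type u) [Preorder Q] [Preorder Q'] (i : Q' → Q), DM i → ∀ (f : Q → B),
    (∀ q q', q' ≤ q → f q' ≤ f q) → ∀ z : K → K → Set Q,
    i ⁻¹' val Q f z = val Q' (f ∘ i) fun a b => pull i (z a b)
  ext : ∀ (Q : Type u) [Preorder Q] (f : Q → B) (z z' : K → K → Set Q),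
    (∀ a b, meets (z a b) = meets (z' a b)) → val Q f z = val Q f z'

/-- the negation -/
def Pd.neg {K B : Type u} [Preorder B] (Φ : Pd K B) : Pd K B where
  val := fun Q _ f z => fnot (Φ.val Q f z)
  sent := fun Q _ f z hf => sent_fnot (Φ.sent Q f z hf).down
  nat := fun Q Q' _ _ i hi f hf z => by
    rw [hi.toOpn.pre_fnot (Φ.sent Q f z hf).down, Φ.nat Q Q' i hi f hf z]
  ext := fun Q _ f z z' h => by rw [Φ.ext Q f z z' h]

/-- a monotone map with a monotone inverse -/
theorem dm_of_inv {Q P : Type u} [Preorder Q] [Preorder P] {f : Q → P} {g : P → Q}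
    (hf : ∀ q q', q' ≤ q → f q' ≤ f q) (hg : ∀ p p', p' ≤ p → g p' ≤ g p)
    (hgf : ∀ q, g (f q) = q) (hfg : ∀ p, f (g p) = p) : DM f where
  mono := hf
  lift := fun q p h => by
    refine ⟨g p, ?_, (hfg p).le⟩
    have := hg _ _ h
    rwa [hgf] at this
  refl := fun q q' p h h' => by
    have h1 := hg _ _ h
    have h2 := hg _ _ h'
    rw [hgf] at h1 h2
    exact ⟨g p, h1, h2⟩

section

variable {K J W : Type u} [LinearOrder K] [Kap K] {E : Type u} [Preorder E]

/-- changing the values in the second and third component -/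
def swp (τ : K → Equiv.Perm W) (σ : J → Equiv.Perm W) (y : (E × Nd K W) × Cond K J W) :
    (E × Nd K W) × Cond K J W := ((y.1.1, y.1.2.map τ), y.2.map σ)

theorem dm_swp (τ : K → Equiv.Perm W) (σ : J → Equiv.Perm W) :
    DM (swp (E := E) τ σ) := by
  apply dm_of_inv (g := swp (fun i => (τ i).symm) (fun i => (σ i).symm))
  · intro q q' h
    exact ⟨⟨h.1.1, Nd.map_le h.1.2⟩, Cond.map_le h.2⟩
  · intro q q' h
    exact ⟨⟨h.1.1, Nd.map_le h.1.2⟩, Cond.map_le h.2⟩
  · intro q
    simp [swp, Nd.map_map, Cond.map_map]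
  · intro q
    simp [swp, Nd.map_map', Cond.map_map']

open Classical in
/-- Homogeneity: a condition of `E` can be strengthened so that it decides every statement about
the generic object for `E`. -/
theorem hom [Nonempty W] {B : Type u} [Preorder B] (Φ : Pd K B) (fE : E → B)
    (hfE : ∀ q q', q' ≤ q → fE q' ≤ fE q) (x0 : K → K → Set E) (e : E) :
    ∃ e' ≤ e, (∀ y : (E × Nd K W) × Cond K J W, y.1.1 ≤ e' →
        y ∈ Φ.val _ (fun y : (E × Nd K W) × Cond K J W => fE y.1.1)
          (fun i j => pull (fun y : (E × Nd K W) × Cond K J W => y.1.1) (x0 i j))) ∨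
      (∀ y : (E × Nd K W) × Cond K J W, y.1.1 ≤ e' →
        y ∈ fnot (Φ.val _ (fun y : (E × Nd K W) × Cond K J W => fE y.1.1)
          (fun i j => pull (fun y : (E × Nd K W) × Cond K J W => y.1.1) (x0 i j)))) := by
  set f : (E × Nd K W) × Cond K J W → B := fun y => fE y.1.1 with hf
  have hfm : ∀ q q', q' ≤ q → f q' ≤ f q := fun q q' h => hfE _ _ h.1.1
  set z : K → K → Set ((E × Nd K W) × Cond K J W) :=
    fun i j => pull (fun y : (E × Nd K W) × Cond K J W => y.1.1) (x0 i j) with hz
  set Ψ := Φ.val _ f z with hΨ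
  have hsent : Sent Ψ := Φ.sent _ f z hfm
  by_cases h : ((e, Nd.root K W), Cond.one K J W) ∈ fnot Ψ
  · refine ⟨e, le_rfl, Or.inr fun y hy => ?_⟩
    exact down_fnot _ _ h _ ⟨⟨hy, Nd.le_root _⟩, Cond.le_one _⟩
  · rw [mem_fnot] at h
    push Not at h
    obtain ⟨⟨⟨e', c⟩, p⟩, hle, hmem⟩ := h
    refine ⟨e', hle.1.1, Or.inl fun y hy => ?_⟩
    apply hsent.rg
    rintro ⟨⟨e'', c''⟩, p''⟩ hq
    have he'' : e'' ≤ e' := le_trans hq.1.1 hy
    obtain ⟨c3, hc3, hc3l⟩ := c''.exists_long c.len
    let p3 := p''.ov p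
    let τ : K → Equiv.Perm W := fun i =>
      if h : ∃ w w', c3.f i = some w ∧ c.f i = some w' then
        Equiv.swap h.choose h.choose_spec.choose else Equiv.refl W
    let σ : J → Equiv.Perm W := fun i =>
      if h : ∃ w w', p3.f i = some w ∧ p.f i = some w' then
        Equiv.swap h.choose h.choose_spec.choose else Equiv.refl W
    have hτ : ∀ i w w', c3.f i = some w → c.f i = some w' → τ i = Equiv.swap w w' := by
      intro i w w' h1 h2
      have h3 : ∃ w w', c3.f i = some w ∧ c.f i = some w' := ⟨w, w', h1, h2⟩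
      have h4 : τ i = Equiv.swap h3.choose h3.choose_spec.choose := dif_pos h3
      obtain ⟨h5, h6⟩ := h3.choose_spec.choose_spec
      rw [h4]
      exact congrArg₂ Equiv.swap (Option.some.inj (h5.symm.trans h1))
        (Option.some.inj (h6.symm.trans h2))
    have hσ : ∀ i w w', p3.f i = some w → p.f i = some w' → σ i = Equiv.swap w w' := by
      intro i w w' h1 h2
      have h3 : ∃ w w', p3.f i = some w ∧ p.f i = some w' := ⟨w, w', h1, h2⟩
      have h4 : σ i = Equiv.swap h3.choose h3.choose_spec.choose := dif_pos h3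
      obtain ⟨h5, h6⟩ := h3.choose_spec.choose_spec
      rw [h4]
      exact congrArg₂ Equiv.swap (Option.some.inj (h5.symm.trans h1))
        (Option.some.inj (h6.symm.trans h2))
    have h1 : c3.map τ ≤ c := by
      intro i w hi
      obtain ⟨w', hw'⟩ := c3.exists_val ((Nd.lt_len hi).trans_le hc3l)
      rw [Nd.map_some, hτ i w' w hw' hi, hw']
      simp
    have h2 : p3.map σ ≤ p := by
      intro i w hi
      obtain ⟨w', hw'⟩ : ∃ w', p3.f i = some w' := by
        apply Option.ne_none_iff_exists'.1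
        apply Cond.ov_ne_none.2
        right
        simp [hi]
      rw [Cond.map_some, hσ i w' w hw' hi, hw']
      simp
    refine ⟨((e'', c3), p3), ⟨⟨le_rfl, hc3⟩, Cond.ov_le _ _⟩, ?_⟩
    have h3 : swp τ σ ((e'', c3), p3) ∈ Ψ :=
      hsent.down _ hmem _ ⟨⟨he'', h1⟩, h2⟩
    have h4 : ((e'', c3), p3) ∈ swp τ σ ⁻¹' Ψ := h3
    rw [hΨ, Φ.nat _ _ (swp τ σ) (dm_swp τ σ) f hfm z] at h4
    have h5 : (fun a b => pull (swp τ σ) (z a b)) = z := by
      funext a b
      have hm : ∀ q q' : (E × Nd K W) × Cond K J W, q' ≤ q → q'.1.1 ≤ q.1.1 :=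
        fun q q' h => h.1.1
      exact pull_pull (g := swp τ σ) hm (x0 a b)
    rw [h5] at h4
    exact h4

end

end Pool.Agent.H641
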