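import Pool.Agent.H641.SCod

/-!
# Automorphisms and homogeneity of the coding forcing
-/

set_option linter.unusedSectionVars false

namespace Pool.Agent.H641

open Cardinal Set

universe u v

section

variable {K W J : Type u} [LinearOrder K]

/-- a permutation of the requests which only changes the labels -/
structure Au (φ : Req K W J ≃ Req K W J) : Prop where
  ι : ∀ ξ k, (φ ξ).ι k = φ (ξ.ι k)
  D : ∀ ξ, (φ ξ).D = ξ.D
  U : ∀ ξ, (φ ξ).U = ξ.U
  side : ∀ ξ, (φ ξ).side = ξ.side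

theorem Au.symm {φ : Req K W J ≃ Req K W J} (h : Au φ) : Au φ.symm where
  ι := fun ξ k => by
    apply φ.injective
    rw [← h.ι, φ.apply_symm_apply, φ.apply_symm_apply]
  D := fun ξ => by rw [← h.D, φ.apply_symm_apply]
  U := fun ξ => by rw [← h.U, φ.apply_symm_apply]
  side := fun ξ => by rw [← h.side, φ.apply_symm_apply]

theorem Au.ι' {φ : Req K W J ≃ Req K W J} (h : Au φ) (ξ : Req K W J) :
    (φ ξ).ι = fun k => φ (ξ.ι k) := funext fun k => h.ι ξ k

end

section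

variable {K W J V : Type u} [LinearOrder K] [Kap K]

/-- the action of a permutation of the requests on the conditions -/
def act (φ : Req K W J ≃ Req K W J) (p : Cnd K W J) : Cnd K W J :=
  ⟨p.e, ⟨fun ξ => p.t.f (φ.symm ξ), p.t.sm.preimage φ.symm.injective⟩⟩

theorem act_at (φ : Req K W J ≃ Req K W J) (p : Cnd K W J) (ξ : Req K W J) :
    (act φ p).t.f (φ ξ) = p.t.f ξ := by
  show p.t.f (φ.symm (φ ξ)) = _
  rw [φ.symm_apply_apply]

theorem act_symm (φ : Req K W J ≃ Req K W J) (p : Cnd K W J) :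
    act φ.symm (act φ p) = p := by
  cases p with
  | mk e t =>
    unfold act
    congr 1
    apply Cond.ext
    funext ξ
    show t.f (φ.symm (φ ξ)) = _
    rw [φ.symm_apply_apply]

theorem symm_act (φ : Req K W J ≃ Req K W J) (p : Cnd K W J) :
    act φ (act φ.symm p) = p := by
  have := act_symm φ.symm p
  rwa [φ.symm_symm] at this

theorem act_mono (φ : Req K W J ≃ Req K W J) {p q : Cnd K W J} (h : p ≤ q) :
    act φ p ≤ act φ q := ⟨h.1, fun ξ v hv => h.2 (φ.symm ξ) v hv⟩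

theorem pb_act {φ : Req K W J ≃ Req K W J} (hφ : Au φ) (p : Cnd K W J) (ξ : Req K W J) :
    pb (φ ξ).ι (act φ p) = pb ξ.ι p := by
  unfold pb
  congr 1
  funext k
  rw [hφ.ι, act_at]

theorem pb_act' {φ : Req K W J ≃ Req K W J} (hφ : Au φ) (p : Cnd K W J) (ξ : Req K W J) :
    pb (φ ξ).ι p = pb ξ.ι (act φ.symm p) := by
  rw [← pb_act hφ (act φ.symm p) ξ, symm_act]

theorem act_mem {φ : Req K W J ≃ Req K W J} (hφ : Au φ) {A A' : Set (Req K W J)}
    (hA : ∀ ξ ∈ A, φ ξ ∈ A') {p : Cnd K W J} (hp : p ∈ PS A) : act φ p ∈ PS A' := by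
  have h1 : ∀ η v, (act φ p).t.f η = some v → ∃ ξ, η = φ ξ ∧ p.t.f ξ = some v := fun η v h =>
    ⟨φ.symm η, (φ.apply_symm_apply η).symm, h⟩
  refine ⟨⟨?_, ?_, ?_, ?_⟩, ?_⟩
  · intro η v h
    obtain ⟨ξ, rfl, h2⟩ := h1 η v h
    rw [pb_act hφ, hφ.U]
    exact hp.1.inU ξ v h2
  · intro η v h a w hw
    obtain ⟨ξ, rfl, h2⟩ := h1 η v h
    rw [pb_act hφ, hφ.D]
    exact hp.1.dec ξ v h2 a w hw
  · intro η v h
    obtain ⟨ξ, rfl, h2⟩ := h1 η v h
    exact hp.1.len ξ v h2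
  · intro η v h d hd hdl
    obtain ⟨ξ, rfl, h2⟩ := h1 η v h
    rw [hφ.side]
    exact hp.1.coh ξ v h2 d hd hdl
  · intro η hη
    obtain ⟨v, hv⟩ := Option.ne_none_iff_exists'.1 hη
    obtain ⟨ξ, rfl, h2⟩ := h1 η v hv
    exact hA ξ (hp.2 ξ (by simp [h2]))

/-- the action on names -/
def actn (φ : Req K W J ≃ Req K W J) (z : K → V → Set (Cnd K W J)) : K → V → Set (Cnd K W J) :=
  fun a w => {p | act φ.symm p ∈ z a w}

theorem Nm.act {φ : Req K W J ≃ Req K W J} (hφ : Au φ) {A A' : Set (Req K W J)}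
    (hA' : ∀ ξ ∈ A', φ.symm ξ ∈ A) {z : K → V → Set (Cnd K W J)}
    (h : Nm A z) : Nm A' (actn φ z) where
  down := fun a w _ hr h1 _ hr' hle =>
    h.down a w _ (act_mem hφ.symm hA' hr) h1 _ (act_mem hφ.symm hA' hr') (act_mono _ hle)
  fn := fun _ hr a w w' h1 h2 => h.fn _ (act_mem hφ.symm hA' hr) a w w' h1 h2

theorem Wit.act {φ : Req K W J ≃ Req K W J} (hφ : Au φ) {A A' : Set (Req K W J)}
    (hA : ∀ ξ ∈ A, φ ξ ∈ A') (hA' : ∀ ξ ∈ A', φ.symm ξ ∈ A) {T : Nd K W → Nd K K → Prop}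
    {q : Cnd K W J} {z : K → W → Set (Cnd K W J)} {y : K → K → Set (Cnd K W J)}
    (h : Wit A (fun _ => T) q z y) : Wit A' (fun _ => T) (act φ q) (actn φ z) (actn φ y) where
  nm := h.nm.act hφ hA'
  tt := fun r hr hrq a => by
    have h1 := act_mono φ.symm hrq
    rw [act_symm] at h1
    obtain ⟨r', hr', h2, w, hw⟩ := h.tt _ (act_mem hφ.symm hA' hr) h1 a
    have h3 := act_mono φ h2
    rw [symm_act] at h3
    refine ⟨H641.act φ r', act_mem hφ hA hr', h3, w, ?_⟩
    show H641.act φ.symm (H641.act φ r') ∈ y a w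
    rwa [act_symm]
  rel := fun r hr hrq s u hsu hs hu => by
    have h1 := act_mono φ.symm hrq
    rw [act_symm] at h1
    exact h.rel _ (act_mem hφ.symm hA' hr) h1 s u hsu (fun a w h => hs a w h) fun a w h => hu a w h

theorem actn_zn {φ : Req K W J ≃ Req K W J} (hφ : Au φ) (ξ : Req K W J) :
    actn φ (zn ξ) = zn (φ ξ) := by
  funext a w
  ext p
  show pb ξ.ι (act φ.symm p) ∈ ξ.D a w ↔ pb (φ ξ).ι p ∈ (φ ξ).D a w
  rw [pb_act' hφ, hφ.D]

theorem actn_actn (φ : Req K W J ≃ Req K W J) (z : K → V → Set (Cnd K W J)) :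
    actn φ.symm (actn φ z) = z := by
  funext a w
  ext p
  show act φ.symm (act φ.symm.symm p) ∈ z a w ↔ _
  rw [φ.symm_symm, act_symm]

/-- the truth of the statement does not change -/
theorem Nt.act {φ : Req K W J ≃ Req K W J} (hφ : Au φ) {A A' : Set (Req K W J)}
    (hA : ∀ ξ ∈ A, φ ξ ∈ A') (hA' : ∀ ξ ∈ A', φ.symm ξ ∈ A) {T : Nd K W → Nd K K → Prop}
    {p : Cnd K W J} {z : K → W → Set (Cnd K W J)} (h : Nt A T p z) :
    Nt A' T (act φ p) (actn φ z) := by
  rintro q hq hqp ⟨y, hy⟩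
  have h1 := act_mono φ.symm hqp
  rw [act_symm] at h1
  have h2 := hy.act hφ.symm hA' (by rwa [φ.symm_symm])
  rw [actn_actn] at h2
  exact h _ (act_mem hφ.symm hA' hq) h1 ⟨_, h2⟩

/-! ### Changing the labels of the requests outside of a given set -/

/-- the label -/
def Req.lab : Req K W J → Option J
  | .nil => none
  | .mk _ _ _ _ l => some l

/-- changing the labels outside of `B` -/
def mv (B : Set (Req K W J)) (π : Set J → Equiv.Perm J) : Req K W J → Req K W J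
  | .nil => .nil
  | .mk ι D U i l => .mk (fun k => mv B π (ι k)) D U i (π {l' | Req.mk ι D U i l' ∈ B} l)

/-- the inverse -/
def mvi (B : Set (Req K W J)) (π : Set J → Equiv.Perm J) : Req K W J → Req K W J
  | .nil => .nil
  | .mk ι D U i l => .mk (fun k => mvi B π (ι k)) D U i
      ((π {l' | Req.mk (fun k => mvi B π (ι k)) D U i l' ∈ B}).symm l)

theorem mvi_mv (B : Set (Req K W J)) (π : Set J → Equiv.Perm J) (ξ : Req K W J) :
    mvi B π (mv B π ξ) = ξ := by
  induction ξ with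
  | nil => rfl
  | mk ι D U i l ih =>
    simp only [mv, mvi, ih, Equiv.symm_apply_apply]

theorem mv_mvi (B : Set (Req K W J)) (π : Set J → Equiv.Perm J) (ξ : Req K W J) :
    mv B π (mvi B π ξ) = ξ := by
  induction ξ with
  | nil => rfl
  | mk ι D U i l ih =>
    simp only [mv, mvi, ih, Equiv.apply_symm_apply]

/-- changing the labels outside of `B`, as a permutation -/
def mvE (B : Set (Req K W J)) (π : Set J → Equiv.Perm J) : Req K W J ≃ Req K W J where
  toFun := mv B π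
  invFun := mvi B π
  left_inv := mvi_mv B π
  right_inv := mv_mvi B π

theorem au_mvE (B : Set (Req K W J)) (π : Set J → Equiv.Perm J) : Au (mvE B π) where
  ι := fun ξ k => by cases ξ <;> rfl
  D := fun ξ => by cases ξ <;> rfl
  U := fun ξ => by cases ξ <;> rfl
  side := fun ξ => by cases ξ <;> rfl

theorem mvE_fix {B : Set (Req K W J)} (hB : ∀ ξ ∈ B, ∀ k, ξ.ι k ∈ B) {π : Set J → Equiv.Perm J}
    (hπ : ∀ S, (∀ l ∈ S, ∃ ξ ∈ B, ξ.lab = some l) → ∀ l ∈ S, π S l = l) (ξ : Req K W J)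
    (h : ξ ∈ B) : mvE B π ξ = ξ := by
  induction ξ with
  | nil => rfl
  | mk ι D U i l ih =>
    show Req.mk (fun k => mv B π (ι k)) D U i (π {l' | Req.mk ι D U i l' ∈ B} l) = _
    have h1 : ∀ k, mv B π (ι k) = ι k := fun k => ih k (hB _ h k)
    have h2 : π {l' | Req.mk ι D U i l' ∈ B} l = l := hπ _ (fun l' hl' => ⟨_, hl', rfl⟩) l h
    simp only [h1]
    rw [h2]

open Classical in
theorem exists_perm {J : Type u} (hJ : #K < #J) (S X Y : Set J) (hS : #S ≤ #K) (hX : Sm K X)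
    (hY : Sm K Y) : ∃ π : Equiv.Perm J, (∀ l ∈ S, π l = l) ∧ ∀ l ∈ X, l ∉ S → π l ∉ Y := by
  have hinf : ℵ₀ ≤ #J := mk_K_pos.trans hJ.le
  have : Infinite J := infinite_iff.2 hinf
  have h1 : #((S ∪ X ∪ Y : Set J)) < #J := by
    refine (mk_union_le _ _).trans_lt (add_lt_of_lt hinf ((mk_union_le _ _).trans_lt
      (add_lt_of_lt hinf (hS.trans_lt hJ) (lt_trans hX hJ))) (lt_trans hY hJ))
  have h2 : #((S ∪ X ∪ Y : Set J)ᶜ : Set J) = #J := mk_compl_of_infinite _ h1
  have h3 : #(X \ S : Set J) ≤ #((S ∪ X ∪ Y : Set J)ᶜ : Set J) := by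
    rw [h2]
    exact (mk_le_mk_of_subset sdiff_subset).trans (lt_trans hX hJ).le
  obtain ⟨g⟩ := (Cardinal.le_def _ _).1 h3
  let f : J → J := fun j => if h : j ∈ X \ S then (g ⟨j, h⟩).1 else
    if h : ∃ x : (X \ S : Set J), (g x).1 = j then h.choose.1 else j
  have hg : ∀ x : (X \ S : Set J), (g x).1 ∉ X \ S := fun x hx => (g x).2 (Or.inl (Or.inr hx.1))
  have hf1 : ∀ x : (X \ S : Set J), f x.1 = (g x).1 := fun x => dif_pos x.2
  have hf2 : ∀ x : (X \ S : Set J), f (g x).1 = x.1 := by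
    intro x
    have h4 : ∃ x' : (X \ S : Set J), (g x').1 = (g x).1 := ⟨x, rfl⟩
    have h5 : f (g x).1 = h4.choose.1 := by
      show (if h : (g x).1 ∈ X \ S then _ else _) = _
      rw [dif_neg (hg x), dif_pos h4]
    rw [h5]
    exact congrArg Subtype.val (g.injective (Subtype.ext h4.choose_spec))
  have hf3 : ∀ j, j ∉ X \ S → (∀ x : (X \ S : Set J), (g x).1 ≠ j) → f j = j := by
    intro j h4 h5
    show (if h : j ∈ X \ S then _ else _) = _
    rw [dif_neg h4, dif_neg]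
    rintro ⟨x, hx⟩
    exact h5 x hx
  have hinv : Function.Involutive f := by
    intro j
    by_cases h4 : j ∈ X \ S
    · rw [hf1 ⟨j, h4⟩, hf2]
    · by_cases h5 : ∃ x : (X \ S : Set J), (g x).1 = j
      · obtain ⟨x, rfl⟩ := h5
        rw [hf2, hf1]
      · push Not at h5
        rw [hf3 j h4 h5, hf3 j h4 h5]
  refine ⟨Function.Involutive.toPerm f hinv, ?_, ?_⟩
  · intro l hl
    apply hf3
    · exact fun h => h.2 hl
    · intro x hx
      exact (g x).2 (Or.inl (Or.inl (hx ▸ hl)))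
  · intro l hl hlS hY'
    have h4 : (Function.Involutive.toPerm f hinv) l = (g ⟨l, hl, hlS⟩).1 := hf1 ⟨l, hl, hlS⟩
    rw [h4] at hY'
    exact (g _).2 (Or.inr hY')

/-- An automorphism which fixes `B` and moves the rest of the support of `q` away from the
support of `p`. -/
theorem exists_au (hJ : #K < #J) {B : Set (Req K W J)} (hB : ∀ ξ ∈ B, ∀ k, ξ.ι k ∈ B)
    (hcard : #B ≤ #K) (p q : Cnd K W J) : ∃ φ : Req K W J ≃ Req K W J, Au φ ∧
      (∀ ξ ∈ B, φ ξ = ξ) ∧ ∀ ξ, ξ ≠ .nil → q.t.f ξ ≠ none → ξ ∉ B → p.t.f (φ ξ) = none := by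
  classical
  by_cases hJn : Nonempty J
  swap
  · rw [not_nonempty_iff] at hJn
    rw [mk_eq_zero J] at hJ
    exact absurd hJ not_lt_bot
  let labs : Cnd K W J → Set J := fun p => {l | ∃ ξ, p.t.f ξ ≠ none ∧ ξ.lab = some l}
  have hlabs : ∀ p, Sm K (labs p) := fun p =>
    (p.t.sm.image fun ξ => (ξ.lab).getD (Classical.arbitrary J)).mono (by
      rintro l ⟨ξ, hξ, h⟩
      exact ⟨ξ, hξ, by simp [h]⟩)
  have h1 : ∀ S : Set J, ∃ π : Equiv.Perm J, (∀ l ∈ S, ∃ ξ ∈ B, ξ.lab = some l) →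
      (∀ l ∈ S, π l = l) ∧ ∀ l ∈ labs q, l ∉ S → π l ∉ labs p := by
    intro S
    by_cases hS : ∀ l ∈ S, ∃ ξ ∈ B, ξ.lab = some l
    · have h2 : #S ≤ #K := by
        have h3 : S ⊆ (fun ξ : Req K W J => (ξ.lab).getD (Classical.arbitrary J)) '' B := by
          intro l hl
          obtain ⟨ξ, hξ, h⟩ := hS l hl
          exact ⟨ξ, hξ, by simp [h]⟩
        exact (mk_le_mk_of_subset h3).trans (mk_image_le.trans hcard)
      obtain ⟨π, h3, h4⟩ := exists_perm hJ S (labs q) (labs p) h2 (hlabs q) (hlabs p)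
      exact ⟨π, fun _ => ⟨h3, h4⟩⟩
    · exact ⟨Equiv.refl J, fun h => absurd h hS⟩
  choose π hπ using h1
  refine ⟨mvE B π, au_mvE B π, mvE_fix hB fun S hS => (hπ S hS).1, ?_⟩
  intro ξ hne hq hξB
  cases ξ with
  | nil => exact absurd rfl hne
  | mk ι D U i l =>
    by_contra hp
    have h2 := (hπ {l' | Req.mk ι D U i l' ∈ B} fun l' hl' => ⟨_, hl', rfl⟩).2 l
      ⟨_, hq, rfl⟩ hξB
    exact h2 ⟨_, hp, rfl⟩

/-- A set of requests which is invariant under changes of the labels. -/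
def Inv (A : Set (Req K W J)) : Prop :=
  ∀ φ : Req K W J ≃ Req K W J, Au φ → ∀ ξ ∈ A, φ ξ ∈ A

/-- Homogeneity: what is forced about a name which only depends on `B` is forced by the
restriction to `B`. -/
theorem Nt.res (hJ : #K < #J) {A B : Set (Req K W J)} (hA : Cl A) (hinv : Inv A)
    (hB : ∀ ξ ∈ B, ∀ k, ξ.ι k ∈ B) (hcard : #B ≤ #K) {T : Nd K W → Nd K K → Prop} {p : Cnd K W J}
    (hp : p ∈ PS A) {z : K → W → Set (Cnd K W J)} (hb : Bs B z) (h : Nt A T p z) :
    Nt A T (p.res B) z := by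
  rintro q hq hqp ⟨y, hy⟩
  obtain ⟨φ, hφ, hfix, hmove⟩ := exists_au hJ hB hcard p q
  have hq' := act_mem hφ (hinv φ hφ) hq
  have hz : actn φ z = z := by
    funext a w
    ext r
    show H641.act φ.symm r ∈ z a w ↔ r ∈ z a w
    rw [hb (H641.act φ.symm r), hb r]
    have h1 : (H641.act φ.symm r).res B = r.res B := by
      unfold Cnd.res H641.act
      simp only
      congr 1
      apply Cond.ext
      funext ξ
      simp only [Cond.res]
      split_ifs with h2
      · show r.t.f (φ ξ) = _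
        rw [hfix ξ h2]
      · rfl
    rw [h1]
  obtain ⟨r, hr, hrp, hrq, _⟩ := amalg hA hp hq' hqp.1 (by
    intro ξ v v' hv hv'
    have h1 : q.t.f (φ.symm ξ) = some v' := hv'
    by_cases h2 : φ.symm ξ ∈ B
    · have h3 : ξ = φ.symm ξ := by
        have := hfix _ h2
        rwa [φ.apply_symm_apply] at this
      rw [← h3] at h1 h2
      obtain ⟨v'', h4, h5⟩ := hqp.2 ξ v (Cond.res_some.2 ⟨h2, hv⟩)
      have h6 : v' = v'' := by
        have h7 : q.t.f ξ = some v'' := h4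
        rw [h1] at h7
        exact Option.some.inj h7
      rw [h6]
      exact h5
    · exfalso
      have h3 := hmove (φ.symm ξ) (hq.1.ne_nil h1) (by simp [h1]) h2
      rw [φ.apply_symm_apply, hv] at h3
      cases h3)
  have h1 := hy.act hφ (hinv φ hφ) (hinv φ.symm hφ.symm)
  rw [hz] at h1
  exact h r hr hrp ⟨_, h1.mono hrq⟩

end

end Pool.Agent.H641
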