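import Pool.Agent.H641.SAut

/-!
# Names depend on few requests, and every name is the name of a request
-/

set_option linter.unusedSectionVars false

namespace Pool.Agent.H641

open Cardinal Set

universe u v

section

variable {K W J V : Type u} [LinearOrder K] [Kap K]

theorem card_nd (hK : Big K K) (hW : #W ≤ #K) : #(Nd K W) ≤ #K := by
  obtain ⟨g⟩ := (Cardinal.le_def _ _).1 hW
  refine (mk_le_of_injective (f := fun s : Nd K W => (⟨fun i => (s.f i).map g, s.len, fun i => by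
    rw [← s.dom i]
    simp⟩ : Nd K K)) ?_).trans hK.nd
  intro s t h
  apply Nd.ext'
  intro i
  have h1 : (s.f i).map g = (t.f i).map g := congrFun (congrArg Nd.f h) i
  exact Option.map_injective g.injective h1

theorem card_tv (hK : Big K K) (hW : #W ≤ #K) : #(Tv K W) ≤ #K := hK.prod (card_nd hK hW) hK.nd

theorem le_card_tv : #K ≤ #(Tv K W) := by
  refine mk_le_of_injective (f := fun k : K => (Nd.root K W, (Nd.root K K).app k)) ?_
  intro a b h
  have h1 : (Nd.root K K).app a = (Nd.root K K).app b := congrArg Prod.snd h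
  have h2 := Nd.app_at (Nd.root K K) a
  rw [h1, Nd.app_at] at h2
  exact (Option.some.inj h2).symm

theorem big_tv (hK : Big K K) (hW : #W ≤ #K) : Big K (Tv K W) where
  le := le_card_tv
  pow := fun a => by
    obtain ⟨g⟩ := (Cardinal.le_def _ _).1 (card_tv hK hW)
    refine le_trans ?_ ((hK.pow a).trans le_card_tv)
    exact mk_le_of_injective (f := fun (h : Iio a → Tv K W) i => g (h i))
      fun h h' hh => funext fun i => g.injective (congrFun hh i)

theorem card_ev (hK : Big K K) (hW : #W ≤ #K) : #(Ev K W) ≤ #K := by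
  have hB : #(ULift.{u} Bool) ≤ #K := (mk_le_aleph0_iff.2 inferInstance).trans mk_K_pos
  obtain ⟨g⟩ := (Cardinal.le_def _ _).1 hB
  have h1 : #(Bool × Nd K W × Nd K K) ≤ #K := by
    have h2 : #(Bool × Nd K W × Nd K K) = #(ULift.{u} Bool × Nd K W × Nd K K) :=
      mk_congr (Equiv.prodCongr Equiv.ulift.symm (Equiv.refl _))
    rw [h2]
    exact hK.prod hB (card_tv hK hW)
  have h2 := hK.conds (J := Bool × Nd K W × Nd K K) (A := univ) (by rw [mk_univ]; exact h1)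
  refine (mk_le_of_injective (f := fun e : Ev K W => (⟨⟨fun i => (e.f i).map g, by
    refine e.sm.mono fun i hi => ?_
    simp only [mem_ofPred_eq, ne_eq, Option.map_eq_none_iff] at hi ⊢
    exact hi⟩, fun i _ => mem_univ i⟩ : {q : Cond K (Bool × Nd K W × Nd K K) K // q.In univ})) ?_).trans h2
  intro s t h
  apply Cond.ext
  funext i
  have h1 : (s.f i).map g = (t.f i).map g := congrFun (congrArg (fun x => x.1.f) h) i
  exact Option.map_injective g.injective h1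

open Classical in
/-- Every name for a function depends on few requests only. -/
theorem capture (hK : Big K K) (hW : #W ≤ #K) {A : Set (Req K W J)} (hA : Cl A)
    (hnil : Req.nil ∈ A) {p : Cnd K W J} (hp : p ∈ PS A) {z : K → V → Set (Cnd K W J)}
    (ht : Tt A p z) : ∃ B ⊆ A, Cl B ∧ Req.nil ∈ B ∧ #B ≤ #K ∧ p ∈ PS B ∧
      ∀ r ∈ PS B, r ≤ p → ∀ a, ∃ r' ∈ PS B, r' ≤ r ∧ ∃ w, r' ∈ z a w := by
  have hT := big_tv hK hW
  let A0 : Set (Req K W J) := insert Req.nil {ξ | p.t.f ξ ≠ none}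
  have h0 : #A0 ≤ #(Tv K W) := (p.t.sm.insert _).le.trans hT.le
  have hι : #((K × Ev K W) ⊕ K) ≤ #(Tv K W) := by
    rw [mk_sum, lift_id, lift_id]
    exact (add_le_add (hT.prod hT.le ((card_ev hK hW).trans hT.le)) hT.le).trans
      (add_eq_self hT.inf).le
  let F : (K × Ev K W) ⊕ K → Cond K (Req K W J) (Tv K W) → Cond K (Req K W J) (Tv K W) :=
    fun i t => Sum.elim
      (fun x : K × Ev K W => if h : ∃ r' ∈ PS A, r' ≤ (⟨x.2, t⟩ : Cnd K W J) ∧ ∃ w, r' ∈ z x.1 w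
        then h.choose.t else t)
      (fun k : K => ⟨fun η => if ∃ ξ, t.f ξ ≠ none ∧ ξ.ι k = η then some (Nd.root K W, Nd.root K K)
        else none, (t.sm.image fun ξ => ξ.ι k).mono (by
          intro η hη
          simp only [mem_ofPred_eq, ne_eq, ite_eq_right_iff, not_forall] at hη
          obtain ⟨⟨ξ, h1, h2⟩, _⟩ := hη
          exact ⟨ξ, h1, h2⟩)⟩) i
  obtain ⟨A1, hA01, hA1, hcl⟩ := exists_closed hT A0 h0 hι F
  refine ⟨A1 ∩ A, inter_subset_right, ⟨fun ξ h => hA.pr ξ h.2, ?_⟩, ⟨hA01 (mem_insert _ _), hnil⟩,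
    (mk_le_mk_of_subset inter_subset_left).trans (hA1.trans (card_tv hK hW)), ⟨hp.1, ?_⟩, ?_⟩
  · intro ξ hξ k
    refine ⟨?_, hA.mem ξ hξ.2 k⟩
    have h1 := hcl (Sum.inr k) (Cond.single ξ (Nd.root K W, Nd.root K K)) (by
      intro η hη
      rw [Cond.single_ne_none] at hη
      rw [hη]
      exact hξ.1)
    apply h1
    show (if ∃ ξ', (Cond.single (K := K) ξ (Nd.root K W, Nd.root K K)).f ξ' ≠ none ∧
      ξ'.ι k = ξ.ι k then some (Nd.root K W, Nd.root K K) else none) ≠ none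
    rw [if_pos ⟨ξ, Cond.single_ne_none.2 rfl, rfl⟩]
    simp
  · intro ξ hξ
    exact ⟨hA01 (Or.inr hξ), hp.2 ξ hξ⟩
  · intro r hr hrp a
    have hrA : r ∈ PS A := PS_mono inter_subset_right hr
    have hex : ∃ r' ∈ PS A, r' ≤ (⟨r.e, r.t⟩ : Cnd K W J) ∧ ∃ w, r' ∈ z a w := ht r hrA hrp a
    have h1 := hcl (Sum.inl (a, r.e)) r.t (hr.2.mono inter_subset_left)
    have h2 : F (Sum.inl (a, r.e)) r.t = hex.choose.t := dif_pos hex
    rw [h2] at h1
    obtain ⟨h3, h4, h5⟩ := hex.choose_spec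
    exact ⟨hex.choose, ⟨h3.1, fun ξ hξ => ⟨h1 ξ hξ, h3.2 ξ hξ⟩⟩, h4, h5⟩

/-- the part of a name which only depends on the requests in `B` -/
def nres (B : Set (Req K W J)) (z : K → V → Set (Cnd K W J)) : K → V → Set (Cnd K W J) :=
  fun a w => {q | q.res B ∈ z a w}

theorem bs_nres (B : Set (Req K W J)) (z : K → V → Set (Cnd K W J)) : Bs B (nres B z) := by
  intro p a w
  show p.res B ∈ z a w ↔ (p.res B).res B ∈ z a w
  rw [Cnd.res_res subset_rfl]

theorem mem_nres {B : Set (Req K W J)} {z : K → V → Set (Cnd K W J)} {q : Cnd K W J}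
    (hq : q ∈ PS B) (a : K) (w : V) : q ∈ nres B z a w ↔ q ∈ z a w := by
  show q.res B ∈ z a w ↔ _
  rw [Cnd.res_eq hq.2]

theorem nm_nres {A B : Set (Req K W J)} (hBA : B ⊆ A) {z : K → V → Set (Cnd K W J)}
    (hz : Nm A z) : Nm B (nres B z) where
  down := fun a w r hr h r' hr' hle => by
    rw [mem_nres hr] at h
    rw [mem_nres hr']
    exact hz.down a w r (PS_mono hBA hr) h r' (PS_mono hBA hr') hle
  fn := fun r hr a w w' h h' => by
    rw [mem_nres hr] at h h'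
    exact hz.fn r (PS_mono hBA hr) a w w' h h'

/-- every name is the name of a request -/
theorem exists_req {B : Set (Req K W J)} (hB : Cl B) (hnil : Req.nil ∈ B) (hcard : #B ≤ #K)
    {r : Cnd K W J} (hr : r ∈ PS B) (i : Bool) (l : J) {z : K → W → Set (Cnd K W J)}
    (hz : Nm B z) (ht : Tt B r z) :
    ∃ ξ : Req K W J, ξ.side = i ∧ range ξ.ι = B ∧ Pr ξ ∧
      (∀ q ∈ PS B, pb ξ.ι q ∈ ξ.U ↔ q ≤ r) ∧
      ∀ q ∈ PS B, ∀ a w, q ∈ zn ξ a w ↔ q ≤ r ∧ q ∈ z a w := by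
  obtain ⟨g⟩ := (Cardinal.le_def _ _).1 hcard
  have : Nonempty B := ⟨⟨_, hnil⟩⟩
  obtain ⟨ι, hι⟩ : ∃ ι : K → Req K W J, range ι = B := by
    refine ⟨fun k => (Function.invFun g k).1, ?_⟩
    ext ξ
    constructor
    · rintro ⟨k, rfl⟩
      exact (Function.invFun g k).2
    · intro h
      refine ⟨g ⟨ξ, h⟩, ?_⟩
      show (Function.invFun g (g ⟨ξ, h⟩)).1 = ξ
      rw [Function.leftInverse_invFun g.injective]
  let D : K → W → Set (Vw K W) := fun a w => {x | ∃ q ∈ PS B, q ≤ r ∧ q ∈ z a w ∧ VLe x (pb ι q)}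
  let U : Set (Vw K W) := {x | VLe x (pb ι r)}
  let ξ : Req K W J := .mk ι D U i l
  have hU : ∀ q ∈ PS B, pb ξ.ι q ∈ ξ.U ↔ q ≤ r := by
    intro q _
    constructor
    · intro h
      exact le_of_pb (ι := ι) (by rw [hι]; exact hr.2) h
    · intro h
      exact pb_mono h
  have hD : ∀ q ∈ PS B, ∀ a w, q ∈ zn ξ a w ↔ q ≤ r ∧ q ∈ z a w := by
    intro q hq a w
    constructor
    · rintro ⟨q', hq', h1, h2, h3⟩
      have h4 : q ≤ q' := le_of_pb (ι := ι) (by rw [hι]; exact hq'.2) h3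
      exact ⟨h4.trans h1, hz.down a w q' hq' h2 q hq h4⟩
    · rintro ⟨h1, h2⟩
      exact ⟨q, hq, h1, h2, VLe.refl _⟩
  refine ⟨ξ, rfl, hι, ⟨?_, ?_, ?_, ?_, ?_⟩, hU, hD⟩
  · intro k k'
    have h1 : (ι k).ι k' ∈ B := hB.mem _ (by rw [← hι]; exact ⟨k, rfl⟩) k'
    rw [← hι] at h1
    obtain ⟨k'', h2⟩ := h1
    exact ⟨k'', h2.symm⟩
  · intro x hx y hy
    exact hy.trans hx
  · rintro a w x ⟨q, hq, h1, h2, h3⟩ y hy
    exact ⟨q, hq, h1, h2, hy.trans h3⟩
  · intro q hq a w w' h1 h2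
    have hq' : q ∈ PS B := by
      have : range ξ.ι = B := hι
      rwa [this] at hq
    exact hz.fn q hq' a w w' ((hD q hq' a w).1 h1).2 ((hD q hq' a w').1 h2).2
  · intro q hq h a
    have h0 : range ξ.ι = B := hι
    have hq' : q ∈ PS B := by rwa [h0] at hq
    obtain ⟨q', hq2, h1, w, hw⟩ := ht q hq' ((hU q hq').1 h) a
    exact ⟨q', by rwa [h0], h1, w, (hD q' hq2 a w).2 ⟨h1.trans ((hU q hq').1 h), hw⟩⟩

/-- adding a request to a condition -/
theorem add_req {A : Set (Req K W J)} (hA : Cl A) {q : Cnd K W J} (hq : q ∈ PS A)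
    {ξ : Req K W J} (hξ : ξ ∈ A) (hU : pb ξ.ι q ∈ ξ.U) :
    ∃ q' ∈ PS A, q' ≤ q ∧ ∃ v, q'.t.f ξ = some v := by
  by_cases hn : q.t.f ξ = none
  swap
  · obtain ⟨v, hv⟩ := Option.ne_none_iff_exists'.1 hn
    exact ⟨q, hq, le_rfl, v, hv⟩
  let q' : Cnd K W J := ⟨q.e, q.t.ov (Cond.single ξ (Nd.root K W, Nd.root K K))⟩
  have hqt : ∀ η v, q'.t.f η = some v → q.t.f η = some v ∨
      (η = ξ ∧ (Nd.root K W, Nd.root K K) = v) := by
    intro η v h
    rcases Cond.ov_some.1 h with h1 | ⟨_, h1⟩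
    · exact Or.inl h1
    · exact Or.inr (Cond.single_some.1 h1)
  have hle : q' ≤ q := ⟨le_rfl, fun η v hv => ⟨v, Cond.ov_some.2 (Or.inl hv), le_rfl, fr_refl _ _⟩⟩
  refine ⟨q', ⟨⟨?_, ?_, ?_, ?_⟩, ?_⟩, hle, _, Cond.ov_some.2 (Or.inr ⟨hn, Cond.single_some.2
    ⟨rfl, rfl⟩⟩)⟩
  · intro η v hv
    rcases hqt η v hv with h1 | ⟨rfl, _⟩
    · exact (hA.pr η (hq.2 η (by simp [h1]))).lowU _ (hq.1.inU η v h1) _ (pb_mono hle)
    · exact (hA.pr _ hξ).lowU _ hU _ (pb_mono hle)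
  · intro η v hv a w hw
    rcases hqt η v hv with h1 | ⟨rfl, rfl⟩
    · exact (hA.pr η (hq.2 η (by simp [h1]))).lowD a w _ (hq.1.dec η v h1 a w hw) _ (pb_mono hle)
    · cases hw
  · intro η v hv
    rcases hqt η v hv with h1 | ⟨rfl, rfl⟩
    · exact hq.1.len η v h1
    · rfl
  · intro η v hv d hd hdl
    rcases hqt η v hv with h1 | ⟨rfl, rfl⟩
    · exact hq.1.coh η v h1 d hd hdl
    · obtain ⟨⟨a, ha⟩, _⟩ := hd
      exact absurd (ha.trans_le hdl) (not_lt.2 (bot_le' a))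
  · intro η hη
    obtain ⟨v, hv⟩ := Option.ne_none_iff_exists'.1 hη
    rcases hqt η v hv with h1 | ⟨rfl, _⟩
    · exact hq.2 η (by simp [h1])
    · exact hξ

end

end Pool.Agent.H641
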