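import Pool.Agent.H641.SReq

/-!
# Closure of the coding forcing
-/

set_option linter.unusedSectionVars false

namespace Pool.Agent.H641

open Cardinal Set

universe u v

section

variable {K W J : Type u} [LinearOrder K] [Kap K]

theorem DirClo.clo {X : Type u} [Preorder X] (h : DirClo K X) : Clo K X := by
  intro x C h1 h2 h3
  obtain ⟨l, hl⟩ := h (insert x C) (h1.insert x) (by
    rintro a (rfl | ha) b (rfl | hb)
    · exact ⟨_, mem_insert _ _, le_rfl, le_rfl⟩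
    · exact ⟨b, mem_insert_of_mem _ hb, h3 b hb, le_rfl⟩
    · exact ⟨a, mem_insert_of_mem _ ha, le_rfl, h3 a ha⟩
    · rcases h2.total ha hb with h4 | h4
      · exact ⟨a, mem_insert_of_mem _ ha, le_rfl, h4⟩
      · exact ⟨b, mem_insert_of_mem _ hb, h4, le_rfl⟩)
  exact ⟨l, hl _ (mem_insert _ _), fun c hc => hl _ (mem_insert_of_mem _ hc)⟩

/-- small many requirements can be met at the same time -/
theorem Clo.meet {X : Type u} [Preorder X] (hX : Clo K X) (x : X) {I : Type u} (s : Set I)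
    (hs : Sm K s) (R : I → X → Prop) (hd : ∀ i ∈ s, ∀ y y', y' ≤ y → R i y → R i y')
    (hR : ∀ i ∈ s, ∀ l ≤ x, ∃ y ≤ l, R i y) : ∃ y ≤ x, ∀ i ∈ s, R i y := by
  obtain ⟨a, g, hg, hga⟩ := hs.exists_emb
  obtain ⟨f, hf⟩ := hX.seq x (fun c _ y => ∀ i : s, g i = c → R i.1 y) (by
    intro c l hl
    by_cases h : ∃ i : s, g i = c
    · obtain ⟨i, hi⟩ := h
      obtain ⟨y, hy, h2⟩ := hR i.1 i.2 l hl
      refine ⟨y, hy, fun j hj => ?_⟩
      have h3 : j = i := hg (hj.trans hi.symm)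
      rw [h3]
      exact h2
    · exact ⟨l, le_rfl, fun i hi => absurd ⟨i, hi⟩ h⟩)
  obtain ⟨l, hl, h1, _⟩ := hf a
  refine ⟨l, hl, fun i hi => ?_⟩
  obtain ⟨_, _, _, _, h5⟩ := hf (g ⟨i, hi⟩)
  exact hd i hi _ _ (h1 _ (hga _)) (h5 ⟨i, hi⟩ rfl)

theorem Nd.comp_of_le {V : Type u} {r s t : Nd K V} (hs : r ≤ s) (ht : r ≤ t) :
    s ≤ t ∨ t ≤ s := by
  rcases le_total s.len t.len with h | h
  · exact Or.inr (Nd.le_of_comp hs ht h)
  · exact Or.inl (Nd.le_of_comp ht hs h)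

open Classical in
/-- Small directed sets of conditions have lower bounds, obtained by adding to the union only
what is needed. -/
theorem PS_union {A : Set (Req K W J)} (hA : Cl A) {C : Set (Cnd K W J)} (hC : C ⊆ PS A)
    (hs : Sm K C) (hd : ∀ x ∈ C, ∀ y ∈ C, ∃ z ∈ C, z ≤ x ∧ z ≤ y) :
    ∃ l ∈ PS A, (∀ c ∈ C, l ≤ c) ∧ (∀ ξ, l.t.f ξ ≠ none → ∃ c ∈ C, c.t.f ξ ≠ none) ∧
      ∀ x b, l.e.f x = some b → (∃ c ∈ C, c.e.f x = some b) ∨
        ∃ ξ, l.t.f ξ = some x.2 ∧ ξ.side = x.1 := by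
  -- the nodes given to a request
  let SS : Req K W J → Set (Nd K W) := fun ξ => {s | ∃ c ∈ C, ∃ v, c.t.f ξ = some v ∧ v.1 = s}
  let UU : Req K W J → Set (Nd K K) := fun ξ => {s | ∃ c ∈ C, ∃ v, c.t.f ξ = some v ∧ v.2 = s}
  have hSS : ∀ ξ, Sm K (SS ξ) := fun ξ =>
    (hs.image fun c => ((c.t.f ξ).map Prod.fst).getD (Nd.root K W)).mono (by
      rintro s ⟨c, hc, v, hv, rfl⟩
      exact ⟨c, hc, by simp [hv]⟩)
  have hUU : ∀ ξ, Sm K (UU ξ) := fun ξ =>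
    (hs.image fun c => ((c.t.f ξ).map Prod.snd).getD (Nd.root K K)).mono (by
      rintro s ⟨c, hc, v, hv, rfl⟩
      exact ⟨c, hc, by simp [hv]⟩)
  have hcom : ∀ ξ, ∀ c ∈ C, ∀ c' ∈ C, ∀ v v', c.t.f ξ = some v → c'.t.f ξ = some v' →
      ∃ c'' ∈ C, c'' ≤ c ∧ c'' ≤ c' ∧ ∃ v'', c''.t.f ξ = some v'' ∧ v'' ≤ v ∧ v'' ≤ v' := by
    intro ξ c hc c' hc' v v' hv hv'
    obtain ⟨z, hz, h1, h2⟩ := hd c hc c' hc'
    obtain ⟨v'', h3, h4, _⟩ := h1.2 ξ v hv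
    obtain ⟨v3, h5, h6, _⟩ := h2.2 ξ v' hv'
    have h7 : v3 = v'' := by
      have h8 : z.t.f ξ = some v'' := h3
      have h9 : z.t.f ξ = some v3 := h5
      rw [h8] at h9
      exact (Option.some.inj h9).symm
    rw [h7] at h6
    exact ⟨z, hz, h1, h2, v'', h3, h4, h6⟩
  have chS : ∀ ξ, IsChain (· ≤ ·) (SS ξ) := by
    rintro ξ _ ⟨c, hc, v, hv, rfl⟩ _ ⟨c', hc', v', hv', rfl⟩ _
    obtain ⟨_, _, _, _, v'', _, h1, h2⟩ := hcom ξ c hc c' hc' v v' hv hv'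
    exact Nd.comp_of_le h1.1 h2.1
  have chU : ∀ ξ, IsChain (· ≤ ·) (UU ξ) := by
    rintro ξ _ ⟨c, hc, v, hv, rfl⟩ _ ⟨c', hc', v', hv', rfl⟩ _
    obtain ⟨_, _, _, _, v'', _, h1, h2⟩ := hcom ξ c hc c' hc' v v' hv hv'
    exact Nd.comp_of_le h1.2 h2.2
  let S : Req K W J → Nd K W := fun ξ => Nd.sup (SS ξ) (hSS ξ)
  let U : Req K W J → Nd K K := fun ξ => Nd.sup (UU ξ) (hUU ξ)
  have hSle : ∀ ξ, ∀ c ∈ C, ∀ v, c.t.f ξ = some v → S ξ ≤ v.1 := fun ξ c hc v hv =>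
    (Nd.isGLB_sup (chS ξ) (h := hSS ξ)).1 ⟨c, hc, v, hv, rfl⟩
  have hUle : ∀ ξ, ∀ c ∈ C, ∀ v, c.t.f ξ = some v → U ξ ≤ v.2 := fun ξ c hc v hv =>
    (Nd.isGLB_sup (chU ξ) (h := hUU ξ)).1 ⟨c, hc, v, hv, rfl⟩
  have hSlen : ∀ ξ i, i < (S ξ).len ↔ ∃ c ∈ C, ∃ v, c.t.f ξ = some v ∧ i < v.1.len := by
    intro ξ i
    refine (Nd.lt_sup_len (chS ξ)).trans ?_
    constructor
    · rintro ⟨_, ⟨c, hc, v, hv, rfl⟩, hi⟩
      exact ⟨c, hc, v, hv, hi⟩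
    · rintro ⟨c, hc, v, hv, hi⟩
      exact ⟨_, ⟨c, hc, v, hv, rfl⟩, hi⟩
  have hUlen : ∀ ξ i, i < (U ξ).len ↔ ∃ c ∈ C, ∃ v, c.t.f ξ = some v ∧ i < v.2.len := by
    intro ξ i
    refine (Nd.lt_sup_len (chU ξ)).trans ?_
    constructor
    · rintro ⟨_, ⟨c, hc, v, hv, rfl⟩, hi⟩
      exact ⟨c, hc, v, hv, hi⟩
    · rintro ⟨c, hc, v, hv, hi⟩
      exact ⟨_, ⟨c, hc, v, hv, rfl⟩, hi⟩
  have hSU : ∀ ξ, (S ξ).len = (U ξ).len := by
    intro ξ
    apply le_antisymm <;> apply le_of_forall_lt <;> intro i hi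
    · obtain ⟨c, hc, v, hv, h⟩ := (hSlen ξ i).1 hi
      exact (hUlen ξ i).2 ⟨c, hc, v, hv, by rwa [← (hC hc).1.len ξ v hv]⟩
    · obtain ⟨c, hc, v, hv, h⟩ := (hUlen ξ i).1 hi
      exact (hSlen ξ i).2 ⟨c, hc, v, hv, by rwa [(hC hc).1.len ξ v hv]⟩
  have hSsome : ∀ ξ a w, (S ξ).f a = some w → ∃ c ∈ C, ∃ v, c.t.f ξ = some v ∧
      v.1.f a = some w := by
    intro ξ a w h
    obtain ⟨_, ⟨c, hc, v, hv, rfl⟩, h2⟩ := (Nd.sup_some (chS ξ)).1 h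
    exact ⟨c, hc, v, hv, h2⟩
  have hUsome : ∀ ξ a w, (U ξ).f a = some w → ∃ c ∈ C, ∃ v, c.t.f ξ = some v ∧
      v.2.f a = some w := by
    intro ξ a w h
    obtain ⟨_, ⟨c, hc, v, hv, rfl⟩, h2⟩ := (Nd.sup_some (chU ξ)).1 h
    exact ⟨c, hc, v, hv, h2⟩
  let act : Req K W J → Prop := fun ξ => ∃ c ∈ C, c.t.f ξ ≠ none
  have hact : Sm K {ξ | act ξ} := by
    refine (hs.biUnion (t := fun c => {ξ | c.t.f ξ ≠ none}) fun c _ => c.t.sm).mono ?_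
    rintro ξ ⟨c, hc, h⟩
    simp only [mem_iUnion]
    exact ⟨c, hc, h⟩
  let tt : Cond K (Req K W J) (Tv K W) :=
    { f := fun ξ => if act ξ then some (S ξ, U ξ) else none
      sm := hact.mono fun ξ hξ => by
        by_contra h
        exact hξ (if_neg h) }
  have htt : ∀ ξ v, tt.f ξ = some v ↔ act ξ ∧ (S ξ, U ξ) = v := by
    intro ξ v
    show (if act ξ then some (S ξ, U ξ) else none) = some v ↔ _
    split_ifs with h <;> simp [h]
  have hcons : Cons ((fun c : Cnd K W J => c.e.f) '' C) := by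
    rintro _ ⟨c, hc, rfl⟩ _ ⟨c', hc', rfl⟩ i w w' h1 h2
    obtain ⟨z, _, h3, h4⟩ := hd c hc c' hc'
    have h5 := h3.1 i w h1
    rw [h4.1 i w' h2] at h5
    exact (Option.some.inj h5).symm
  let new : Bool × Nd K W × Nd K K → Prop := fun x =>
    ∃ ξ, act ξ ∧ Lim (S ξ).len ∧ x = (ξ.side, S ξ, U ξ)
  let ee : Ev K W :=
    { f := fun x => if new x then some ⟨true⟩ else glue ((fun c : Cnd K W J => c.e.f) '' C) x
      sm := by
        refine ((hs.biUnion (t := fun c => {x | c.e.f x ≠ none}) fun c _ => c.e.sm).union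
          (hact.image fun ξ => (ξ.side, S ξ, U ξ))).mono ?_
        intro x hx
        by_cases h : new x
        · obtain ⟨ξ, h1, _, rfl⟩ := h
          exact Or.inr ⟨ξ, h1, rfl⟩
        · left
          simp only [mem_ofPred_eq, h, if_false] at hx
          obtain ⟨_, ⟨c, hc, rfl⟩, h2⟩ := glue_ne_none.1 hx
          simp only [mem_iUnion]
          exact ⟨c, hc, h2⟩ }
  -- no conflict
  have hcf : ∀ c ∈ C, ∀ x b, c.e.f x = some b → new x → b = ⟨true⟩ := by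
    rintro c hc x b hx ⟨ξ, ⟨c', hc', hξ⟩, hlim, rfl⟩
    obtain ⟨v', hv'⟩ := Option.ne_none_iff_exists'.1 hξ
    obtain ⟨z, hz, h1, h2⟩ := hd c hc c' hc'
    obtain ⟨v, hv, _, _⟩ := h2.2 ξ v' hv'
    have hzx := h1.1 _ b hx
    rcases lt_or_eq_of_le (Nd.len_le (hSle ξ z hz v hv)) with h3 | h3
    · exfalso
      obtain ⟨c3, hc3, v3, hv3, h4⟩ := (hSlen ξ _).1 h3
      obtain ⟨c4, hc4, h5, h6, v4, hv4, h7, h8⟩ := hcom ξ z hz c3 hc3 v v3 hv hv3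
      obtain ⟨v5, hv5, _, hfr⟩ := h5.2 ξ v hv
      have h9 : v5 = v4 := by
        have h10 : c4.t.f ξ = some v5 := hv5
        rw [hv4] at h10
        exact (Option.some.inj h10).symm
      rw [h9] at hfr
      have h10 : v.2.len < v4.2.len := by
        rw [← (hC hz).1.len ξ v hv, ← (hC hc4).1.len ξ v4 hv4]
        exact h4.trans_le (Nd.len_le h8.1)
      obtain ⟨k, hk⟩ := v4.2.exists_val h10
      exact hfr k hk (ξ.side, S ξ, U ξ) (by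
        have h11 : z.e.f (ξ.side, S ξ, U ξ) = some b := hzx
        show z.e.f _ ≠ none
        simp [h11]) (hUle ξ c4 hc4 v4 hv4 _ _ hk)
    · have h4 : S ξ = v.1 := Nd.eq_of_len (hSle ξ z hz v hv) h3.ge
      have h5 : U ξ = v.2 := by
        apply Nd.eq_of_len (hUle ξ z hz v hv)
        rw [← hSU, ← h3, (hC hz).1.len ξ v hv]
      have h6 := (hC hz).1.coh ξ v hv v.1.len (by rw [h3]; exact hlim) le_rfl
      rw [Nd.cut_self _ le_rfl, Nd.cut_self _ (by rw [(hC hz).1.len ξ v hv]), ← h4, ← h5, hzx] at h6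
      exact Option.some.inj h6
  have hee : ∀ c ∈ C, ee ≤ c.e := by
    intro c hc x b hx
    show (if new x then some ⟨true⟩ else glue ((fun c : Cnd K W J => c.e.f) '' C) x) = some b
    by_cases h : new x
    · rw [if_pos h, hcf c hc x b hx h]
    · rw [if_neg h, glue_eq_some hcons]
      exact ⟨_, ⟨c, hc, rfl⟩, hx⟩
  let l : Cnd K W J := ⟨ee, tt⟩
  have hl : ∀ c ∈ C, l ≤ c := by
    intro c hc
    refine ⟨hee c hc, fun ξ v hv => ?_⟩
    refine ⟨(S ξ, U ξ), (htt ξ _).2 ⟨⟨c, hc, by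
      have : c.t.f ξ = some v := hv
      simp [this]⟩, rfl⟩, ⟨hSle ξ c hc v hv, hUle ξ c hc v hv⟩, ?_⟩
    intro k hk
    obtain ⟨c', hc', v', hv', h1⟩ := hUsome ξ _ _ hk
    obtain ⟨c3, hc3, h2, h3, v3, hv3, h4, h5⟩ := hcom ξ c hc c' hc' v v' hv hv'
    obtain ⟨v5, hv5, _, hfr⟩ := h2.2 ξ v hv
    have h9 : v5 = v3 := by
      have h10 : c3.t.f ξ = some v5 := hv5
      rw [hv3] at h10
      exact (Option.some.inj h10).symm
    rw [h9] at hfr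
    exact hfr k (h5.2 _ _ h1)
  have hlin : l.t.In A := by
    intro ξ hξ
    obtain ⟨v, hv⟩ := Option.ne_none_iff_exists'.1 hξ
    obtain ⟨⟨c, hc, h1⟩, _⟩ := (htt ξ v).1 hv
    exact (hC hc).2 ξ h1
  refine ⟨l, ⟨⟨?_, ?_, ?_, ?_⟩, hlin⟩, hl, ?_, ?_⟩
  · intro ξ v hv
    obtain ⟨⟨c, hc, h1⟩, _⟩ := (htt ξ v).1 hv
    obtain ⟨v', hv'⟩ := Option.ne_none_iff_exists'.1 h1
    exact (hA.pr ξ ((hC hc).2 ξ h1)).lowU _ ((hC hc).1.inU ξ v' hv') _ (pb_mono (hl c hc))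
  · intro ξ v hv a w hw
    obtain ⟨⟨c, hc, h1⟩, rfl⟩ := (htt ξ v).1 hv
    obtain ⟨c', hc', v', hv', h2⟩ := hSsome ξ a w hw
    exact (hA.pr ξ ((hC hc).2 ξ h1)).lowD a w _ ((hC hc').1.dec ξ v' hv' a w h2) _
      (pb_mono (hl c' hc'))
  · intro ξ v hv
    obtain ⟨_, rfl⟩ := (htt ξ v).1 hv
    exact hSU ξ
  · intro ξ v hv d hdl hd2
    obtain ⟨h1, rfl⟩ := (htt ξ v).1 hv
    by_cases h : ∃ c ∈ C, ∃ v, c.t.f ξ = some v ∧ d ≤ v.1.len
    · obtain ⟨c, hc, v, hv, h2⟩ := h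
      have h3 := (hC hc).1.coh ξ v hv d hdl h2
      rw [Nd.cut_eq_of_le (hSle ξ c hc v hv) h2, Nd.cut_eq_of_le (hUle ξ c hc v hv)
        (by rwa [← (hC hc).1.len ξ v hv])]
      exact hee c hc _ _ h3
    · push Not at h
      have h2 : (S ξ).len ≤ d := by
        apply le_of_forall_lt
        intro i hi
        obtain ⟨c, hc, v, hv, h3⟩ := (hSlen ξ i).1 hi
        exact h3.trans (h c hc v hv)
      have h3 : d = (S ξ).len := le_antisymm hd2 h2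
      subst h3
      rw [Nd.cut_self _ le_rfl, Nd.cut_self _ (by rw [hSU])]
      exact if_pos ⟨ξ, h1, hdl, rfl⟩
  · intro ξ hξ
    obtain ⟨v, hv⟩ := Option.ne_none_iff_exists'.1 hξ
    exact ((htt ξ v).1 hv).1
  · intro x b hx
    have hx' : (if new x then some ⟨true⟩ else glue ((fun c : Cnd K W J => c.e.f) '' C) x)
        = some b := hx
    by_cases h : new x
    · obtain ⟨ξ, h1, h2, rfl⟩ := h
      exact Or.inr ⟨ξ, (htt ξ _).2 ⟨h1, rfl⟩, rfl⟩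
    · rw [if_neg h, glue_eq_some hcons] at hx'
      obtain ⟨_, ⟨c, hc, rfl⟩, h2⟩ := hx'
      exact Or.inl ⟨c, hc, h2⟩

theorem PS_dirClo {A : Set (Req K W J)} (hA : Cl A) : DirClo K (PS A) := by
  intro C hs hd
  obtain ⟨l, hl, h1, _⟩ := PS_union hA (C := Subtype.val '' C) (by
    rintro _ ⟨c, _, rfl⟩
    exact c.2) (hs.image _) (by
    rintro _ ⟨x, hx, rfl⟩ _ ⟨y, hy, rfl⟩
    obtain ⟨z, hz, h1, h2⟩ := hd x hx y hy
    exact ⟨z.1, ⟨z, hz, rfl⟩, h1, h2⟩)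
  exact ⟨⟨l, hl⟩, fun c hc => h1 c.1 ⟨c, hc, rfl⟩⟩

theorem PS_clo {A : Set (Req K W J)} (hA : Cl A) : Clo K (PS A) := (PS_dirClo hA).clo

/-- small many requirements can be met at the same time -/
theorem PS_meet {A : Set (Req K W J)} (hA : Cl A) {p : Cnd K W J} (hp : p ∈ PS A) {I : Type u}
    (s : Set I) (hs : Sm K s) (R : I → Cnd K W J → Prop)
    (hd : ∀ i ∈ s, ∀ y ∈ PS A, ∀ y' ∈ PS A, y' ≤ y → R i y → R i y')
    (hR : ∀ i ∈ s, ∀ l ∈ PS A, l ≤ p → ∃ y ∈ PS A, y ≤ l ∧ R i y) :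
    ∃ y ∈ PS A, y ≤ p ∧ ∀ i ∈ s, R i y := by
  obtain ⟨y, hy, h⟩ := (PS_clo hA).meet ⟨p, hp⟩ s hs (fun i y => R i y.1)
    (fun i hi y y' hle h => hd i hi y.1 y.2 y'.1 y'.2 hle h)
    (fun i hi l hl => by
      obtain ⟨y, hy, h1, h2⟩ := hR i hi l.1 l.2 hl
      exact ⟨⟨y, hy⟩, h1, h2⟩)
  exact ⟨y.1, y.2, hy, h⟩

/-! ### Making the nodes longer -/

theorem not_lim_sc (a : K) : ¬ Lim (sc a) := by
  rintro ⟨_, h⟩
  obtain ⟨b, hb, h2⟩ := h a (lt_sc a)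
  exact absurd h2 (not_lt.2 (lt_sc_iff.1 hb))

/-- a value which is not used -/
theorem exists_fresh (e : Ev K W) : ∃ c : K, ∀ x, e.f x ≠ none → ∀ a, x.2.2.f a ≠ some c := by
  have h1 : Sm K (⋃ x ∈ {x | e.f x ≠ none}, {c : K | ∃ a, x.2.2.f a = some c}) := by
    apply e.sm.biUnion
    intro x _
    refine ((sm_Iio x.2.2.len).image fun a => (x.2.2.f a).getD a).mono ?_
    rintro c ⟨a, ha⟩
    exact ⟨a, Nd.lt_len ha, by simp [ha]⟩
  obtain ⟨c, hc⟩ := h1.bdd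
  refine ⟨c, fun x hx a ha => ?_⟩
  exact lt_irrefl _ (hc c (mem_iUnion₂.2 ⟨x, hx, a, ha⟩))

theorem Cond.single_none {I V : Type u} {i j : I} {w : V} :
    (Cond.single (K := K) i w).f j = none ↔ j ≠ i := by
  simp only [Cond.single]
  split_ifs with h <;> simp [h]

/-- lengthening the nodes given to a request by one -/
theorem exists_longer {A : Set (Req K W J)} (hA : Cl A) {p : Cnd K W J} (hp : p ∈ PS A)
    {ξ : Req K W J} {v : Tv K W} (hv : p.t.f ξ = some v) :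
    ∃ q ∈ PS A, q ≤ p ∧ ∃ v', q.t.f ξ = some v' ∧ v.1.len < v'.1.len := by
  have hξ : ξ ∈ A := hp.2 ξ (by simp [hv])
  have hB := hA.range hξ
  have hBA := hA.range_sub hξ
  have hnot : ξ ∉ range ξ.ι := by
    rintro ⟨k, hk⟩
    exact ξ.not_self (hp.1.ne_nil hv) k hk
  have hpB := hB.res_mem hp
  obtain ⟨p', hp', h1, w, hw⟩ := (hA.pr ξ hξ).tot (p.res (range ξ.ι)) hpB (by
    rw [pb_res subset_rfl]
    exact hp.1.inU ξ v hv) v.1.len
  obtain ⟨r, hr, hrp, hrp', hre, hrt⟩ := amalg_res hA hBA hp hp' h1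
  have hrv : r.t.f ξ = some v := by
    rw [hrt ξ, hv]
    by_contra h
    exact hnot (hp'.2 ξ h)
  obtain ⟨c, hc⟩ := exists_fresh r.e
  let q : Cnd K W J := ⟨r.e, (Cond.single ξ (v.1.app w, v.2.app c)).ov r.t⟩
  have hqt : ∀ η v', q.t.f η = some v' ↔
      (η = ξ ∧ (v.1.app w, v.2.app c) = v') ∨ (η ≠ ξ ∧ r.t.f η = some v') := by
    intro η v'
    show ((Cond.single ξ (v.1.app w, v.2.app c)).ov r.t).f η = some v' ↔ _
    rw [Cond.ov_some, Cond.single_some]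
    rw [Cond.single_none]
  have hqr : q ≤ r := by
    refine ⟨le_rfl, fun η v' hv' => ?_⟩
    by_cases h : η = ξ
    · subst h
      have h2 : r.t.f η = some v' := hv'
      rw [hrv] at h2
      have h3 := Option.some.inj h2
      subst h3
      refine ⟨_, (hqt η _).2 (Or.inl ⟨rfl, rfl⟩), ⟨Nd.app_le _ _, Nd.app_le _ _⟩, ?_⟩
      intro c' hc' x hx
      have h4 : c' = c := by
        have h5 : (v.2.app c).f v.2.len = some c' := hc'
        rw [Nd.app_at] at h5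
        exact (Option.some.inj h5).symm
      rw [h4]
      exact hc x hx _
    · exact ⟨v', (hqt η v').2 (Or.inr ⟨h, hv'⟩), le_rfl, fr_refl _ _⟩
  have hpbξ : pb ξ.ι q = pb ξ.ι r := by
    unfold pb
    congr 1
    funext k
    have hk : ξ.ι k ≠ ξ := fun h => hnot ⟨k, h⟩
    apply Option.ext
    intro v'
    rw [hqt]
    simp [hk]
  have hqin : q.t.In A := by
    intro η hη
    obtain ⟨v', hv'⟩ := Option.ne_none_iff_exists'.1 hη
    rcases (hqt η v').1 hv' with h | h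
    · rw [h.1]
      exact hξ
    · exact hr.2 η (by simp [h.2])
  refine ⟨q, ⟨⟨?_, ?_, ?_, ?_⟩, hqin⟩, hqr.trans hrp, _, (hqt ξ _).2 (Or.inl ⟨rfl, rfl⟩), ?_⟩
  · intro η v' hv'
    rcases (hqt η v').1 hv' with ⟨rfl, _⟩ | ⟨_, h⟩
    · rw [hpbξ]
      exact hr.1.inU _ _ hrv
    · exact (hA.pr η (hr.2 η (by simp [h]))).lowU _ (hr.1.inU η v' h) _ (pb_mono hqr)
  · intro η v' hv' a w' hw'
    rcases (hqt η v').1 hv' with ⟨rfl, rfl⟩ | ⟨_, h⟩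
    · rw [hpbξ]
      rcases Nd.app_some.1 hw' with ⟨rfl, rfl⟩ | h
      · exact (hA.pr _ hξ).lowD _ _ _ hw _ (pb_mono hrp')
      · exact hr.1.dec _ _ hrv a w' h
    · exact (hA.pr η (hr.2 η (by simp [h]))).lowD a w' _ (hr.1.dec η v' h a w' hw') _ (pb_mono hqr)
  · intro η v' hv'
    rcases (hqt η v').1 hv' with ⟨rfl, rfl⟩ | ⟨_, h⟩
    · show sc v.1.len = sc v.2.len
      rw [hp.1.len _ _ hv]
    · exact hr.1.len η v' h
  · intro η v' hv' d hd hdl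
    rcases (hqt η v').1 hv' with ⟨rfl, rfl⟩ | ⟨_, h⟩
    · have h1 : d ≠ sc v.1.len := fun h => not_lim_sc _ (h ▸ hd)
      have h2 : d ≤ v.1.len := lt_sc_iff.1 (lt_of_le_of_ne hdl h1)
      show r.e.f (η.side, (v.1.app w).cut d, (v.2.app c).cut d) = _
      rw [Nd.cut_eq_of_le (Nd.app_le _ _) h2, Nd.cut_eq_of_le (Nd.app_le _ _)
        (by rwa [← hp.1.len _ _ hv])]
      exact hr.1.coh η v hrv d hd h2
    · exact hr.1.coh η v' h d hd hdl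
  · exact lt_sc _

/-- the nodes given to a request can be made as long as needed -/
theorem exists_long {A : Set (Req K W J)} (hA : Cl A) {p : Cnd K W J} (hp : p ∈ PS A)
    {ξ : Req K W J} {v : Tv K W} (hv : p.t.f ξ = some v) (b : K) :
    ∃ q ∈ PS A, q ≤ p ∧ ∃ v', q.t.f ξ = some v' ∧ b ≤ v'.1.len := by
  classical
  have hdir : DirClo K {q : PS A // q.1 ≤ p} := by
    intro C hs hd
    obtain ⟨l, hl⟩ := PS_dirClo hA (insert ⟨p, hp⟩ (Subtype.val '' C)) ((hs.image _).insert _) (by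
      rintro _ (rfl | ⟨x, hx, rfl⟩) _ (rfl | ⟨y, hy, rfl⟩)
      · exact ⟨_, mem_insert _ _, le_rfl, le_rfl⟩
      · exact ⟨_, mem_insert_of_mem _ ⟨y, hy, rfl⟩, y.2, le_rfl⟩
      · exact ⟨_, mem_insert_of_mem _ ⟨x, hx, rfl⟩, le_rfl, x.2⟩
      · obtain ⟨z, hz, h1, h2⟩ := hd x hx y hy
        exact ⟨_, mem_insert_of_mem _ ⟨z, hz, rfl⟩, h1, h2⟩)
    exact ⟨⟨l, hl _ (mem_insert _ _)⟩, fun c hc => hl _ (mem_insert_of_mem _ ⟨c, hc, rfl⟩)⟩
  have hv' : ∀ q : {q : PS A // q.1 ≤ p}, ∃ v', q.1.1.t.f ξ = some v' := fun q => by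
    obtain ⟨v', h1, _⟩ := q.2.2 ξ v hv
    exact ⟨v', h1⟩
  choose f hf using hv'
  obtain ⟨q, hq, h⟩ := hdir.clo.reach (fun q => (f q).1.len) (by
    intro x y hyx
    obtain ⟨v', h1, h2, _⟩ := hyx.2 ξ (f x) (hf x)
    have h3 : f y = v' := by
      have h4 : y.1.1.t.f ξ = some v' := h1
      rw [hf y] at h4
      exact Option.some.inj h4
    rw [h3]
    exact Nd.len_le h2.1) (by
    intro x
    obtain ⟨q, hq, h1, v', hv', h2⟩ := exists_longer hA x.1.2 (hf x)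
    refine ⟨⟨⟨q, hq⟩, h1.trans x.2⟩, h1, ?_⟩
    have h3 : f ⟨⟨q, hq⟩, h1.trans x.2⟩ = v' := by
      have h4 := hf ⟨⟨q, hq⟩, h1.trans x.2⟩
      simp only [hv'] at h4
      exact (Option.some.inj h4).symm
    rw [h3]
    exact h2) b ⟨⟨p, hp⟩, le_rfl⟩
  exact ⟨q.1.1, q.1.2, hq, f q, hf q, h⟩

end

end Pool.Agent.H641
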