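import Pool.Agent.H641.SNm

/-!
# Only the functions of the requests are coded
-/

set_option linter.unusedSectionVars false

namespace Pool.Agent.H641

open Cardinal Set

universe u v

section

variable {K W J : Type u} [LinearOrder K] [Kap K]

/-- changing the generic function where it is not yet decided -/
theorem PS_add {A : Set (Req K W J)} (hA : Cl A) {l : Cnd K W J} (hl : l ∈ PS A)
    (x : Bool × Nd K W × Nd K K) (b : ULift.{u} Bool) (hx : l.e.f x = none) :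
    ∃ r ∈ PS A, r ≤ l ∧ r.e.f x = some b := by
  let r : Cnd K W J := ⟨l.e.ov (Cond.single x b), l.t⟩
  have hrl : r ≤ l := ⟨Cond.ov_le _ _, fun ξ v hv => ⟨v, hv, le_rfl, fr_refl _ _⟩⟩
  refine ⟨r, ⟨⟨?_, ?_, ?_, ?_⟩, hl.2⟩, hrl, Cond.ov_some.2 (Or.inr ⟨hx, Cond.single_some.2
    ⟨rfl, rfl⟩⟩)⟩
  · intro ξ v hv
    exact (hA.pr ξ (hl.2 ξ (by
      have : l.t.f ξ = some v := hv
      simp [this]))).lowU _ (hl.1.inU ξ v hv) _ (pb_mono hrl)
  · intro ξ v hv a w hw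
    exact (hA.pr ξ (hl.2 ξ (by
      have : l.t.f ξ = some v := hv
      simp [this]))).lowD a w _ (hl.1.dec ξ v hv a w hw) _ (pb_mono hrl)
  · exact hl.1.len
  · intro ξ v hv d hd hdl
    exact Cond.ov_le _ _ _ _ (hl.1.coh ξ v hv d hd hdl)

open Classical in
/-- If all values of the generic function on the side `i` along the limit initial segments of the
pair of the functions named by `z` and `y` are true, then `z` is the function of a request used
by the generic filter, on the side `i`. -/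
theorem coding {A : Set (Req K W J)} (hA : Cl A) {p : Cnd K W J} (hp : p ∈ PS A) (i : Bool)
    {z : K → W → Set (Cnd K W J)} (hz : Nm A z) (ht : Tt A p z) {y : K → K → Set (Cnd K W J)}
    (hy : Wit A (fun r s u => Lim s.len → r.e.f (i, s, u) ≠ some ⟨false⟩) p z y) :
    ∃ q ∈ PS A, q ≤ p ∧ ∃ ξ v, q.t.f ξ = some v ∧ ξ.side = i ∧ Eqn A q z (zn ξ) := by
  by_contra hcon
  push Not at hcon
  let X := {x : Cnd K W J × K // x.1 ∈ PS A ∧ x.1 ≤ p}
  let R : X → X → Prop := fun x x' => x'.1.1 ≤ x.1.1 ∧ x.1.2 < x'.1.2 ∧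
    (∀ e, x.1.1.e.f e ≠ none → e.2.1.len < x'.1.2) ∧
    (∀ b < x.1.2, (∃ w, x'.1.1 ∈ z b w) ∧ ∃ c, x'.1.1 ∈ y b c) ∧
    (∀ ξ, x.1.1.t.f ξ ≠ none → ξ.side = i → ∃ b < x'.1.2, ∃ w w' v', x'.1.1 ∈ z b w ∧
      x'.1.1.t.f ξ = some v' ∧ v'.1.f b = some w' ∧ w ≠ w')
  have hstep : ∀ x : X, ∃ x' : X, R x x' := by
    rintro ⟨⟨q, a⟩, hq, hqp⟩
    obtain ⟨q1, hq1, h1, ⟨s1, hs1, hs1'⟩, u1, hu1, hu1'⟩ :=
      exists_dc2 hA hq hz (ht.down hqp) hy.nm (hy.tt.down hqp) a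
    obtain ⟨q2, hq2, h2, h3⟩ := PS_meet hA hq1 {ξ | q.t.f ξ ≠ none} q.t.sm
      (fun ξ r => ξ.side = i → ∃ b w w' v', r ∈ z b w ∧ r.t.f ξ = some v' ∧
        v'.1.f b = some w' ∧ w ≠ w') (by
        intro ξ _ r hr r' hr' hle h hside
        obtain ⟨b, w, w', v', h4, h5, h6, h7⟩ := h hside
        obtain ⟨v'', h8, h9, _⟩ := hle.2 ξ v' h5
        exact ⟨b, w, w', v'', hz.down b w r hr h4 r' hr' hle, h8, h9.1 _ _ h6, h7⟩) (by
        intro ξ hξ l hl hlq
        by_cases hside : ξ.side = i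
        · obtain ⟨v, hv⟩ := Option.ne_none_iff_exists'.1 hξ
          obtain ⟨vl, hvl, _, _⟩ := (hlq.trans h1).2 ξ v hv
          have hvl' : l.t.f ξ = some vl := hvl
          have h4 := hcon l hl ((hlq.trans h1).trans hqp) ξ vl hvl' hside
          unfold Eqn at h4
          push Not at h4
          obtain ⟨r, hr, hrl, b, w, w', h5, h6, h7⟩ := h4
          obtain ⟨vr, hvr, _, _⟩ := hrl.2 ξ vl hvl
          obtain ⟨r', hr', hrr, v', hv', h8⟩ := exists_long hA hr (show r.t.f ξ = some vr from hvr)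
            (sc b)
          obtain ⟨w'', hw''⟩ := v'.1.exists_val ((lt_sc b).trans_le h8)
          have hξA : ξ ∈ A := hl.2 ξ (by simp [hvl'])
          have h9 : w' = w'' := (nm_zn hA hξA).fn r' hr' b w' w''
            ((nm_zn hA hξA).down b w' r hr h6 r' hr' hrr) (hr'.1.dec ξ v' hv' b w'' hw'')
          refine ⟨r', hr', hrr.trans hrl, fun _ => ⟨b, w, w'', v',
            hz.down b w r hr h5 r' hr' hrr, hv', hw'', ?_⟩⟩
          rw [← h9]
          exact h7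
        · exact ⟨l, hl, le_rfl, fun h => absurd h hside⟩)
    have h4 : ∀ ξ, ∃ b, q.t.f ξ ≠ none → ξ.side = i → ∃ w w' v', q2 ∈ z b w ∧
        q2.t.f ξ = some v' ∧ v'.1.f b = some w' ∧ w ≠ w' := by
      intro ξ
      by_cases h5 : q.t.f ξ ≠ none ∧ ξ.side = i
      · obtain ⟨b, h6⟩ := h3 ξ h5.1 h5.2
        exact ⟨b, fun _ _ => h6⟩
      · exact ⟨a, fun h6 h7 => absurd ⟨h6, h7⟩ h5⟩
    choose bf hbf using h4
    obtain ⟨a', ha'⟩ := (((sm_singleton (K := K) a).union (q.e.sm.image fun e => e.2.1.len)).union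
      (q.t.sm.image bf)).bdd
    refine ⟨⟨(q2, a'), hq2, (h2.trans h1).trans hqp⟩, h2.trans h1, ha' a (Or.inl (Or.inl rfl)),
      fun e he => ha' _ (Or.inl (Or.inr ⟨e, he, rfl⟩)), ?_, ?_⟩
    · intro b hb
      have hb' : b < a := hb
      obtain ⟨w, hw⟩ := s1.exists_val (hs1.symm ▸ hb')
      obtain ⟨c, hc⟩ := u1.exists_val (hu1.symm ▸ hb')
      exact ⟨⟨w, hz.down b w q1 hq1 (hs1' b w hw) q2 hq2 h2⟩,
        c, hy.nm.down b c q1 hq1 (hu1' b c hc) q2 hq2 h2⟩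
    · intro ξ hξ hside
      exact ⟨bf ξ, ha' _ (Or.inr ⟨ξ, hξ, rfl⟩), hbf ξ hξ hside⟩
  choose g hg using hstep
  let f : ℕ → X := fun n => Nat.rec ⟨(p, bot K), hp, le_rfl⟩ (fun _ x => g x) n
  have hf : ∀ n, R (f n) (f (n + 1)) := fun n => hg (f n)
  have hanti : Antitone fun n => (f n).1.1 := antitone_nat_of_succ_le fun n => (hf n).1
  have hmono : StrictMono fun n => (f n).1.2 := strictMono_nat_of_lt_succ fun n => (hf n).2.1
  obtain ⟨l, hl, hlc, hlt, hle⟩ := PS_union hA (C := range fun n => (f n).1.1) (by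
    rintro _ ⟨n, rfl⟩
    exact (f n).2.1) (sm_range_nat _) (by
    rintro _ ⟨n, rfl⟩ _ ⟨m, rfl⟩
    exact ⟨_, ⟨max n m, rfl⟩, hanti (le_max_left n m), hanti (le_max_right n m)⟩)
  have hln : ∀ n, l ≤ (f n).1.1 := fun n => hlc _ ⟨n, rfl⟩
  obtain ⟨d, hd⟩ := (sm_range_nat fun n => (f n).1.2 : Sm K (range fun n => (f n).1.2)).exists_lub
  have hnd : ∀ n, (f n).1.2 < d := fun n => (hf n).2.1.trans_le (hd.1 ⟨n + 1, rfl⟩)
  have hdn : ∀ b < d, ∃ n, b < (f n).1.2 := by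
    intro b hb
    by_contra h
    push Not at h
    exact absurd (hd.2 (by
      rintro _ ⟨n, rfl⟩
      exact h n)) (not_le.2 hb)
  have hlim : Lim d := ⟨⟨_, hnd 0⟩, fun b hb => by
    obtain ⟨n, hn⟩ := hdn b hb
    exact ⟨_, hnd n, hn⟩⟩
  have hlp : l ≤ p := hln 0
  have hlz : ∀ b < d, ∃ w, l ∈ z b w := by
    intro b hb
    obtain ⟨n, hn⟩ := hdn b hb
    obtain ⟨⟨w, hw⟩, _⟩ := (hf n).2.2.2.1 b hn
    exact ⟨w, hz.down b w _ (f (n + 1)).2.1 hw l hl (hln (n + 1))⟩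
  have hly : ∀ b < d, ∃ w, l ∈ y b w := by
    intro b hb
    obtain ⟨n, hn⟩ := hdn b hb
    obtain ⟨_, w, hw⟩ := (hf n).2.2.2.1 b hn
    exact ⟨w, hy.nm.down b w _ (f (n + 1)).2.1 hw l hl (hln (n + 1))⟩
  obtain ⟨_, _, _, w0, _⟩ := ht p hp le_rfl (bot K)
  have hgz : ∀ b, ∃ w, b < d → l ∈ z b w := by
    intro b
    by_cases h : b < d
    · obtain ⟨w, hw⟩ := hlz b h
      exact ⟨w, fun _ => hw⟩
    · exact ⟨w0, fun h' => absurd h' h⟩
  have hgy : ∀ b, ∃ w, b < d → l ∈ y b w := by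
    intro b
    by_cases h : b < d
    · obtain ⟨w, hw⟩ := hly b h
      exact ⟨w, fun _ => hw⟩
    · exact ⟨b, fun h' => absurd h' h⟩
  choose gz hgz using hgz
  choose gy hgy using hgy
  let s := sgm gz d
  let u := sgm gy d
  have hdcs : Dc l z s := fun a w h => by
    obtain ⟨h1, h2⟩ := sgm_some.1 h
    rw [← h2]
    exact hgz a h1
  have hdcu : Dc l y u := fun a w h => by
    obtain ⟨h1, h2⟩ := sgm_some.1 h
    rw [← h2]
    exact hgy a h1
  have hnone : l.e.f (i, s, u) = none := by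
    by_contra h
    obtain ⟨b, hb⟩ := Option.ne_none_iff_exists'.1 h
    rcases hle _ b hb with ⟨_, ⟨n, rfl⟩, h1⟩ | ⟨ξ, h1, h2⟩
    · have h3 := (hf n).2.2.1 (i, s, u) (by simp [h1])
      exact absurd ((hnd (n + 1)).trans' h3) (lt_irrefl _)
    · obtain ⟨_, ⟨n, rfl⟩, h3⟩ := hlt ξ (by simp [h1])
      obtain ⟨b, hb, w, w', v', h4, h5, h6, h7⟩ := (hf n).2.2.2.2 ξ h3 h2
      obtain ⟨v'', h8, h9, _⟩ := (hln (n + 1)).2 ξ v' h5
      have h10 : v'' = (s, u) := by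
        have h11 : l.t.f ξ = some v'' := h8
        rw [h1] at h11
        exact (Option.some.inj h11).symm
      rw [h10] at h9
      have h12 : s.f b = some w' := h9.1 _ _ h6
      have h13 : l ∈ z b w := hz.down b w _ (f (n + 1)).2.1 h4 l hl (hln (n + 1))
      exact h7 (hz.fn l hl b w w' h13 (hdcs b w' h12))
  obtain ⟨r, hr, hrl, h1⟩ := PS_add hA hl (i, s, u) ⟨false⟩ hnone
  exact hy.rel r hr (hrl.trans hlp) s u rfl (hdcs.down hz hl hr hrl) (hdcu.down hy.nm hl hr hrl)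
    hlim h1

end

end Pool.Agent.H641
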