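import Pool.Agent.H641.Sig

/-!
# The separation property in the forcing language, and properties of forcings
-/

set_option linter.unusedSectionVars false

namespace Pool.Agent.H641

open Cardinal Set

universe u v

/-- Every small directed set of conditions has a lower bound. -/
def DirClo (K : Type u) (X : Type u) [Preorder X] : Prop :=
  ∀ C : Set X, Sm K C → (∀ x ∈ C, ∀ y ∈ C, ∃ z ∈ C, z ≤ x ∧ z ≤ y) → ∃ l, ∀ c ∈ C, l ≤ c

/-- Every antichain has at most `#K` members (the `κ⁺`-chain condition). -/
def CCS (K : Type u) (Q : Type u) [Preorder Q] : Prop :=
  ∀ A : Set Q, (∀ x ∈ A, ∀ y ∈ A, x ≠ y → ∀ r, r ≤ x → ¬ r ≤ y) → #A ≤ #K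

section

variable (K : Type u) [LinearOrder K] [Kap K] {P : Type u} [Preorder P]

variable {K}

/-- In the extension, the analytic sets coded by `R` and `R'` are disjoint. -/
def Disj (R R' : Nd K K → Nd K K → Set P) : Set P :=
  fall fun z : K → K → Set P => fimp (IsFun z) (fnot (fand (InProj R z) (InProj R' z)))

/-- In the extension, the analytic set coded by `R'` is the complement of the analytic set coded
by `R`; so the set coded by `R` is bi-analytic. -/
def Compl (R R' : Nd K K → Nd K K → Set P) : Set P :=
  fall fun z : K → K → Set P => fimp (IsFun z)
    (fand (foor (InProj R z) (InProj R' z)) (fnot (fand (InProj R z) (InProj R' z))))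

/-- In the extension, the analytic set coded by `R` is included in the one coded by `R'`. -/
def Incl (R R' : Nd K K → Nd K K → Set P) : Set P :=
  fall fun z : K → K → Set P => fimp (IsFun z) (fimp (InProj R z) (InProj R' z))

variable (K P)

/-- In the extension, the separation property holds for the analytic sets: if the analytic sets
coded by `R` and `R'` are disjoint, there is a set `C` (coded by `S`) such that `C` and its
complement (coded by `S'`) are analytic, the set coded by `R` is included in `C`, and `C` is
disjoint from the set coded by `R'`. -/
def Separation : Set P :=
  fall fun R : Nd K K → Nd K K → Set P => fall fun R' : Nd K K → Nd K K → Set P =>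
    fimp (Disj R R') (fex fun S : Nd K K → Nd K K → Set P =>
      fex fun S' : Nd K K → Nd K K → Set P =>
        fand (Compl S S') (fand (Incl R S) (Disj S R')))

/-- In the extension, `K` is a strong limit: for every `b` there are `c` and a sequence of length
`c` which lists all functions from the elements below `b` to `Bool`. -/
def StaysStrongLimit : Set P :=
  fall fun b : K => fex fun c : K => fex fun E : Iio c → Iio b → Bool → Set P =>
    fand (fall fun i => IsFun (E i)) (fall fun z : Iio b → Bool → Set P => fimp (IsFun z)
      (fex fun i => fall fun a => fall fun v => fimp (meets (z a v)) (meets (E i a v))))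

/-- In the extension by `P`, every function from pairs of elements of `K` to `Bool` has a
homogeneous set `H` of size `#K`, that is, `K` is weakly compact: `K → (K)²₂`. The name `f` is for
a function from `K × K` to `Bool` and the name `H` is for a subset of `K`. -/
def WeaklyCompact : Set P :=
  fall fun f : K × K → Bool → Set P => fimp (IsFun f) (fex fun H : K → Set P => fex fun v : Bool =>
    fand (fall fun a : K => fex fun b : K => fand (fground (a < b)) (meets (H b)))
      (fall fun a : K => fall fun b : K => fall fun _ : a < b =>
        fimp (fand (meets (H a)) (meets (H b))) (meets (f (a, b) v))))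

end

end Pool.Agent.H641
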