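import Pool.Agent.H641.SCap

/-!
# The stages of the derivative

The set of the requests which may be used is cut down in stages. Once it is known, over the
forcing of a stage, that the function `z` named by a request is not in one of the two analytic
sets, `z` can only be coded on the other side at all later stages.
-/

set_option linter.unusedSectionVars false

namespace Pool.Agent.H641

open Cardinal Set

universe u v

open Classical in
/-- the side considered at a stage -/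
noncomputable def jj (β : Ordinal.{u}) : Bool := decide (∃ γ, β = Order.succ γ)

section

variable {K W J : Type u} [LinearOrder K] [Kap K]
variable (TT : Bool → Nd K W → Nd K K → Prop)

/-- nothing is decided before the stage `β` -/
def Und (S : Ordinal.{u} → Set (Req K W J)) (β : Ordinal.{u}) (B : Set (Req K W J))
    (p : Cnd K W J) (z : K → W → Set (Cnd K W J)) : Prop :=
  ∀ γ < β, ∀ q ∈ PS B, q ≤ p → ¬ Nt (S γ) (TT (jj γ)) q z

/-- it is decided at the stage `β` that `z` is not in the set of the side `jj β` -/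
def St (S : Ordinal.{u} → Set (Req K W J)) (β : Ordinal.{u}) (B : Set (Req K W J))
    (p : Cnd K W J) (z : K → W → Set (Cnd K W J)) : Prop :=
  Und TT S β B p z ∧ Nt (S β) (TT (jj β)) p z

/-- the request tries to code on the wrong side -/
def Bad (S : Ordinal.{u} → Set (Req K W J)) (β : Ordinal.{u}) (ξ : Req K W J) : Prop :=
  ∃ p ∈ PS (range ξ.ι), pb ξ.ι p ∈ ξ.U ∧ ξ.side = jj β ∧ St TT S β (range ξ.ι) p (zn ξ)

/-- the request is allowed at the stage `α` -/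
def Alw (S : Ordinal.{u} → Set (Req K W J)) (α : Ordinal.{u}) (ξ : Req K W J) : Prop :=
  Pr ξ ∧ ∀ β < α, ¬ Bad TT S β ξ

/-- the sequence of the stages -/
def Stg (S : Ordinal.{u} → Set (Req K W J)) : Prop :=
  ∀ α, S α = {ξ | Alw TT S α ξ ∧ ∀ k, Alw TT S α (ξ.ι k)}

variable {TT}

theorem Bad.congr {S S' : Ordinal.{u} → Set (Req K W J)} {β : Ordinal.{u}}
    (h : ∀ γ ≤ β, S γ = S' γ) {ξ : Req K W J} (hb : Bad TT S β ξ) : Bad TT S' β ξ := by
  obtain ⟨p, hp, h1, h2, h3, h4⟩ := hb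
  refine ⟨p, hp, h1, h2, ?_, ?_⟩
  · intro γ hγ q hq hqp
    rw [← h γ hγ.le]
    exact h3 γ hγ q hq hqp
  · rw [← h β le_rfl]
    exact h4

theorem Alw.congr {S S' : Ordinal.{u} → Set (Req K W J)} {α : Ordinal.{u}}
    (h : ∀ γ < α, S γ = S' γ) {ξ : Req K W J} (hb : Alw TT S α ξ) : Alw TT S' α ξ :=
  ⟨hb.1, fun β hβ h' => hb.2 β hβ (h'.congr fun γ hγ => (h γ (hγ.trans_lt hβ)).symm)⟩

variable (TT)

theorem exists_stg : ∃ S : Ordinal.{u} → Set (Req K W J), Stg TT S := by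
  classical
  let F : (α : Ordinal.{u}) → ((β : Ordinal.{u}) → β < α → Set (Req K W J)) → Set (Req K W J) :=
    fun α g => {ξ | Alw TT (fun β => if h : β < α then g β h else ∅) α ξ ∧
      ∀ k, Alw TT (fun β => if h : β < α then g β h else ∅) α (ξ.ι k)}
  let S : Ordinal.{u} → Set (Req K W J) := WellFounded.fix (wellFounded_lt (α := Ordinal.{u})) F
  have hS : ∀ α, S α = F α fun β _ => S β := fun α => WellFounded.fix_eq _ F α
  refine ⟨S, fun α => ?_⟩
  rw [hS α]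
  have h1 : ∀ γ < α, (if h : γ < α then S γ else ∅) = S γ := fun γ h => dif_pos h
  have h2 : ∀ ξ, Alw TT (fun β => if h : β < α then S β else ∅) α ξ ↔ Alw TT S α ξ := fun ξ =>
    ⟨fun h => h.congr h1, fun h => h.congr fun γ hγ => (h1 γ hγ).symm⟩
  ext ξ
  show (Alw TT (fun β => if h : β < α then S β else ∅) α ξ ∧
      ∀ k, Alw TT (fun β => if h : β < α then S β else ∅) α (ξ.ι k)) ↔ _
  simp only [h2, mem_ofPred_eq]

variable {TT}

section

variable {S : Ordinal.{u} → Set (Req K W J)} (hS : Stg TT S)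

include hS

theorem Stg.mem {α : Ordinal.{u}} {ξ : Req K W J} :
    ξ ∈ S α ↔ Alw TT S α ξ ∧ ∀ k, Alw TT S α (ξ.ι k) := by
  rw [hS α]
  rfl

theorem Stg.cl (α : Ordinal.{u}) : Cl (S α) where
  pr := fun ξ h => (hS.mem.1 h).1.1
  mem := fun ξ h k => by
    obtain ⟨h1, h2⟩ := hS.mem.1 h
    refine hS.mem.2 ⟨h2 k, fun k' => ?_⟩
    obtain ⟨k'', h3⟩ := h1.1.cl k k'
    rw [h3]
    exact h2 k''

theorem Stg.anti {α β : Ordinal.{u}} (h : α ≤ β) : S β ⊆ S α := by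
  intro ξ hξ
  obtain ⟨h1, h2⟩ := hS.mem.1 hξ
  exact hS.mem.2 ⟨⟨h1.1, fun γ hγ => h1.2 γ (hγ.trans_le h)⟩,
    fun k => ⟨(h2 k).1, fun γ hγ => (h2 k).2 γ (hγ.trans_le h)⟩⟩

theorem Stg.nil (α : Ordinal.{u}) : Req.nil ∈ S α := by
  have h : Alw TT S α (Req.nil : Req K W J) := by
    refine ⟨⟨fun k k' => ⟨k', rfl⟩, ?_, ?_, ?_, ?_⟩, ?_⟩
    · intro x hx
      cases hx
    · intro a w x hx
      cases hx
    · intro p _ a w w' h
      cases h
    · intro p _ h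
      cases h
    · rintro β _ ⟨p, _, h, _⟩
      cases h
  exact hS.mem.2 ⟨h, fun _ => h⟩

theorem Stg.eventually : ∃ α₀, ∀ β ≥ α₀, S β = S α₀ := by
  classical
  have h1 : ∀ ξ : Req K W J, ∃ α, (∃ β, ξ ∉ S β) → ξ ∉ S α := by
    intro ξ
    by_cases h : ∃ β, ξ ∉ S β
    · obtain ⟨β, hβ⟩ := h
      exact ⟨β, fun _ => hβ⟩
    · exact ⟨0, fun h' => absurd h' h⟩
  choose f hf using h1
  obtain ⟨c, hc⟩ := Ordinal.bddAbove_of_small (s := range f)
  refine ⟨c, fun β hβ => ?_⟩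
  apply Subset.antisymm (hS.anti hβ)
  intro ξ hξ
  by_contra h
  exact hf ξ ⟨β, h⟩ (hS.anti (hc ⟨ξ, rfl⟩) hξ)

end

/-! ### Invariance -/

theorem range_act {φ : Req K W J ≃ Req K W J} (hφ : Au φ) (ξ : Req K W J) :
    (∀ η ∈ range ξ.ι, φ η ∈ range (φ ξ).ι) ∧ ∀ η ∈ range (φ ξ).ι, φ.symm η ∈ range ξ.ι := by
  constructor
  · rintro _ ⟨k, rfl⟩
    exact ⟨k, hφ.ι ξ k⟩
  · rintro _ ⟨k, rfl⟩
    rw [hφ.ι, φ.symm_apply_apply]
    exact ⟨k, rfl⟩

theorem Pr.act {φ : Req K W J ≃ Req K W J} (hφ : Au φ) {ξ : Req K W J} (h : Pr ξ) :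
    Pr (φ ξ) where
  cl := fun k k' => by
    obtain ⟨k'', h1⟩ := h.cl k k'
    exact ⟨k'', by rw [hφ.ι, hφ.ι, hφ.ι, h1]⟩
  lowU := by
    rw [hφ.U]
    exact h.lowU
  lowD := by
    rw [hφ.D]
    exact h.lowD
  fn := fun p hp a w w' h1 h2 => by
    rw [pb_act' hφ, hφ.D] at h1 h2
    exact h.fn _ (act_mem hφ.symm (range_act hφ ξ).2 hp) a w w' h1 h2
  tot := fun p hp h1 a => by
    rw [pb_act' hφ, hφ.U] at h1
    obtain ⟨q, hq, h2, w, hw⟩ := h.tot _ (act_mem hφ.symm (range_act hφ ξ).2 hp) h1 a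
    have h3 := act_mono φ h2
    rw [symm_act] at h3
    refine ⟨H641.act φ q, act_mem hφ (range_act hφ ξ).1 hq, h3, w, ?_⟩
    rw [pb_act hφ, hφ.D]
    exact hw

theorem Bad.act {S : Ordinal.{u} → Set (Req K W J)} {β : Ordinal.{u}}
    (hinv : ∀ γ ≤ β, Inv (S γ)) {φ : Req K W J ≃ Req K W J} (hφ : Au φ) {ξ : Req K W J}
    (h : Bad TT S β (φ ξ)) : Bad TT S β ξ := by
  obtain ⟨p, hp, h1, h2, h3, h4⟩ := h
  rw [pb_act' hφ, hφ.U] at h1
  rw [hφ.side] at h2
  refine ⟨H641.act φ.symm p, act_mem hφ.symm (range_act hφ ξ).2 hp, h1, h2, ?_, ?_⟩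
  · intro γ hγ q hq hqp hN
    have h5 := act_mono φ hqp
    rw [symm_act] at h5
    have h6 := hN.act hφ (hinv γ hγ.le φ hφ) (hinv γ hγ.le _ hφ.symm)
    rw [actn_zn hφ] at h6
    exact h3 γ hγ _ (act_mem hφ (range_act hφ ξ).1 hq) h5 h6
  · have h5 := h4.act hφ.symm (hinv β le_rfl _ hφ.symm)
      (by rw [φ.symm_symm]; exact hinv β le_rfl φ hφ)
    rw [← actn_zn hφ, actn_actn] at h5
    exact h5

theorem Stg.inv {S : Ordinal.{u} → Set (Req K W J)} (hS : Stg TT S) (α : Ordinal.{u}) :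
    Inv (S α) := by
  induction α using WellFoundedLT.induction with
  | ind α ih =>
    intro φ hφ ξ hξ
    have h1 : ∀ η, Alw TT S α η → Alw TT S α (φ η) := fun η h =>
      ⟨h.1.act hφ, fun β hβ hb => h.2 β hβ (hb.act (fun γ hγ => ih γ (hγ.trans_lt hβ)) hφ)⟩
    obtain ⟨h2, h3⟩ := hS.mem.1 hξ
    refine hS.mem.2 ⟨h1 ξ h2, fun k => ?_⟩
    rw [hφ.ι]
    exact h1 _ (h3 k)

end

end Pool.Agent.H641
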