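import Pool.Agent.H641.SFin

/-!
# Further properties of the coding forcing
-/

set_option linter.unusedSectionVars false

namespace Pool.Agent.H641

open Cardinal Set

universe u v

section

variable {K : Type u} [LinearOrder K] [Kap K] {P : Type u} [Preorder P]

theorem Clo.noNew (hcl : Clo K P) (X : Type v) (p : P) : p ∈ NoNew K P X := by
  intro z
  refine (((sent_fall fun b => sent_fex).mem_fimp (sent_IsFun z).down).2 ?_)
  intro q _ hf b
  rw [mem_fex]
  intro q' hq'
  obtain ⟨f, hfs⟩ := hcl.seq q' (fun c _ y => ∃ x, y ∈ meets (z c x)) (by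
    intro c l hl
    exact IsFun.total ((sent_IsFun z).down _ hf _ (hl.trans hq')) c)
  obtain ⟨l, hl, h1, _, _⟩ := hfs b
  have h2 : ∀ c, ∃ x, f c ∈ meets (z c x) := fun c => by
    obtain ⟨_, _, _, _, h⟩ := hfs c
    exact h
  choose g hg using h2
  exact ⟨l, hl, g, fun i hi => down_meets _ _ (hg i) _ (h1 i hi)⟩

/-- a function defined on a small set is in the ground model -/
theorem Clo.ground (hcl : Clo K P) {X : Type u} {V : Type v} (hX : #X < #K)
    {z : X → V → Set P} {q : P} (hz : q ∈ IsFun z) :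
    ∃ l ≤ q, ∃ g : X → V, ∀ c, l ∈ meets (z c (g c)) := by
  obtain ⟨l, hl, h⟩ := hcl.meet q (univ : Set X) (by unfold Sm; rwa [mk_univ])
    (fun c y => ∃ x, y ∈ meets (z c x))
    (fun c _ y y' hle ⟨x, hx⟩ => ⟨x, down_meets _ _ hx _ hle⟩)
    (fun c _ l hl => IsFun.total ((sent_IsFun z).down _ hz _ hl) c)
  choose g hg using fun c => h c (mem_univ c)
  exact ⟨l, hl, g, hg⟩

theorem Clo.staysRegular (hcl : Clo K P) (p : P) : p ∈ StaysRegular K P := by
  intro b h
  refine ((sent_fex).mem_fimp (sent_IsFun h).down).2 ?_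
  intro q _ hf
  rw [mem_fex]
  intro q' hq'
  have hf' := (sent_IsFun h).down _ hf _ hq'
  obtain ⟨l, hl, g, hg⟩ := hcl.ground (sm_Iio b) hf'
  have h3 : Sm K (range g) := by
    have : #(range g) ≤ #(Iio b) := mk_range_le
    exact this.trans_lt (sm_Iio b)
  obtain ⟨a, ha⟩ := h3.bdd
  refine ⟨l, hl, a, fun i j => ?_⟩
  refine ((sent_fground _).mem_fimp (down_meets _)).2 fun r hr hr' => ?_
  show j < a
  rw [← IsFun.unique ((sent_IsFun h).down _ hf' _ (hr.trans hl)) (down_meets _ _ (hg i) _ hr) hr']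
  exact ha _ ⟨i, rfl⟩

/-- names of ground model functions -/
def gnm {X : Type u} {V : Type v} (g : X → V) : X → V → Set P := fun a v => {_p | g a = v}

theorem meets_gnm {X : Type u} {V : Type v} {g : X → V} {a : X} {v : V} {q : P} :
    q ∈ meets (gnm (P := P) g a v) ↔ g a = v := by
  constructor
  · intro h
    obtain ⟨_, _, _, h2, _⟩ := h q le_rfl
    exact h2
  · intro h
    exact meets_of_mem h

theorem isFun_gnm {X : Type u} {V : Type v} (g : X → V) (q : P) :
    q ∈ IsFun (gnm (P := P) g) := by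
  refine ⟨fun i => ?_, fun i b b' => ?_⟩
  · rw [mem_fex]
    intro r _
    exact ⟨r, le_rfl, g i, meets_gnm.2 rfl⟩
  · refine ((sent_fground _).mem_fimp (down_fand (down_meets _) (down_meets _))).2 ?_
    intro r _ h
    show b = b'
    rw [← meets_gnm.1 h.1, ← meets_gnm.1 h.2]

theorem fewNodes_of_big (hK : Big K K) (p : P) : p ∈ FewNodes K P := by
  obtain ⟨g⟩ := (Cardinal.le_def _ _).1 hK.nd
  have hne : Nonempty (Nd K K) := ⟨Nd.root K K⟩
  refine mem_fex_of_mem (gnm (Function.invFun g)) (down_fand (sent_IsFun _).down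
    (down_fall fun _ => (sent_fex).down)) ⟨isFun_gnm _ p, fun u => ?_⟩
  refine mem_fex_of_mem (g u) (down_meets _) ?_
  exact meets_gnm.2 (Function.leftInverse_invFun g.injective u)

theorem Clo.staysStrongLimit (hcl : Clo K P) (hsl : ∀ b : K, #(Iio b → Bool) < #K) (p : P) :
    p ∈ StaysStrongLimit K P := by
  intro b
  have h1 : Sm K (univ : Set (Iio b → Bool)) := by
    unfold Sm
    rw [mk_univ]
    exact hsl b
  obtain ⟨c, g, hg, hgc⟩ := h1.exists_emb
  refine mem_fex_of_mem c (sent_fex).down ?_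
  let g' : (Iio b → Bool) → Iio c := fun f => ⟨g ⟨f, mem_univ _⟩, hgc _⟩
  have hg' : Function.Injective g' := by
    intro f f' h
    have h2 : g ⟨f, mem_univ _⟩ = g ⟨f', mem_univ _⟩ := congrArg Subtype.val h
    exact congrArg Subtype.val (hg h2)
  refine mem_fex_of_mem (fun i => gnm (Function.invFun g' i))
    (down_fand (down_fall fun _ => (sent_IsFun _).down) (down_fall fun _ => down_fimp _ _))
    ⟨fun i => isFun_gnm _ p, ?_⟩
  intro z
  refine ((sent_fex).mem_fimp (sent_IsFun z).down).2 ?_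
  intro q _ hz
  rw [mem_fex]
  intro q' hq'
  have hz' := (sent_IsFun z).down _ hz _ hq'
  obtain ⟨l, hl, f, hf⟩ := hcl.ground (sm_Iio b) hz'
  refine ⟨l, hl, g' f, fun a v => ?_⟩
  refine ((sent_meets _).mem_fimp (down_meets _)).2 fun r hr hr' => ?_
  apply meets_gnm.2
  rw [Function.leftInverse_invFun hg' f]
  exact IsFun.unique ((sent_IsFun z).down _ hz' _ (hr.trans hl)) (down_meets _ _ (hf a) _ hr) hr'

end

section

variable {K W J : Type u} [LinearOrder K] [Kap K]

open Classical in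
/-- the `κ⁺`-chain condition -/
theorem PS_ccs (hK : Big K K) (hW : #W ≤ #K) {A : Set (Req K W J)} (hA : Cl A) :
    CCS K (PS A) := by
  intro X hX
  have hT := big_tv hK hW
  have hE := (card_ev hK hW).trans hT.le
  obtain ⟨B, _, hB, hcl⟩ := exists_closed hT (∅ : Set (Req K W J)) (by simp) hE
    (fun (e : Ev K W) (t : Cond K (Req K W J) (Tv K W)) =>
      if h : ∃ a ∈ X, a.1.e = e ∧ a.1.t ≤ t then h.choose.1.t else t)
  have hin : ∀ a ∈ X, a.1.t.In B := by
    intro a ha
    have hex : ∃ a' ∈ X, a'.1.e = a.1.e ∧ a'.1.t ≤ a.1.t.res B := ⟨a, ha, rfl, a.1.t.le_res B⟩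
    have h1 := hcl a.1.e (a.1.t.res B) (a.1.t.res_in B)
    rw [dif_pos hex] at h1
    obtain ⟨h2, h3, h4⟩ := hex.choose_spec
    obtain ⟨r, hr, hra, hra', _⟩ := amalg hA a.2 hex.choose.2 h3.le (by
      intro ξ v v' hv hv'
      have h5 := h4 ξ v (Cond.res_some.2 ⟨h1 ξ (by simp [hv']), hv⟩)
      rw [hv'] at h5
      have h6 := Option.some.inj h5
      subst h6
      exact ⟨le_rfl, fr_refl _ _⟩)
    by_cases hne : a = hex.choose
    · rw [hne]
      exact h1
    · exact absurd (show (⟨r, hr⟩ : PS A) ≤ hex.choose from hra')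
        (hX a ha _ h2 hne ⟨r, hr⟩ hra)
  have h1 : #X ≤ #(Ev K W × {t : Cond K (Req K W J) (Tv K W) // t.In B}) := by
    refine mk_le_of_injective (f := fun a : X => (a.1.1.e, ⟨a.1.1.t, hin a.1 a.2⟩)) ?_
    rintro ⟨⟨⟨e, t⟩, h⟩, ha⟩ ⟨⟨⟨e', t'⟩, h'⟩, ha'⟩ hh
    have h2 : e = e' := congrArg Prod.fst hh
    have h3 : t = t' := congrArg (fun x => (Prod.snd x).1) hh
    subst h2 h3
    rfl
  exact h1.trans ((hT.prod hE (hT.conds hB)).trans (card_tv hK hW))

/-- `κ ^ (< κ) = κ` for inaccessible `κ` -/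
theorem powerlt_inaccessible {κ : Cardinal.{u}} (h : κ.IsInaccessible) : κ ^< κ = κ := by
  apply le_antisymm
  · rw [powerlt_le]
    intro x hx
    have hinf : ℵ₀ ≤ κ := h.aleph0_lt.le
    have hκ : #(κ.out × κ.out) = κ := by
      rw [mk_prod, lift_id, mk_out, mul_eq_self hinf]
    have h1 := mk_subset_mk_lt_cof (α := κ.out × κ.out) (by rw [hκ]; exact h.isStrongPrelimit)
    rw [hκ, h.isRegular.cof_ord] at h1
    have h2 : κ ^ x = #(x.out → κ.out) := by
      rw [mk_arrow, lift_id, lift_id, mk_out, mk_out]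
    rw [h2]
    obtain ⟨g⟩ := (Cardinal.le_def x.out κ.out).1 (by rw [mk_out, mk_out]; exact hx.le)
    refine (mk_le_of_injective (f := fun f : x.out → κ.out =>
      (⟨range fun i => (g i, f i), ?_⟩ : {s : Set (κ.out × κ.out) // #s < κ})) ?_).trans h1.le
    · refine mk_range_le.trans_lt ?_
      rwa [mk_out]
    · intro f f' hff
      have h3 : (range fun i => (g i, f i)) = range fun i => (g i, f' i) :=
        congrArg Subtype.val hff
      funext i
      have h4 : (g i, f i) ∈ range fun i => (g i, f' i) := h3 ▸ ⟨i, rfl⟩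
      obtain ⟨j, hj⟩ := h4
      have h5 : g j = g i := congrArg Prod.fst hj
      have h6 : f' j = f i := congrArg Prod.snd hj
      rw [← h6, g.injective h5]
  · refine le_trans ?_ (le_powerlt κ (one_lt_aleph0.trans h.aleph0_lt))
    rw [power_one]

end

end Pool.Agent.H641
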