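import Pool.Agent.H641.SMain

/-!
# Translation to the forcing language: the separation property
-/

set_option linter.unusedSectionVars false

namespace Pool.Agent.H641

open Cardinal Set

universe u v

section

variable {P : Type u} [Preorder P]

/-- `N` holds or fails, depending on the bit -/
def Decb (N : Set P) (b : Bool) : Set P := if b = true then meets N else fnot (meets N)

theorem down_Decb (N : Set P) (b : Bool) : Down (Decb N b) := by
  unfold Decb
  split_ifs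
  · exact down_meets N
  · exact down_fnot _

theorem Decb_unique {N : Set P} {b b' : Bool} {p : P} (h : p ∈ Decb N b) (h' : p ∈ Decb N b') :
    b = b' := by
  unfold Decb at h h'
  cases b <;> cases b' <;> simp at h h' ⊢
  · exact h p le_rfl h'
  · exact h' p le_rfl h

theorem exists_Decb (N : Set P) (p : P) : ∃ q ≤ p, ∃ b, q ∈ Decb N b := by
  by_cases h : ∃ q ≤ p, q ∈ meets N
  · obtain ⟨q, hq, h⟩ := h
    exact ⟨q, hq, true, h⟩
  · refine ⟨p, le_rfl, false, ?_⟩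
    show p ∈ fnot (meets N)
    intro q hq h'
    exact h ⟨q, hq, h'⟩

/-- the bit of the side `j` -/
def bt {V : Type u} (j : Bool) (w : V × Bool × Bool) : Bool := cond j w.2.2 w.2.1

theorem bt_ext {V : Type u} {w w' : V × Bool × Bool} (h : w.1 = w'.1)
    (h' : ∀ j, bt j w = bt j w') : w = w' := by
  have h0 := h' false
  have h1 := h' true
  simp only [bt, cond_false, cond_true] at h0 h1
  obtain ⟨a, b, c⟩ := w
  obtain ⟨a', b', c'⟩ := w'
  simp only at h h0 h1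
  rw [h, h0, h1]

end

section

variable {K : Type u} [LinearOrder K] [Kap K]

/-- the relation for the universal analytic set of the side `j`: a function with values in
`K × Bool × Bool` codes a function to `K` and two sets of pairs of nodes -/
def TU (dec : K → Nd K K × Nd K K) (j : Bool) (s : Nd K (K × Bool × Bool)) (y : Nd K K) : Prop :=
  ∀ a w, s.f a = some w → (dec a).1.len = (dec a).2.len →
    (∀ b v, (dec a).1.f b = some v → ∃ w', s.f b = some w' ∧ w'.1 = v) → y ≤ (dec a).2 →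
    bt j w = true

variable {J : Type u} {V : Type u}

section

variable {A : Set (Req K (K × Bool × Bool) J)}

/-- names in the forcing language as names below a condition -/
def toN (q : PS A) (Z : K → V → Set (PS A)) : K → V → Set (Cnd K (K × Bool × Bool) J) :=
  fun a v => {p | ∃ h : p ∈ PS A, (⟨p, h⟩ : PS A) ≤ q ∧ (⟨p, h⟩ : PS A) ∈ meets (Z a v)}

theorem nm_toN {q : PS A} {Z : K → V → Set (PS A)} (h : q ∈ IsFun Z) : Nm A (toN q Z) where
  down := fun _ _ r _ ⟨h1, h2, h3⟩ r' hr' hle =>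
    ⟨hr', le_trans (show (⟨r', hr'⟩ : PS A) ≤ ⟨r, h1⟩ from hle) h2,
      down_meets _ _ h3 _ (show (⟨r', hr'⟩ : PS A) ≤ ⟨r, h1⟩ from hle)⟩
  fn := fun _ _ _ _ _ ⟨_, h2, h3⟩ ⟨_, _, h5⟩ =>
    IsFun.unique ((sent_IsFun Z).down _ h _ h2) h3 h5

theorem tt_toN {q : PS A} {Z : K → V → Set (PS A)} (h : q ∈ IsFun Z) : Tt A q.1 (toN q Z) := by
  intro r hr hrq a
  obtain ⟨r', hr', v, hv⟩ := IsFun.total ((sent_IsFun Z).down _ h ⟨r, hr⟩ hrq) a
  exact ⟨r'.1, r'.2, hr', v, r'.2, le_trans hr' hrq, hv⟩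

/-- names below a condition as names in the forcing language -/
def frN (A : Set (Req K (K × Bool × Bool) J)) (y : K → V → Set (Cnd K (K × Bool × Bool) J)) :
    K → V → Set (PS A) := fun a v => {p | p.1 ∈ y a v}

theorem frN_unique {y : K → V → Set (Cnd K (K × Bool × Bool) J)} (hy : Nm A y) {p : PS A} {a : K}
    {v v' : V} (h : p ∈ meets (frN A y a v)) (h' : p.1 ∈ y a v') : v = v' := by
  obtain ⟨r, hr, s, hs, hrs⟩ := h p le_rfl
  exact hy.fn r.1 r.2 a v v' (hy.down a v s.1 s.2 hs r.1 r.2 hrs)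
    (hy.down a v' p.1 p.2 h' r.1 r.2 hr)

theorem isFun_frN {y : K → V → Set (Cnd K (K × Bool × Bool) J)} (hy : Nm A y) {q : PS A}
    (ht : Tt A q.1 y) : q ∈ IsFun (frN A y) := by
  refine ⟨fun a => ?_, fun a v v' => ?_⟩
  · rw [mem_fex]
    intro r hr
    obtain ⟨r', hr', h1, v, hv⟩ := ht r.1 r.2 hr a
    exact ⟨⟨r', hr'⟩, h1, v, meets_of_mem (show r' ∈ y a v from hv)⟩
  · refine ((sent_fground _).mem_fimp (down_fand (down_meets _) (down_meets _))).2 ?_
    rintro r _ ⟨h1, h2⟩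
    show v = v'
    obtain ⟨r', hr', s, hs, hrs⟩ := h1 r le_rfl
    exact (frN_unique hy (down_meets _ _ h2 _ hr')
      (show r'.1 ∈ y a v from hy.down a v s.1 s.2 hs r'.1 r'.2 hrs)).symm

/-- the name of the function with values in `K × Bool × Bool` which codes `x` and the relations
named by `R false` and `R true` -/
def Zx (dec : K → Nd K K × Nd K K) (R : Bool → Nd K K → Nd K K → Set (PS A))
    (x : K → K → Set (PS A)) : K → (K × Bool × Bool) → Set (PS A) :=
  fun a w => {p | p ∈ meets (x a w.1) ∧ ∀ j, p ∈ Decb (R j (dec a).1 (dec a).2) (bt j w)}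

variable {dec : K → Nd K K × Nd K K} {R : Bool → Nd K K → Nd K K → Set (PS A)}
  {x : K → K → Set (PS A)}

theorem down_Zx (a : K) (w : K × Bool × Bool) : Down (Zx dec R x a w) := fun _ hp _ hq =>
  ⟨down_meets _ _ hp.1 _ hq, fun j => down_Decb _ _ _ (hp.2 j) _ hq⟩

theorem isFun_Zx {q : PS A} (h : q ∈ IsFun x) : q ∈ IsFun (Zx dec R x) := by
  refine ⟨fun a => ?_, fun a v v' => ?_⟩
  · rw [mem_fex]
    intro r hr
    obtain ⟨r1, hr1, v, hv⟩ := IsFun.total ((sent_IsFun x).down _ h _ hr) a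
    obtain ⟨r2, hr2, b0, hb0⟩ := exists_Decb (R false (dec a).1 (dec a).2) r1
    obtain ⟨r3, hr3, b1, hb1⟩ := exists_Decb (R true (dec a).1 (dec a).2) r2
    refine ⟨r3, (hr3.trans hr2).trans hr1, (v, b0, b1), meets_of_mem ⟨?_, fun j => ?_⟩⟩
    · exact down_meets _ _ hv _ (hr3.trans hr2)
    · cases j with
      | false => exact down_Decb _ _ _ hb0 _ hr3
      | true => exact hb1
  · refine ((sent_fground _).mem_fimp (down_fand (down_meets _) (down_meets _))).2 ?_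
    rintro r hr ⟨h1, h2⟩
    show v = v'
    obtain ⟨r1, hr1, s, hs, hrs⟩ := h1 r le_rfl
    obtain ⟨r2, hr2, s', hs', hrs'⟩ := h2 r1 hr1
    have h3 := down_Zx _ _ _ hs _ (hr2.trans hrs)
    have h4 := down_Zx _ _ _ hs' _ hrs'
    exact bt_ext (IsFun.unique ((sent_IsFun x).down _ h _ ((hr2.trans hr1).trans hr)) h3.1 h4.1)
      fun j => Decb_unique (h3.2 j) (h4.2 j)

theorem toN_Zx {q : PS A} {p : Cnd K (K × Bool × Bool) J} {a : K} {w : K × Bool × Bool}
    (h : p ∈ toN q (Zx dec R x) a w) : ∃ hp : p ∈ PS A, ∀ r : PS A, r ≤ ⟨p, hp⟩ →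
      r ∈ meets (x a w.1) := by
  obtain ⟨hp, _, h2⟩ := h
  refine ⟨hp, fun r hr => ?_⟩
  apply (sent_meets _).rg
  intro r1 hr1
  obtain ⟨r2, hr2, s, hs, hrs⟩ := h2 r1 (hr1.trans hr)
  exact ⟨r2, hr2, (down_Zx _ _ _ hs _ hrs).1⟩

theorem toN_Zx' {q : PS A} {p : Cnd K (K × Bool × Bool) J} {a : K} {w : K × Bool × Bool}
    (h : p ∈ toN q (Zx dec R x) a w) (j : Bool) : ∃ hp : p ∈ PS A, ∀ r : PS A, r ≤ ⟨p, hp⟩ →
      r ∈ Decb (R j (dec a).1 (dec a).2) (bt j w) := by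
  obtain ⟨hp, _, h2⟩ := h
  refine ⟨hp, fun r hr => ?_⟩
  have h3 : ∀ r1 ≤ r, ∃ r2 ≤ r1, r2 ∈ Decb (R j (dec a).1 (dec a).2) (bt j w) := by
    intro r1 hr1
    obtain ⟨r2, hr2, s, hs, hrs⟩ := h2 r1 (hr1.trans hr)
    exact ⟨r2, hr2, (down_Zx _ _ _ hs _ hrs).2 j⟩
  unfold Decb at h3 ⊢
  split_ifs at h3 ⊢
  · exact (sent_meets _).rg _ h3
  · exact (sent_fnot (down_meets _)).rg _ h3

/-- (A) membership in the analytic set of the side `j` gives a witness -/
theorem wit_of_inProj {q0 q : PS A} (hq : q ≤ q0) {j : Bool}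
    (h : q ∈ InProj (R j) x) : ∃ q' ≤ q, ∃ y, Wit A (fun _ => TU dec j) q'.1
      (toN q0 (Zx dec R x)) y := by
  obtain ⟨q', hq', y, hy1, hy2⟩ := mem_fex.1 h q le_rfl
  refine ⟨q', hq', toN q' y, nm_toN hy1, tt_toN hy1, ?_⟩
  intro r hr hrq s u hsu hs hu a w ha hlen hinit hyu
  obtain ⟨_, h1⟩ := toN_Zx' (hs a w ha) j
  have h2 := h1 ⟨r, hr⟩ le_rfl
  by_contra hcon
  have h3 : bt j w = false := by simpa using hcon
  rw [h3] at h2
  have h4 : (⟨r, hr⟩ : PS A) ∈ fnot (meets (R j (dec a).1 (dec a).2)) := h2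
  refine h4 _ le_rfl ?_
  have h5 := hy2 (dec a).1 (dec a).2 hlen
  refine ((sent_meets _).mem_fimp (down_fand (sent_Init _ _).down (sent_Init _ _).down)).1 h5
    ⟨r, hr⟩ hrq ⟨?_, ?_⟩
  · intro b v hb
    obtain ⟨w', hw', rfl⟩ := hinit b v hb
    obtain ⟨_, h6⟩ := toN_Zx (hs b w' hw')
    exact h6 _ le_rfl
  · intro b v hb
    obtain ⟨_, _, h6⟩ := hu b v (hyu b v hb)
    exact h6

/-- (B) a witness gives membership in the analytic set of the side `j` -/
theorem inProj_of_wit (hA : Cl A) (hdec : Function.Surjective dec) {q0 q : PS A}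
    (hx : q0 ∈ IsFun x) (hq : q ≤ q0) {j : Bool}
    {y : K → K → Set (Cnd K (K × Bool × Bool) J)}
    (h : Wit A (fun _ => TU dec j) q.1 (toN q0 (Zx dec R x)) y) :
    q ∈ InProj (R j) x := by
  have hfy : q ∈ IsFun (frN A y) := isFun_frN h.nm h.tt
  have hfZ : q0 ∈ IsFun (Zx dec R x) := isFun_Zx hx
  refine mem_fex_of_mem (frN A y) (down_fand (sent_IsFun _).down (sent_PairIn _ _ _).down)
    ⟨hfy, ?_⟩
  intro u v huv
  refine ((sent_meets _).mem_fimp (down_fand (sent_Init _ _).down (sent_Init _ _).down)).2 ?_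
  rintro r hr ⟨hu, hv⟩
  apply (sent_meets _).rg
  intro r1 hr1
  obtain ⟨a, ha⟩ := hdec (u, v)
  obtain ⟨r2, hr2, h1, ⟨s, hs, hsD⟩, t, ht, htD⟩ := exists_dc2 hA r1.2 (nm_toN hfZ)
    ((tt_toN hfZ).down (show r1.1 ≤ q0.1 from (hr1.trans hr).trans hq)) h.nm
    (h.tt.down (show r1.1 ≤ q.1 from hr1.trans hr)) (max u.len (sc a))
  have hT := h.rel r2 hr2 (h1.trans (hr1.trans hr)) s t (hs.trans ht.symm) hsD htD
  obtain ⟨w, hw⟩ := s.exists_val (i := a) (by
    rw [hs]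
    exact (lt_sc a).trans_le (le_max_right _ _))
  have hr2r : (⟨r2, hr2⟩ : PS A) ≤ r := le_trans (show (⟨r2, hr2⟩ : PS A) ≤ r1 from h1) hr1
  have hr2q : (⟨r2, hr2⟩ : PS A) ≤ q := hr2r.trans hr
  have hb := hT a w hw (by rw [ha]; exact huv) (by
    rw [ha]
    intro b v' hb
    obtain ⟨w', hw'⟩ := s.exists_val (i := b) (by
      rw [hs]
      exact (Nd.lt_len hb).trans_le (le_max_left _ _))
    refine ⟨w', hw', ?_⟩
    obtain ⟨_, h2⟩ := toN_Zx (hsD b w' hw')
    exact IsFun.unique ((sent_IsFun x).down _ hx _ (hr2q.trans hq)) (h2 _ le_rfl)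
      (down_meets _ _ (hu b v' hb) _ hr2r)) (by
    rw [ha]
    intro b v' hb
    obtain ⟨w', hw'⟩ := t.exists_val (i := b) (by
      rw [ht]
      refine (Nd.lt_len hb).trans_le ?_
      show v.len ≤ _
      rw [← huv]
      exact le_max_left _ _)
    rw [hw']
    congr 1
    exact (frN_unique h.nm (down_meets _ _ (hv b v' hb) _ hr2r) (htD b w' hw')).symm)
  obtain ⟨_, h2⟩ := toN_Zx' (hsD a w hw) j
  have h3 := h2 ⟨r2, hr2⟩ le_rfl
  rw [hb, ha] at h3
  exact ⟨⟨r2, hr2⟩, h1, h3⟩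

/-- the name of the code for the set of the functions coded on the side `i` -/
def Sx (dec : K → Nd K K × Nd K K) (R : Bool → Nd K K → Nd K K → Set (PS A)) (i : Bool) :
    Nd K K → Nd K K → Set (PS A) := fun s u =>
  {p | ∃ σ : Nd K (K × Bool × Bool), σ.len = s.len ∧
    (∀ a w, σ.f a = some w → s.f a = some w.1 ∧
      ∀ j, p ∈ Decb (R j (dec a).1 (dec a).2) (bt j w)) ∧
    ∀ d, Lim d → d ≤ s.len → p.1.e.f (i, σ.cut d, u.cut d) = some ⟨true⟩}

/-- (C1) -/
theorem cod_of_inProj {q0 q : PS A} (hq : q ≤ q0) {i : Bool}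
    (h : q ∈ InProj (Sx dec R i) x) : ∃ q' ≤ q, ∃ y,
      Wit A (fun r s u => Lim s.len → r.e.f (i, s, u) ≠ some ⟨false⟩) q'.1
        (toN q0 (Zx dec R x)) y := by
  obtain ⟨q', hq', y, hy1, hy2⟩ := mem_fex.1 h q le_rfl
  refine ⟨q', hq', toN q' y, nm_toN hy1, tt_toN hy1, ?_⟩
  intro r hr hrq s u hsu hs hu hlim hfalse
  -- the node of the first coordinates
  let s1 : Nd K K := ⟨fun a => (s.f a).map Prod.fst, s.len, fun a => by
    rw [← s.dom a]
    simp⟩
  have hs1 : ∀ a v, s1.f a = some v ↔ ∃ w, s.f a = some w ∧ w.1 = v := by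
    intro a v
    show (s.f a).map Prod.fst = some v ↔ _
    rw [Option.map_eq_some_iff]
  have h5 := hy2 s1 u hsu
  have h6 := ((sent_meets _).mem_fimp (down_fand (sent_Init _ _).down (sent_Init _ _).down)).1 h5
    ⟨r, hr⟩ hrq ⟨by
      intro b v hb
      obtain ⟨w', hw', rfl⟩ := (hs1 b v).1 hb
      obtain ⟨_, h6⟩ := toN_Zx (hs b w' hw')
      exact h6 _ le_rfl, by
      intro b v hb
      obtain ⟨_, _, h6⟩ := hu b v hb
      exact h6⟩
  obtain ⟨r', hr', p, ⟨σ, hσ1, hσ2, hσ3⟩, hrp⟩ := h6 ⟨r, hr⟩ le_rfl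
  have hσs : σ = s := by
    have hlen : σ.len = s.len := hσ1
    apply Nd.eq_of_len _ hlen.le
    intro a w hw
    obtain ⟨w', hw'⟩ := σ.exists_val (i := a) (by
      rw [hlen]
      exact Nd.lt_len hw)
    obtain ⟨h7, h8⟩ := hσ2 a w' hw'
    obtain ⟨w'', h9, h10⟩ := (hs1 a w'.1).1 h7
    rw [hw] at h9
    have h11 := Option.some.inj h9
    subst h11
    rw [hw']
    congr 1
    refine bt_ext h10.symm fun j => ?_
    obtain ⟨_, h12⟩ := toN_Zx' (hs a w hw) j
    exact Decb_unique (down_Decb _ _ _ (h8 j) _ hrp) (h12 r' hr')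
  rw [hσs] at hσ3
  have h7 := hσ3 s.len hlim le_rfl
  rw [Nd.cut_self _ le_rfl, Nd.cut_self _ (by rw [hsu])] at h7
  have h8 := hrp.1 _ _ h7
  have h9 : r'.1.e.f (i, s, u) = some ⟨false⟩ := hr'.1 _ _ hfalse
  have h10 : r'.1.e.f (i, s, u) = some ⟨true⟩ := h8
  rw [h9] at h10
  cases h10

/-- (C2) -/
theorem inProj_of_req (hA : Cl A) {q0 q : PS A}
    (hx : q0 ∈ IsFun x) (hq : q ≤ q0) {i : Bool} {ξ : Req K (K × Bool × Bool) J}
    {v : Tv K (K × Bool × Bool)} (hv : q.1.t.f ξ = some v) (hside : ξ.side = i)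
    (hE : Eqn A q.1 (toN q0 (Zx dec R x)) (zn ξ)) :
    q ∈ InProj (Sx dec R i) x := by
  have hfZ : q0 ∈ IsFun (Zx dec R x) := isFun_Zx hx
  let y : K → K → Set (PS A) := fun a c => {p | ∃ t, p.1.t.f ξ = some t ∧ t.2.f a = some c}
  have hyd : ∀ a c, Down (y a c) := by
    rintro a c p ⟨t, ht, h1⟩ p' hp'
    obtain ⟨t', ht', h2, _⟩ := hp'.2 ξ t ht
    exact ⟨t', ht', h2.2 _ _ h1⟩
  have hyu : ∀ (p : PS A) (a c : K) (t : Tv K (K × Bool × Bool)), p ∈ meets (y a c) →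
      p.1.t.f ξ = some t → a < t.2.len → t.2.f a = some c := by
    intro p a c t hp ht ha
    obtain ⟨p', hp', s, hs, hps⟩ := hp p le_rfl
    obtain ⟨t', ht', h1⟩ := hyd a c _ hs _ hps
    obtain ⟨t'', ht'', h2, _⟩ := hp'.2 ξ t ht
    have h3 : t' = t'' := by
      have h4 : p'.1.t.f ξ = some t'' := ht''
      rw [ht'] at h4
      exact Option.some.inj h4
    subst h3
    obtain ⟨c', hc'⟩ := t.2.exists_val ha
    have h4 := h2.2 _ _ hc'
    rw [h1] at h4
    rw [hc', Option.some.inj h4]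
  have hsupp : ∀ r : PS A, r ≤ q → ∃ t, r.1.t.f ξ = some t := by
    intro r hr
    obtain ⟨t, ht, _⟩ := hr.2 ξ v hv
    exact ⟨t, ht⟩
  have hfy : q ∈ IsFun y := by
    refine ⟨fun a => ?_, fun a c c' => ?_⟩
    · rw [mem_fex]
      intro r hr
      obtain ⟨t, ht⟩ := hsupp r hr
      obtain ⟨r', hr', h1, t', ht', h2⟩ := exists_long hA r.2 ht (sc a)
      obtain ⟨c, hc⟩ := t'.2.exists_val (i := a) (by
        rw [← hr'.1.len ξ t' ht']
        exact (lt_sc a).trans_le h2)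
      exact ⟨⟨r', hr'⟩, h1, c, meets_of_mem ⟨t', ht', hc⟩⟩
    · refine ((sent_fground _).mem_fimp (down_fand (down_meets _) (down_meets _))).2 ?_
      rintro r hr ⟨h1, h2⟩
      show c = c'
      obtain ⟨r', hr', s, hs, hrs⟩ := h1 r le_rfl
      obtain ⟨t, ht, h3⟩ := hyd _ _ _ hs _ hrs
      have h4 := hyu r' a c' t (down_meets _ _ h2 _ hr') ht (Nd.lt_len h3)
      rw [h3] at h4
      exact Option.some.inj h4
  refine mem_fex_of_mem y (down_fand (sent_IsFun _).down (sent_PairIn _ _ _).down) ⟨hfy, ?_⟩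
  intro s u hsu
  refine ((sent_meets _).mem_fimp (down_fand (sent_Init _ _).down (sent_Init _ _).down)).2 ?_
  rintro r hr ⟨hs, hu⟩
  apply (sent_meets _).rg
  intro r1 hr1
  obtain ⟨r2, hr2, h1, σ, hσ, hσD⟩ := exists_dc hA r1.2 (nm_toN hfZ)
    ((tt_toN hfZ).down (show r1.1 ≤ q0.1 from (hr1.trans hr).trans hq)) s.len
  obtain ⟨t2, ht2⟩ := hsupp ⟨r2, hr2⟩ (le_trans (show (⟨r2, hr2⟩ : PS A) ≤ r1 from h1)
    (hr1.trans hr))
  obtain ⟨r3, hr3, h2, t, ht, htl⟩ := exists_long hA hr2 ht2 s.len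
  let r3' : PS A := ⟨r3, hr3⟩
  have hr3r1 : r3' ≤ r1 := show r3 ≤ r1.1 from h2.trans h1
  have hr3r : r3' ≤ r := hr3r1.trans hr1
  have hσD3 : Dc r3 (toN q0 (Zx dec R x)) σ := hσD.down (nm_toN hfZ) hr2 hr3 h2
  have hx3 : r3' ∈ IsFun x := (sent_IsFun x).down _ hx _ ((hr3r.trans hr).trans hq)
  have htσ : t.1 ≤ σ := by
    intro a w hw
    obtain ⟨w', hw'⟩ := t.1.exists_val (i := a) ((Nd.lt_len hw).trans_le (by rw [hσ]; exact htl))
    have h3 := hE r3 hr3 (show r3' ≤ q from hr3r.trans hr) a w w' (hσD3 a w hw)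
      (hr3.1.dec ξ t ht a w' hw')
    rw [hw', h3]
  have htu : t.2 ≤ u := by
    intro a c hc
    refine hyu r3' a c t (down_meets _ _ (hu a c hc) _ hr3r) ht ?_
    rw [← hr3.1.len ξ t ht]
    exact (Nd.lt_len hc).trans_le (by rw [← hsu]; exact htl)
  refine ⟨r3', hr3r1, meets_of_mem ⟨σ, hσ, ?_, ?_⟩⟩
  · intro a w hw
    constructor
    · obtain ⟨c, hc⟩ := s.exists_val (i := a) (by rw [← hσ]; exact Nd.lt_len hw)
      obtain ⟨_, h3⟩ := toN_Zx (hσD3 a w hw)
      rw [hc, IsFun.unique hx3 (down_meets _ _ (hs a c hc) _ hr3r) (h3 r3' le_rfl)]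
    · intro j
      obtain ⟨_, h3⟩ := toN_Zx' (hσD3 a w hw) j
      exact h3 r3' le_rfl
  · intro d hd hdl
    have h3 := hr3.1.coh ξ t ht d hd (hdl.trans htl)
    rw [hside, Nd.cut_eq_of_le htσ (by rw [hσ]; exact hdl),
      Nd.cut_eq_of_le htu (by rw [← hsu]; exact hdl)] at h3
    exact h3

end

/-- The separation property in the extension by the last stage. -/
theorem separation (hK : Big K K) (hJ : #K < #J) {dec : K → Nd K K × Nd K K}
    (hdec : Function.Surjective dec) {S : Ordinal.{u} → Set (Req K (K × Bool × Bool) J)}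
    (hS : Stg (TU dec) S) {α₀ : Ordinal.{u}} (hα : ∀ β ≥ α₀, S β = S α₀) (p : PS (S α₀)) :
    p ∈ Separation K (PS (S α₀)) := by
  have hA : Cl (S α₀) := hS.cl α₀
  have hW : #(K × Bool × Bool) ≤ #K := by
    have h1 : #(K × Bool × Bool) = #(K × (ULift.{u} Bool × ULift.{u} Bool)) :=
      mk_congr (Equiv.prodCongr (Equiv.refl _)
        (Equiv.prodCongr Equiv.ulift.symm Equiv.ulift.symm))
    rw [h1]
    have hB : #(ULift.{u} Bool) ≤ #K := (mk_le_aleph0_iff.2 inferInstance).trans mk_K_pos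
    exact hK.prod le_rfl (hK.prod hB hB)
  intro R0 R1
  refine ((sent_fex).mem_fimp (sent_fall fun _ => sent_fimp (sent_IsFun _).down).down).2 ?_
  intro p _ hdisj
  let R : Bool → Nd K K → Nd K K → Set (PS (S α₀)) := fun b => cond b R1 R0
  -- the main lemma in the forcing language
  have key : ∀ x : K → K → Set (PS (S α₀)), ∀ q ≤ p, q ∈ IsFun x → ∃ r ≤ q, ∃ i : Bool,
      r ∈ InProj (Sx dec R i) x ∧ (∀ r' ≤ r, r' ∉ InProj (R (!i)) x) ∧
      ∀ r' ≤ r, r' ∉ InProj (Sx dec R (!i)) x := by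
    intro x q hqp hx
    have hfZ : q ∈ IsFun (Zx dec R x) := isFun_Zx hx
    obtain ⟨r, hr, hrq, i, ⟨ξ, v, hv, hside, hE⟩, hN, hno⟩ := main_lemma hK hW hJ hS hα q.2
      (nm_toN hfZ) (tt_toN hfZ) (by
        intro q' hq' hle hall
        have h1 : ∀ i, (⟨q', hq'⟩ : PS (S α₀)) ∈ InProj (R i) x := fun i => by
          obtain ⟨y, hy⟩ := hall i
          exact inProj_of_wit hA hdec hx (show (⟨q', hq'⟩ : PS (S α₀)) ≤ q from hle) hy
        have h2 := ((sent_fnot (down_fand (sent_InProj _ _).down (sent_InProj _ _).down)).mem_fimp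
          (sent_IsFun x).down).1 (hdisj x) q hqp hx
        exact h2 ⟨q', hq'⟩ hle ⟨h1 false, h1 true⟩)
    refine ⟨⟨r, hr⟩, hrq, i, ?_, ?_, ?_⟩
    · exact inProj_of_req hA hx (show (⟨r, hr⟩ : PS (S α₀)) ≤ q from hrq) hv hside hE
    · intro r' hr' hin
      obtain ⟨q', hq', y, hy⟩ := wit_of_inProj (dec := dec) (R := R) (j := !i)
        (hr'.trans (show (⟨r, hr⟩ : PS (S α₀)) ≤ q from hrq)) hin
      exact hN q'.1 q'.2 (le_trans (show q' ≤ r' from hq') hr') ⟨y, hy⟩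
    · intro r' hr' hin
      obtain ⟨q', hq', y, hy⟩ := cod_of_inProj (dec := dec) (R := R) (i := !i)
        (hr'.trans (show (⟨r, hr⟩ : PS (S α₀)) ≤ q from hrq)) hin
      have hq'q : q' ≤ q := (le_trans (show q' ≤ r' from hq') hr').trans hrq
      obtain ⟨q'', hq'', h1, ξ', v', h2, h3, h4⟩ := coding hA q'.2 (!i) (nm_toN hfZ)
        ((tt_toN hfZ).down (show q'.1 ≤ q.1 from hq'q)) hy
      exact hno q'' hq'' (le_trans h1 (le_trans (show q' ≤ r' from hq') hr')) ξ' v' h2 h3 h4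
  refine mem_fex_of_mem (Sx dec R false) (sent_fex).down (mem_fex_of_mem (Sx dec R true)
    (down_fand (down_fall fun _ => down_fimp _ _) (down_fand (down_fall fun _ => down_fimp _ _)
      (down_fall fun _ => down_fimp _ _))) ⟨?_, ?_, ?_⟩)
  · intro x
    refine ((sent_fand sent_foor (sent_fnot (down_fand (sent_InProj _ _).down
      (sent_InProj _ _).down))).mem_fimp (sent_IsFun x).down).2 ?_
    intro q hq hx
    constructor
    · rw [mem_foor]
      intro q' hq'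
      obtain ⟨r, hr, i, h1, _⟩ := key x q' (hq'.trans hq) ((sent_IsFun x).down _ hx _ hq')
      cases i with
      | false => exact ⟨r, hr, Or.inl h1⟩
      | true => exact ⟨r, hr, Or.inr h1⟩
    · rintro q' hq' ⟨h1, h2⟩
      obtain ⟨r, hr, i, _, _, h3⟩ := key x q' (hq'.trans hq) ((sent_IsFun x).down _ hx _ hq')
      cases i with
      | false => exact h3 r le_rfl ((sent_InProj _ _).down _ h2 _ hr)
      | true => exact h3 r le_rfl ((sent_InProj _ _).down _ h1 _ hr)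
  · intro x
    refine ((sent_fimp (sent_InProj _ _).down).mem_fimp (sent_IsFun x).down).2 ?_
    intro q hq hx
    refine ((sent_InProj _ _).mem_fimp (sent_InProj _ _).down).2 ?_
    intro q1 hq1 hin
    apply (sent_InProj _ _).rg
    intro q' hq'
    obtain ⟨r, hr, i, h1, h2, _⟩ := key x q' ((hq'.trans hq1).trans hq)
      ((sent_IsFun x).down _ hx _ (hq'.trans hq1))
    cases i with
    | false => exact ⟨r, hr, h1⟩
    | true => exact absurd ((sent_InProj _ _).down _ hin _ (hr.trans hq')) (h2 r le_rfl)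
  · intro x
    refine ((sent_fnot (down_fand (sent_InProj _ _).down (sent_InProj _ _).down)).mem_fimp
      (sent_IsFun x).down).2 ?_
    rintro q hq hx q' hq' ⟨h1, h2⟩
    obtain ⟨r, hr, i, _, h3, h4⟩ := key x q' (hq'.trans hq) ((sent_IsFun x).down _ hx _ hq')
    cases i with
    | false => exact h3 r le_rfl ((sent_InProj _ _).down _ h2 _ hr)
    | true => exact h4 r le_rfl ((sent_InProj _ _).down _ h1 _ hr)

end

end Pool.Agent.H641
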