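import Pool.Agent.H641.SDer

/-!
# The main lemma: every function is coded on exactly one side
-/

set_option linter.unusedSectionVars false

namespace Pool.Agent.H641

open Cardinal Set

universe u v

section

variable {K W J : Type u} [LinearOrder K] [Kap K]
variable {TT : Bool → Nd K W → Nd K K → Prop}

theorem jj_unbounded (α : Ordinal.{u}) (b : Bool) : ∃ β ≥ α, jj β = b := by
  classical
  cases b with
  | true => exact ⟨Order.succ α, Order.le_succ α, by simp [jj]⟩
  | false =>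
    refine ⟨α + Ordinal.omega0, le_self_add, ?_⟩
    unfold jj
    rw [decide_eq_false_iff_not]
    rintro ⟨γ, hγ⟩
    exact (Ordinal.isSuccLimit_add α Ordinal.isSuccLimit_omega0).succ_ne γ hγ.symm

/-- In the extension by the forcing of the last stage, every function `z` which is not in both
analytic sets is coded on exactly one side, and it is not in the analytic set of the other side. -/
theorem main_lemma (hK : Big K K) (hW : #W ≤ #K) (hJ : #K < #J)
    {S : Ordinal.{u} → Set (Req K W J)} (hS : Stg TT S) {α₀ : Ordinal.{u}}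
    (hα : ∀ β ≥ α₀, S β = S α₀) {p : Cnd K W J} (hp : p ∈ PS (S α₀))
    {z : K → W → Set (Cnd K W J)} (hz : Nm (S α₀) z) (ht : Tt (S α₀) p z)
    (hno : ∀ q ∈ PS (S α₀), q ≤ p → ¬ ∀ i, ∃ y, Wit (S α₀) (fun _ => TT i) q z y) :
    ∃ r ∈ PS (S α₀), r ≤ p ∧ ∃ i : Bool,
      (∃ ξ v, r.t.f ξ = some v ∧ ξ.side = i ∧ Eqn (S α₀) r z (zn ξ)) ∧
      Nt (S α₀) (TT (!i)) r z ∧
      ∀ r' ∈ PS (S α₀), r' ≤ r → ∀ ξ v, r'.t.f ξ = some v → (ξ.side = !i) →
        ¬ Eqn (S α₀) r' z (zn ξ) := by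
  set A := S α₀ with hAdef
  have hA : Cl A := hS.cl α₀
  obtain ⟨B, hBA, hB, hnil, hcard, hpB, hcap⟩ := capture hK hW hA (hS.nil α₀) hp ht
  -- the name, restricted to `B`
  let z' := nres B z
  have hb' : Bs B z' := bs_nres B z
  have hnB : Nm B z' := nm_nres hBA hz
  have htB : Tt B p z' := by
    intro r hr hrp a
    obtain ⟨r', hr', h1, w, hw⟩ := hcap r hr hrp a
    exact ⟨r', hr', h1, w, (mem_nres hr' a w).2 hw⟩
  have hsub : ∀ γ, B ⊆ S γ := by
    intro γ
    rcases le_total γ α₀ with h | h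
    · exact hBA.trans (hS.anti h)
    · rw [hα γ h]
      exact hBA
  have hnA : ∀ γ, Nm (S γ) z' := fun γ => hnB.up hB hb'
  have htA : ∀ γ, ∀ q, q.res B ≤ p → Tt (S γ) q z' := fun γ q hq =>
    Tt.up (hS.cl γ) hB (hsub γ) hnB hb' (htB.down hq)
  have hzz : ∀ q ∈ PS A, ∀ a w, q ∈ z' a w → q ∈ z a w := by
    intro q hq a w h
    exact hz.down a w (q.res B) (PS_mono hBA (hB.res_mem hq)) h q hq (q.le_res B)
  have heq : Eqn A p z z' := by
    intro q hq _ a w w' h1 h2
    exact hz.fn q hq a w w' h1 (hzz q hq a w' h2)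
  have hpres : p.res B = p := Cnd.res_eq hpB.2
  have hresle : ∀ q, q ≤ p → q.res B ≤ p := fun q hq => by
    have := Cnd.res_mono B hq
    rwa [hpres] at this
  -- something is decided
  have hdec : ∃ γ, ∃ q ∈ PS B, q ≤ p ∧ Nt (S γ) (TT (jj γ)) q z' := by
    by_contra hcon
    push Not at hcon
    have h1 : ∀ i, ∀ q ∈ PS A, q ≤ p → ¬ Nt A (TT i) q z' := by
      intro i q hq hqp hN
      obtain ⟨β, hβ, hj⟩ := jj_unbounded α₀ i
      have h2 := hN.res hJ hA (hS.inv α₀) hB.mem hcard hq hb'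
      refine hcon β (q.res B) (hB.res_mem hq) (hresle q hqp) ?_
      rw [hα β hβ, hj]
      exact h2
    have h2 := h1 false p hp le_rfl
    unfold Nt at h2
    push Not at h2
    obtain ⟨q0, hq0, hq0p, y0, hy0⟩ := h2
    have h3 := h1 true q0 hq0 hq0p
    unfold Nt at h3
    push Not at h3
    obtain ⟨q1, hq1, hq10, y1, hy1⟩ := h3
    have hq1p := hq10.trans hq0p
    apply hno q1 hq1 hq1p
    intro i
    have h4 : ∃ y, Wit A (fun _ => TT i) q1 z' y := by
      cases i with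
      | false => exact ⟨y0, hy0.mono hq10⟩
      | true => exact ⟨y1, hy1⟩
    obtain ⟨y, hy⟩ := h4
    exact ⟨y, hy.eqn hA hz (hnA α₀) (htA α₀ q1 (hresle q1 hq1p)) (heq.down hq1p)⟩
  -- the first stage at which something is decided
  obtain ⟨β, ⟨q, hq, hqp, hN⟩, hmin⟩ := WellFounded.has_min (wellFounded_lt (α := Ordinal.{u}))
    {γ | ∃ q ∈ PS B, q ≤ p ∧ Nt (S γ) (TT (jj γ)) q z'} hdec
  have hund : ∀ γ < β, ∀ q' ∈ PS B, q' ≤ p → ¬ Nt (S γ) (TT (jj γ)) q' z' :=
    fun γ hγ q' hq' hle hN' => hmin γ ⟨q', hq', hle, hN'⟩ hγ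
  -- the request
  have hJn : Nonempty J := by
    by_contra h
    rw [not_nonempty_iff] at h
    rw [mk_eq_zero J] at hJ
    exact absurd hJ not_lt_bot
  obtain ⟨ξ, hside, hrange, hpr, hU, hD⟩ := exists_req hB hnil hcard hq (!(jj β))
    (Classical.arbitrary J) hnB (htB.down hqp)
  have hznz : ∀ r : Cnd K W J, r.res B ∈ PS B → r.res B ≤ q → ∀ a w,
      r ∈ zn ξ a w ↔ r ∈ z' a w := by
    intro r hr hrq a w
    have h1 : r ∈ zn ξ a w ↔ r.res B ∈ zn ξ a w := by
      have := bs_zn ξ r a w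
      rwa [hrange] at this
    rw [h1, hD _ hr, hb' r]
    exact ⟨fun h => h.2, fun h => ⟨hrq, h⟩⟩
  have hξ : ξ ∈ A := by
    refine hS.mem.2 ⟨⟨hpr, ?_⟩, fun k => ?_⟩
    · rintro γ hγ ⟨p', hp', h1, h2, h3, h4⟩
      rw [hrange] at hp' h3
      have hp'q : p' ≤ q := (hU p' hp').1 h1
      have h5 : Nt (S γ) (TT (jj γ)) p' z' := by
        refine h4.congr ?_
        intro r hr hrp a w
        refine hznz r (hB.res_mem hr) ?_ a w
        have h6 := Cnd.res_mono B hrp
        rw [Cnd.res_eq hp'.2] at h6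
        exact h6.trans hp'q
      rcases lt_trichotomy γ β with h6 | h6 | h6
      · exact hund γ h6 p' hp' (hp'q.trans hqp) h5
      · subst h6
        rw [hside] at h2
        cases h7 : jj γ <;> simp [h7] at h2
      · refine h3 β h6 p' hp' le_rfl ?_
        refine (hN.down hp'q).congr ?_
        intro r hr hrp a w
        refine (hznz r (hB.res_mem hr) ?_ a w).symm
        have h6 := Cnd.res_mono B hrp
        rw [Cnd.res_eq hp'.2] at h6
        exact h6.trans hp'q
    · have h1 : ξ.ι k ∈ B := by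
        rw [← hrange]
        exact ⟨k, rfl⟩
      exact (hS.mem.1 (hBA h1)).1
  obtain ⟨r, hr, hrq, v, hv⟩ := add_req hA (PS_mono hBA hq) hξ ((hU q hq).2 le_rfl)
  have hqres : q.res B = q := Cnd.res_eq hq.2
  have hrres : ∀ r' : Cnd K W J, r' ≤ q → r'.res B ≤ q := fun r' h => by
    have := Cnd.res_mono B h
    rwa [hqres] at this
  refine ⟨r, hr, hrq.trans hqp, !(jj β), ⟨ξ, v, hv, hside, ?_⟩, ?_, ?_⟩
  · intro r' hr' hle a w w' h1 h2
    rw [hznz r' (hB.res_mem hr') (hrres r' (hle.trans hrq))] at h2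
    exact heq r' hr' ((hle.trans hrq).trans hqp) a w w' h1 h2
  · rw [Bool.not_not]
    have h1 : Nt A (TT (jj β)) q z' := by
      rcases le_total β α₀ with h | h
      · exact hN.abs (hS.cl β) hA (hS.anti h) (hb'.mono hBA)
      · rw [hα β h] at hN
        exact hN
    exact (h1.down hrq).eqn hA (hnA α₀) hz (ht.down (hrq.trans hqp))
      ((heq.down (hrq.trans hqp)).symm)
  · intro r' hr' hr'r ξ' v' hv' hside' hE
    rw [Bool.not_not] at hside'
    have hr'q := hr'r.trans hrq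
    have hξ'A : ξ' ∈ A := hr'.2 ξ' (by simp [hv'])
    have hR := hA.range hξ'A
    have hRA := hA.range_sub hξ'A
    have hallS : ∀ γ, A ⊆ S γ := by
      intro γ
      rcases le_total γ α₀ with h | h
      · exact hS.anti h
      · rw [hα γ h]
    have hξ'β : ξ' ∈ S (Order.succ β) := hallS _ hξ'A
    have hcardR : #(range ξ'.ι) ≤ #K := mk_range_le
    -- equality of the names over all stages
    have hE1 : Eqn A r' z' (zn ξ') := by
      intro x hx hxr a w w' h1 h2
      exact hE x hx hxr a w w' (hzz x hx a w h1) h2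
    have hE2 : ∀ γ, Eqn (S γ) r' z' (zn ξ') := fun γ =>
      Eqn.up hA hr' (hb'.mono hBA) ((bs_zn ξ').mono hRA) hE1
    have httz : ∀ γ, Tt (S γ) r' z' := fun γ =>
      htA γ r' ((hrres r' hr'q).trans hqp)
    have httξ : ∀ γ, Tt (S γ) r' (zn ξ') := fun γ =>
      tt_zn (hS.cl γ) (PS_mono (hallS γ) hr') hv'
    have hnmξ : ∀ γ, Nm (S γ) (zn ξ') := fun γ => nm_zn (hS.cl γ) (hallS γ hξ'A)
    refine (hS.mem.1 hξ'β).1.2 β (Order.lt_succ β) ⟨r'.res (range ξ'.ι), hR.res_mem hr', ?_,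
      hside', ?_, ?_⟩
    · rw [pb_res subset_rfl]
      exact hr'.1.inU ξ' v' hv'
    · intro γ hγ x hx hxr hNx
      obtain ⟨y, hy, hyr, hyx, _⟩ := amalg_res hA hRA hr' hx hxr
      have h1 : Nt (S γ) (TT (jj γ)) y z' :=
        (hNx.down hyx).eqn (hS.cl γ) (hnmξ γ) (hnA γ) ((httz γ).down hyr) ((hE2 γ).down hyr).symm
      have h2 := h1.res hJ (hS.cl γ) (hS.inv γ) hB.mem hcard (PS_mono (hallS γ) hy) hb'
      exact hund γ hγ (y.res B) (hB.res_mem hy) ((hrres y (hyr.trans hr'q)).trans hqp) h2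
    · have h1 : Nt (S β) (TT (jj β)) r' (zn ξ') :=
        (hN.down hr'q).eqn (hS.cl β) (hnA β) (hnmξ β) (httξ β) (hE2 β)
      exact h1.res hJ (hS.cl β) (hS.inv β) hR.mem hcardR (PS_mono (hallS β) hr') (bs_zn ξ')

end

end Pool.Agent.H641
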