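import Pool.Agent.H641.SClo

/-!
# Names for functions, and witnesses for membership in analytic sets
-/

set_option linter.unusedSectionVars false

namespace Pool.Agent.H641

open Cardinal Set

universe u v

section

variable {K V : Type u} [LinearOrder K]

open Classical in
/-- the initial segment of length `d` of the function `g` -/
noncomputable def sgm (g : K → V) (d : K) : Nd K V where
  f := fun i => if i < d then some (g i) else none
  len := d
  dom := fun i => by simp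

theorem sgm_some {g : K → V} {d i : K} {w : V} : (sgm g d).f i = some w ↔ i < d ∧ g i = w := by
  simp only [sgm]
  split_ifs with h <;> simp [h]

end

section

variable {K W J V : Type u} [LinearOrder K] [Kap K]

/-- names for partial functions -/
structure Nm (A : Set (Req K W J)) (z : K → V → Set (Cnd K W J)) : Prop where
  down : ∀ a w, ∀ r ∈ PS A, r ∈ z a w → ∀ r' ∈ PS A, r' ≤ r → r' ∈ z a w
  fn : ∀ r ∈ PS A, ∀ a w w', r ∈ z a w → r ∈ z a w' → w = w'

/-- the name is a name for a total function below `q` -/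
def Tt (A : Set (Req K W J)) (q : Cnd K W J) (z : K → V → Set (Cnd K W J)) : Prop :=
  ∀ r ∈ PS A, r ≤ q → ∀ a, ∃ r' ∈ PS A, r' ≤ r ∧ ∃ w, r' ∈ z a w

/-- the condition `r` decides that `s` is an initial segment -/
def Dc (r : Cnd K W J) (z : K → V → Set (Cnd K W J)) (s : Nd K V) : Prop :=
  ∀ a w, s.f a = some w → r ∈ z a w

/-- the name `y` is a name for a witness -/
structure Wit (A : Set (Req K W J)) (T : Cnd K W J → Nd K W → Nd K K → Prop) (q : Cnd K W J)
    (z : K → W → Set (Cnd K W J)) (y : K → K → Set (Cnd K W J)) : Prop where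
  nm : Nm A y
  tt : Tt A q y
  rel : ∀ r ∈ PS A, r ≤ q → ∀ s u, s.len = u.len → Dc r z s → Dc r y u → T r s u

/-- `p` forces over `P(A)` that the function named by `z` is not in the projection of `T` -/
def Nt (A : Set (Req K W J)) (T : Nd K W → Nd K K → Prop) (p : Cnd K W J)
    (z : K → W → Set (Cnd K W J)) : Prop :=
  ∀ q ∈ PS A, q ≤ p → ¬ ∃ y, Wit A (fun _ => T) q z y

/-- `p` forces over `P(A)` that the functions named by `z` and `z'` are the same -/
def Eqn (A : Set (Req K W J)) (p : Cnd K W J) (z z' : K → V → Set (Cnd K W J)) : Prop :=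
  ∀ q ∈ PS A, q ≤ p → ∀ a w w', q ∈ z a w → q ∈ z' a w' → w = w'

/-- the name only depends on the requests in `B` -/
def Bs (B : Set (Req K W J)) (z : K → V → Set (Cnd K W J)) : Prop :=
  ∀ p a w, p ∈ z a w ↔ p.res B ∈ z a w

theorem Wit.mono {A : Set (Req K W J)} {T : Cnd K W J → Nd K W → Nd K K → Prop} {q q' : Cnd K W J}
    {z : K → W → Set (Cnd K W J)} {y : K → K → Set (Cnd K W J)} (h : Wit A T q z y)
    (hq : q' ≤ q) : Wit A T q' z y where
  nm := h.nm
  tt := fun r hr hle => h.tt r hr (hle.trans hq)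
  rel := fun r hr hle => h.rel r hr (hle.trans hq)

theorem Nt.down {A : Set (Req K W J)} {T : Nd K W → Nd K K → Prop} {p q : Cnd K W J}
    {z : K → W → Set (Cnd K W J)} (h : Nt A T p z) (hq : q ≤ p) : Nt A T q z :=
  fun r hr hle => h r hr (hle.trans hq)

theorem Eqn.down {A : Set (Req K W J)} {p q : Cnd K W J} {z z' : K → V → Set (Cnd K W J)}
    (h : Eqn A p z z') (hq : q ≤ p) : Eqn A q z z' :=
  fun r hr hle => h r hr (hle.trans hq)

theorem Eqn.symm {A : Set (Req K W J)} {p : Cnd K W J} {z z' : K → V → Set (Cnd K W J)}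
    (h : Eqn A p z z') : Eqn A p z' z :=
  fun r hr hle a w w' h1 h2 => (h r hr hle a w' w h2 h1).symm

theorem Tt.down {A : Set (Req K W J)} {p q : Cnd K W J} {z : K → V → Set (Cnd K W J)}
    (h : Tt A p z) (hq : q ≤ p) : Tt A q z :=
  fun r hr hle => h r hr (hle.trans hq)

theorem Dc.down {A : Set (Req K W J)} {z : K → V → Set (Cnd K W J)} (hz : Nm A z)
    {r r' : Cnd K W J} (hr : r ∈ PS A) (hr' : r' ∈ PS A) (h : r' ≤ r) {s : Nd K V}
    (hs : Dc r z s) : Dc r' z s :=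
  fun a w h1 => hz.down a w r hr (hs a w h1) r' hr' h

theorem Nt.congr {A : Set (Req K W J)} {T : Nd K W → Nd K K → Prop} {p : Cnd K W J}
    {z z' : K → W → Set (Cnd K W J)}
    (h : ∀ r ∈ PS A, r ≤ p → ∀ a w, r ∈ z a w ↔ r ∈ z' a w) (hN : Nt A T p z) :
    Nt A T p z' := by
  rintro q hq hqp ⟨y, hy⟩
  refine hN q hq hqp ⟨y, hy.nm, hy.tt, ?_⟩
  intro r hr hrq s u hsu hs hu
  exact hy.rel r hr hrq s u hsu (fun a w h1 => (h r hr (hrq.trans hqp) a w).1 (hs a w h1)) hu

/-- deciding an initial segment of a function -/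
theorem exists_dc {A : Set (Req K W J)} (hA : Cl A) {p : Cnd K W J} (hp : p ∈ PS A)
    {z : K → V → Set (Cnd K W J)} (hz : Nm A z) (ht : Tt A p z) (b : K) :
    ∃ q ∈ PS A, q ≤ p ∧ ∃ s : Nd K V, s.len = b ∧ Dc q z s := by
  obtain ⟨q, hq, hqp, h⟩ := PS_meet hA hp (Iio b) (sm_Iio b) (fun a q => ∃ w, q ∈ z a w)
    (fun a _ y hy y' hy' hle ⟨w, hw⟩ => ⟨w, hz.down a w y hy hw y' hy' hle⟩)
    (fun a _ l hl hlp => by
      obtain ⟨y, hy, h1, h2⟩ := ht l hl hlp a
      exact ⟨y, hy, h1, h2⟩)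
  by_cases hne : Nonempty V
  · have h1 : ∀ a, ∃ w, a < b → q ∈ z a w := by
      intro a
      by_cases hab : a < b
      · obtain ⟨w, hw⟩ := h a hab
        exact ⟨w, fun _ => hw⟩
      · exact ⟨Classical.arbitrary V, fun h => absurd h hab⟩
    choose g hg using h1
    refine ⟨q, hq, hqp, sgm g b, rfl, ?_⟩
    intro a w hw
    obtain ⟨h1, h2⟩ := sgm_some.1 hw
    rw [← h2]
    exact hg a h1
  · exfalso
    obtain ⟨_, _, _, w, _⟩ := ht p hp le_rfl b
    exact hne ⟨w⟩

/-- the same for two functions -/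
theorem exists_dc2 {A : Set (Req K W J)} (hA : Cl A) {p : Cnd K W J} (hp : p ∈ PS A)
    {V' : Type u} {z : K → V → Set (Cnd K W J)} (hz : Nm A z) (ht : Tt A p z)
    {y : K → V' → Set (Cnd K W J)} (hy : Nm A y) (hty : Tt A p y) (b : K) :
    ∃ q ∈ PS A, q ≤ p ∧ (∃ s : Nd K V, s.len = b ∧ Dc q z s) ∧
      ∃ u : Nd K V', u.len = b ∧ Dc q y u := by
  obtain ⟨q, hq, h1, s, h2, h3⟩ := exists_dc hA hp hz ht b
  obtain ⟨q', hq', h4, u, h5, h6⟩ := exists_dc hA hq hy (hty.down h1) b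
  exact ⟨q', hq', h4.trans h1, ⟨s, h2, h3.down hz hq hq' h4⟩, u, h5, h6⟩

/-- witnesses for a name are witnesses for an equal name -/
theorem Wit.eqn {A : Set (Req K W J)} (hA : Cl A) {T : Nd K W → Nd K K → Prop} {q : Cnd K W J}
    {z z' : K → W → Set (Cnd K W J)} {y : K → K → Set (Cnd K W J)} (hz : Nm A z) (hz' : Nm A z')
    (ht : Tt A q z') (he : Eqn A q z z') (h : Wit A (fun _ => T) q z' y) :
    Wit A (fun _ => T) q z y := by
  refine ⟨h.nm, h.tt, ?_⟩
  intro r hr hrq s u hsu hs hu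
  obtain ⟨r', hr', h1, s', h2, h3⟩ := exists_dc hA hr hz' (ht.down hrq) s.len
  have h4 : s' = s := by
    apply Nd.eq_of_len _ h2.le
    intro a w hw
    obtain ⟨w', hw'⟩ := s'.exists_val ((Nd.lt_len hw).trans_le h2.ge)
    have h5 := he r' hr' (h1.trans hrq) a w w' (hz.down a w r hr (hs a w hw) r' hr' h1)
      (h3 a w' hw')
    rw [h5, hw']
  rw [h4] at h3
  exact h.rel r' hr' (h1.trans hrq) s u hsu h3 (hu.down h.nm hr hr' h1)

theorem Nt.eqn {A : Set (Req K W J)} (hA : Cl A) {T : Nd K W → Nd K K → Prop} {p : Cnd K W J}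
    {z z' : K → W → Set (Cnd K W J)} (hz : Nm A z) (hz' : Nm A z')
    (ht : Tt A p z') (he : Eqn A p z z') (h : Nt A T p z) : Nt A T p z' := by
  rintro q hq hqp ⟨y, hy⟩
  exact h q hq hqp ⟨y, hy.eqn hA hz hz' (ht.down hqp) (he.down hqp)⟩

/-! ### Names which depend on few requests -/

theorem Cnd.res_res {B C : Set (Req K W J)} (h : B ⊆ C) (p : Cnd K W J) :
    (p.res C).res B = p.res B := by
  unfold Cnd.res
  simp only
  rw [Cond.res_res _ _ _ h]

theorem Bs.mono {B C : Set (Req K W J)} {z : K → V → Set (Cnd K W J)} (hz : Bs B z) (h : B ⊆ C) :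
    Bs C z := by
  intro p a w
  rw [hz p, hz (p.res C), Cnd.res_res h]

theorem Nm.up {A B : Set (Req K W J)} (hB : Cl B) {z : K → V → Set (Cnd K W J)}
    (hz : Nm B z) (hb : Bs B z) : Nm A z where
  down := fun a w r hr h r' hr' hle => by
    rw [hb] at h ⊢
    exact hz.down a w _ (hB.res_mem hr) h _ (hB.res_mem hr') (Cnd.res_mono B hle)
  fn := fun r hr a w w' h h' => by
    rw [hb] at h h'
    exact hz.fn _ (hB.res_mem hr) a w w' h h'

theorem Tt.up {A B : Set (Req K W J)} (hA : Cl A) (hB : Cl B) (hBA : B ⊆ A)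
    {z : K → V → Set (Cnd K W J)} (hz : Nm B z) (hb : Bs B z) {q : Cnd K W J}
    (ht : Tt B (q.res B) z) : Tt A q z := by
  intro r hr hrq a
  obtain ⟨r', hr', h1, w, hw⟩ := ht (r.res B) (hB.res_mem hr) (Cnd.res_mono B hrq) a
  obtain ⟨r'', hr'', h2, h3, _⟩ := amalg_res hA hBA hr hr' h1
  refine ⟨r'', hr'', h2, w, ?_⟩
  rw [hb]
  refine hz.down a w r' hr' hw _ (hB.res_mem hr'') ?_
  have h4 := Cnd.res_mono B h3
  rwa [Cnd.res_eq hr'.2] at h4

/-- witnesses over a smaller forcing are witnesses -/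
theorem Wit.up {A B : Set (Req K W J)} (hA : Cl A) (hB : Cl B) (hBA : B ⊆ A)
    {T : Nd K W → Nd K K → Prop} {q : Cnd K W J} (hq : q ∈ PS B)
    {z : K → W → Set (Cnd K W J)} {y : K → K → Set (Cnd K W J)} (hb : Bs B z)
    (h : Wit B (fun _ => T) q z y) : Wit A (fun _ => T) q z fun a c => {r | r.res B ∈ y a c} := by
  have hby : Bs B fun a c => {r | r.res B ∈ y a c} := by
    intro p a w
    show p.res B ∈ y a w ↔ (p.res B).res B ∈ y a w
    rw [Cnd.res_res subset_rfl]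
  have hny : Nm B fun a c => {r | r.res B ∈ y a c} := by
    constructor
    · intro a w r hr h1 r' hr' hle
      have h1' : r.res B ∈ y a w := h1
      show r'.res B ∈ y a w
      rw [Cnd.res_eq hr.2] at h1'
      rw [Cnd.res_eq hr'.2]
      exact h.nm.down a w r hr h1' r' hr' hle
    · intro r hr a w w' h1 h2
      have h1' : r.res B ∈ y a w := h1
      have h2' : r.res B ∈ y a w' := h2
      rw [Cnd.res_eq hr.2] at h1' h2'
      exact h.nm.fn r hr a w w' h1' h2'
  refine ⟨hny.up hB hby, Tt.up hA hB hBA hny hby ?_, ?_⟩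
  · rw [Cnd.res_eq hq.2]
    intro r hr hrq a
    obtain ⟨r', hr', h1, w, hw⟩ := h.tt r hr hrq a
    refine ⟨r', hr', h1, w, ?_⟩
    show r'.res B ∈ y a w
    rwa [Cnd.res_eq hr'.2]
  · intro r hr hrq s u hsu hs hu
    refine h.rel (r.res B) (hB.res_mem hr) ?_ s u hsu ?_ ?_
    · have := Cnd.res_mono B hrq
      rwa [Cnd.res_eq hq.2] at this
    · intro a w h1
      exact (hb r a w).1 (hs a w h1)
    · intro a w h1
      exact hu a w h1

theorem Nt.abs {A B : Set (Req K W J)} (hA : Cl A) (hB : Cl B) (hBA : B ⊆ A)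
    {T : Nd K W → Nd K K → Prop} {p : Cnd K W J} {z : K → W → Set (Cnd K W J)} (hb : Bs B z)
    (h : Nt A T p z) : Nt B T p z := by
  rintro q hq hqp ⟨y, hy⟩
  exact h q (PS_mono hBA hq) hqp ⟨_, hy.up hA hB hBA hq hb⟩

theorem Eqn.up {A B : Set (Req K W J)} (hB : Cl B) {p : Cnd K W J}
    (hp : p ∈ PS B) {z z' : K → V → Set (Cnd K W J)} (hb : Bs B z) (hb' : Bs B z')
    (h : Eqn B p z z') : Eqn A p z z' := by
  intro q hq hqp a w w' h1 h2
  have h3 := Cnd.res_mono B hqp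
  rw [Cnd.res_eq hp.2] at h3
  exact h (q.res B) (hB.res_mem hq) h3 a w w' ((hb q a w).1 h1) ((hb' q a w').1 h2)

/-! ### The names of the requests -/

/-- the name of the function to be coded -/
def zn (ξ : Req K W J) : K → W → Set (Cnd K W J) := fun a w => {p | pb ξ.ι p ∈ ξ.D a w}

theorem bs_zn (ξ : Req K W J) : Bs (range ξ.ι) (zn ξ) := by
  intro p a w
  show pb ξ.ι p ∈ ξ.D a w ↔ pb ξ.ι (p.res (range ξ.ι)) ∈ ξ.D a w
  rw [pb_res subset_rfl]

theorem nm_zn {A : Set (Req K W J)} (hA : Cl A) {ξ : Req K W J} (h : ξ ∈ A) :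
    Nm A (zn ξ) where
  down := fun a w r _ h1 r' _ hle => (hA.pr ξ h).lowD a w _ h1 _ (pb_mono hle)
  fn := fun r hr a w w' h1 h2 => by
    have h1' : pb ξ.ι r ∈ ξ.D a w := h1
    have h2' : pb ξ.ι r ∈ ξ.D a w' := h2
    rw [← pb_res subset_rfl] at h1' h2'
    exact (hA.pr ξ h).fn _ ((hA.range h).res_mem hr) a w w' h1' h2'

theorem tt_zn' {A : Set (Req K W J)} (hA : Cl A) {p : Cnd K W J} {ξ : Req K W J}
    (h : ξ ∈ A) (hp : pb ξ.ι p ∈ ξ.U) : Tt A p (zn ξ) := by
  apply Tt.up hA (hA.range h) (hA.range_sub h) (nm_zn (hA.range h |> fun _ => hA) h |> fun hz =>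
    ⟨fun a w r hr h1 r' hr' hle => hz.down a w r (PS_mono (hA.range_sub h) hr) h1 r'
      (PS_mono (hA.range_sub h) hr') hle, fun r hr => hz.fn r (PS_mono (hA.range_sub h) hr)⟩)
    (bs_zn ξ)
  intro r hr hrp a
  obtain ⟨q, hq, h1, w, hw⟩ := (hA.pr ξ h).tot r hr ((hA.pr ξ h).lowU _ (by
    rw [pb_res subset_rfl] at *
    exact hp) _ (pb_mono hrp)) a
  exact ⟨q, hq, h1, w, hw⟩

theorem tt_zn {A : Set (Req K W J)} (hA : Cl A) {p : Cnd K W J} (hp : p ∈ PS A) {ξ : Req K W J}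
    {v : Tv K W} (h : p.t.f ξ = some v) : Tt A p (zn ξ) :=
  tt_zn' hA (hp.2 ξ (by simp [h])) (hp.1.inU ξ v h)

end

end Pool.Agent.H641
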