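import Pool.Agent.H641.SDefs

/-!
# A universal forcing for coding

A request `ξ` asks for a function `z` from `K` to `W` of the extension to be coded by the generic
function `E`: it lists (through `ξ.ι`) the earlier requests which it uses, it has a name `ξ.D` for
`z`, a set `ξ.U` of conditions below which it may be used, a side `ξ.side` and a label. A
condition is a small partial function from `Bool × Nd K W × Nd K K` to `Bool` (an approximation of
`E`), together with a small partial function assigning to requests `ξ` a pair of nodes `(s, u)` of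
the same length: `s` is an initial segment of the function `z`, and `E (side, s ↾ d, u ↾ d)` is
true for all limits `d` up to the length of `s`.
-/

set_option linter.unusedSectionVars false

namespace Pool.Agent.H641

open Cardinal Set

universe u v

section

variable (K W : Type u) [LinearOrder K]

/-- approximations of the generic function on pairs of nodes -/
abbrev Ev := Cond K (Bool × Nd K W × Nd K K) (ULift.{u} Bool)

/-- pairs of nodes -/
abbrev Tv := Nd K W × Nd K K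

/-- what is seen of a condition through a list of requests -/
abbrev Vw := Ev K W × (K → Option (Tv K W))

/-- Requests. The request `nil` is never used. -/
inductive Req (J : Type u) : Type u
  | nil : Req J
  | mk (ι : K → Req J) (D : K → W → Set (Vw K W)) (U : Set (Vw K W)) (i : Bool) (l : J) : Req J

end

section

variable {K W : Type u} [LinearOrder K]

/-- when the node `u` is extended to `u'`, the next value is different from all the values used at
this place by `e` -/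
def Fr (e : Ev K W) (u u' : Nd K K) : Prop :=
  ∀ c, u'.f u.len = some c → ∀ x, e.f x ≠ none → x.2.2.f u.len ≠ some c

theorem Nd.at_len (u : Nd K W) : u.f u.len = none := by
  by_contra h
  exact lt_irrefl _ ((u.dom _).1 h)

theorem fr_refl (e : Ev K W) (u : Nd K K) : Fr e u u := by
  intro c h
  rw [u.at_len] at h
  cases h

/-- the order on the views of conditions -/
def VLe {X : Type v} (x y : Ev K W × (X → Option (Tv K W))) : Prop :=
  x.1 ≤ y.1 ∧ ∀ i v, y.2 i = some v → ∃ v', x.2 i = some v' ∧ v' ≤ v ∧ Fr y.1 v.2 v'.2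

theorem VLe.refl {X : Type v} (x : Ev K W × (X → Option (Tv K W))) : VLe x x :=
  ⟨le_rfl, fun _ v h => ⟨v, h, le_rfl, fr_refl _ _⟩⟩

theorem Fr.trans {e e' : Ev K W} {u u' u'' : Nd K K} (he : e' ≤ e) (h : Fr e u u')
    (h' : Fr e' u' u'') (hu' : u'' ≤ u') (hu : u' ≤ u) : Fr e u u'' := by
  intro c hc x hx
  rcases lt_or_eq_of_le (Nd.len_le hu) with h1 | h1
  · obtain ⟨c', hc'⟩ := u'.exists_val h1
    have h2 := hu' _ _ hc'
    rw [hc] at h2
    exact h c (by rw [hc', Option.some.inj h2]) x hx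
  · rw [h1] at hc ⊢
    exact h' c hc x (Cond.ne_none_of_le he hx)

theorem VLe.trans {X : Type v} {x y z : Ev K W × (X → Option (Tv K W))} (h : VLe x y)
    (h' : VLe y z) : VLe x z := by
  refine ⟨h.1.trans h'.1, fun i v hv => ?_⟩
  obtain ⟨v', h1, h2, h3⟩ := h'.2 i v hv
  obtain ⟨v'', h4, h5, h6⟩ := h.2 i v' h1
  exact ⟨v'', h4, h5.trans h2, h3.trans h'.1 h6 h5.2 h2.2⟩

/-- closed under strengthening -/
def Low (S : Set (Vw K W)) : Prop := ∀ x ∈ S, ∀ y, VLe y x → y ∈ S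

/-- limits -/
def Lim (d : K) : Prop := (∃ a, a < d) ∧ ∀ a < d, ∃ b < d, a < b

variable {J : Type u}

/-- the requests used by a request -/
def Req.ι : Req K W J → K → Req K W J
  | .nil => fun _ => .nil
  | .mk ι _ _ _ _ => ι

/-- the name of the function to be coded -/
def Req.D : Req K W J → K → W → Set (Vw K W)
  | .nil => fun _ _ => ∅
  | .mk _ D _ _ _ => D

/-- the conditions below which the request may be used -/
def Req.U : Req K W J → Set (Vw K W)
  | .nil => ∅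
  | .mk _ _ U _ _ => U

/-- the side -/
def Req.side : Req K W J → Bool
  | .nil => false
  | .mk _ _ _ i _ => i

theorem Req.not_self (ξ : Req K W J) (h : ξ ≠ .nil) : ∀ k, ξ.ι k ≠ ξ := by
  induction ξ with
  | nil => exact absurd rfl h
  | mk ι D U i l ih =>
    intro k hk
    have h1 : ι k = Req.mk ι D U i l := hk
    have h2 := ih k (by rw [h1]; exact h) k
    rw [h1] at h2
    exact h2 hk

variable (K W J)

/-- conditions before imposing the requirements -/
structure Cnd where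
  e : Ev K W
  t : Cond K (Req K W J) (Tv K W)

variable {K W J}

instance : Preorder (Cnd K W J) where
  le p q := VLe (p.e, p.t.f) (q.e, q.t.f)
  le_refl := fun _ => VLe.refl _
  le_trans := fun _ _ _ h h' => h.trans h'

theorem Cnd.le_def {p q : Cnd K W J} : p ≤ q ↔ p.e ≤ q.e ∧ ∀ ξ v, q.t.f ξ = some v →
    ∃ v', p.t.f ξ = some v' ∧ v' ≤ v ∧ Fr q.e v.2 v'.2 := Iff.rfl

/-- the view of a condition through a list of requests -/
def pb (ι : K → Req K W J) (p : Cnd K W J) : Vw K W := (p.e, fun k => p.t.f (ι k))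

theorem pb_mono {ι : K → Req K W J} {p q : Cnd K W J} (h : p ≤ q) : VLe (pb ι p) (pb ι q) :=
  ⟨h.1, fun i v hv => h.2 (ι i) v hv⟩

/-- the requirements on a condition -/
structure Val (p : Cnd K W J) : Prop where
  inU : ∀ ξ v, p.t.f ξ = some v → pb ξ.ι p ∈ ξ.U
  dec : ∀ ξ v, p.t.f ξ = some v → ∀ a w, v.1.f a = some w → pb ξ.ι p ∈ ξ.D a w
  len : ∀ ξ v, p.t.f ξ = some v → v.1.len = v.2.len
  coh : ∀ ξ v, p.t.f ξ = some v → ∀ d, Lim d → d ≤ v.1.len →
    p.e.f (ξ.side, v.1.cut d, v.2.cut d) = some ⟨true⟩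

variable [Kap K]

/-- the conditions which only use requests in `A` -/
def PS (A : Set (Req K W J)) : Set (Cnd K W J) := {p | Val p ∧ p.t.In A}

theorem PS_mono {A B : Set (Req K W J)} (h : B ⊆ A) : PS B ⊆ PS A := fun _ hp => ⟨hp.1, hp.2.mono h⟩

theorem Val.ne_nil {p : Cnd K W J} (h : Val p) {ξ : Req K W J} {v : Tv K W}
    (hξ : p.t.f ξ = some v) : ξ ≠ .nil := by
  rintro rfl
  exact h.inU _ _ hξ

/-- A request with the natural properties: it is transitive, the name is a name for a partial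
function, and the name is total below the conditions of `ξ.U`. -/
structure Pr (ξ : Req K W J) : Prop where
  cl : ∀ k k', ∃ k'', (ξ.ι k).ι k' = ξ.ι k''
  lowU : Low ξ.U
  lowD : ∀ a w, Low (ξ.D a w)
  fn : ∀ p ∈ PS (range ξ.ι), ∀ a w w', pb ξ.ι p ∈ ξ.D a w → pb ξ.ι p ∈ ξ.D a w' → w = w'
  tot : ∀ p ∈ PS (range ξ.ι), pb ξ.ι p ∈ ξ.U → ∀ a, ∃ q ∈ PS (range ξ.ι), q ≤ p ∧
    ∃ w, pb ξ.ι q ∈ ξ.D a w

/-- a closed set of requests with the natural properties -/
structure Cl (A : Set (Req K W J)) : Prop where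
  pr : ∀ ξ ∈ A, Pr ξ
  mem : ∀ ξ ∈ A, ∀ k, ξ.ι k ∈ A

theorem Cl.range_sub {A : Set (Req K W J)} (hA : Cl A) {ξ : Req K W J} (h : ξ ∈ A) :
    range ξ.ι ⊆ A := by
  rintro _ ⟨k, rfl⟩
  exact hA.mem ξ h k

theorem Cl.range {A : Set (Req K W J)} (hA : Cl A) {ξ : Req K W J} (h : ξ ∈ A) :
    Cl (range ξ.ι) where
  pr := fun η hη => hA.pr η (hA.range_sub h hη)
  mem := by
    rintro _ ⟨k, rfl⟩ k'
    obtain ⟨k'', h2⟩ := (hA.pr ξ h).cl k k'
    exact ⟨k'', h2.symm⟩

end

section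

variable {K W J : Type u} [LinearOrder K] [Kap K]

/-! ### Restrictions -/

/-- the restriction of a condition to a set of requests -/
noncomputable def Cnd.res (B : Set (Req K W J)) (p : Cnd K W J) : Cnd K W J := ⟨p.e, p.t.res B⟩

theorem Cnd.le_res (B : Set (Req K W J)) (p : Cnd K W J) : p ≤ p.res B :=
  ⟨le_rfl, fun _ v h => ⟨v, (Cond.res_some.1 h).2, le_rfl, fr_refl _ _⟩⟩

theorem Cnd.res_mono (B : Set (Req K W J)) {p q : Cnd K W J} (h : p ≤ q) : p.res B ≤ q.res B :=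
  ⟨h.1, fun ξ v hv => by
    obtain ⟨h1, h2⟩ := Cond.res_some.1 hv
    obtain ⟨v', h3, h4⟩ := h.2 ξ v h2
    exact ⟨v', Cond.res_some.2 ⟨h1, h3⟩, h4⟩⟩

theorem Cnd.res_eq {B : Set (Req K W J)} {p : Cnd K W J} (h : p.t.In B) : p.res B = p := by
  cases p
  simp only [Cnd.res]
  rw [h.res_eq]

theorem pb_res {ι : K → Req K W J} {B : Set (Req K W J)} (h : range ι ⊆ B) (p : Cnd K W J) :
    pb ι (p.res B) = pb ι p := by
  unfold pb Cnd.res
  congr 1
  funext k
  exact if_pos (h ⟨k, rfl⟩)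

theorem Cl.res_mem {A B : Set (Req K W J)} (hB : Cl B) {p : Cnd K W J} (hp : p ∈ PS A) :
    p.res B ∈ PS B := by
  refine ⟨?_, p.t.res_in B⟩
  constructor
  · intro ξ v h
    obtain ⟨h1, h2⟩ := Cond.res_some.1 h
    rw [pb_res (hB.range_sub h1)]
    exact hp.1.inU ξ v h2
  · intro ξ v h a w hw
    obtain ⟨h1, h2⟩ := Cond.res_some.1 h
    rw [pb_res (hB.range_sub h1)]
    exact hp.1.dec ξ v h2 a w hw
  · intro ξ v h
    exact hp.1.len ξ v (Cond.res_some.1 h).2
  · intro ξ v h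
    exact hp.1.coh ξ v (Cond.res_some.1 h).2

/-- two conditions, seen through a list enumerating their support -/
theorem le_of_pb {ι : K → Req K W J} {p q : Cnd K W J} (hq : q.t.In (range ι))
    (h : VLe (pb ι p) (pb ι q)) : p ≤ q := by
  refine ⟨h.1, fun ξ v hv => ?_⟩
  obtain ⟨k, rfl⟩ := hq ξ (by simp only at hv; simp [hv])
  exact h.2 k v hv

/-! ### Amalgamation -/

theorem amalg {A : Set (Req K W J)} (hA : Cl A) {p q : Cnd K W J} (hp : p ∈ PS A) (hq : q ∈ PS A)
    (he : q.e ≤ p.e) (h : ∀ ξ v v', p.t.f ξ = some v → q.t.f ξ = some v' →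
      v' ≤ v ∧ Fr p.e v.2 v'.2) :
    ∃ r ∈ PS A, r ≤ p ∧ r ≤ q ∧ r.e = q.e ∧ ∀ ξ, q.t.f ξ = none → r.t.f ξ = p.t.f ξ := by
  let r : Cnd K W J := ⟨q.e, q.t.ov p.t⟩
  have hrq : r ≤ q := ⟨le_rfl, fun ξ v hv => ⟨v, Cond.ov_some.2 (Or.inl hv), le_rfl, fr_refl _ _⟩⟩
  have hrp : r ≤ p := by
    refine ⟨he, fun ξ v hv => ?_⟩
    cases hq' : q.t.f ξ with
    | none => exact ⟨v, Cond.ov_some.2 (Or.inr ⟨hq', hv⟩), le_rfl, fr_refl _ _⟩
    | some v' => exact ⟨v', Cond.ov_some.2 (Or.inl hq'), h ξ v v' hv hq'⟩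
  have hin : r.t.In A := hq.2.ov hp.2
  refine ⟨r, ⟨⟨?_, ?_, ?_, ?_⟩, hin⟩, hrp, hrq, rfl, ?_⟩
  · intro ξ v hv
    have hξ : ξ ∈ A := hin ξ (by simp [hv])
    rcases Cond.ov_some.1 hv with h1 | ⟨_, h1⟩
    · exact (hA.pr ξ hξ).lowU _ (hq.1.inU ξ v h1) _ (pb_mono hrq)
    · exact (hA.pr ξ hξ).lowU _ (hp.1.inU ξ v h1) _ (pb_mono hrp)
  · intro ξ v hv a w hw
    have hξ : ξ ∈ A := hin ξ (by simp [hv])
    rcases Cond.ov_some.1 hv with h1 | ⟨_, h1⟩
    · exact (hA.pr ξ hξ).lowD a w _ (hq.1.dec ξ v h1 a w hw) _ (pb_mono hrq)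
    · exact (hA.pr ξ hξ).lowD a w _ (hp.1.dec ξ v h1 a w hw) _ (pb_mono hrp)
  · intro ξ v hv
    rcases Cond.ov_some.1 hv with h1 | ⟨_, h1⟩
    · exact hq.1.len ξ v h1
    · exact hp.1.len ξ v h1
  · intro ξ v hv d hd hdl
    rcases Cond.ov_some.1 hv with h1 | ⟨_, h1⟩
    · exact hq.1.coh ξ v h1 d hd hdl
    · exact he _ _ (hp.1.coh ξ v h1 d hd hdl)
  · intro ξ hξ
    show (q.t.ov p.t).f ξ = p.t.f ξ
    simp [Cond.ov, hξ]

/-- `P(B)` is completely included in `P(A)`. -/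
theorem amalg_res {A B : Set (Req K W J)} (hA : Cl A) (hBA : B ⊆ A) {p q : Cnd K W J}
    (hp : p ∈ PS A) (hq : q ∈ PS B) (h : q ≤ p.res B) :
    ∃ r ∈ PS A, r ≤ p ∧ r ≤ q ∧ r.e = q.e ∧ ∀ ξ, q.t.f ξ = none → r.t.f ξ = p.t.f ξ := by
  apply amalg hA hp (PS_mono hBA hq) h.1
  intro ξ v v' hv hv'
  obtain ⟨v'', h1, h2⟩ := h.2 ξ v (Cond.res_some.2 ⟨hq.2 ξ (by simp [hv']), hv⟩)
  have h3 : v' = v'' := by
    have h4 : q.t.f ξ = some v'' := h1
    rw [hv'] at h4
    exact Option.some.inj h4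
  rw [h3]
  exact h2

end

end Pool.Agent.H641
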