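import Pool.Agent.H641.MMain
import Pool.Agent.H641.Final

/-!
# Miller measurability of the analytic sets in a Cohen extension
-/

set_option linter.unusedSectionVars false

namespace Pool.Agent.H641

open Cardinal Set

universe u v w

section

variable {K : Type u} [LinearOrder K] [Kap K] {P : Type u} [Preorder P]

/-- For every `b`, the pair of the initial segments of length `b` of the functions named by `z`
and `w` is in the relation named by `R`. The sets of the pairs `(z, w)` with this property are the
closed sets of pairs of functions. -/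
def PairIn (R : Nd K K → Nd K K → Set P) (z w : K → K → Set P) : Set P :=
  fall fun u : Nd K K => fall fun v : Nd K K => fall fun _ : u.len = v.len =>
    fimp (fand (Init u z) (Init v w)) (meets (R u v))

/-- The function named by `z` is in the analytic set coded by `R`: the projection of the closed
set of the pairs coded by `R`. -/
def InProj (R : Nd K K → Nd K K → Set P) (z : K → K → Set P) : Set P :=
  fex fun w : K → K → Set P => fand (IsFun w) (PairIn R z w)

/-- In the extension, the analytic set coded by `R` is Miller measurable: every Miller tree `T`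
includes a Miller tree `S` such that all branches of `S` are in the set or all branches of `S` are
outside of it. -/
def MeasSig (R : Nd K K → Nd K K → Set P) : Set P :=
  fall fun T : Nd K K → Set P => fimp (ML T) (fex fun S : Nd K K → Set P =>
    fand (ML S) (fand (Sub S T) (foor
      (fall fun z : K → K → Set P => fimp (fand (IsFun z) (InBr z S)) (InProj R z))
      (fall fun z : K → K → Set P => fimp (fand (IsFun z) (InBr z S)) (fnot (InProj R z))))))

variable (K P)

/-- In the extension, every analytic set of functions from `K` to `K` is Miller measurable. -/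
def SigmaMiller : Set P := fall fun R : Nd K K → Nd K K → Set P => MeasSig R

variable {K P}

theorem sent_PairIn (R : Nd K K → Nd K K → Set P) (z w : K → K → Set P) :
    Sent (PairIn R z w) :=
  sent_fall fun _ => sent_fall fun _ => sent_fall fun _ =>
    sent_fimp (down_fand (sent_Init _ _).down (sent_Init _ _).down)

theorem sent_InProj (R : Nd K K → Nd K K → Set P) (z : K → K → Set P) : Sent (InProj R z) :=
  sent_fex

theorem Init_congr {u : Nd K K} {z z' : K → K → Set P}
    (h : ∀ a b, meets (z a b) = meets (z' a b)) : Init u z = Init u z' := by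
  unfold Init
  simp only [h]

theorem IsFun_congr {X Y : Type u} {z z' : X → Y → Set P}
    (h : ∀ a b, meets (z a b) = meets (z' a b)) : IsFun z = IsFun z' := by
  unfold IsFun
  simp only [h]

theorem PairIn_congr {R R' : Nd K K → Nd K K → Set P} {z z' w w' : K → K → Set P}
    (hR : ∀ u v, meets (R u v) = meets (R' u v))
    (h : ∀ a b, meets (z a b) = meets (z' a b)) (h' : ∀ a b, meets (w a b) = meets (w' a b)) :
    PairIn R z w = PairIn R' z' w' := by
  unfold PairIn
  simp only [hR, Init_congr h, Init_congr h']

theorem InProj_congr {R R' : Nd K K → Nd K K → Set P} {z z' : K → K → Set P}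
    (hR : ∀ u v, meets (R u v) = meets (R' u v))
    (h : ∀ a b, meets (z a b) = meets (z' a b)) : InProj R z = InProj R' z' := by
  unfold InProj
  congr 1
  funext w
  rw [PairIn_congr hR h (fun _ _ => rfl)]

end

section

variable {K : Type u} [LinearOrder K] [Kap K] {Q P : Type u} [Preorder Q] [Preorder P]

theorem pre_Init {f : Q → P} (hf : Opn f) (u : Nd K K) (z : K → K → Set P) :
    f ⁻¹' Init u z = Init u fun a b => pull f (z a b) := by
  unfold Init
  simp only [pre_fall, hf.pre_meets]

theorem pre_PairIn {f : Q → P} (hf : Opn f) (R : Nd K K → Nd K K → Set P)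
    (z w : K → K → Set P) : f ⁻¹' PairIn R z w =
      PairIn (fun u v => pull f (R u v)) (fun a b => pull f (z a b)) fun a b => pull f (w a b) := by
  unfold PairIn
  simp only [pre_fall]
  congr 1; funext u
  congr 1; funext v
  congr 1; funext _
  rw [hf.pre_fimp (down_fand (sent_Init _ _).down (sent_Init _ _).down) (down_meets _), pre_fand,
    pre_Init hf, pre_Init hf, hf.pre_meets]

theorem pre_InProj {f : Q → P} (hf : DM f) (R : Nd K K → Nd K K → Set P)
    (z : K → K → Set P) : f ⁻¹' InProj R z =
      InProj (fun u v => pull f (R u v)) fun a b => pull f (z a b) := by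
  unfold InProj
  have h := hf.pre_fex_names (X := K × K)
    (φ := fun w => fand (IsFun fun a b => w (a, b)) (PairIn R z fun a b => w (a, b)))
    (ψ := fun w => fand (IsFun fun a b => w (a, b))
      (PairIn (fun u v => pull f (R u v)) (fun a b => pull f (z a b)) fun a b => w (a, b)))
    (fun w => by
      show f ⁻¹' fand _ _ = _
      rw [pre_fand, hf.toOpn.pre_IsFun, pre_PairIn hf.toOpn])
    (fun w w' h => by
      show fand _ _ = fand _ _
      rw [IsFun_congr (z' := fun a b => w' (a, b)) (fun a b => h (a, b)),
        PairIn_congr (w' := fun a b => w' (a, b)) (fun _ _ => rfl) (fun _ _ => rfl)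
          (fun a b => h (a, b))])
    (fun w => down_fand (sent_IsFun _).down (sent_PairIn _ _ _).down)
  have e1 : (fex fun w : K → K → Set P => fand (IsFun w) (PairIn R z w)) =
      fex fun w : K × K → Set P =>
        fand (IsFun fun a b => w (a, b)) (PairIn R z fun a b => w (a, b)) := by
    ext p
    rw [mem_fex, mem_fex]
    constructor
    · intro h q hq
      obtain ⟨r, hr, w, hw⟩ := h q hq
      exact ⟨r, hr, fun x => w x.1 x.2, hw⟩
    · intro h q hq
      obtain ⟨r, hr, w, hw⟩ := h q hq
      exact ⟨r, hr, fun a b => w (a, b), hw⟩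
  have e2 : (fex fun w : K → K → Set Q => fand (IsFun w)
      (PairIn (fun u v => pull f (R u v)) (fun a b => pull f (z a b)) w)) =
      fex fun w : K × K → Set Q =>
        fand (IsFun fun a b => w (a, b)) (PairIn (fun u v => pull f (R u v))
          (fun a b => pull f (z a b)) fun a b => w (a, b)) := by
    ext p
    rw [mem_fex, mem_fex]
    constructor
    · intro h q hq
      obtain ⟨r, hr, w, hw⟩ := h q hq
      exact ⟨r, hr, fun x => w x.1 x.2, hw⟩
    · intro h q hq
      obtain ⟨r, hr, w, hw⟩ := h q hq
      exact ⟨r, hr, fun a b => w (a, b), hw⟩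
  rw [e1, e2, h]

/-- the predicate given by a code for an analytic set -/
def pdS (R : Nd K K → Nd K K → Set P) : Pd K P where
  val := fun _ _ f z => InProj (fun u v => pull f (R u v)) z
  sent := fun _ _ _ _ _ => sent_InProj _ _
  nat := fun Q Q' _ _ i hi f hf z => by
    rw [pre_InProj hi]
    congr 1
    funext u v
    exact pull_pull hf _
  ext := fun _ _ _ _ _ h => InProj_congr (fun _ _ => rfl) h

theorem InProj_local (R R' : Nd K K → Nd K K → Set P) (z : K → K → Set P) (p0 : P)
    (h : ∀ q ≤ p0, ∀ a b, q ∈ meets (R a b) ↔ q ∈ meets (R' a b)) (q : P) (hq : q ≤ p0) :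
    q ∈ InProj R z ↔ q ∈ InProj R' z := by
  have hdm := dm_below p0
  have h1 : ∀ a b, meets (pull (fun q : {q : P // q ≤ p0} => q.1) (R a b)) =
      meets (pull (fun q : {q : P // q ≤ p0} => q.1) (R' a b)) := by
    intro a b
    rw [← hdm.toOpn.pre_meets, ← hdm.toOpn.pre_meets]
    ext x
    exact h x.1 x.2 a b
  have h2 : (fun q : {q : P // q ≤ p0} => q.1) ⁻¹' InProj R z =
      (fun q : {q : P // q ≤ p0} => q.1) ⁻¹' InProj R' z := by
    rw [pre_InProj hdm, pre_InProj hdm]
    exact InProj_congr h1 (fun _ _ => rfl)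
  exact Set.ext_iff.1 h2 ⟨q, hq⟩

end

section

variable {K J W : Type u} [LinearOrder K] [Kap K]

theorem measSig (hW : Big K W) (hJ : #W < #J) (R : Nd K K → Nd K K → Set (Cond K J W))
    (p : Cond K J W) : p ∈ MeasSig R := by
  classical
  intro T
  refine ((sent_fex).mem_fimp (sent_ML T).down).2 ?_
  intro q _ hT
  rw [mem_fex]
  intro p0 hp0
  have hT0 : IsML T p0 := down_IsML (mem_ML.1 hT) hp0
  obtain ⟨a⟩ := (Cardinal.le_def _ _).1 (hW.le.trans hJ.le)
  let A0 : Set J := range a ∪ {i | p0.f i ≠ none}
  have hA0 : #A0 ≤ #W := hW.union (mk_range_le.trans hW.le) (p0.sm.le.trans hW.le)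
  have hι : #((Nd K K × Nd K K) ⊕ Nd K K) ≤ #W := by
    rw [mk_sum, lift_id, lift_id]
    exact (add_le_add (hW.prod hW.nd hW.nd) hW.nd).trans (add_eq_self hW.inf).le
  obtain ⟨A, hAA, hA, hcl⟩ := exists_closed hW A0 hA0 hι
    (fun (i : (Nd K K × Nd K K) ⊕ Nd K K) (d : Cond K J W) => Sum.elim
      (fun x : Nd K K × Nd K K => if h : ∃ d' ≤ d, d' ∈ meets (R x.1 x.2) then h.choose else d)
      (fun u : Nd K K => if h : ∃ d' ≤ d, d' ∈ meets (T u) then h.choose else d) i)
  have hp0A : p0.In A := fun i hi => hAA (Or.inr hi)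
  have hsT : ∀ q ≤ p0, ∀ u, q ∈ meets (T u) → q.res A ∈ meets (T u) := by
    intro q hq u
    refine supp_of_dec (sent_meets (T u)) p0 hp0A ?_ q hq
    intro r _ hrA
    by_cases h : ∃ d' ≤ r, d' ∈ meets (T u)
    · have h2 := hcl (Sum.inr u) r hrA
      simp only [Sum.elim_inr] at h2
      rw [dif_pos h] at h2
      exact ⟨h.choose, h.choose_spec.1, h2, Or.inl h.choose_spec.2⟩
    · exact ⟨r, le_rfl, hrA, Or.inr fun s hs hs' => h ⟨s, hs, hs'⟩⟩
  have hsR : ∀ q ≤ p0, ∀ i j, q ∈ meets (R i j) → q.res A ∈ meets (R i j) := by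
    intro q hq u v
    refine supp_of_dec (sent_meets (R u v)) p0 hp0A ?_ q hq
    intro r _ hrA
    by_cases h : ∃ d' ≤ r, d' ∈ meets (R u v)
    · have h2 := hcl (Sum.inl (u, v)) r hrA
      simp only [Sum.elim_inl] at h2
      rw [dif_pos h] at h2
      exact ⟨h.choose, h.choose_spec.1, h2, Or.inl h.choose_spec.2⟩
    · exact ⟨r, le_rfl, hrA, Or.inr fun s hs hs' => h ⟨s, hs, hs'⟩⟩
  obtain ⟨r, hr, S, hS, hST, hor⟩ := main_tree' hW hJ A hA a a.injective
    (fun c => hAA (Or.inl ⟨c, rfl⟩)) T p0 hT0 hp0A hsT (pdS fun i j => meets (R i j))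
  have hloc : ∀ z : K → K → Set (Cond K J W), ∀ q ≤ p0,
      (q ∈ InProj R z ↔ q ∈ (pdS fun i j => meets (R i j)).val _ (Cond.res A) z) := by
    intro z q hq
    refine InProj_local _ _ z p0 ?_ q hq
    intro s hs a b
    constructor
    · intro h1
      exact meets_of_mem ⟨_, hsR s hs a b h1, le_rfl⟩
    · intro h1
      apply (sent_meets _).rg
      intro s' hs'
      obtain ⟨t, ht, t', ⟨m, hm, hmle⟩, hle⟩ := h1 s' hs'
      refine ⟨t, ht, ?_⟩
      exact down_meets _ _ hm _ ((hle.trans (Cond.le_res A t')).trans hmle)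
  refine ⟨r, hr, S, mem_ML.2 hS, ?_, ?_⟩
  · intro u
    exact ((sent_meets _).mem_fimp (down_meets _)).2 fun q hq hu => hST q hq u hu
  · apply mem_foor.2
    intro q hq
    refine ⟨q, le_rfl, ?_⟩
    rcases hor with h | h
    · left
      intro z
      refine ((sent_InProj R z).mem_fimp
        (down_fand (sent_IsFun z).down (sent_fall fun u => sent_fimp (sent_Init u z).down).down)).2 ?_
      intro s hs h2
      exact (hloc z s ((hs.trans hq).trans hr)).2 (h z s (hs.trans hq) h2.1 h2.2)
    · right
      intro z
      refine ((sent_fnot (sent_InProj R z).down).mem_fimp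
        (down_fand (sent_IsFun z).down (sent_fall fun u => sent_fimp (sent_Init u z).down).down)).2 ?_
      intro s hs h2 t ht ht'
      exact h z s (hs.trans hq) h2.1 h2.2 t ht
        ((hloc z t (((ht.trans hs).trans hq).trans hr)).1 ht')

theorem sigmaMiller (hW : Big K W) (hJ : #W < #J) (p : Cond K J W) :
    p ∈ SigmaMiller K (Cond K J W) := fun R => measSig hW hJ R p

end

end Pool.Agent.H641
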