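import Pool.Agent.H641.Pd

/-!
# Counting conditions, and supports
-/

set_option linter.unusedSectionVars false

namespace Pool.Agent.H641

open Cardinal Set

universe u v

/-- `W` has at least `#K` elements and `#W ^ c = #W` for all `c < #K`. -/
structure Big (K W : Type u) [LinearOrder K] : Prop where
  le : #K ≤ #W
  pow : ∀ a : K, #(Iio a → W) ≤ #W

section

variable {K : Type u} [LinearOrder K] [Kap K]

theorem Sm.exists_emb {X : Type u} {s : Set X} (h : Sm K s) :
    ∃ (a : K) (g : s → K), Function.Injective g ∧ ∀ x, g x < a := by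
  obtain ⟨g⟩ := (Cardinal.le_def _ _).1 (le_of_lt h)
  have h1 : Sm K (range g) := by
    have : #(range g) ≤ #s := mk_range_le
    exact this.trans_lt h
  obtain ⟨a, ha⟩ := h1.bdd
  exact ⟨a, g, g.injective, fun x => ha _ ⟨x, rfl⟩⟩

variable {W : Type u}

theorem Big.inf (hW : Big K W) : ℵ₀ ≤ #W := mk_K_pos.trans hW.le

theorem Big.nonempty (hW : Big K W) : Nonempty W := by
  by_contra h
  rw [not_nonempty_iff] at h
  have h2 := hW.inf
  rw [mk_eq_zero W] at h2
  exact absurd h2 (not_le.2 aleph0_pos)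

theorem Big.iUnion (hW : Big K W) {ι X : Type u} (hι : #ι ≤ #W) (s : ι → Set X)
    (hs : ∀ i, #(s i) ≤ #W) : #(⋃ i, s i) ≤ #W := by
  refine (mk_iUnion_le_sum_mk).trans ?_
  calc Cardinal.sum (fun i => #(s i)) ≤ Cardinal.sum (fun _ : ι => #W) :=
        Cardinal.sum_le_sum _ _ hs
    _ = #ι * #W := by simp
    _ ≤ #W * #W := mul_le_mul_left hι _
    _ = #W := mul_eq_self hW.inf

theorem Big.union (hW : Big K W) {X : Type u} {s t : Set X} (hs : #s ≤ #W) (ht : #t ≤ #W) :
    #(s ∪ t : Set X) ≤ #W := by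
  refine (mk_union_le s t).trans ?_
  calc #s + #t ≤ #W + #W := add_le_add hs ht
    _ = #W := add_eq_self hW.inf

theorem Big.small_sets (hW : Big K W) {X : Type u} (hX : #X ≤ #W) :
    #{G : Set X // Sm K G} ≤ #W := by
  classical
  let F : (Σ a : K, (Iio a → Option X)) → Set X := fun y => {x | ∃ i, y.2 i = some x}
  have h1 : {G : Set X | Sm K G} ⊆ range F := by
    intro G hG
    obtain ⟨a, g, hg, hga⟩ := Sm.exists_emb hG
    refine ⟨⟨a, fun i => if h : ∃ x : G, g x = i.1 then some h.choose.1 else none⟩, ?_⟩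
    ext x
    simp only [F, mem_ofPred_eq]
    constructor
    · rintro ⟨i, hi⟩
      by_cases h : ∃ x : G, g x = i.1
      · rw [dif_pos h] at hi
        rw [← Option.some.inj hi]
        exact h.choose.2
      · rw [dif_neg h] at hi
        cases hi
    · intro hx
      refine ⟨⟨g ⟨x, hx⟩, hga _⟩, ?_⟩
      have h : ∃ y : G, g y = g ⟨x, hx⟩ := ⟨_, rfl⟩
      rw [dif_pos h]
      have h2 := hg h.choose_spec
      rw [h2]
  have h2 : #{G : Set X // Sm K G} ≤ #(range F) := mk_le_mk_of_subset h1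
  refine h2.trans (mk_range_le.trans ?_)
  have hO : #(Option X) ≤ #W := by
    rw [mk_option]
    exact (add_le_add hX (one_le_aleph0.trans hW.inf)).trans (add_eq_self hW.inf).le
  obtain ⟨e⟩ := (Cardinal.le_def _ _).1 hO
  rw [mk_sigma]
  calc Cardinal.sum (fun a : K => #(Iio a → Option X)) ≤ Cardinal.sum (fun _ : K => #W) := by
        apply Cardinal.sum_le_sum
        intro a
        refine le_trans ?_ (hW.pow a)
        exact mk_le_of_injective (f := fun (h : Iio a → Option X) i => e (h i))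
          fun h h' hh => funext fun i => e.injective (congrFun hh i)
    _ = #K * #W := by simp
    _ ≤ #W * #W := mul_le_mul_left hW.le _
    _ = #W := mul_eq_self hW.inf

theorem Big.prod (hW : Big K W) {X Y : Type u} (hX : #X ≤ #W) (hY : #Y ≤ #W) :
    #(X × Y) ≤ #W := by
  rw [mk_prod, lift_id, lift_id]
  calc #X * #Y ≤ #W * #W := mul_le_mul' hX hY
    _ = #W := mul_eq_self hW.inf

theorem Big.nd (hW : Big K W) : #(Nd K K) ≤ #W := by
  refine le_trans ?_ (hW.small_sets (hW.prod hW.le hW.le))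
  refine mk_le_of_injective (f := fun s : Nd K K => (⟨{x : K × K | s.f x.1 = some x.2}, ?_⟩ :
    {G : Set (K × K) // Sm K G})) ?_
  · refine ((sm_Iio s.len).image fun i => (i, (s.f i).getD i)).mono ?_
    rintro ⟨i, j⟩ h
    exact ⟨i, Nd.lt_len h, by
      simp only [mem_ofPred_eq] at h
      simp [h]⟩
  · intro s t h
    have h1 : {x : K × K | s.f x.1 = some x.2} = {x : K × K | t.f x.1 = some x.2} :=
      congrArg Subtype.val h
    apply Nd.ext'
    intro i
    apply Option.ext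
    intro j
    exact Set.ext_iff.1 h1 (i, j)

theorem Big.conds (hW : Big K W) {J : Type u} {A : Set J} (hA : #A ≤ #W) :
    #{q : Cond K J W // q.In A} ≤ #W := by
  have hWn := hW.nonempty
  refine le_trans ?_ (hW.small_sets (hW.prod hA le_rfl))
  refine mk_le_of_injective (f := fun q : {q : Cond K J W // q.In A} =>
    (⟨{x : A × W | q.1.f x.1.1 = some x.2}, ?_⟩ : {G : Set (A × W) // Sm K G})) ?_
  · have h1 : Sm K ((fun x : A => x.1) ⁻¹' {i | q.1.f i ≠ none}) :=
      q.1.sm.preimage Subtype.val_injective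
    refine (h1.image fun i => (i, (q.1.f i.1).getD (Classical.arbitrary W))).mono ?_
    rintro ⟨i, j⟩ h
    simp only [mem_ofPred_eq] at h
    exact ⟨i, by simp [h], by simp [h]⟩
  · intro s t h
    have h1 : {x : A × W | s.1.f x.1.1 = some x.2} = {x : A × W | t.1.f x.1.1 = some x.2} :=
      congrArg Subtype.val h
    apply Subtype.ext
    apply Cond.ext
    funext i
    apply Option.ext
    intro w
    constructor
    · intro h2
      exact (Set.ext_iff.1 h1 (⟨i, s.2 i (by simp [h2])⟩, w)).1 h2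
    · intro h2
      exact (Set.ext_iff.1 h1 (⟨i, t.2 i (by simp [h2])⟩, w)).2 h2

/-- a set of conditions closed under given operations -/
theorem exists_closed (hW : Big K W) {J : Type u} (A0 : Set J) (h0 : #A0 ≤ #W) {ι : Type u}
    (hι : #ι ≤ #W) (F : ι → Cond K J W → Cond K J W) :
    ∃ A : Set J, A0 ⊆ A ∧ #A ≤ #W ∧ ∀ i q, q.In A → (F i q).In A := by
  let G : Set J → Set J := fun B =>
    ⋃ x : ι × {q : Cond K J W // q.In B}, {j | (F x.1 x.2.1).f j ≠ none}
  have hG : ∀ B : Set J, #B ≤ #W → #(G B) ≤ #W := fun B hB =>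
    hW.iUnion (hW.prod hι (hW.conds hB)) _ fun x => ((F x.1 x.2.1).sm).le.trans hW.le
  let Fx : (b : K) → ((c : K) → c < b → Set J) → Set J := fun b g =>
    A0 ∪ ⋃ x : Iio b, (g x.1 x.2 ∪ G (g x.1 x.2))
  let Af : K → Set J := WellFounded.fix (wellFounded_lt (α := K)) Fx
  have hAf : ∀ b, Af b = A0 ∪ ⋃ x : Iio b, (Af x.1 ∪ G (Af x.1)) := fun b =>
    WellFounded.fix_eq _ Fx b
  have hcard : ∀ b, #(Af b) ≤ #W := by
    intro b
    induction b using WellFoundedLT.induction with
    | ind b ih =>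
      rw [hAf b]
      apply hW.union h0
      apply hW.iUnion ((sm_Iio b).le.trans hW.le)
      intro x
      exact hW.union (ih x.1 x.2) (hG _ (ih x.1 x.2))
  have hmono : ∀ b c, b < c → Af b ∪ G (Af b) ⊆ Af c := by
    intro b c h
    rw [hAf c]
    intro j hj
    exact Or.inr (mem_iUnion.2 ⟨⟨b, h⟩, hj⟩)
  refine ⟨⋃ b, Af b, ?_, hW.iUnion hW.le _ hcard, ?_⟩
  · intro j hj
    refine mem_iUnion.2 ⟨bot K, ?_⟩
    rw [hAf]
    exact Or.inl hj
  · intro i q hq
    have h1 : ∀ x : {j | q.f j ≠ none}, ∃ b, x.1 ∈ Af b := fun x => mem_iUnion.1 (hq x.1 x.2)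
    choose g hg using h1
    have h2 : Sm K (range g) := by
      have h3 : #(range g) ≤ #{j | q.f j ≠ none} := mk_range_le
      exact h3.trans_lt q.sm
    obtain ⟨b, hb⟩ := h2.bdd
    have h3 : q.In (Af b) := fun j hj =>
      hmono _ _ (hb _ ⟨⟨j, hj⟩, rfl⟩) (Or.inl (hg ⟨j, hj⟩))
    intro j hj
    refine mem_iUnion.2 ⟨sc b, hmono _ _ (lt_sc b) (Or.inr ?_)⟩
    exact mem_iUnion.2 ⟨(i, ⟨q, h3⟩), hj⟩

/-- a sentence decided by conditions with support `A` is supported by `A` -/
theorem supp_of_dec {J : Type u} {A : Set J} {X : Set (Cond K J W)} (hX : Sent X)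
    (p0 : Cond K J W) (hp0 : p0.In A)
    (h : ∀ r ≤ p0, r.In A → ∃ r' ≤ r, r'.In A ∧ (r' ∈ X ∨ r' ∈ fnot X)) :
    ∀ q ≤ p0, q ∈ X → q.res A ∈ X := by
  intro q hq hqX
  apply hX.rg
  intro r hr
  obtain ⟨r1, hr1, hr1A, h1⟩ := h (r.res A) ((Cond.res_mono A hr).trans
    ((Cond.res_in A q).res_eq.le.trans (hp0.le_res hq))) (Cond.res_in A r)
  rcases h1 with h1 | h1
  · refine ⟨r.ov r1, Cond.ov_le _ _, hX.down _ h1 _ (Cond.ov_le_right ?_)⟩
    intro i w w' hw hw'
    have h2 := hr1 i w (Cond.res_some.2 ⟨hr1A i (by simp [hw']), hw⟩)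
    rw [hw'] at h2
    exact (Option.some.inj h2).symm
  · exfalso
    have h2 : q.ov r1 ≤ r1 := by
      apply Cond.ov_le_right
      intro i w w' hw hw'
      have hi := hr1A i (by simp [hw'])
      have h2 := hr1 i w (Cond.res_some.2 ⟨hi, hr i w (Cond.res_some.2 ⟨hi, hw⟩)⟩)
      rw [hw'] at h2
      exact (Option.some.inj h2).symm
    exact h1 _ h2 (hX.down _ hqX _ (Cond.ov_le _ _))

/-- a function whose values are decided by conditions with support `A` is supported by `A` -/
theorem supp_of_fun {J : Type u} {A : Set J} {X : Type*} {Y : Type*}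
    {y : X → Y → Set (Cond K J W)}
    (p0 : Cond K J W) (hp0 : p0.In A) (hf : p0 ∈ IsFun y)
    (h : ∀ r ≤ p0, r.In A → ∀ i, ∃ r' ≤ r, r'.In A ∧ ∃ j, r' ∈ meets (y i j)) :
    ∀ q ≤ p0, ∀ i j, q ∈ meets (y i j) → q.res A ∈ meets (y i j) := by
  intro q hq i j hqX
  refine supp_of_dec (sent_meets (y i j)) p0 hp0 ?_ q hq hqX
  intro r hr hrA
  obtain ⟨r', hr', h1, j', hj'⟩ := h r hr hrA i
  refine ⟨r', hr', h1, ?_⟩
  by_cases hjj : j' = j
  · subst hjj
    exact Or.inl hj'
  · right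
    intro s hs hs'
    exact hjj (IsFun.unique ((sent_IsFun y).down _ hf _ ((hs.trans hr').trans hr))
      (down_meets _ _ hj' _ hs) hs')

end

end Pool.Agent.H641
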