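import Pool.Agent.H641.Absorb

/-!
# Names for trees and for branches

In the forcing extension the nodes are the nodes of the ground model, when no sequences of length
less than `K` are added. A tree of the extension is therefore named by a map `T : Nd K K → Set P`,
and a function from `K` to `K` by a map `z : K → K → Set P`.
-/

set_option linter.unusedSectionVars false

namespace Pool.Agent.H641

open Cardinal Set

universe u v

section

variable {K : Type u} [LinearOrder K] [Kap K] {P : Type u} [Preorder P]

/-- `v` has at least two immediate successors in the tree named by `T` -/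
def Split (T : Nd K K → Set P) (v : Nd K K) : Set P :=
  fex fun x : K × K => fand (fground (x.1 ≠ x.2))
    (fand (meets (T (v.app x.1))) (meets (T (v.app x.2))))

/-- all immediate successors of `v` are in the tree named by `T` -/
def Full (T : Nd K K → Set P) (v : Nd K K) : Set P := fall fun j => meets (T (v.app j))

/-- `T` names a full Miller tree: it is closed under initial segments and under unions of small
chains of nodes (so it has the empty node), every node has an extension in the tree which has at
least two immediate successors in the tree, and each node with at least two immediate successors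
has all its immediate successors in the tree. -/
def FM (T : Nd K K → Set P) : Set P :=
  fand (fall fun u => fall fun v => fall fun _ : u ≤ v => fimp (meets (T u)) (meets (T v)))
    (fand (fall fun C : Set (Nd K K) => fall fun h : Sm K C => fall fun _ : IsChain (· ≤ ·) C =>
        fimp (fall fun v => fall fun _ : v ∈ C => meets (T v)) (meets (T (Nd.sup C h))))
      (fand (fall fun u => fimp (meets (T u)) (fex fun v => fand (fground (v ≤ u)) (Split T v)))
        (fall fun v => fimp (Split T v) (Full T v))))

/-- the node `u` is an initial segment of the function named by `z` -/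
def Init (u : Nd K K) (z : K → K → Set P) : Set P :=
  fall fun i => fall fun j => fall fun _ : u.f i = some j => meets (z i j)

/-- the function named by `z` is a branch of the tree named by `T` -/
def InBr (z : K → K → Set P) (T : Nd K K → Set P) : Set P :=
  fall fun u => fimp (Init u z) (meets (T u))

/-- the tree named by `S` is included in the tree named by `T` -/
def Sub (S T : Nd K K → Set P) : Set P := fall fun u => fimp (meets (S u)) (meets (T u))

theorem sent_Init (u : Nd K K) (z : K → K → Set P) : Sent (Init u z) :=
  sent_fall fun _ => sent_fall fun _ => sent_fall fun _ => sent_meets _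

theorem sent_Full (T : Nd K K → Set P) (v : Nd K K) : Sent (Full T v) :=
  sent_fall fun _ => sent_meets _

theorem mem_Split {T : Nd K K → Set P} {v : Nd K K} {p : P} : p ∈ Split T v ↔
    ∀ q ≤ p, ∃ r ≤ q, ∃ i j, i ≠ j ∧ r ∈ meets (T (v.app i)) ∧ r ∈ meets (T (v.app j)) := by
  unfold Split
  rw [mem_fex]
  constructor
  · intro h q hq
    obtain ⟨r, hr, x, h1, h2, h3⟩ := h q hq
    exact ⟨r, hr, x.1, x.2, h1, h2, h3⟩
  · intro h q hq
    obtain ⟨r, hr, i, j, h1, h2, h3⟩ := h q hq
    exact ⟨r, hr, (i, j), h1, h2, h3⟩

theorem mem_InBr {z : K → K → Set P} {T : Nd K K → Set P} {p : P} : p ∈ InBr z T ↔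
    ∀ q ≤ p, ∀ u, q ∈ Init u z → q ∈ meets (T u) := by
  constructor
  · intro h q hq u h2
    exact ((sent_meets _).mem_fimp (sent_Init _ _).down).1 (h u) q hq h2
  · intro h u
    exact ((sent_meets _).mem_fimp (sent_Init _ _).down).2 fun q hq h2 => h q hq u h2

/-- the tree named by `T` is a full Miller tree, in terms of the conditions -/
structure IsFM (T : Nd K K → Set P) (p : P) : Prop where
  init : ∀ q ≤ p, ∀ u v, u ≤ v → q ∈ meets (T u) → q ∈ meets (T v)
  chain : ∀ q ≤ p, ∀ (C : Set (Nd K K)) (h : Sm K C), IsChain (· ≤ ·) C →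
    (∀ v ∈ C, q ∈ meets (T v)) → q ∈ meets (T (Nd.sup C h))
  split : ∀ q ≤ p, ∀ u, q ∈ meets (T u) → ∃ r ≤ q, ∃ v ≤ u, ∃ i j, i ≠ j ∧
    r ∈ meets (T (Nd.app v i)) ∧ r ∈ meets (T (Nd.app v j))
  full : ∀ q ≤ p, ∀ (v : Nd K K) (i j : K), i ≠ j → q ∈ meets (T (v.app i)) → q ∈ meets (T (v.app j)) →
    ∀ k, q ∈ meets (T (v.app k))

theorem mem_FM {T : Nd K K → Set P} {p : P} : p ∈ FM T ↔ IsFM T p := by
  constructor
  · rintro ⟨h1, h2, h3, h4⟩
    refine ⟨?_, ?_, ?_, ?_⟩
    · intro q hq u v huv
      exact ((sent_meets _).mem_fimp (down_meets _)).1 (h1 u v huv) q hq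
    · intro q hq C h hC h5
      exact ((sent_meets _).mem_fimp (down_fall fun _ => down_fall fun _ => down_meets _)).1
        (h2 C h hC) q hq fun v hv => h5 v hv
    · intro q hq u hu
      obtain ⟨r, hr, h5⟩ := mem_fimp.1 (h3 u) q hq hu
      obtain ⟨r', hr', v, hv, h6⟩ := mem_fex.1 h5 r le_rfl
      obtain ⟨r'', hr'', i, j, h7⟩ := mem_Split.1 h6 r' le_rfl
      exact ⟨r'', (hr''.trans hr').trans hr, v, hv, i, j, h7⟩
    · intro q hq v i j hij hi hj
      have h5 : q ∈ Split T v := mem_Split.2 fun q' hq' =>
        ⟨q', le_rfl, i, j, hij, down_meets _ _ hi _ hq', down_meets _ _ hj _ hq'⟩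
      exact ((sent_Full T v).mem_fimp (sent_fex).down).1 (h4 v) q hq h5
  · intro h
    refine ⟨?_, ?_, ?_, ?_⟩
    · intro u v huv
      exact ((sent_meets _).mem_fimp (down_meets _)).2 fun q hq => h.init q hq u v huv
    · intro C hC hch
      exact ((sent_meets _).mem_fimp (down_fall fun _ => down_fall fun _ => down_meets _)).2
        fun q hq h2 => h.chain q hq C hC hch fun v hv => h2 v hv
    · intro u
      refine mem_fimp.2 fun q hq hu => ⟨q, le_rfl, mem_fex.2 fun q' hq' => ?_⟩
      obtain ⟨r, hr, v, hv, i, j, hij, h1, h2⟩ := h.split q' (hq'.trans hq) u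
        (down_meets _ _ hu _ hq')
      exact ⟨r, hr, v, hv, mem_Split.2 fun r' hr' =>
        ⟨r', le_rfl, i, j, hij, down_meets _ _ h1 _ hr', down_meets _ _ h2 _ hr'⟩⟩
    · intro v
      refine ((sent_Full T v).mem_fimp (sent_fex).down).2 fun q hq h2 k => ?_
      apply (sent_meets _).rg
      intro q' hq'
      obtain ⟨r, hr, i, j, hij, h3, h4⟩ := mem_Split.1 h2 q' hq'
      exact ⟨r, hr, h.full r ((hr.trans hq').trans hq) v i j hij h3 h4 k⟩

theorem down_IsFM {T : Nd K K → Set P} {p q : P} (h : IsFM T p) (hq : q ≤ p) : IsFM T q where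
  init := fun r hr => h.init r (hr.trans hq)
  chain := fun r hr => h.chain r (hr.trans hq)
  split := fun r hr => h.split r (hr.trans hq)
  full := fun r hr => h.full r (hr.trans hq)

theorem sent_FM (T : Nd K K → Set P) : Sent (FM T) := by
  refine sent_fand ?_ (sent_fand ?_ (sent_fand ?_ ?_))
  · exact sent_fall fun _ => sent_fall fun _ => sent_fall fun _ => sent_fimp (down_meets _)
  · exact sent_fall fun _ => sent_fall fun _ => sent_fall fun _ =>
      sent_fimp (down_fall fun _ => down_fall fun _ => down_meets _)
  · exact sent_fall fun _ => sent_fimp (down_meets _)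
  · exact sent_fall fun _ => sent_fimp (sent_fex).down

end

end Pool.Agent.H641
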