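import Pool.Agent.H641.Coh

/-!
# The ground model branches stay unbounded after adding Cohen subsets
-/

set_option linter.unusedSectionVars false

namespace Pool.Agent.H641

open Cardinal Set

universe u v w

section

variable {K : Type u} [LinearOrder K] [Kap K]

theorem sigmaClosed_cond {J W : Type u} : SigmaClosed (Cond K J W) := by
  intro f hf
  have hanti : Antitone f := antitone_nat_of_succ_le hf
  have hch : IsChain (· ≤ ·) (range f) := by
    rintro _ ⟨a, rfl⟩ _ ⟨b, rfl⟩ _
    rcases le_total a b with h | h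
    · exact Or.inr (hanti h)
    · exact Or.inl (hanti h)
  obtain ⟨l, hl⟩ := gclo_cond (K := K) (range f) (sm_range_nat f) hch (range_nonempty f)
  exact ⟨l, fun n => hl.1 ⟨n, rfl⟩⟩

theorem fUnb (hK : Big K K) {J : Type u} {T : Set (Nd K K)} (hT : Dominating T)
    (p : Cond K J K) : p ∈ FUnb (Cond K J K) T := by
  classical
  intro g
  refine ((sent_fex).mem_fimp (sent_IsFun g).down).2 ?_
  intro q _ hf
  rw [mem_fex]
  intro p0 hp0
  have hf0 := (sent_IsFun g).down _ hf _ hp0
  obtain ⟨A, hAA, hA, hcl⟩ := exists_closed hK {i | p0.f i ≠ none} p0.sm.le (ι := K) le_rfl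
    (fun (i : K) (d : Cond K J K) => if h : ∃ d' ≤ d, ∃ j, d' ∈ meets (g i j) then h.choose else d)
  have hp0A : p0.In A := fun i hi => hAA hi
  have hne : Nonempty {q : Cond K J K // q.In A} := ⟨⟨p0, hp0A⟩⟩
  obtain ⟨e⟩ := (Cardinal.le_def _ _).1 (hK.conds hA)
  let en : K → {q : Cond K J K // q.In A} := Function.invFun e
  have hen : ∀ q, en (e q) = q := Function.leftInverse_invFun e.injective
  have hv : ∀ (i α : K), ∃ j, (en i).1 ≤ p0 → ∃ d' ≤ (en i).1, d'.In A ∧ d' ∈ meets (g α j) := by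
    intro i α
    by_cases hi : (en i).1 ≤ p0
    · have h1 : ∃ d' ≤ (en i).1, ∃ j, d' ∈ meets (g α j) :=
        IsFun.total ((sent_IsFun g).down _ hf0 _ hi) α
      have h2 := hcl α (en i).1 (en i).2
      rw [dif_pos h1] at h2
      obtain ⟨h3, j, hj⟩ := h1.choose_spec
      exact ⟨j, fun _ => ⟨_, h3, h2, hj⟩⟩
    · exact ⟨bot K, fun h => absurd h hi⟩
  choose v hv using hv
  have hb : ∀ α, ∃ b, ∀ i ≤ α, v i α < b := by
    intro α
    obtain ⟨b, hb⟩ := ((sm_Iic α).image fun i => v i α).bdd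
    exact ⟨b, fun i hi => hb _ ⟨i, hi, rfl⟩⟩
  choose f hf using hb
  obtain ⟨x, hx, hfx⟩ := hT f
  refine ⟨p0, le_rfl, x, hx, fun a => ?_⟩
  rw [mem_fex]
  intro q hq
  let i := e ⟨q.res A, Cond.res_in A q⟩
  have hi : (en i).1 = q.res A := congrArg Subtype.val (hen _)
  obtain ⟨d', hd', hdA, hdg⟩ := hv i (max a i) (by
    rw [hi]
    exact hp0A.le_res hq)
  rw [hi] at hd'
  have hc : q.ov d' ≤ d' := by
    apply Cond.ov_le_right
    intro c w w' hw hw'
    have h2 := hd' c w (Cond.res_some.2 ⟨hdA c (by simp [hw']), hw⟩)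
    rw [hw'] at h2
    exact (Option.some.inj h2).symm
  refine ⟨q.ov d', Cond.ov_le _ _, max a i, le_max_left a i, fun j => ?_⟩
  refine ((sent_fground _).mem_fimp (down_meets _)).2 fun r hr hr' => ?_
  show j < x (max a i)
  have h5 := IsFun.unique ((sent_IsFun g).down _ hf0 _ ((hr.trans (Cond.ov_le _ _)).trans hq))
    (down_meets _ _ hdg _ (hr.trans hc)) hr'
  rw [← h5]
  exact (hf (max a i) i (le_max_right a i)).trans_le (hfx _)

theorem dominating_univ : Dominating (univ : Set (Nd K K)) := fun g =>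
  ⟨g, fun _ => mem_univ _, fun _ => le_rfl⟩

end

end Pool.Agent.H641
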