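import Pool.Agent.H641.Cond

/-!
# Descending sequences in closed sets of conditions
-/

set_option linter.unusedSectionVars false

namespace Pool.Agent.H641

open Cardinal Set

universe u v

section

variable {K : Type u} [LinearOrder K] [Kap K] {X : Type u} [Preorder X]

/-- Every small chain below `x` has a lower bound below `x`. -/
def Clo (K : Type u) (X : Type u) [Preorder X] : Prop :=
  ∀ (x : X) (C : Set X), Sm K C → IsChain (· ≤ ·) C → (∀ c ∈ C, c ≤ x) → ∃ l ≤ x, ∀ c ∈ C, l ≤ c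

open Classical in
theorem Clo.seq (hX : Clo K X) (x : X) (R : K → X → X → Prop)
    (hR : ∀ c l, l ≤ x → ∃ y ≤ l, R c l y) :
    ∃ f : K → X, ∀ c, ∃ l ≤ x, (∀ c' < c, l ≤ f c') ∧ f c ≤ l ∧ R c l (f c) := by
  let F : (c : K) → ((c' : K) → c' < c → X) → X := fun c g =>
    if h : ∃ l ≤ x, ∀ c' (h : c' < c), l ≤ g c' h then (hR c h.choose h.choose_spec.1).choose
    else x
  let f : K → X := WellFounded.fix (wellFounded_lt (α := K)) F
  have hf : ∀ c, f c = F c fun c' _ => f c' := fun c => WellFounded.fix_eq _ F c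
  refine ⟨f, ?_⟩
  intro c
  induction c using WellFoundedLT.induction with
  | ind c ih =>
    have hle : ∀ c' < c, f c' ≤ x := fun c' h => by
      obtain ⟨l, hl, _, h3, _⟩ := ih c' h
      exact h3.trans hl
    have hanti : ∀ c' < c, ∀ c'' < c', f c' ≤ f c'' := fun c' h c'' h' => by
      obtain ⟨l, hl, h2, h3, _⟩ := ih c' h
      exact h3.trans (h2 c'' h')
    have hch : IsChain (· ≤ ·) (f '' Iio c) := by
      rintro _ ⟨a, ha, rfl⟩ _ ⟨b, hb, rfl⟩ hne
      rcases lt_trichotomy a b with h | h | h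
      · exact Or.inr (hanti b hb a h)
      · exact absurd (by rw [h]) hne
      · exact Or.inl (hanti a ha b h)
    obtain ⟨l, hl, h2⟩ := hX x (f '' Iio c) ((sm_Iio c).image f) hch (by
      rintro _ ⟨a, ha, rfl⟩
      exact hle a ha)
    have hex : ∃ l ≤ x, ∀ c' (_ : c' < c), l ≤ f c' := ⟨l, hl, fun c' h => h2 _ ⟨c', h, rfl⟩⟩
    have h3 : f c = (hR c hex.choose hex.choose_spec.1).choose := by
      rw [hf c]
      exact dif_pos hex
    refine ⟨hex.choose, hex.choose_spec.1, hex.choose_spec.2, ?_⟩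
    rw [h3]
    exact (hR c hex.choose hex.choose_spec.1).choose_spec

/-- descending sequences of length `ω` -/
theorem omega_seq (x : X) (R : X → X → Prop)
    (hR : ∀ l, ∃ y ≤ l, R l y) :
    ∃ f : ℕ → X, f 0 = x ∧ (∀ n, f (n + 1) ≤ f n) ∧ (∀ n, R (f n) (f (n + 1))) ∧
      IsChain (· ≤ ·) (range f) := by
  choose g hg hg2 using hR
  let f : ℕ → X := fun n => Nat.rec x (fun _ y => g y) n
  have h1 : ∀ n, f (n + 1) = g (f n) := fun n => rfl
  have h2 : ∀ n, f (n + 1) ≤ f n := fun n => by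
    rw [h1]
    exact hg _
  have hanti : Antitone f := antitone_nat_of_succ_le h2
  refine ⟨f, rfl, h2, fun n => ?_, ?_⟩
  · rw [h1]
    exact hg2 _
  · rintro _ ⟨a, rfl⟩ _ ⟨b, rfl⟩ _
    rcases le_total a b with h | h
    · exact Or.inr (hanti h)
    · exact Or.inl (hanti h)

/-- If every condition shorter than `B` can be made longer, the length `B` is reached. -/
theorem Clo.reach_to (hX : Clo K X) (len : X → K) (hm : ∀ x y, y ≤ x → len x ≤ len y) (B : K)
    (hs : ∀ x, len x < B → ∃ y ≤ x, len x < len y) (b : K) (hb : b ≤ B) (x : X) :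
    ∃ y ≤ x, b ≤ len y := by
  induction b using WellFoundedLT.induction generalizing x with
  | ind b ih =>
    obtain ⟨f, hf⟩ := hX.seq x (fun c _ y => c < b → c ≤ len y) (fun c l _ => by
      by_cases h : c < b
      · obtain ⟨y, hy, h2⟩ := ih c h (h.le.trans hb) l
        exact ⟨y, hy, fun _ => h2⟩
      · exact ⟨l, le_rfl, fun h' => absurd h' h⟩)
    obtain ⟨l, hl, h1, h2, _⟩ := hf b
    by_cases hlB : b ≤ len l
    · exact ⟨l, hl, hlB⟩
    obtain ⟨y, hy, h3⟩ := hs l ((not_le.1 hlB).trans_le hb)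
    refine ⟨y, hy.trans hl, ?_⟩
    by_contra hc
    rw [not_le] at hc
    obtain ⟨_, _, _, _, h5⟩ := hf (len y)
    have h6 := h5 hc
    have h7 := hm _ _ (h1 (len y) hc)
    exact absurd (h3.trans_le (h6.trans h7)) (lt_irrefl _)

/-- If every condition can be made longer, every length is reached. -/
theorem Clo.reach (hX : Clo K X) (len : X → K) (hm : ∀ x y, y ≤ x → len x ≤ len y)
    (hs : ∀ x, ∃ y ≤ x, len x < len y) (b : K) (x : X) : ∃ y ≤ x, b ≤ len y :=
  hX.reach_to len hm b (fun x _ => hs x) b le_rfl x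

end

section

variable {K : Type u} [LinearOrder K] [Kap K] {X : Type u} [PartialOrder X]

/-- Every nonempty small chain has a greatest lower bound. -/
def GClo (K : Type u) (X : Type u) [PartialOrder X] : Prop :=
  ∀ C : Set X, Sm K C → IsChain (· ≤ ·) C → C.Nonempty → ∃ l, IsGLB C l

theorem chain_insert {X : Type u} [Preorder X] {x : X} {C : Set X}
    (hC : IsChain (· ≤ ·) C) (hx : ∀ c ∈ C, c ≤ x) : IsChain (· ≤ ·) (insert x C) := by
  apply hC.insert
  intro b hb _
  exact Or.inr (hx b hb)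

theorem GClo.clo (hX : GClo K X) : Clo K X := by
  intro x C h1 h2 h3
  obtain ⟨l, hl⟩ := hX (insert x C) (h1.insert x) (chain_insert h2 h3) ⟨x, mem_insert _ _⟩
  exact ⟨l, hl.1 (mem_insert _ _), fun c hc => hl.1 (mem_insert_of_mem _ hc)⟩

theorem gclo_cond {I W : Type u} : GClo K (Cond K I W) :=
  fun C h1 h2 _ => ⟨Cond.sup C h1, Cond.isGLB_sup h2⟩

theorem gclo_nd {W : Type u} : GClo K (Nd K W) :=
  fun C h1 h2 _ => ⟨Nd.sup C h1, Nd.isGLB_sup h2⟩

end

end Pool.Agent.H641
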